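import Pool.Agent.H253.US.Defs


/-!
# Ulam stability of nuclear C*-algebras (MP_a35bd4_an): definitions and basic facts
-/

set_option autoImplicit false

open scoped CStarAlgebra ComplexOrder

namespace Pool.Agent.H253.US

universe u v w




/-- nonnegative elements are of the form `r^* r` -/
theorem exists_star_mul {B : Type u} [NonUnitalCStarAlgebra B] [PartialOrder B]
    [StarOrderedRing B] {b : B} (hb : 0 ≤ b) : ∃ r, b = star r * r :=
  CStarAlgebra.nonneg_iff_eq_star_mul_self.mp hb

/-- T2a (i). -/
theorem cp_ineq {A : Type u} {C : Type v} [NonUnitalCStarAlgebra A] [PartialOrder A]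
    [StarOrderedRing A] [NonUnitalCStarAlgebra C] [PartialOrder C] [StarOrderedRing C]
    (ψ : A →CP C) (n : ℕ) (a : Fin n → A) (c : Fin n → C) :
    0 ≤ ∑ i, ∑ j, star (c i) * ψ (star (a i) * a j) * c j := by
  rcases Nat.eq_zero_or_pos n with hn | hn
  · subst hn
    simp
  let N : CStarMatrix (Fin n) (Fin n) A :=
    CStarMatrix.ofMatrix (fun i j => if i = ⟨0, hn⟩ then a j else 0)
  have hN : ∀ i j, N i j = if i = ⟨0, hn⟩ then a j else 0 := fun i j => rfl
  have hMN : ∀ i j, (star N * N) i j = star (a i) * a j := by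
    intro i j
    rw [CStarMatrix.mul_apply, Finset.sum_eq_single (⟨0, hn⟩ : Fin n)]
    · rw [CStarMatrix.star_apply, hN, hN, if_pos rfl, if_pos rfl]
    · intro k _ hk
      rw [hN k j, if_neg hk, mul_zero]
    · intro h
      exact absurd (Finset.mem_univ _) h
  have h0 : 0 ≤ (star N * N).map ψ :=
    CompletelyPositiveMap.map_cstarMatrix_nonneg ψ _ (star_mul_self_nonneg N)
  obtain ⟨R, hR⟩ := exists_star_mul h0
  have hψ : ∀ i j, ψ (star (a i) * a j) = ∑ k, star (R k i) * R k j := by
    intro i j
    have h1 : ((star N * N).map ψ) i j = (star R * R) i j := by rw [hR]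
    rw [CStarMatrix.map_apply, hMN, CStarMatrix.mul_apply] at h1
    rw [h1]
    rfl
  have h2 : ∑ i, ∑ j, star (c i) * ψ (star (a i) * a j) * c j =
      ∑ k, star (∑ i, R k i * c i) * (∑ j, R k j * c j) := by
    calc ∑ i, ∑ j, star (c i) * ψ (star (a i) * a j) * c j
        = ∑ i, ∑ j, ∑ k, star (R k i * c i) * (R k j * c j) := by
          refine Finset.sum_congr rfl fun i _ => Finset.sum_congr rfl fun j _ => ?_
          rw [hψ, Finset.mul_sum, Finset.sum_mul]
          refine Finset.sum_congr rfl fun k _ => ?_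
          rw [star_mul]
          simp only [mul_assoc]
      _ = ∑ i, ∑ k, ∑ j, star (R k i * c i) * (R k j * c j) := by
          refine Finset.sum_congr rfl fun i _ => Finset.sum_comm
      _ = ∑ k, ∑ i, ∑ j, star (R k i * c i) * (R k j * c j) := Finset.sum_comm
      _ = _ := by
          refine Finset.sum_congr rfl fun k _ => ?_
          rw [star_sum, Finset.sum_mul]
          refine Finset.sum_congr rfl fun i _ => ?_
          rw [Finset.mul_sum]
  rw [h2]
  exact Finset.sum_nonneg fun k _ => star_mul_self_nonneg _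

/-- T2a (ii). -/
theorem cp_schwarz {A : Type u} {C : Type v} [NonUnitalCStarAlgebra A] [PartialOrder A]
    [StarOrderedRing A] [CStarAlgebra C] [PartialOrder C] [StarOrderedRing C]
    (ψ : A →CP C) (hψ : ∀ a, ‖ψ a‖ ≤ ‖a‖) (n : ℕ) (a : Fin n → A) (c : Fin n → C) :
    star (∑ i, ψ (a i) * c i) * (∑ i, ψ (a i) * c i) ≤
      ∑ i, ∑ j, star (c i) * ψ (star (a i) * a j) * c j := by
  set Y := ∑ i, ψ (a i) * c i with hY
  clear_value Y
  set S := ∑ i, ∑ j, star (c i) * ψ (star (a i) * a j) * c j with hS
  have hψc : Continuous ψ := map_continuous ψ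
  have hau := CStarAlgebra.increasingApproximateUnit A
  have hstar : ∀ x, ψ (star x) = star (ψ x) := fun x => map_star ψ x
  -- the inequality for every `e`
  have key : ∀ e : A, ‖e‖ ≤ 1 → 0 ≤ star Y * Y - star Y * (∑ j, ψ (star e * a j) * c j)
      - (∑ i, star (c i) * ψ (star (a i) * e)) * Y + S := by
    intro e he
    have h1 := cp_ineq ψ (n + 1) (Fin.cons e a : Fin (n + 1) → A) (Fin.cons (-Y) c : Fin (n + 1) → C)
    rw [Fin.sum_univ_succ] at h1
    simp only [Fin.sum_univ_succ, Fin.cons_zero, Fin.cons_succ] at h1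
    rw [Finset.sum_add_distrib] at h1
    have h2 : star (-Y) * ψ (star e * e) * -Y ≤ star Y * Y := by
      have h3 : IsSelfAdjoint (ψ (star e * e)) := by
        rw [isSelfAdjoint_iff, ← hstar, star_mul, star_star]
      have h4 := CStarAlgebra.star_left_conjugate_le_norm_smul (a := Y) (b := ψ (star e * e)) h3
      have h5 : ‖ψ (star e * e)‖ ≤ 1 := by
        refine (hψ _).trans ((norm_mul_le _ _).trans ?_)
        rw [norm_star]
        nlinarith [norm_nonneg e]
      calc star (-Y) * ψ (star e * e) * -Y = star Y * ψ (star e * e) * Y := by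
            rw [star_neg, neg_mul, neg_mul, mul_neg, neg_neg]
        _ ≤ ‖ψ (star e * e)‖ • (star Y * Y) := h4
        _ ≤ (1 : ℝ) • (star Y * Y) := smul_le_smul_of_nonneg_right h5 (star_mul_self_nonneg Y)
        _ = _ := one_smul _ _
    have h6 : star (-Y) * ψ (star e * e) * -Y + ∑ j, star (-Y) * ψ (star e * a j) * c j +
        (∑ i, star (c i) * ψ (star (a i) * e) * -Y + S) =
        star (-Y) * ψ (star e * e) * -Y - star Y * (∑ j, ψ (star e * a j) * c j)
      - (∑ i, star (c i) * ψ (star (a i) * e)) * Y + S := by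
      have h7 : ∑ j, star (-Y) * ψ (star e * a j) * c j = - (star Y * (∑ j, ψ (star e * a j) * c j)) := by
        rw [Finset.mul_sum, ← Finset.sum_neg_distrib]
        refine Finset.sum_congr rfl fun j _ => ?_
        rw [star_neg, neg_mul, neg_mul, mul_assoc]
      have h8 : ∑ i, star (c i) * ψ (star (a i) * e) * -Y =
          - ((∑ i, star (c i) * ψ (star (a i) * e)) * Y) := by
        rw [Finset.sum_mul, ← Finset.sum_neg_distrib]
        refine Finset.sum_congr rfl fun j _ => ?_
        rw [mul_neg]
      rw [h7, h8]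
      abel
    rw [h6] at h1
    refine h1.trans ?_
    gcongr
  -- limits
  have hlim1 : Filter.Tendsto (fun e => star Y * Y - star Y * (∑ j, ψ (star e * a j) * c j)
      - (∑ i, star (c i) * ψ (star (a i) * e)) * Y + S) (CStarAlgebra.approximateUnit A)
      (nhds (star Y * Y - star Y * (∑ j, ψ (a j) * c j)
      - (∑ i, star (c i) * ψ (star (a i))) * Y + S)) := by
    have e1 : ∀ j, Filter.Tendsto (fun e => ψ (star e * a j) * c j)
        (CStarAlgebra.approximateUnit A) (nhds (ψ (a j) * c j)) := by
      intro j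
      have h3 : Filter.Tendsto (fun e => star e * a j) (CStarAlgebra.approximateUnit A)
          (nhds (a j)) := by
        refine (hau.tendsto_mul_right (a j)).congr' ?_
        filter_upwards [hau.eventually_star_eq] with e he
        rw [he]
      exact ((hψc.tendsto _).comp h3).mul_const (c j)
    have e2 : ∀ i, Filter.Tendsto (fun e => star (c i) * ψ (star (a i) * e))
        (CStarAlgebra.approximateUnit A) (nhds (star (c i) * ψ (star (a i)))) := by
      intro i
      exact ((hψc.tendsto _).comp (hau.tendsto_mul_left (star (a i)))).const_mul (star (c i))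
    refine ((tendsto_const_nhds.sub ?_).sub ?_).add tendsto_const_nhds
    · exact (tendsto_finsetSum _ fun j _ => e1 j).const_mul _
    · exact (tendsto_finsetSum _ fun j _ => e2 j).mul_const _
  have h9 : 0 ≤ star Y * Y - star Y * (∑ j, ψ (a j) * c j)
      - (∑ i, star (c i) * ψ (star (a i))) * Y + S := by
    have := hau.neBot
    refine CStarAlgebra.isClosed_nonneg.mem_of_tendsto hlim1 ?_
    filter_upwards [hau.eventually_norm] with e he
    exact key e he
  have h10 : (∑ i, star (c i) * ψ (star (a i))) = star Y := by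
    rw [hY, star_sum]
    refine Finset.sum_congr rfl fun j _ => ?_
    rw [star_mul, hstar]
  rw [← hY, h10, sub_self, zero_sub] at h9
  rw [neg_add_eq_sub, sub_nonneg] at h9
  exact h9

/-- T2a (iii). -/
theorem cp_schwarz' {A : Type u} {C : Type v} [CStarAlgebra A] [PartialOrder A]
    [StarOrderedRing A] [NonUnitalCStarAlgebra C] [PartialOrder C] [StarOrderedRing C]
    (ψ : A →CP C) (hψ : ∀ a, ‖ψ a‖ ≤ ‖a‖) (a : A) :
    star (ψ a) * ψ a ≤ ψ (star a * a) := by
  have hstar : ∀ x, ψ (star x) = star (ψ x) := fun x => map_star ψ x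
  set T := ψ (star a * a) - star (ψ a) * ψ a with hT
  have key : ∀ c : C, 0 ≤ star c * T * c := by
    intro c
    have h1 := cp_ineq ψ 2 ![1, a] ![-(ψ a * c), c]
    simp only [Fin.sum_univ_two, Matrix.cons_val_zero, Matrix.cons_val_one, star_one, one_mul,
      mul_one] at h1
    have h2 : star (-(ψ a * c)) * ψ 1 * -(ψ a * c) ≤ star (ψ a * c) * (ψ a * c) := by
      have h3 : IsSelfAdjoint (ψ 1) := by
        rw [isSelfAdjoint_iff, ← hstar, star_one]
      have h4 := CStarAlgebra.star_left_conjugate_le_norm_smul (a := ψ a * c) (b := ψ 1) h3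
      have h5 : ‖ψ (1 : A)‖ ≤ 1 := by
        refine (hψ _).trans ?_
        nontriviality A
        rw [norm_one]
      calc star (-(ψ a * c)) * ψ 1 * -(ψ a * c) = star (ψ a * c) * ψ 1 * (ψ a * c) := by
            rw [star_neg, neg_mul, neg_mul, mul_neg, neg_neg]
        _ ≤ ‖ψ (1 : A)‖ • (star (ψ a * c) * (ψ a * c)) := h4
        _ ≤ (1 : ℝ) • (star (ψ a * c) * (ψ a * c)) :=
            smul_le_smul_of_nonneg_right h5 (star_mul_self_nonneg _)
        _ = _ := one_smul _ _
    have h6 : star c * T * c = star (ψ a * c) * (ψ a * c) + star (-(ψ a * c)) * ψ a * c +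
        (star c * ψ (star a) * -(ψ a * c) + star c * ψ (star a * a) * c) := by
      rw [hT, hstar, star_neg, star_mul]
      noncomm_ring
    rw [h6]
    refine h1.trans ?_
    gcongr
  have hau := CStarAlgebra.increasingApproximateUnit C
  have hlim : Filter.Tendsto (fun c => star c * T * c) (CStarAlgebra.approximateUnit C)
      (nhds T) := by
    rw [tendsto_iff_norm_sub_tendsto_zero]
    have e1 : Filter.Tendsto (fun c => ‖c * T - T‖ + ‖T * c - T‖)
        (CStarAlgebra.approximateUnit C) (nhds (0 + 0)) :=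
      (tendsto_iff_norm_sub_tendsto_zero.1 (hau.tendsto_mul_right T)).add
        (tendsto_iff_norm_sub_tendsto_zero.1 (hau.tendsto_mul_left T))
    rw [add_zero] at e1
    refine squeeze_zero' (Filter.Eventually.of_forall fun c => norm_nonneg _) ?_ e1
    filter_upwards [hau.eventually_norm, hau.eventually_star_eq] with c hc hc2
    rw [hc2]
    calc ‖c * T * c - T‖ = ‖(c * T - T) * c + (T * c - T)‖ := by
          congr 1
          noncomm_ring
      _ ≤ ‖(c * T - T) * c‖ + ‖T * c - T‖ := norm_add_le _ _
      _ ≤ ‖c * T - T‖ * 1 + ‖T * c - T‖ := by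
          gcongr
          refine (norm_mul_le _ _).trans ?_
          gcongr
      _ = _ := by rw [mul_one]
  have := hau.neBot
  have h9 : 0 ≤ T :=
    CStarAlgebra.isClosed_nonneg.mem_of_tendsto hlim (Filter.Eventually.of_forall key)
  rw [hT, sub_nonneg] at h9
  exact h9

end Pool.Agent.H253.US
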