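import Pool.Agent.H253.US.Defs
import Pool.Agent.H253.US.Cp

/-!
# Ulam stability of nuclear C*-algebras (MP_a35bd4_an): definitions and basic facts
-/

set_option autoImplicit false

open scoped CStarAlgebra ComplexOrder

namespace Pool.Agent.H253.US

universe u v w



namespace T2b

section general

variable {A : Type u} [NonUnitalCStarAlgebra A] [PartialOrder A] [StarOrderedRing A]

theorem kill {a d : A} (ha : 0 ≤ a) (hd : star d = d) (h : d * a * d = 0) : a * d = 0 := by
  obtain ⟨x, hx⟩ := CStarAlgebra.nonneg_iff_eq_star_mul_self.mp ha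
  have h1 : star (x * d) * (x * d) = 0 := by
    rw [star_mul, hd, ← h, hx]
    noncomm_ring
  have h2 : x * d = 0 := (CStarRing.star_mul_self_eq_zero_iff _).mp h1
  rw [hx, mul_assoc, h2, mul_zero]

theorem kill_le {a b d : A} (ha : 0 ≤ a) (hab : a ≤ b) (hd : star d = d) (h : b * d = 0) :
    a * d = 0 := by
  apply kill ha hd
  apply le_antisymm
  · have h1 := star_left_conjugate_le_conjugate hab d
    rw [hd, mul_assoc d b d, h, mul_zero] at h1
    exact h1
  · have h1 := star_left_conjugate_nonneg ha d
    rw [hd] at h1
    exact h1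

theorem mul_eq_zero_of_le {a b c d : A} (ha : 0 ≤ a) (hab : a ≤ b) (hc : 0 ≤ c) (hcd : c ≤ d)
    (h : b * d = 0) : a * c = 0 := by
  have ha' : star a = a := IsSelfAdjoint.of_nonneg ha
  have hc' : star c = c := IsSelfAdjoint.of_nonneg hc
  have hd' : star d = d := IsSelfAdjoint.of_nonneg (hc.trans hcd)
  have h1 : a * d = 0 := kill_le ha hab hd' h
  have h2 : d * a = 0 := by
    have := congrArg star h1
    rwa [star_mul, ha', hd', star_zero] at this
  have h3 : c * a = 0 := kill_le hc hcd ha' h2
  have := congrArg star h3
  rwa [star_mul, ha', hc', star_zero] at this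

omit [PartialOrder A] [StarOrderedRing A] in
theorem mul_eq_zero_of_star {X Y : A} (h : star X * X * (Y * star Y) = 0) : X * Y = 0 := by
  have h1 : X * (Y * star Y) = 0 := by
    apply (CStarRing.star_mul_self_eq_zero_iff _).mp
    have : star (X * (Y * star Y)) * (X * (Y * star Y)) =
        (Y * star Y) * (star X * X * (Y * star Y)) := by
      rw [star_mul, star_mul, star_star]
      noncomm_ring
    rw [this, h, mul_zero]
  apply (CStarRing.mul_star_self_eq_zero_iff _).mp
  have : X * Y * star (X * Y) = X * (Y * star Y) * star X := by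
    rw [star_mul]
    noncomm_ring
  rw [this, h1, zero_mul]

end general

section fd

variable {n : ℕ} {k : Fin n → ℕ} {A : Type u} [NonUnitalCStarAlgebra A]
    [PartialOrder A] [StarOrderedRing A]

theorem map_star' (θ : FD k →CP A) (y : FD k) : θ (star y) = star (θ y) := by
  have hy : y ∈ Submodule.span ℂ {a : FD k | 0 ≤ a} := by
    rw [CStarAlgebra.span_nonneg]
    trivial
  induction hy using Submodule.span_induction with
  | mem x hx =>
    have h1 : star x = x := IsSelfAdjoint.of_nonneg hx
    have h2 : 0 ≤ θ x := map_nonneg θ hx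
    have h3 : star (θ x) = θ x := IsSelfAdjoint.of_nonneg h2
    rw [h1, h3]
  | zero => simp
  | add x y _ _ hx hy => rw [star_add, map_add, map_add, star_add, hx, hy]
  | smul c x _ hx => rw [star_smul, map_smul, map_smul, star_smul, hx]

theorem mul_eq_zero (θ : FD k →CP A) (hθ : IsOrderZero θ) {x y : FD k} (h : x * y = 0) :
    θ x * θ y = 0 := by
  apply mul_eq_zero_of_star
  have h1 := cp_schwarz' θ hθ.contr x
  have h2 := cp_schwarz' θ hθ.contr (star y)
  rw [map_star', star_star, star_star] at h2
  refine mul_eq_zero_of_le (star_mul_self_nonneg _) h1 (mul_star_self_nonneg _) h2 ?_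
  apply hθ.orth _ _ (star_mul_self_nonneg _) (mul_star_self_nonneg _)
  have : star x * x * (y * star y) = star x * (x * y) * star y := by noncomm_ring
  rw [this, h, mul_zero, zero_mul]

theorem idem_shift (θ : FD k →CP A) (hθ : IsOrderZero θ) (x y : FD k) {e : FD k}
    (he : e * e = e) : θ (x * e) * θ y = θ x * θ (e * y) := by
  have h1 : θ (x * e) * θ (y - e * y) = 0 := by
    apply mul_eq_zero θ hθ
    have : x * e * (y - e * y) = x * (e - e * e) * y := by noncomm_ring
    rw [this, he, sub_self, mul_zero, zero_mul]
  have h2 : θ (x - x * e) * θ (e * y) = 0 := by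
    apply mul_eq_zero θ hθ
    have : (x - x * e) * (e * y) = x * (e - e * e) * y := by noncomm_ring
    rw [this, he, sub_self, mul_zero, zero_mul]
  rw [map_sub, mul_sub, sub_eq_zero] at h1
  rw [map_sub, sub_mul, sub_eq_zero] at h2
  rw [h1, h2]

theorem mem_span_single (b : Fin n) (m : Matrix (Fin (k b)) (Fin (k b)) ℂ) :
    (Pi.single b (CStarMatrix.ofMatrix m) : FD k) ∈
      Submodule.span ℂ {e : FD k | e * e = e} := by
  induction m using Matrix.induction_on' with
  | h_zero =>
    have : (Pi.single b (CStarMatrix.ofMatrix (0 : Matrix (Fin (k b)) (Fin (k b)) ℂ)) : FD k) = 0 :=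
      Pi.single_zero b
    rw [this]
    exact Submodule.zero_mem _
  | h_add p q hp hq =>
    have : (Pi.single b (CStarMatrix.ofMatrix (p + q)) : FD k) =
        Pi.single b (CStarMatrix.ofMatrix p) + Pi.single b (CStarMatrix.ofMatrix q) := by
      rw [← Pi.single_add]
      rfl
    rw [this]
    exact Submodule.add_mem _ hp hq
  | h_std_basis i j c =>
    have key : ∀ m : Matrix (Fin (k b)) (Fin (k b)) ℂ, m * m = m →
        (Pi.single b (CStarMatrix.ofMatrix m) : FD k) ∈
          Submodule.span ℂ {e : FD k | e * e = e} := by
      intro m hm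
      apply Submodule.subset_span
      change (Pi.single b (CStarMatrix.ofMatrix m) : FD k) *
        Pi.single b (CStarMatrix.ofMatrix m) = Pi.single b (CStarMatrix.ofMatrix m)
      rw [← Pi.single_mul]
      congr 1
    have smul : ∀ (c : ℂ) (m : Matrix (Fin (k b)) (Fin (k b)) ℂ),
        (Pi.single b (CStarMatrix.ofMatrix (c • m)) : FD k) =
          c • (Pi.single b (CStarMatrix.ofMatrix m) : FD k) := by
      intro c m
      rw [← Pi.single_smul]
      rfl
    by_cases hij : i = j
    · subst hij
      have : (Matrix.single i i c : Matrix (Fin (k b)) (Fin (k b)) ℂ) =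
          c • Matrix.single i i 1 := by
        rw [Matrix.smul_single, smul_eq_mul, mul_one]
      rw [this, smul]
      apply Submodule.smul_mem
      apply key
      rw [Matrix.single_mul_single_same, mul_one]
    · have : (Matrix.single i j c : Matrix (Fin (k b)) (Fin (k b)) ℂ) =
          (Matrix.single i i 1 + Matrix.single i j c) - Matrix.single i i 1 := by
        abel
      have sub : (Pi.single b (CStarMatrix.ofMatrix ((Matrix.single i i 1 +
          Matrix.single i j c) - Matrix.single i i 1)) : FD k) =
          Pi.single b (CStarMatrix.ofMatrix (Matrix.single i i 1 + Matrix.single i j c)) -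
            Pi.single b (CStarMatrix.ofMatrix (Matrix.single i i 1)) := by
        rw [← Pi.single_sub]
        rfl
      rw [this, sub]
      apply Submodule.sub_mem
      · apply key
        rw [mul_add, add_mul, add_mul, Matrix.single_mul_single_same,
          Matrix.single_mul_single_same, Matrix.single_mul_single_of_ne _ _ _ _ (Ne.symm hij),
          Matrix.single_mul_single_of_ne _ _ _ _ (Ne.symm hij), mul_one, one_mul]
        abel
      · apply key
        rw [Matrix.single_mul_single_same, mul_one]

theorem mem_span (z : FD k) : z ∈ Submodule.span ℂ {e : FD k | e * e = e} := by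
  have : z = ∑ b, (Pi.single b (z b) : FD k) := (Finset.univ_sum_single z).symm
  rw [this]
  exact Submodule.sum_mem _ fun b _ => mem_span_single b (CStarMatrix.ofMatrix.symm (z b))

theorem shift (θ : FD k →CP A) (hθ : IsOrderZero θ) (x y z : FD k) :
    θ (x * z) * θ y = θ x * θ (z * y) := by
  induction mem_span z using Submodule.span_induction with
  | mem e he => exact idem_shift θ hθ x y he
  | zero => simp
  | add z w _ _ hz hw => rw [mul_add, map_add, add_mul, add_mul, map_add, mul_add, hz, hw]
  | smul c z _ hz =>
    rw [mul_smul_comm, map_smul, smul_mul_assoc, smul_mul_assoc, map_smul, mul_smul_comm, hz]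

end fd

end T2b

/-- T2b. -/
theorem orderZero_mul {n : ℕ} {k : Fin n → ℕ} {A : Type u} [NonUnitalCStarAlgebra A]
    [PartialOrder A] [StarOrderedRing A] (θ : FD k →CP A) (hθ : IsOrderZero θ) (x y : FD k) :
    θ x * θ y = θ 1 * θ (x * y) := by
  have := T2b.shift θ hθ 1 y x
  rw [one_mul] at this
  exact this

end Pool.Agent.H253.US
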