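import Pool.Agent.H253.US.Defs
import Pool.Agent.H253.US.Cp
import Pool.Agent.H253.US.OrderZero

/-!
# Ulam stability of nuclear C*-algebras (MP_a35bd4_an): definitions and basic facts
-/

set_option autoImplicit false

open scoped CStarAlgebra ComplexOrder

namespace Pool.Agent.H253.US

universe u v w



/-- unital functional calculus lemma -/
theorem exists_k {B : Type u} [CStarAlgebra B] (H : B) (hsa : IsSelfAdjoint H)
    (hs : ∀ t ∈ spectrum ℝ H, 0 ≤ t) (δ : ℝ) (hδ : 0 < δ) :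
    ∃ k : B, IsSelfAdjoint k ∧ (∀ b, Commute H b → Commute k b) ∧ ‖k * k * H‖ ≤ 1 ∧
      ‖(1 - k * k * H) * (1 - k * k * H) * H‖ ≤ δ := by
  have hc : ContinuousOn (fun t : ℝ => (√(t + δ))⁻¹) (spectrum ℝ H) := by
    refine ContinuousOn.inv₀ (by fun_prop) ?_
    intro t ht
    have := hs t ht
    have : 0 < √(t + δ) := Real.sqrt_pos.mpr (by linarith)
    exact this.ne'
  have hid : cfc (fun t : ℝ => t) H = H := cfc_id' ℝ H hsa
  have hc1 : ContinuousOn (fun t : ℝ => (t + δ)⁻¹ * t) (spectrum ℝ H) := by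
    refine ContinuousOn.mul (ContinuousOn.inv₀ (by fun_prop) ?_) (by fun_prop)
    intro t ht
    have := hs t ht
    have : 0 < t + δ := by linarith
    exact this.ne'
  refine ⟨cfc (fun t : ℝ => (√(t + δ))⁻¹) H, cfc_predicate _ _, fun b hb => hb.cfc_real _, ?_⟩
  have e1 : cfc (fun t : ℝ => (√(t + δ))⁻¹) H * cfc (fun t : ℝ => (√(t + δ))⁻¹) H * H =
      cfc (fun t : ℝ => (t + δ)⁻¹ * t) H := by
    rw [← cfc_mul _ _ H hc hc]
    have : cfc (fun t : ℝ => (√(t + δ))⁻¹ * (√(t + δ))⁻¹) H = cfc (fun t : ℝ => (t + δ)⁻¹) H := by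
      apply cfc_congr
      intro t ht
      have h0 := hs t ht
      have : √(t + δ) * √(t + δ) = t + δ := Real.mul_self_sqrt (by linarith)
      simp only
      rw [← mul_inv, this]
    rw [this]
    have hc2 : ContinuousOn (fun t : ℝ => (t + δ)⁻¹) (spectrum ℝ H) := by
      refine ContinuousOn.inv₀ (by fun_prop) ?_
      intro t ht
      have := hs t ht
      have : 0 < t + δ := by linarith
      exact this.ne'
    rw [cfc_mul _ _ H hc2 (by fun_prop), hid]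
  have e2 : (1 : B) - cfc (fun t : ℝ => (t + δ)⁻¹ * t) H =
      cfc (fun t : ℝ => 1 - (t + δ)⁻¹ * t) H := by
    rw [cfc_sub (fun _ => (1 : ℝ)) (fun t : ℝ => (t + δ)⁻¹ * t) H (by fun_prop) hc1,
      cfc_const_one ℝ H]
  have hc3 : ContinuousOn (fun t : ℝ => 1 - (t + δ)⁻¹ * t) (spectrum ℝ H) :=
    ContinuousOn.sub (by fun_prop) hc1
  rw [e1, e2]
  constructor
  · refine norm_cfc_le zero_le_one ?_
    intro t ht
    have h0 := hs t ht
    have h1 : 0 < t + δ := by linarith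
    rw [Real.norm_eq_abs, abs_of_nonneg (by positivity)]
    rw [inv_mul_le_iff₀ h1]
    linarith
  · have e3 : cfc (fun t : ℝ => 1 - (t + δ)⁻¹ * t) H * cfc (fun t : ℝ => 1 - (t + δ)⁻¹ * t) H * H =
        cfc (fun t : ℝ => (1 - (t + δ)⁻¹ * t) * (1 - (t + δ)⁻¹ * t) * t) H := by
      have hc4 : ContinuousOn (fun t : ℝ => (1 - (t + δ)⁻¹ * t) * (1 - (t + δ)⁻¹ * t))
        (spectrum ℝ H) := hc3.mul hc3
      rw [cfc_mul (fun t : ℝ => (1 - (t + δ)⁻¹ * t) * (1 - (t + δ)⁻¹ * t)) (fun t => t) H hc4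
        (by fun_prop), cfc_mul _ _ H hc3 hc3, hid]
    rw [e3]
    refine norm_cfc_le hδ.le ?_
    intro t ht
    have h0 := hs t ht
    have h1 : 0 < t + δ := by linarith
    have h2 : 1 - (t + δ)⁻¹ * t = (t + δ)⁻¹ * δ := by field_simp; ring
    rw [h2, Real.norm_eq_abs, abs_of_nonneg (by positivity)]
    have h3 : (t + δ)⁻¹ * δ * ((t + δ)⁻¹ * δ) * t = δ * (δ * t) / ((t + δ) * (t + δ)) := by
      field_simp
    rw [h3, div_le_iff₀ (by positivity)]
    have : δ * t ≤ (t + δ) * (t + δ) := by nlinarith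
    nlinarith

/-- The key construction for an order zero map. -/
theorem exists_s {F : Type v} [CStarAlgebra F] {A : Type u} [NonUnitalCStarAlgebra A]
    [PartialOrder A] [StarOrderedRing A] (θ : F →ₗ[ℂ] A) (hstar : ∀ y, θ (star y) = star (θ y))
    (hmul : ∀ x y, θ x * θ y = θ 1 * θ (x * y)) (h0 : 0 ≤ θ 1) (hcontr : ∀ y, ‖θ y‖ ≤ ‖y‖)
    (δ : ℝ) (hδ : 0 < δ) :
    ∃ (s : F →ₗ[ℂ] A) (L : A →ₗ[ℂ] A), (∀ z, ‖L z‖ ≤ ‖z‖) ∧
      (∀ y z, star (s y) * s z = L (θ (star y * z))) ∧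
      (∀ w, ‖L (θ w) - θ w‖ ≤ δ * ‖w‖) := by
  have hsa : IsSelfAdjoint (θ 1) := IsSelfAdjoint.of_nonneg h0
  have hcomm : ∀ y, Commute (θ 1) (θ y) := by
    intro y
    have h1 := hmul y 1
    rw [mul_one] at h1
    exact h1.symm
  have hsaH : IsSelfAdjoint ((θ 1 : A) : Unitization ℂ A) := by
    rw [IsSelfAdjoint, ← Unitization.inr_star, hsa.star_eq]
  have hspec : ∀ t ∈ spectrum ℝ ((θ 1 : A) : Unitization ℂ A), 0 ≤ t := by
    intro t ht
    rw [← Unitization.quasispectrum_eq_spectrum_inr' ℝ ℂ] at ht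
    exact quasispectrum_nonneg_of_nonneg _ h0 t ht
  obtain ⟨k, hk, hkc, hk1, hk2⟩ := exists_k _ hsaH hspec (δ ^ 2) (by positivity)
  set H : Unitization ℂ A := ((θ 1 : A) : Unitization ℂ A) with hH
  have hcommH : ∀ y, Commute H ((θ y : A) : Unitization ℂ A) := by
    intro y
    have := (hcomm y).eq
    show H * _ = _ * H
    rw [hH, ← Unitization.inr_mul, ← Unitization.inr_mul, this]
  have hkθ : ∀ y, Commute k ((θ y : A) : Unitization ℂ A) := fun y => hkc _ (hcommH y)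
  let mulL : Unitization ℂ A → A →ₗ[ℂ] A := fun a =>
    { toFun := fun z => a.fst • z + a.snd * z
      map_add' := by intro x y; simp only [smul_add, mul_add]; abel
      map_smul' := by
        intro c x
        simp only [mul_smul_comm, RingHom.id_apply, smul_add]
        rw [smul_comm] }
  have mulL_apply : ∀ a z, ((mulL a z : A) : Unitization ℂ A) = a * (z : Unitization ℂ A) := by
    intro a z
    ext
    · simp [mulL]
    · simp [mulL]
  refine ⟨(mulL k).comp θ, mulL (k * k * H), ?_, ?_, ?_⟩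
  · intro z
    rw [← Unitization.norm_inr (𝕜 := ℂ) (mulL (k * k * H) z), mulL_apply]
    refine (norm_mul_le _ _).trans ?_
    rw [Unitization.norm_inr]
    exact mul_le_of_le_one_left (norm_nonneg _) hk1
  · intro y z
    apply Unitization.inr_injective (R := ℂ)
    rw [Unitization.inr_mul, Unitization.inr_star, LinearMap.comp_apply, LinearMap.comp_apply,
      mulL_apply, mulL_apply, mulL_apply, star_mul, hk.star_eq, ← Unitization.inr_star, ← hstar]
    have e1 := (hkθ (star y)).eq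
    have e2 : ((θ (star y) : A) : Unitization ℂ A) * ((θ z : A) : Unitization ℂ A) =
        H * ((θ (star y * z) : A) : Unitization ℂ A) := by
      rw [hH, ← Unitization.inr_mul, ← Unitization.inr_mul, hmul]
    calc ((θ (star y) : A) : Unitization ℂ A) * k * (k * ((θ z : A) : Unitization ℂ A))
        = k * k * (((θ (star y) : A) : Unitization ℂ A) * ((θ z : A) : Unitization ℂ A)) := by
          rw [← e1]
          rw [mul_assoc k, ← mul_assoc _ k, ← e1]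
          simp only [mul_assoc]
      _ = _ := by rw [e2]; simp only [mul_assoc]
  · intro w
    have h1 : ((mulL (k * k * H) (θ w) - θ w : A) : Unitization ℂ A) =
        -((1 - k * k * H) * ((θ w : A) : Unitization ℂ A)) := by
      rw [Unitization.inr_sub, mulL_apply]
      rw [sub_mul, one_mul]; abel
    have h2 : ‖mulL (k * k * H) (θ w) - θ w‖ = ‖(1 - k * k * H) * ((θ w : A) : Unitization ℂ A)‖ := by
      rw [← Unitization.norm_inr (𝕜 := ℂ), h1, norm_neg]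
    have hHk : Commute H k := (hkc H (Commute.refl H)).symm
    have hsa2 : IsSelfAdjoint (1 - k * k * H) := by
      rw [IsSelfAdjoint, star_sub, star_one, star_mul, star_mul, hk.star_eq, hsaH.star_eq]
      congr 1
      rw [← mul_assoc, hHk.eq, mul_assoc, hHk.eq, ← mul_assoc]
    have hcw : ∀ y, Commute (1 - k * k * H) ((θ y : A) : Unitization ℂ A) := fun y =>
      (Commute.one_left _).sub_left (((hkθ y).mul_left (hkθ y)).mul_left (hcommH y))
    have h3 : ‖mulL (k * k * H) (θ w) - θ w‖ ^ 2 ≤ (δ * ‖w‖) ^ 2 := by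
      rw [h2, sq, ← CStarRing.norm_star_mul_self, star_mul, hsa2.star_eq, ← Unitization.inr_star,
        ← hstar]
      have e2 : ((θ (star w) : A) : Unitization ℂ A) * ((θ w : A) : Unitization ℂ A) =
          H * ((θ (star w * w) : A) : Unitization ℂ A) := by
        rw [hH, ← Unitization.inr_mul, ← Unitization.inr_mul, hmul]
      have e3 := (hcw (star w)).eq
      have e4 : ((θ (star w) : A) : Unitization ℂ A) * (1 - k * k * H) *
          ((1 - k * k * H) * ((θ w : A) : Unitization ℂ A)) =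
          (1 - k * k * H) * (1 - k * k * H) * H * ((θ (star w * w) : A) : Unitization ℂ A) := by
        calc ((θ (star w) : A) : Unitization ℂ A) * (1 - k * k * H) *
          ((1 - k * k * H) * ((θ w : A) : Unitization ℂ A))
            = (1 - k * k * H) * (((θ (star w) : A) : Unitization ℂ A) * (1 - k * k * H)) *
                ((θ w : A) : Unitization ℂ A) := by
              conv_lhs => rw [← e3]
              rw [mul_assoc, ← mul_assoc _ (1 - k * k * H) _, ← mul_assoc]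
          _ = (1 - k * k * H) * (1 - k * k * H) *
              (((θ (star w) : A) : Unitization ℂ A) * ((θ w : A) : Unitization ℂ A)) := by
              conv_lhs => rw [← e3]
              simp only [mul_assoc]
          _ = _ := by rw [e2]; simp only [mul_assoc]
      rw [e4]
      refine (norm_mul_le _ _).trans ?_
      rw [Unitization.norm_inr, mul_pow]
      refine mul_le_mul hk2 ((hcontr _).trans ?_) (norm_nonneg _) (by positivity)
      rw [CStarRing.norm_star_mul_self, sq]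
    exact le_of_sq_le_sq h3 (by positivity)

theorem fd_sum_apply {n : ℕ} {k : Fin n → ℕ} {ι : Type*} (s : Finset ι) (f : ι → FD k)
    (b : Fin n) (i j : Fin (k b)) : (∑ c ∈ s, f c) b i j = ∑ c ∈ s, f c b i j := by
  classical
  induction s using Finset.induction_on with
  | empty => simp [CStarMatrix.zero_apply]
  | insert a s ha ih =>
    rw [Finset.sum_insert ha, Finset.sum_insert ha, Pi.add_apply, CStarMatrix.add_apply, ih]

/-- weighted matrix units -/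
noncomputable def eu {n : ℕ} (k : Fin n → ℕ) (b : Fin n) (a a' : Fin (k b)) : FD k :=
  (((√(k b : ℝ))⁻¹ : ℝ) : ℂ) • Pi.single b (CStarMatrix.ofMatrix (Matrix.single a a' (1 : ℂ)))

theorem eu_apply_same {n : ℕ} (k : Fin n → ℕ) (b : Fin n) (a a' : Fin (k b)) (i j : Fin (k b)) :
    eu k b a a' b i j = if a = i ∧ a' = j then (((√(k b : ℝ))⁻¹ : ℝ) : ℂ) else 0 := by
  simp only [eu, Pi.smul_apply, Pi.single_eq_same, CStarMatrix.smul_apply,
    CStarMatrix.ofMatrix_apply, Matrix.single, Matrix.of_apply, smul_eq_mul]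
  split_ifs <;> simp

theorem eu_apply_ne {n : ℕ} (k : Fin n → ℕ) (b : Fin n) (a a' : Fin (k b)) (b' : Fin n)
    (h : b' ≠ b) : eu k b a a' b' = 0 := by
  simp only [eu, Pi.smul_apply, Pi.single_eq_of_ne h, smul_zero]

theorem eu_mul {n : ℕ} (k : Fin n → ℕ) (b : Fin n) (a a' : Fin (k b)) (y : FD k) :
    eu k b a a' * y = ∑ c, (y b a' c) • eu k b a c := by
  funext b'
  by_cases h : b' = b
  · subst h
    ext i j
    rw [fd_sum_apply, Pi.mul_apply, CStarMatrix.mul_apply]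
    simp only [eu_apply_same, Pi.smul_apply, CStarMatrix.smul_apply, smul_eq_mul]
    by_cases hi : a = i
    · simp [hi, mul_comm]
    · simp [hi]
  · rw [Pi.mul_apply, eu_apply_ne _ _ _ _ _ h, zero_mul, Finset.sum_apply]
    refine (Finset.sum_eq_zero fun c _ => ?_).symm
    rw [Pi.smul_apply, eu_apply_ne _ _ _ _ _ h, smul_zero]

theorem eu_sum {n : ℕ} (k : Fin n → ℕ) :
    ∑ b, ∑ a, ∑ a', star (eu k b a a') * eu k b a a' = 1 := by
  funext b'
  ext i j
  rw [fd_sum_apply, Finset.sum_eq_single b']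
  · rw [fd_sum_apply]
    simp only [fd_sum_apply, Pi.mul_apply, CStarMatrix.mul_apply, Pi.star_apply,
      CStarMatrix.star_apply, eu_apply_same]
    have hk : (k b' : ℝ) ≠ 0 := by
      have := i.pos
      positivity
    have h2 : ((√(k b' : ℝ))⁻¹) * ((√(k b' : ℝ))⁻¹) = ((k b' : ℝ))⁻¹ := by
      rw [← mul_inv, Real.mul_self_sqrt (by positivity)]
    have h3 : (((√(k b' : ℝ))⁻¹ : ℝ) : ℂ) * (((√(k b' : ℝ))⁻¹ : ℝ) : ℂ) = ((k b' : ℂ))⁻¹ := by
      rw [← Complex.ofReal_mul, h2]; simp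
    have h4 : ∀ x : Fin (k b'), (∑ x_1 : Fin (k b'), ∑ x_2 : Fin (k b'),
        star (if x = x_2 ∧ x_1 = i then (((√(k b' : ℝ))⁻¹ : ℝ) : ℂ) else 0) *
          (if x = x_2 ∧ x_1 = j then (((√(k b' : ℝ))⁻¹ : ℝ) : ℂ) else 0)) =
        if i = j then ((k b' : ℂ))⁻¹ else 0 := by
      intro x
      rw [Finset.sum_eq_single i, Finset.sum_eq_single x]
      · simp only [true_and, and_self, if_true]
        split_ifs with hij
        · rw [← h3]; simp
        · simp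
      · intro y _ hy
        simp [Ne.symm hy]
      · simp
      · intro y _ hy
        refine Finset.sum_eq_zero fun z _ => ?_
        simp [hy]
      · simp
    rw [Finset.sum_congr rfl fun x _ => h4 x, Finset.sum_const, Finset.card_univ, Fintype.card_fin,
      Pi.one_apply, CStarMatrix.one_apply]
    split_ifs
    · have : (k b' : ℂ) ≠ 0 := by exact_mod_cast hk
      simp [this]
    · simp
  · intro b _ hb
    rw [fd_sum_apply]
    refine Finset.sum_eq_zero fun a _ => ?_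
    rw [fd_sum_apply]
    refine Finset.sum_eq_zero fun a' _ => ?_
    rw [Pi.mul_apply, eu_apply_ne _ _ _ _ _ hb.symm, mul_zero]
    rfl
  · simp

theorem eu_swap {n : ℕ} (k : Fin n → ℕ) {W : Type*} [AddCommGroup W] [Module ℂ W]
    (Φ : FD k →ₗ⋆[ℂ] FD k →ₗ[ℂ] W) (y : FD k) :
    ∑ b, ∑ a, ∑ a', Φ (eu k b a a' * star y) (eu k b a a') =
      ∑ b, ∑ a, ∑ a', Φ (eu k b a a') (eu k b a a' * y) := by
  refine Finset.sum_congr rfl fun b _ => Finset.sum_congr rfl fun a _ => ?_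
  simp only [eu_mul, map_sum, LinearMap.map_smulₛₗ, LinearMap.sum_apply, LinearMap.smul_apply,
    RingHom.id_apply]
  rw [Finset.sum_comm]
  refine Finset.sum_congr rfl fun a' _ => Finset.sum_congr rfl fun c _ => ?_
  congr 1
  simp [Pi.star_apply, CStarMatrix.star_apply]

section cs

open scoped InnerProductSpace

theorem sum_norm_sq {E : Type w} [NormedAddCommGroup E] [InnerProductSpace ℂ E] [CompleteSpace E]
    {ι : Type*} [Fintype ι] (P : ι → E →L[ℂ] E) (x : E) :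
    ∑ i, ‖P i x‖ ^ 2 ≤ ‖∑ i, star (P i) * P i‖ * ‖x‖ ^ 2 := by
  have h1 : ((∑ i, ‖P i x‖ ^ 2 : ℝ) : ℂ) = ⟪x, (∑ i, star (P i) * P i) x⟫_ℂ := by
    rw [sum_apply, inner_sum]
    simp only [Complex.ofReal_sum, Complex.ofReal_pow]
    refine Finset.sum_congr rfl fun i _ => ?_
    have e : (star (P i) * P i) x = ContinuousLinearMap.adjoint (P i) (P i x) := rfl
    rw [e, ContinuousLinearMap.adjoint_inner_right, inner_self_eq_norm_sq_to_K]
    rfl
  have h2 : ‖((∑ i, ‖P i x‖ ^ 2 : ℝ) : ℂ)‖ = ∑ i, ‖P i x‖ ^ 2 := by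
    rw [Complex.norm_real, Real.norm_of_nonneg (by positivity)]
  rw [← h2, h1]
  refine (norm_inner_le_norm _ _).trans ?_
  have := (∑ i, star (P i) * P i).le_opNorm x
  nlinarith [norm_nonneg x]

theorem op_cs {E : Type w} [NormedAddCommGroup E] [InnerProductSpace ℂ E] [CompleteSpace E]
    {ι : Type*} [Fintype ι] (P Q : ι → E →L[ℂ] E) (T : E →L[ℂ] E) :
    ‖∑ i, star (P i) * T * Q i‖ ≤
      ‖T‖ * (√‖∑ i, star (P i) * P i‖ * √‖∑ i, star (Q i) * Q i‖) := by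
  refine ContinuousLinearMap.opNorm_le_bound _ (by positivity) fun x => ?_
  set y := (∑ i, star (P i) * T * Q i) x with hy
  by_cases hy0 : ‖y‖ = 0
  · rw [hy0]; positivity
  have h1 : ((‖y‖ ^ 2 : ℝ) : ℂ) = ∑ i, ⟪P i y, T (Q i x)⟫_ℂ := by
    push_cast
    have h2 : ⟪y, y⟫_ℂ = ((‖y‖ : ℂ)) ^ 2 := inner_self_eq_norm_sq_to_K y
    rw [← h2]
    have e0 : ⟪y, y⟫_ℂ = ⟪y, (∑ i, star (P i) * T * Q i) x⟫_ℂ := by rw [hy]
    rw [e0, sum_apply, inner_sum]
    refine Finset.sum_congr rfl fun i _ => ?_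
    have e : (star (P i) * T * Q i) x = ContinuousLinearMap.adjoint (P i) (T (Q i x)) := rfl
    rw [e, ContinuousLinearMap.adjoint_inner_right]
  have h3 : ‖y‖ ^ 2 ≤ ∑ i, ‖P i y‖ * (‖T‖ * ‖Q i x‖) := by
    have h4 : ‖((‖y‖ ^ 2 : ℝ) : ℂ)‖ = ‖y‖ ^ 2 := by
      rw [Complex.norm_real, Real.norm_of_nonneg (by positivity)]
    rw [← h4, h1]
    refine (norm_sum_le _ _).trans (Finset.sum_le_sum fun i _ => ?_)
    refine (norm_inner_le_norm _ _).trans ?_
    gcongr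
    exact T.le_opNorm _
  have h5 : ∑ i, ‖P i y‖ * (‖T‖ * ‖Q i x‖) ≤
      ‖T‖ * (√(∑ i, ‖P i y‖ ^ 2) * √(∑ i, ‖Q i x‖ ^ 2)) := by
    have := Real.sum_mul_le_sqrt_mul_sqrt Finset.univ (fun i => ‖P i y‖) (fun i => ‖Q i x‖)
    calc ∑ i, ‖P i y‖ * (‖T‖ * ‖Q i x‖) = ‖T‖ * ∑ i, ‖P i y‖ * ‖Q i x‖ := by
          rw [Finset.mul_sum]; refine Finset.sum_congr rfl fun i _ => by ring
      _ ≤ _ := by gcongr
  have h6 : √(∑ i, ‖P i y‖ ^ 2) ≤ √‖∑ i, star (P i) * P i‖ * ‖y‖ := by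
    rw [← Real.sqrt_sq (norm_nonneg y), ← Real.sqrt_mul (norm_nonneg _)]
    exact Real.sqrt_le_sqrt (sum_norm_sq P y)
  have h7 : √(∑ i, ‖Q i x‖ ^ 2) ≤ √‖∑ i, star (Q i) * Q i‖ * ‖x‖ := by
    rw [← Real.sqrt_sq (norm_nonneg x), ← Real.sqrt_mul (norm_nonneg _)]
    exact Real.sqrt_le_sqrt (sum_norm_sq Q x)
  have hy1 : 0 < ‖y‖ := lt_of_le_of_ne (norm_nonneg _) (Ne.symm hy0)
  have h8 : ‖y‖ ^ 2 ≤ ‖T‖ * ((√‖∑ i, star (P i) * P i‖ * ‖y‖) *
      (√‖∑ i, star (Q i) * Q i‖ * ‖x‖)) := by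
    refine h3.trans (h5.trans ?_)
    gcongr
  have h9 : ‖y‖ * ‖y‖ ≤ (‖T‖ * (√‖∑ i, star (P i) * P i‖ * √‖∑ i, star (Q i) * Q i‖) * ‖x‖) * ‖y‖ := by
    calc ‖y‖ * ‖y‖ = ‖y‖ ^ 2 := by ring
      _ ≤ _ := h8
      _ = _ := by ring
  exact le_of_mul_le_mul_right h9 hy1

end cs

set_option linter.unusedSectionVars false

section assembly

variable {A : Type u} [NonUnitalCStarAlgebra A] [PartialOrder A] [StarOrderedRing A]
variable {C : Type v} [NonUnitalCStarAlgebra C] [PartialOrder C] [StarOrderedRing C]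

/-- Completely positive maps preserve the involution. -/
theorem cp_star (ψ : A →CP C) (x : A) : ψ (star x) = star (ψ x) := by
  obtain ⟨y, hy, -, hx⟩ := CStarAlgebra.exists_sum_four_nonneg x
  have h1 : ∀ i, star (y i) = y i := fun i => (IsSelfAdjoint.of_nonneg (hy i)).star_eq
  have h2 : ∀ i, star (ψ (y i)) = ψ (y i) := fun i =>
    (IsSelfAdjoint.of_nonneg (map_nonneg ψ (hy i))).star_eq
  rw [hx]
  simp only [star_sum, star_smul, map_sum, map_smul, h1, h2]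

/-- The index set of the matrix units. -/
abbrev EI {n : ℕ} (k : Fin n → ℕ) : Type := Σ b : Fin n, Fin (k b) × Fin (k b)

/-- The weighted matrix units. -/
noncomputable def ee {n : ℕ} (k : Fin n → ℕ) (κ : EI k) : FD k := eu k κ.1 κ.2.1 κ.2.2

theorem ee_sum {n : ℕ} (k : Fin n → ℕ) : ∑ κ, star (ee k κ) * ee k κ = 1 := by
  rw [Fintype.sum_sigma]
  simp only [Fintype.sum_prod_type]
  exact eu_sum k

theorem ee_swap {n : ℕ} (k : Fin n → ℕ) {W : Type*} [AddCommGroup W] [Module ℂ W]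
    (Φ : FD k →ₗ⋆[ℂ] FD k →ₗ[ℂ] W) (y : FD k) :
    ∑ κ, Φ (ee k κ * star y) (ee k κ) = ∑ κ, Φ (ee k κ) (ee k κ * y) := by
  rw [Fintype.sum_sigma, Fintype.sum_sigma]
  simp only [Fintype.sum_prod_type]
  exact eu_swap k Φ y

theorem block_sum {n : ℕ} {k : Fin n → ℕ} {s : FD k →ₗ[ℂ] A} {L : A →ₗ[ℂ] A}
    {θ : FD k →ₗ[ℂ] A} (hs : ∀ y z, star (s y) * s z = L (θ (star y * z))) (y z : FD k) :
    ∑ κ, star (s (ee k κ * y)) * s (ee k κ * z) = L (θ (star y * z)) := by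
  have h1 : ∀ κ, star (s (ee k κ * y)) * s (ee k κ * z) =
      L (θ (star y * (star (ee k κ) * ee k κ) * z)) := by
    intro κ
    rw [hs, star_mul]
    simp only [mul_assoc]
  rw [Finset.sum_congr rfl fun κ _ => h1 κ, ← map_sum, ← map_sum, ← Finset.sum_mul,
    ← Finset.mul_sum, ee_sum, mul_one]

theorem block_D {n : ℕ} {k : Fin n → ℕ} {s : FD k →ₗ[ℂ] A} {L : A →ₗ[ℂ] A}
    {θ : FD k →ₗ[ℂ] A} (hs : ∀ y z, star (s y) * s z = L (θ (star y * z))) (x : A) (p : FD k) :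
    ∑ κ, star (s (ee k κ) * x - s (ee k κ * p)) * (s (ee k κ) * x - s (ee k κ * p)) =
      star x * L (θ 1) * x - star x * L (θ p) - L (θ (star p)) * x + L (θ (star p * p)) := by
  have e1 := block_sum hs 1 1
  have e2 := block_sum hs 1 p
  have e3 := block_sum hs p 1
  have e4 := block_sum hs p p
  simp only [mul_one, one_mul, star_one] at e1 e2 e3 e4
  rw [← e1, ← e2, ← e3, ← e4, Finset.mul_sum, Finset.sum_mul, Finset.mul_sum, Finset.sum_mul,
    ← Finset.sum_sub_distrib, ← Finset.sum_sub_distrib, ← Finset.sum_add_distrib]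
  refine Finset.sum_congr rfl fun κ _ => ?_
  rw [star_sub, star_mul]
  simp only [sub_mul, mul_sub, mul_assoc]
  abel

theorem avg_bound {N : ℕ} (hN : 0 < N) {V : Type*} [NormedAddCommGroup V] [NormedSpace ℂ V]
    (f g : Fin N → V) (c : ℝ) (h : ∀ i, ‖f i - g i‖ ≤ c) :
    ‖(N : ℂ)⁻¹ • ∑ i, f i - (N : ℂ)⁻¹ • ∑ i, g i‖ ≤ c := by
  rw [← smul_sub, ← Finset.sum_sub_distrib, norm_smul]
  have h1 : ‖∑ i, (f i - g i)‖ ≤ N * c := by
    refine (norm_sum_le _ _).trans ((Finset.sum_le_sum fun i _ => h i).trans ?_)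
    simp
  have hN' : (0 : ℝ) < N := by exact_mod_cast hN
  rw [norm_inv, Complex.norm_natCast, inv_mul_le_iff₀ hN']
  exact h1

theorem one_sub_le {G : A} (hG : 0 ≤ G) (hG1 : ‖G‖ ≤ 1) (x : A) :
    0 ≤ star x * x - star x * G * x ∧
      ‖x - G * x‖ ^ 2 ≤ ‖star x * x - star x * G * x‖ := by
  have hsa : IsSelfAdjoint G := IsSelfAdjoint.of_nonneg hG
  have h0 : star x * G * x ≤ star x * x := by
    refine (CStarAlgebra.star_left_conjugate_le_norm_smul (a := x) (b := G) hsa).trans ?_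
    calc ‖G‖ • (star x * x) ≤ (1 : ℝ) • (star x * x) :=
          smul_le_smul_of_nonneg_right hG1 (star_mul_self_nonneg x)
      _ = _ := one_smul _ _
  have hGG : G * G ≤ G := by
    obtain ⟨q, hq⟩ : ∃ q : A, G = star q * q ∧ IsSelfAdjoint q := by
      refine ⟨CFC.sqrt G, ?_, ?_⟩
      · rw [(IsSelfAdjoint.of_nonneg (CFC.sqrt_nonneg G)).star_eq, CFC.sqrt_mul_sqrt_self G hG]
      · exact IsSelfAdjoint.of_nonneg (CFC.sqrt_nonneg G)
    have h1 := CStarAlgebra.star_left_conjugate_le_norm_smul (a := q) (b := G) hsa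
    have h2 : star q * G * q = G * G := by
      conv_lhs => rw [hq.1]
      conv_rhs => rw [hq.1]
      rw [hq.2.star_eq]
      simp only [mul_assoc]
    rw [h2, ← hq.1] at h1
    refine h1.trans ?_
    calc ‖G‖ • G ≤ (1 : ℝ) • G := smul_le_smul_of_nonneg_right hG1 hG
      _ = _ := one_smul _ _
  refine ⟨sub_nonneg.mpr h0, ?_⟩
  rw [sq, ← CStarRing.norm_star_mul_self]
  have e : star (x - G * x) * (x - G * x) =
      star x * x - star x * G * x - star x * G * x + star x * (G * G) * x := by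
    rw [star_sub, star_mul, hsa.star_eq]
    simp only [sub_mul, mul_sub, mul_assoc]
    abel
  refine CStarAlgebra.norm_le_norm_of_nonneg_of_le (star_mul_self_nonneg _) ?_
  rw [e]
  have h3 : star x * (G * G) * x ≤ star x * G * x := star_left_conjugate_le_conjugate hGG x
  have h4 : 0 ≤ star x * G * x - star x * (G * G) * x := sub_nonneg.mpr h3
  rw [← sub_nonneg]
  convert h4 using 1
  abel

theorem fd_norm_star {n : ℕ} {k : Fin n → ℕ} (y : FD k) : ‖star y‖ = ‖y‖ := norm_star y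

theorem fd_norm_star_mul {n : ℕ} {k : Fin n → ℕ} (y : FD k) : ‖star y * y‖ = ‖y‖ * ‖y‖ :=
  CStarRing.norm_star_mul_self (x := y)

theorem norm_one_le_one {F : Type v} [CStarAlgebra F] : ‖(1 : F)‖ ≤ 1 := by
  rcases subsingleton_or_nontrivial F with h | h
  · have : (1 : F) = 0 := Subsingleton.elim _ _
    rw [this, norm_zero]; exact zero_le_one
  · exact CStarRing.norm_one.le

theorem core_est {N : ℕ} (hN : 0 < N) {n : Fin N → ℕ} {k : ∀ i, Fin (n i) → ℕ}
    (ψ : ∀ i, A →CP FD (k i)) (θ : ∀ i, FD (k i) →CP A) (hψ : ∀ i a, ‖ψ i a‖ ≤ ‖a‖)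
    (s : ∀ i, FD (k i) →ₗ[ℂ] A) (L : Fin N → A →ₗ[ℂ] A) (δ : ℝ) (hδ : 0 < δ)
    (hs : ∀ i y z, star (s i y) * s i z = L i (θ i (star y * z)))
    (hL : ∀ i w, ‖L i (θ i w) - θ i w‖ ≤ δ * ‖w‖)
    (G : A) (hG : G = (N : ℂ)⁻¹ • ∑ i, L i (θ i 1)) (hG0 : 0 ≤ G) (hG1 : ‖G‖ ≤ 1)
    (x : A) (M : ℝ) (hM : 1 ≤ M) (hxM : ‖x‖ ≤ M)
    (h1 : ‖x - (N : ℂ)⁻¹ • ∑ i, θ i (ψ i x)‖ ≤ δ)
    (h2 : ‖star x - (N : ℂ)⁻¹ • ∑ i, θ i (ψ i (star x))‖ ≤ δ)
    (h3 : ‖star x * x - (N : ℂ)⁻¹ • ∑ i, θ i (ψ i (star x * x))‖ ≤ δ)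
    (D : ∀ i, EI (k i) → A) (hD : ∀ i κ, D i κ = s i (ee (k i) κ) * x - s i (ee (k i) κ * ψ i x)) :
    ‖(N : ℂ)⁻¹ • ∑ i, ∑ κ, star (D i κ) * D i κ‖ ≤ 6 * δ * M ^ 2 ∧
      ‖x - G * x‖ ^ 2 ≤ 6 * δ * M ^ 2 := by
  have hblock : ∀ i, ∑ κ, star (D i κ) * D i κ =
      star x * L i (θ i 1) * x - star x * L i (θ i (ψ i x)) - L i (θ i (star (ψ i x))) * x +
        L i (θ i (star (ψ i x) * ψ i x)) := by
    intro i
    simp only [hD]
    exact block_D (θ := (θ i).toLinearMap) (hs i) x (ψ i x)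
  set B : A := (N : ℂ)⁻¹ • ∑ i, L i (θ i (ψ i x)) with hB
  set B' : A := (N : ℂ)⁻¹ • ∑ i, L i (θ i (star (ψ i x))) with hB'
  set S : A := (N : ℂ)⁻¹ • ∑ i, L i (θ i (star (ψ i x) * ψ i x)) with hS
  set S0 : A := (N : ℂ)⁻¹ • ∑ i, θ i (star (ψ i x) * ψ i x) with hS0
  set Q : A := (N : ℂ)⁻¹ • ∑ i, ∑ κ, star (D i κ) * D i κ with hQ
  set T3 : A := (N : ℂ)⁻¹ • ∑ i, θ i (ψ i (star x * x)) with hT3
  have hQe : Q = star x * G * x - star x * B - B' * x + S := by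
    rw [hQ, Finset.sum_congr rfl fun i _ => hblock i, hG, hB, hB', hS]
    simp only [Finset.sum_add_distrib, Finset.sum_sub_distrib, smul_add, smul_sub,
      mul_smul_comm, smul_mul_assoc, Finset.mul_sum, Finset.sum_mul]
  have hNr : (0 : ℝ) < N := by exact_mod_cast hN
  have hNinv : (0 : ℂ) ≤ (N : ℂ)⁻¹ := by
    rw [← Complex.ofReal_natCast, ← Complex.ofReal_inv]
    exact_mod_cast (inv_pos.mpr hNr).le
  have hQ0 : 0 ≤ Q := by
    rw [hQ]
    exact smul_nonneg hNinv (Finset.sum_nonneg fun i _ => Finset.sum_nonneg fun κ _ =>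
      star_mul_self_nonneg _)
  have hM0 : 0 < M := lt_of_lt_of_le one_pos hM
  have bB : ‖B - x‖ ≤ 2 * δ * M := by
    have e := avg_bound hN (fun i => L i (θ i (ψ i x))) (fun i => θ i (ψ i x)) (δ * M)
      (fun i => (hL i _).trans (mul_le_mul_of_nonneg_left ((hψ i x).trans hxM) hδ.le))
    calc ‖B - x‖ = ‖(B - (N : ℂ)⁻¹ • ∑ i, θ i (ψ i x)) - (x - (N : ℂ)⁻¹ • ∑ i, θ i (ψ i x))‖ := by
          congr 1; abel
      _ ≤ δ * M + δ := (norm_sub_le _ _).trans (add_le_add e h1)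
      _ ≤ 2 * δ * M := by nlinarith
  have bB' : ‖B' - star x‖ ≤ 2 * δ * M := by
    have e := avg_bound hN (fun i => L i (θ i (star (ψ i x)))) (fun i => θ i (star (ψ i x)))
      (δ * M) (fun i => (hL i _).trans (mul_le_mul_of_nonneg_left
        ((fd_norm_star (ψ i x)).le.trans ((hψ i x).trans hxM)) hδ.le))
    have h2' : ‖star x - (N : ℂ)⁻¹ • ∑ i, θ i (star (ψ i x))‖ ≤ δ := by
      simpa only [cp_star] using h2
    calc ‖B' - star x‖ = ‖(B' - (N : ℂ)⁻¹ • ∑ i, θ i (star (ψ i x))) -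
            (star x - (N : ℂ)⁻¹ • ∑ i, θ i (star (ψ i x)))‖ := by
          congr 1; abel
      _ ≤ δ * M + δ := (norm_sub_le _ _).trans (add_le_add e h2')
      _ ≤ 2 * δ * M := by nlinarith
  have bS : ‖S - S0‖ ≤ δ * M ^ 2 := by
    refine avg_bound hN _ _ _ (fun i => (hL i _).trans (mul_le_mul_of_nonneg_left ?_ hδ.le))
    have := (hψ i x).trans hxM
    refine (fd_norm_star_mul (ψ i x)).le.trans ?_
    rw [sq]
    exact mul_le_mul this this (norm_nonneg _) hM0.le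
  have hS0T : S0 ≤ T3 := by
    rw [hS0, hT3]
    refine smul_le_smul_of_nonneg_left (Finset.sum_le_sum fun i _ => ?_) hNinv
    have e := cp_schwarz (ψ i) (hψ i) 1 (fun _ => x) (fun _ => 1)
    simp only [Finset.univ_unique, Finset.sum_const, Finset.card_singleton, one_smul, mul_one,
      star_one, one_mul] at e
    exact OrderHomClass.mono (θ i) e
  set Err : A := -(star x * (B - x)) - (B' - star x) * x + (S - S0) + (T3 - star x * x) with hErr
  have hErrn : ‖Err‖ ≤ 6 * δ * M ^ 2 := by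
    have a1 : ‖star x * (B - x)‖ ≤ M * (2 * δ * M) := by
      refine (norm_mul_le _ _).trans (mul_le_mul (by rwa [norm_star]) bB (norm_nonneg _) hM0.le)
    have a2 : ‖(B' - star x) * x‖ ≤ (2 * δ * M) * M :=
      (norm_mul_le _ _).trans (mul_le_mul bB' hxM (norm_nonneg _) (by positivity))
    have a3 : ‖T3 - star x * x‖ ≤ δ := by rw [norm_sub_rev]; exact h3
    calc ‖Err‖ ≤ M * (2 * δ * M) + (2 * δ * M) * M + δ * M ^ 2 + δ := by
          rw [hErr]
          refine (norm_add_le _ _).trans (add_le_add ((norm_add_le _ _).trans (add_le_add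
            ((norm_sub_le _ _).trans (add_le_add ?_ a2)) bS)) a3)
          rw [norm_neg]; exact a1
      _ ≤ 6 * δ * M ^ 2 := by nlinarith [mul_pos hδ hM0, mul_nonneg hδ.le (sub_nonneg.mpr hM)]
  obtain ⟨g1, g2⟩ := one_sub_le hG0 hG1 x
  have hsum : Err = Q + (T3 - S0) + (star x * x - star x * G * x) := by
    rw [hErr, hQe]
    simp only [mul_sub, sub_mul]
    abel
  have hTS : 0 ≤ T3 - S0 := sub_nonneg.mpr hS0T
  constructor
  · refine (CStarAlgebra.norm_le_norm_of_nonneg_of_le hQ0 ?_).trans hErrn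
    rw [hsum, add_assoc]
    exact le_add_of_nonneg_right (add_nonneg hTS g1)
  · refine g2.trans ((CStarAlgebra.norm_le_norm_of_nonneg_of_le g1 ?_).trans hErrn)
    rw [hsum]
    exact le_add_of_nonneg_left (add_nonneg hQ0 hTS)

theorem swap_sum {n : ℕ} {k : Fin n → ℕ} (s : FD k →ₗ[ℂ] A) (p : FD k) {E : Type w}
    [NormedAddCommGroup E] [InnerProductSpace ℂ E] [CompleteSpace E]
    (σ : A →⋆ₙₐ[ℂ] (E →L[ℂ] E)) (T : E →L[ℂ] E) :
    ∑ κ, star (σ (s (ee k κ * star p))) * T * σ (s (ee k κ)) =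
      ∑ κ, star (σ (s (ee k κ))) * T * σ (s (ee k κ * p)) := by
  let Φ : FD k →ₗ⋆[ℂ] FD k →ₗ[ℂ] (E →L[ℂ] E) :=
    LinearMap.mk₂'ₛₗ (starRingEnd ℂ) (RingHom.id ℂ)
      (fun u v => star (σ (s u)) * T * σ (s v))
      (by intro a b c; simp only [map_add, star_add, add_mul])
      (by intro c a b; simp only [map_smul, star_smul, smul_mul_assoc]; rfl)
      (by intro a b c; simp only [map_add, mul_add])
      (by intro c a b; simp only [map_smul, mul_smul_comm, RingHom.id_apply])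
  exact ee_swap k Φ p

theorem comm_est {N : ℕ} {n : Fin N → ℕ} {k : ∀ i, Fin (n i) → ℕ}
    (s : ∀ i, FD (k i) →ₗ[ℂ] A) (c : ℂ) (x : A) (p : ∀ i, FD (k i))
    {E : Type w} [NormedAddCommGroup E] [InnerProductSpace ℂ E] [CompleteSpace E]
    (σ : A →⋆ₙₐ[ℂ] (E →L[ℂ] E)) (T : E →L[ℂ] E)
    (r D D' : (Σ i, EI (k i)) → A) (hr : ∀ κ, r κ = c • s κ.1 (ee (k κ.1) κ.2))
    (hD : ∀ κ, D κ = c • (s κ.1 (ee (k κ.1) κ.2) * x - s κ.1 (ee (k κ.1) κ.2 * p κ.1)))
    (hD' : ∀ κ, D' κ = c • (s κ.1 (ee (k κ.1) κ.2) * star x -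
      s κ.1 (ee (k κ.1) κ.2 * star (p κ.1)))) :
    σ x * ∑ κ, star (σ (r κ)) * T * σ (r κ) - (∑ κ, star (σ (r κ)) * T * σ (r κ)) * σ x =
      ∑ κ, star (σ (D' κ)) * T * σ (r κ) - ∑ κ, star (σ (r κ)) * T * σ (D κ) := by
  have hsw : ∑ κ : (Σ i, EI (k i)), star (σ (s κ.1 (ee (k κ.1) κ.2 * star (p κ.1)))) * T *
        σ (s κ.1 (ee (k κ.1) κ.2)) =
      ∑ κ : (Σ i, EI (k i)), star (σ (s κ.1 (ee (k κ.1) κ.2))) * T *
        σ (s κ.1 (ee (k κ.1) κ.2 * p κ.1)) := by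
    rw [Fintype.sum_sigma, Fintype.sum_sigma]
    exact Finset.sum_congr rfl fun i _ => swap_sum (s i) (p i) σ T
  have e1 : ∀ κ, star (σ (D' κ)) * T * σ (r κ) = σ x * (star (σ (r κ)) * T * σ (r κ)) -
      (star c * c) • (star (σ (s κ.1 (ee (k κ.1) κ.2 * star (p κ.1)))) * T *
        σ (s κ.1 (ee (k κ.1) κ.2))) := by
    intro κ
    rw [hD', hr]
    simp only [map_smul, map_sub, map_mul, map_star, star_smul, star_sub, star_mul, star_star,
      smul_mul_assoc, mul_smul_comm, sub_mul, smul_sub, mul_assoc, smul_smul]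
    rw [mul_comm c (star c)]
  have e2 : ∀ κ, star (σ (r κ)) * T * σ (D κ) = star (σ (r κ)) * T * σ (r κ) * σ x -
      (star c * c) • (star (σ (s κ.1 (ee (k κ.1) κ.2))) * T *
        σ (s κ.1 (ee (k κ.1) κ.2 * p κ.1))) := by
    intro κ
    rw [hD, hr]
    simp only [map_smul, map_sub, map_mul, star_smul, smul_mul_assoc, mul_smul_comm, mul_sub,
      smul_sub, mul_assoc, smul_smul]
    rw [mul_comm c (star c)]
  rw [Finset.sum_congr rfl fun κ _ => e1 κ, Finset.sum_congr rfl fun κ _ => e2 κ,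
    Finset.sum_sub_distrib, Finset.sum_sub_distrib, ← Finset.smul_sum, ← Finset.smul_sum, hsw,
    Finset.mul_sum, Finset.sum_mul]
  abel

theorem sigma_sum_le {ι : Type*} [Fintype ι] (D : ι → A) {E : Type w} [NormedAddCommGroup E]
    [InnerProductSpace ℂ E] [CompleteSpace E] (σ : A →⋆ₙₐ[ℂ] (E →L[ℂ] E)) :
    ‖∑ κ, star (σ (D κ)) * σ (D κ)‖ ≤ ‖∑ κ, star (D κ) * D κ‖ := by
  have : ∑ κ, star (σ (D κ)) * σ (D κ) = σ (∑ κ, star (D κ) * D κ) := by
    rw [map_sum]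
    exact Finset.sum_congr rfl fun κ _ => by rw [map_mul, map_star]
  rw [this]
  exact NonUnitalStarAlgHom.norm_apply_le σ _

end assembly

/-- T5a. -/
theorem averaging (A : Type u) [NonUnitalCStarAlgebra A] [PartialOrder A] [StarOrderedRing A]
    (hA : IsDecNuclear A) (X : Finset A) (η : ℝ) (hη : 0 < η) :
    ∃ (K : Type) (_ : Fintype K) (r : K → A), ‖∑ i, star (r i) * r i‖ ≤ 1 ∧
      (∀ x ∈ X, ‖x - ∑ i, star (r i) * r i * x‖ ≤ η) ∧
      ∀ x ∈ X, ∀ (E : Type w) [NormedAddCommGroup E] [InnerProductSpace ℂ E] [CompleteSpace E]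
        (σ : A →⋆ₙₐ[ℂ] (E →L[ℂ] E)) (T : E →L[ℂ] E),
        ‖σ x * ∑ i, star (σ (r i)) * T * σ (r i) - (∑ i, star (σ (r i)) * T * σ (r i)) * σ x‖ ≤
          η * ‖T‖ := by
  classical
  obtain ⟨M, hM1, hM⟩ : ∃ M : ℝ, 1 ≤ M ∧ ∀ x ∈ X, ‖x‖ ≤ M := by
    refine ⟨1 + ∑ x ∈ X, ‖x‖, ?_, fun x hx => ?_⟩
    · have : 0 ≤ ∑ x ∈ X, ‖x‖ := Finset.sum_nonneg fun _ _ => norm_nonneg _
      linarith
    · have h5 : ‖x‖ ≤ ∑ x ∈ X, ‖x‖ :=
        Finset.single_le_sum (f := fun x => ‖x‖) (fun _ _ => norm_nonneg _) hx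
      linarith
  have hM0 : 0 < M := lt_of_lt_of_le one_pos hM1
  set δ : ℝ := (η / 2) ^ 2 / (6 * M ^ 2) with hδdef
  have hδ : 0 < δ := by positivity
  have hδM : 6 * δ * M ^ 2 = (η / 2) ^ 2 := by
    rw [hδdef]; field_simp
  obtain ⟨N, n, k, ψ, θ, hN, hψ, hθ, happ⟩ := hA
    (X ∪ X.image star ∪ X.image (fun x => star x * x) ∪ X.image (fun x => star (star x) * star x))
    δ hδ
  have hex : ∀ i, ∃ (s : FD (k i) →ₗ[ℂ] A) (L : A →ₗ[ℂ] A), (∀ z, ‖L z‖ ≤ ‖z‖) ∧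
      (∀ y z, star (s y) * s z = L (θ i (star y * z))) ∧
      (∀ w, ‖L (θ i w) - θ i w‖ ≤ δ * ‖w‖) := fun i =>
    exists_s (θ i).toLinearMap (cp_star (θ i)) (orderZero_mul (θ i) (hθ i))
      (map_nonneg (θ i) zero_le_one) (hθ i).contr δ hδ
  choose s L hLc hs hL using hex
  have hNr : (0 : ℝ) < N := by exact_mod_cast hN
  set c : ℂ := (((√(N : ℝ))⁻¹ : ℝ) : ℂ) with hc
  have hcc : star c * c = (N : ℂ)⁻¹ := by
    have : (√(N : ℝ))⁻¹ * (√(N : ℝ))⁻¹ = (N : ℝ)⁻¹ := by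
      rw [← mul_inv, Real.mul_self_sqrt hNr.le]
    rw [hc, Complex.star_def, Complex.conj_ofReal, ← Complex.ofReal_mul, this]
    simp
  let r : (Σ i, EI (k i)) → A := fun κ => c • s κ.1 (ee (k κ.1) κ.2)
  let D : A → (Σ i, EI (k i)) → A := fun x κ =>
    c • (s κ.1 (ee (k κ.1) κ.2) * x - s κ.1 (ee (k κ.1) κ.2 * ψ κ.1 x))
  have hrr : ∑ κ, star (r κ) * r κ = (N : ℂ)⁻¹ • ∑ i, L i (θ i 1) := by
    have e1 : ∀ κ, star (r κ) * r κ = (N : ℂ)⁻¹ •
        (star (s κ.1 (ee (k κ.1) κ.2)) * s κ.1 (ee (k κ.1) κ.2)) := by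
      intro κ
      simp only [r, star_smul, smul_mul_assoc, mul_smul_comm, smul_smul]
      rw [mul_comm c (star c), hcc]
    rw [Finset.sum_congr rfl fun κ _ => e1 κ, ← Finset.smul_sum, Fintype.sum_sigma]
    congr 1
    refine Finset.sum_congr rfl fun i _ => ?_
    have := block_sum (θ := (θ i).toLinearMap) (hs i) 1 1
    simp only [mul_one, star_one] at this
    exact this
  have hDD : ∀ x, ∑ κ, star (D x κ) * D x κ = (N : ℂ)⁻¹ • ∑ i, ∑ κ : EI (k i),
      star (s i (ee (k i) κ) * x - s i (ee (k i) κ * ψ i x)) *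
        (s i (ee (k i) κ) * x - s i (ee (k i) κ * ψ i x)) := by
    intro x
    have e1 : ∀ κ, star (D x κ) * D x κ = (N : ℂ)⁻¹ •
        (star (s κ.1 (ee (k κ.1) κ.2) * x - s κ.1 (ee (k κ.1) κ.2 * ψ κ.1 x)) *
          (s κ.1 (ee (k κ.1) κ.2) * x - s κ.1 (ee (k κ.1) κ.2 * ψ κ.1 x))) := by
      intro κ
      simp only [D, star_smul, smul_mul_assoc, mul_smul_comm, smul_smul]
      rw [mul_comm c (star c), hcc]
    rw [Finset.sum_congr rfl fun κ _ => e1 κ, ← Finset.smul_sum, Fintype.sum_sigma]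
  set G : A := (N : ℂ)⁻¹ • ∑ i, L i (θ i 1) with hG
  have hG0 : 0 ≤ G := by
    rw [← hrr]; exact Finset.sum_nonneg fun κ _ => star_mul_self_nonneg _
  have hG1 : ‖G‖ ≤ 1 := by
    have e := avg_bound hN (fun i => L i (θ i 1)) (fun _ => 0) 1 (fun i => by
      rw [sub_zero]
      exact (hLc i _).trans (((hθ i).contr 1).trans norm_one_le_one))
    simpa [← hG] using e
  have hcore : ∀ x, ‖x‖ ≤ M → ‖x - (N : ℂ)⁻¹ • ∑ i, θ i (ψ i x)‖ ≤ δ →
      ‖star x - (N : ℂ)⁻¹ • ∑ i, θ i (ψ i (star x))‖ ≤ δ →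
      ‖star x * x - (N : ℂ)⁻¹ • ∑ i, θ i (ψ i (star x * x))‖ ≤ δ →
      ‖∑ κ, star (D x κ) * D x κ‖ ≤ (η / 2) ^ 2 ∧ ‖x - G * x‖ ^ 2 ≤ (η / 2) ^ 2 := by
    intro x hx h1 h2 h3
    rw [hDD, ← hδM]
    exact core_est hN ψ θ hψ s L δ hδ hs hL G hG hG0 hG1 x M hM1 hx h1 h2 h3 _ (fun i κ => rfl)
  have hX : ∀ x ∈ X, (‖∑ κ, star (D x κ) * D x κ‖ ≤ (η / 2) ^ 2 ∧ ‖x - G * x‖ ^ 2 ≤ (η / 2) ^ 2) ∧
      ‖∑ κ, star (D (star x) κ) * D (star x) κ‖ ≤ (η / 2) ^ 2 := by
    intro x hx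
    have m1 := happ x (by simp [hx])
    have m2 := happ (star x) (by
      simp only [Finset.mem_union, Finset.mem_image]
      exact Or.inl (Or.inl (Or.inr ⟨x, hx, rfl⟩)))
    have m3 := happ (star x * x) (by
      simp only [Finset.mem_union, Finset.mem_image]
      exact Or.inl (Or.inr ⟨x, hx, rfl⟩))
    have m4 := happ (star (star x) * star x) (by
      simp only [Finset.mem_union, Finset.mem_image]
      exact Or.inr ⟨x, hx, rfl⟩)
    refine ⟨hcore x (hM x hx) m1 m2 m3, (hcore (star x) ?_ m2 ?_ m4).1⟩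
    · rw [norm_star]; exact hM x hx
    · rw [star_star]; exact m1
  refine ⟨(Σ i, EI (k i)), inferInstance, r, ?_, ?_, ?_⟩
  · rw [hrr]; exact hG1
  · intro x hx
    rw [← Finset.sum_mul, hrr]
    have h1 := (hX x hx).1.2
    have h2 : ‖x - G * x‖ ≤ η / 2 := le_of_sq_le_sq h1 (by positivity)
    linarith
  · intro x hx E _ _ _ σ T
    rw [comm_est s c x (fun i => ψ i x) σ T r (D x) (D (star x)) (fun κ => rfl) (fun κ => rfl)
      (fun κ => by simp only [D, cp_star])]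
    have b1 : √‖∑ κ, star (σ (D (star x) κ)) * σ (D (star x) κ)‖ ≤ η / 2 := by
      rw [Real.sqrt_le_left (by positivity)]
      exact (sigma_sum_le _ σ).trans (hX x hx).2
    have b2 : √‖∑ κ, star (σ (D x κ)) * σ (D x κ)‖ ≤ η / 2 := by
      rw [Real.sqrt_le_left (by positivity)]
      exact (sigma_sum_le _ σ).trans (hX x hx).1.1
    have b3 : √‖∑ κ, star (σ (r κ)) * σ (r κ)‖ ≤ 1 := by
      rw [Real.sqrt_le_left zero_le_one]
      refine (sigma_sum_le _ σ).trans ?_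
      rw [hrr]; simpa using hG1
    have c1 := op_cs (fun κ => σ (D (star x) κ)) (fun κ => σ (r κ)) T
    have c2 := op_cs (fun κ => σ (r κ)) (fun κ => σ (D x κ)) T
    have d1 : √‖∑ κ, star (σ (D (star x) κ)) * σ (D (star x) κ)‖ *
        √‖∑ κ, star (σ (r κ)) * σ (r κ)‖ ≤ η / 2 * 1 :=
      mul_le_mul b1 b3 (Real.sqrt_nonneg _) (by positivity)
    have d2 : √‖∑ κ, star (σ (r κ)) * σ (r κ)‖ * √‖∑ κ, star (σ (D x κ)) * σ (D x κ)‖ ≤
        1 * (η / 2) :=
      mul_le_mul b3 b2 (Real.sqrt_nonneg _) zero_le_one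
    calc _ ≤ _ := norm_sub_le _ _
      _ ≤ ‖T‖ * (η / 2 * 1) + ‖T‖ * (1 * (η / 2)) :=
        add_le_add (c1.trans (mul_le_mul_of_nonneg_left d1 (norm_nonneg _)))
          (c2.trans (mul_le_mul_of_nonneg_left d2 (norm_nonneg _)))
      _ = η * ‖T‖ := by ring



section unitaries

/-- matrix units -/
noncomputable def eb {n : ℕ} (k : Fin n → ℕ) (b : Fin n) (a a' : Fin (k b)) : FD k :=
  Pi.single b (CStarMatrix.ofMatrix (Matrix.single a a' (1 : ℂ)))

theorem eb_mul_same {n : ℕ} (k : Fin n → ℕ) (b : Fin n) (a c d : Fin (k b)) :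
    eb k b a c * eb k b c d = eb k b a d := by
  unfold eb
  rw [← Pi.single_mul]
  congr 1
  have h := Matrix.single_mul_single_same (c := (1 : ℂ)) (i := a) (j := c) (k := d) (d := (1:ℂ))
  rw [mul_one] at h
  exact congrArg CStarMatrix.ofMatrix h

theorem eb_mul_ne {n : ℕ} (k : Fin n → ℕ) (b : Fin n) (a c c' d : Fin (k b)) (h : c ≠ c') :
    eb k b a c * eb k b c' d = 0 := by
  unfold eb
  rw [← Pi.single_mul]
  have h1 : Matrix.single a c (1 : ℂ) * Matrix.single c' d (1 : ℂ) = 0 := by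
    rw [Matrix.single_mul_single_of_ne]
    exact h
  have h2 : (CStarMatrix.ofMatrix (Matrix.single a c (1 : ℂ)) : CStarMatrix (Fin (k b)) (Fin (k b)) ℂ) *
    CStarMatrix.ofMatrix (Matrix.single c' d (1 : ℂ)) = 0 := congrArg CStarMatrix.ofMatrix h1
  rw [h2, Pi.single_zero]

theorem eb_star {n : ℕ} (k : Fin n → ℕ) (b : Fin n) (a c : Fin (k b)) :
    star (eb k b a c) = eb k b c a := by
  funext b'
  by_cases h : b' = b
  · subst h
    ext i j
    simp only [eb, Pi.star_apply, Pi.single_eq_same, CStarMatrix.star_apply,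
      CStarMatrix.ofMatrix_apply, Matrix.single, Matrix.of_apply]
    by_cases h1 : c = i <;> by_cases h2 : a = j <;> simp [h1, h2]
  · simp only [eb, Pi.star_apply, Pi.single_eq_of_ne h, star_zero]

theorem fd_eq_sum {n : ℕ} (k : Fin n → ℕ) (y : FD k) :
    y = ∑ b, ∑ a, ∑ a', (y b a a') • eb k b a a' := by
  funext b
  ext i j
  rw [fd_sum_apply, Finset.sum_eq_single b]
  · rw [fd_sum_apply]
    simp only [fd_sum_apply, Pi.smul_apply, CStarMatrix.smul_apply, smul_eq_mul, eb,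
      Pi.single_eq_same, CStarMatrix.ofMatrix_apply, Matrix.single, Matrix.of_apply]
    rw [Finset.sum_eq_single i, Finset.sum_eq_single j]
    · simp
    · intro c _ hc
      simp [hc]
    · simp
    · intro c _ hc
      refine Finset.sum_eq_zero fun d _ => ?_
      simp [hc]
    · simp
  · intro b' _ hb
    rw [fd_sum_apply]
    refine Finset.sum_eq_zero fun a _ => ?_
    rw [fd_sum_apply]
    refine Finset.sum_eq_zero fun a' _ => ?_
    simp only [Pi.smul_apply, eb, Pi.single_eq_of_ne hb.symm, smul_zero]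
    rfl
  · simp

/-- integral unitaries -/
def IU {n : ℕ} (k : Fin n → ℕ) (g : FD k) : Prop :=
  star g * g = 1 ∧ g * star g = 1 ∧ ∀ b i j, ∃ m : ℤ, g b i j = (m : ℂ)

theorem IU.mul {n : ℕ} {k : Fin n → ℕ} {g h : FD k} (hg : IU k g) (hh : IU k h) :
    IU k (g * h) := by
  refine ⟨?_, ?_, ?_⟩
  · rw [star_mul, mul_assoc, ← mul_assoc (star g), hg.1, one_mul, hh.1]
  · rw [star_mul, mul_assoc, ← mul_assoc h, hh.2.1, one_mul, hg.2.1]
  · intro b i j
    rw [Pi.mul_apply, CStarMatrix.mul_apply]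
    choose m hm using hg.2.2 b
    choose m' hm' using hh.2.2 b
    refine ⟨∑ c, m i c * m' c j, ?_⟩
    push_cast
    exact Finset.sum_congr rfl fun c _ => by rw [hm, hm']

theorem IU.star1 {n : ℕ} {k : Fin n → ℕ} {g : FD k} (hg : IU k g) : IU k (star g) := by
  refine ⟨by rw [star_star]; exact hg.2.1, by rw [star_star]; exact hg.1, ?_⟩
  intro b i j
  obtain ⟨m, hm⟩ := hg.2.2 b j i
  refine ⟨m, ?_⟩
  rw [Pi.star_apply, CStarMatrix.star_apply, hm]
  simp

theorem IU.one {n : ℕ} (k : Fin n → ℕ) : IU k (1 : FD k) := by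
  refine ⟨by rw [star_one, one_mul], by rw [star_one, one_mul], ?_⟩
  intro b i j
  rw [Pi.one_apply, CStarMatrix.one_apply]
  by_cases h : i = j
  · exact ⟨1, by simp [h]⟩
  · exact ⟨0, by simp [h]⟩

theorem eb_int {n : ℕ} (k : Fin n → ℕ) (b : Fin n) (a a' : Fin (k b)) (b' : Fin n)
    (i j : Fin (k b')) : ∃ m : ℤ, eb k b a a' b' i j = (m : ℂ) := by
  by_cases h : b' = b
  · subst h
    simp only [eb, Pi.single_eq_same, CStarMatrix.ofMatrix_apply, Matrix.single, Matrix.of_apply]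
    by_cases h1 : a = i ∧ a' = j
    · exact ⟨1, by simp [h1]⟩
    · exact ⟨0, by simp [h1]⟩
  · refine ⟨0, ?_⟩
    simp only [eb, Pi.single_eq_of_ne h]
    simp

theorem IU.D {n : ℕ} (k : Fin n → ℕ) (b : Fin n) (a : Fin (k b)) :
    IU k (1 - (2 : ℂ) • eb k b a a) := by
  have h1 : star (1 - (2 : ℂ) • eb k b a a) = 1 - (2 : ℂ) • eb k b a a := by
    rw [star_sub, star_one, star_smul, eb_star]
    simp
  have h2 : (1 - (2 : ℂ) • eb k b a a) * (1 - (2 : ℂ) • eb k b a a) = 1 := by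
    have h3 := eb_mul_same k b a a a
    simp only [sub_mul, mul_sub, one_mul, mul_one, smul_mul_smul_comm, h3]
    module
  refine ⟨by rw [h1, h2], by rw [h1, h2], ?_⟩
  intro b' i j
  obtain ⟨m, hm⟩ := eb_int k b a a b' i j
  obtain ⟨m', hm'⟩ := (IU.one k).2.2 b' i j
  refine ⟨m' - 2 * m, ?_⟩
  rw [Pi.sub_apply, CStarMatrix.sub_apply, hm', Pi.smul_apply, CStarMatrix.smul_apply, hm]
  push_cast
  simp

theorem IU.P {n : ℕ} (k : Fin n → ℕ) (b : Fin n) (a a' : Fin (k b)) (haa : a ≠ a') :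
    IU k (1 - eb k b a a - eb k b a' a' + eb k b a a' + eb k b a' a) := by
  have h1 : star (1 - eb k b a a - eb k b a' a' + eb k b a a' + eb k b a' a) =
      1 - eb k b a a - eb k b a' a' + eb k b a a' + eb k b a' a := by
    simp only [star_add, star_sub, star_one, eb_star]
    abel
  have h2 : (1 - eb k b a a - eb k b a' a' + eb k b a a' + eb k b a' a) *
      (1 - eb k b a a - eb k b a' a' + eb k b a a' + eb k b a' a) = 1 := by
    simp only [add_mul, sub_mul, mul_add, mul_sub, one_mul, mul_one, eb_mul_same,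
      eb_mul_ne k b _ _ _ _ haa, eb_mul_ne k b _ _ _ _ haa.symm]
    abel
  refine ⟨by rw [h1, h2], by rw [h1, h2], ?_⟩
  intro b' i j
  obtain ⟨m1, hm1⟩ := eb_int k b a a b' i j
  obtain ⟨m2, hm2⟩ := eb_int k b a' a' b' i j
  obtain ⟨m3, hm3⟩ := eb_int k b a a' b' i j
  obtain ⟨m4, hm4⟩ := eb_int k b a' a b' i j
  obtain ⟨m', hm'⟩ := (IU.one k).2.2 b' i j
  refine ⟨m' - m1 - m2 + m3 + m4, ?_⟩
  rw [Pi.add_apply, CStarMatrix.add_apply, Pi.add_apply, CStarMatrix.add_apply, Pi.sub_apply,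
    CStarMatrix.sub_apply, Pi.sub_apply, CStarMatrix.sub_apply, hm1, hm2, hm3, hm4, hm']
  push_cast
  ring

theorem IU.entry {n : ℕ} {k : Fin n → ℕ} {g : FD k} (hg : IU k g) (b : Fin n) (i j : Fin (k b)) :
    g b i j ∈ ({-1, 0, 1} : Set ℂ) := by
  have h1 := congrArg (fun z : FD k => z b j j) hg.1
  simp only [Pi.mul_apply, CStarMatrix.mul_apply, Pi.star_apply, CStarMatrix.star_apply,
    Pi.one_apply, CStarMatrix.one_apply, if_true] at h1
  choose m hm using fun c => hg.2.2 b c j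
  have h2 : ∑ c, (m c) * (m c) = 1 := by
    have h3 : ∀ c, star (g b c j) * g b c j = (((m c) * (m c) : ℤ) : ℂ) := by
      intro c
      rw [hm]
      push_cast
      simp
    rw [Finset.sum_congr rfl fun c _ => h3 c] at h1
    have h4 : (((∑ c, (m c) * (m c) : ℤ)) : ℂ) = ((1 : ℤ) : ℂ) := by
      push_cast
      push_cast at h1
      exact h1
    exact_mod_cast h4
  have h5 : m i * m i ≤ 1 := by
    rw [← h2]
    exact Finset.single_le_sum (f := fun c => m c * m c) (fun c _ => mul_self_nonneg _)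
      (Finset.mem_univ i)
  have h6 : -1 ≤ m i ∧ m i ≤ 1 := by
    constructor <;> nlinarith
  rw [hm i]
  obtain ⟨h7, h8⟩ := h6
  have h9 : m i = -1 ∨ m i = 0 ∨ m i = 1 := by omega
  rcases h9 with h | h | h <;> rw [h] <;> simp

/-- the type of integral unitaries -/
def GG {n : ℕ} (k : Fin n → ℕ) : Type := {g : FD k // IU k g}

instance {n : ℕ} (k : Fin n → ℕ) : Finite (GG k) := by
  have : Finite (({-1, 0, 1} : Set ℂ)) := Set.Finite.to_subtype (by simp)
  refine Finite.of_injective (β := ∀ b, Fin (k b) → Fin (k b) → ({-1, 0, 1} : Set ℂ))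
    (fun g b i j => ⟨g.1 b i j, g.2.entry b i j⟩) ?_
  intro g h hgh
  apply Subtype.ext
  funext b
  ext i j
  have h1 := congrFun (congrFun (congrFun hgh b) i) j
  exact congrArg Subtype.val h1

noncomputable instance {n : ℕ} (k : Fin n → ℕ) : Fintype (GG k) := Fintype.ofFinite _

theorem GG_card_pos {n : ℕ} (k : Fin n → ℕ) : 0 < Fintype.card (GG k) :=
  Fintype.card_pos_iff.mpr ⟨⟨1, IU.one k⟩⟩

/-- weighted integral unitaries -/
noncomputable def uu {n : ℕ} (k : Fin n → ℕ) (g : GG k) : FD k :=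
  (((√(Fintype.card (GG k) : ℝ))⁻¹ : ℝ) : ℂ) • g.1

theorem w_sq {n : ℕ} (k : Fin n → ℕ) :
    star (((√(Fintype.card (GG k) : ℝ))⁻¹ : ℝ) : ℂ) * (((√(Fintype.card (GG k) : ℝ))⁻¹ : ℝ) : ℂ) =
      ((Fintype.card (GG k) : ℝ) : ℂ)⁻¹ := by
  rw [Complex.star_def, Complex.conj_ofReal, ← Complex.ofReal_mul, ← mul_inv,
    Real.mul_self_sqrt (by positivity), Complex.ofReal_inv]

theorem uu_star_mul {n : ℕ} (k : Fin n → ℕ) (g : GG k) :
    star (uu k g) * uu k g = ((Fintype.card (GG k) : ℝ) : ℂ)⁻¹ • 1 := by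
  unfold uu
  rw [star_smul, smul_mul_smul_comm, g.2.1, w_sq]

theorem uu_sum {n : ℕ} (k : Fin n → ℕ) : ∑ κ, star (uu k κ) * uu k κ = 1 := by
  rw [Finset.sum_congr rfl fun κ _ => uu_star_mul k κ, Finset.sum_const, Finset.card_univ,
    ← Nat.cast_smul_eq_nsmul ℂ, smul_smul]
  have : (Fintype.card (GG k) : ℂ) ≠ 0 := by
    exact_mod_cast (GG_card_pos k).ne'
  rw [Complex.ofReal_natCast, mul_inv_cancel₀ this, one_smul]

theorem uu_swap_iu {n : ℕ} (k : Fin n → ℕ) {W : Type*} [AddCommGroup W] [Module ℂ W]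
    (Φ : FD k →ₗ⋆[ℂ] FD k →ₗ[ℂ] W) (y : FD k) (hy : IU k y) :
    ∑ κ, Φ (uu k κ * star y) (uu k κ) = ∑ κ, Φ (uu k κ) (uu k κ * y) := by
  let e : GG k ≃ GG k :=
    { toFun := fun g => ⟨g.1 * y, g.2.mul hy⟩
      invFun := fun g => ⟨g.1 * star y, g.2.mul hy.star1⟩
      left_inv := by
        intro g
        apply Subtype.ext
        show g.1 * y * star y = g.1
        rw [mul_assoc, hy.2.1, mul_one]
      right_inv := by
        intro g
        apply Subtype.ext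
        show g.1 * star y * y = g.1
        rw [mul_assoc, hy.1, mul_one] }
  rw [← Equiv.sum_comp e]
  refine Finset.sum_congr rfl fun κ _ => ?_
  have h1 : uu k (e κ) = uu k κ * y := by
    unfold uu
    rw [smul_mul_assoc]
    rfl
  rw [h1, mul_assoc, hy.2.1, mul_one]

theorem uu_swap {n : ℕ} (k : Fin n → ℕ) {W : Type*} [AddCommGroup W] [Module ℂ W]
    (Φ : FD k →ₗ⋆[ℂ] FD k →ₗ[ℂ] W) (y : FD k) :
    ∑ κ, Φ (uu k κ * star y) (uu k κ) = ∑ κ, Φ (uu k κ) (uu k κ * y) := by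
  -- both sides are linear in `y`
  let T1 : FD k →ₗ[ℂ] W :=
    { toFun := fun y => ∑ κ, Φ (uu k κ * star y) (uu k κ)
      map_add' := by
        intro a b
        rw [← Finset.sum_add_distrib]
        refine Finset.sum_congr rfl fun κ _ => ?_
        rw [star_add, mul_add, map_add, LinearMap.add_apply]
      map_smul' := by
        intro c a
        rw [RingHom.id_apply, Finset.smul_sum]
        refine Finset.sum_congr rfl fun κ _ => ?_
        rw [star_smul, mul_smul_comm, LinearMap.map_smulₛₗ, LinearMap.smul_apply]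
        congr 1
        simp }
  let T2 : FD k →ₗ[ℂ] W :=
    { toFun := fun y => ∑ κ, Φ (uu k κ) (uu k κ * y)
      map_add' := by
        intro a b
        rw [← Finset.sum_add_distrib]
        refine Finset.sum_congr rfl fun κ _ => ?_
        rw [mul_add, map_add]
      map_smul' := by
        intro c a
        rw [RingHom.id_apply, Finset.smul_sum]
        refine Finset.sum_congr rfl fun κ _ => ?_
        rw [mul_smul_comm, map_smul] }
  have h0 : ∀ g, IU k g → T1 g = T2 g := fun g hg => uu_swap_iu k Φ g hg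
  have h1 : ∀ b a, T1 (eb k b a a) = T2 (eb k b a a) := by
    intro b a
    obtain ⟨Z, hZ⟩ : ∃ Z : FD k, Z = 1 - (2 : ℂ) • eb k b a a := ⟨_, rfl⟩
    have e1 : eb k b a a = (1 / 2 : ℂ) • ((1 : FD k) - Z) := by
      rw [hZ]
      module
    have hZ1 : IU k Z := by rw [hZ]; exact IU.D k b a
    rw [e1, map_smul, map_smul, map_sub, map_sub, h0 _ (IU.one k), h0 _ hZ1]
  have h2 : ∀ b a a', T1 (eb k b a a') = T2 (eb k b a a') := by
    intro b a a'
    by_cases haa : a = a'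
    · subst haa
      exact h1 b a
    obtain ⟨Z, hZ⟩ : ∃ Z : FD k, Z = (1 - (2 : ℂ) • eb k b a a) *
        (1 - eb k b a a - eb k b a' a' + eb k b a a' + eb k b a' a) := ⟨_, rfl⟩
    have hZ1 : IU k Z := by rw [hZ]; exact (IU.D k b a).mul (IU.P k b a a' haa)
    obtain ⟨Y, hY⟩ : ∃ Y : FD k, Y = 1 - eb k b a a - eb k b a' a' + eb k b a a' + eb k b a' a :=
      ⟨_, rfl⟩
    have hY1 : IU k Y := by rw [hY]; exact IU.P k b a a' haa
    have e1 : eb k b a a' = (1 / 2 : ℂ) • (Y - Z) := by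
      rw [hZ, hY]
      have h3 : eb k b a a * (1 - eb k b a a - eb k b a' a' + eb k b a a' + eb k b a' a) =
          eb k b a a' := by
        simp only [mul_add, mul_sub, mul_one, eb_mul_same, eb_mul_ne k b _ _ _ _ haa]
        abel
      rw [sub_mul, one_mul, smul_mul_assoc, h3]
      module
    rw [e1, map_smul, map_smul, map_sub, map_sub, h0 _ hY1, h0 _ hZ1]
  have h3 : T1 y = T2 y := by
    rw [fd_eq_sum k y]
    simp only [map_sum, map_smul, h2]
  exact h3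

end unitaries


section assemblyU

variable {A : Type u} [NonUnitalCStarAlgebra A] [PartialOrder A] [StarOrderedRing A]
variable {C : Type v} [NonUnitalCStarAlgebra C] [PartialOrder C] [StarOrderedRing C]

theorem block_sumU {n : ℕ} {k : Fin n → ℕ} {s : FD k →ₗ[ℂ] A} {L : A →ₗ[ℂ] A}
    {θ : FD k →ₗ[ℂ] A} (hs : ∀ y z, star (s y) * s z = L (θ (star y * z))) (y z : FD k) :
    ∑ κ, star (s (uu k κ * y)) * s (uu k κ * z) = L (θ (star y * z)) := by
  have h1 : ∀ κ, star (s (uu k κ * y)) * s (uu k κ * z) =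
      L (θ (star y * (star (uu k κ) * uu k κ) * z)) := by
    intro κ
    rw [hs, star_mul]
    simp only [mul_assoc]
  rw [Finset.sum_congr rfl fun κ _ => h1 κ, ← map_sum, ← map_sum, ← Finset.sum_mul,
    ← Finset.mul_sum, uu_sum, mul_one]

theorem block_DU {n : ℕ} {k : Fin n → ℕ} {s : FD k →ₗ[ℂ] A} {L : A →ₗ[ℂ] A}
    {θ : FD k →ₗ[ℂ] A} (hs : ∀ y z, star (s y) * s z = L (θ (star y * z))) (x : A) (p : FD k) :
    ∑ κ, star (s (uu k κ) * x - s (uu k κ * p)) * (s (uu k κ) * x - s (uu k κ * p)) =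
      star x * L (θ 1) * x - star x * L (θ p) - L (θ (star p)) * x + L (θ (star p * p)) := by
  have e1 := block_sumU hs 1 1
  have e2 := block_sumU hs 1 p
  have e3 := block_sumU hs p 1
  have e4 := block_sumU hs p p
  simp only [mul_one, one_mul, star_one] at e1 e2 e3 e4
  rw [← e1, ← e2, ← e3, ← e4, Finset.mul_sum, Finset.sum_mul, Finset.mul_sum, Finset.sum_mul,
    ← Finset.sum_sub_distrib, ← Finset.sum_sub_distrib, ← Finset.sum_add_distrib]
  refine Finset.sum_congr rfl fun κ _ => ?_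
  rw [star_sub, star_mul]
  simp only [sub_mul, mul_sub, mul_assoc]
  abel

theorem core_estU {N : ℕ} (hN : 0 < N) {n : Fin N → ℕ} {k : ∀ i, Fin (n i) → ℕ}
    (ψ : ∀ i, A →CP FD (k i)) (θ : ∀ i, FD (k i) →CP A) (hψ : ∀ i a, ‖ψ i a‖ ≤ ‖a‖)
    (s : ∀ i, FD (k i) →ₗ[ℂ] A) (L : Fin N → A →ₗ[ℂ] A) (δ : ℝ) (hδ : 0 < δ)
    (hs : ∀ i y z, star (s i y) * s i z = L i (θ i (star y * z)))
    (hL : ∀ i w, ‖L i (θ i w) - θ i w‖ ≤ δ * ‖w‖)
    (G : A) (hG : G = (N : ℂ)⁻¹ • ∑ i, L i (θ i 1)) (hG0 : 0 ≤ G) (hG1 : ‖G‖ ≤ 1)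
    (x : A) (M : ℝ) (hM : 1 ≤ M) (hxM : ‖x‖ ≤ M)
    (h1 : ‖x - (N : ℂ)⁻¹ • ∑ i, θ i (ψ i x)‖ ≤ δ)
    (h2 : ‖star x - (N : ℂ)⁻¹ • ∑ i, θ i (ψ i (star x))‖ ≤ δ)
    (h3 : ‖star x * x - (N : ℂ)⁻¹ • ∑ i, θ i (ψ i (star x * x))‖ ≤ δ)
    (D : ∀ i, GG (k i) → A) (hD : ∀ i κ, D i κ = s i (uu (k i) κ) * x - s i (uu (k i) κ * ψ i x)) :
    ‖(N : ℂ)⁻¹ • ∑ i, ∑ κ, star (D i κ) * D i κ‖ ≤ 6 * δ * M ^ 2 ∧
      ‖x - G * x‖ ^ 2 ≤ 6 * δ * M ^ 2 := by
  have hblock : ∀ i, ∑ κ, star (D i κ) * D i κ =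
      star x * L i (θ i 1) * x - star x * L i (θ i (ψ i x)) - L i (θ i (star (ψ i x))) * x +
        L i (θ i (star (ψ i x) * ψ i x)) := by
    intro i
    simp only [hD]
    exact block_DU (θ := (θ i).toLinearMap) (hs i) x (ψ i x)
  set B : A := (N : ℂ)⁻¹ • ∑ i, L i (θ i (ψ i x)) with hB
  set B' : A := (N : ℂ)⁻¹ • ∑ i, L i (θ i (star (ψ i x))) with hB'
  set S : A := (N : ℂ)⁻¹ • ∑ i, L i (θ i (star (ψ i x) * ψ i x)) with hS
  set S0 : A := (N : ℂ)⁻¹ • ∑ i, θ i (star (ψ i x) * ψ i x) with hS0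
  set Q : A := (N : ℂ)⁻¹ • ∑ i, ∑ κ, star (D i κ) * D i κ with hQ
  set T3 : A := (N : ℂ)⁻¹ • ∑ i, θ i (ψ i (star x * x)) with hT3
  have hQe : Q = star x * G * x - star x * B - B' * x + S := by
    rw [hQ, Finset.sum_congr rfl fun i _ => hblock i, hG, hB, hB', hS]
    simp only [Finset.sum_add_distrib, Finset.sum_sub_distrib, smul_add, smul_sub,
      mul_smul_comm, smul_mul_assoc, Finset.mul_sum, Finset.sum_mul]
  have hNr : (0 : ℝ) < N := by exact_mod_cast hN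
  have hNinv : (0 : ℂ) ≤ (N : ℂ)⁻¹ := by
    rw [← Complex.ofReal_natCast, ← Complex.ofReal_inv]
    exact_mod_cast (inv_pos.mpr hNr).le
  have hQ0 : 0 ≤ Q := by
    rw [hQ]
    exact smul_nonneg hNinv (Finset.sum_nonneg fun i _ => Finset.sum_nonneg fun κ _ =>
      star_mul_self_nonneg _)
  have hM0 : 0 < M := lt_of_lt_of_le one_pos hM
  have bB : ‖B - x‖ ≤ 2 * δ * M := by
    have e := avg_bound hN (fun i => L i (θ i (ψ i x))) (fun i => θ i (ψ i x)) (δ * M)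
      (fun i => (hL i _).trans (mul_le_mul_of_nonneg_left ((hψ i x).trans hxM) hδ.le))
    calc ‖B - x‖ = ‖(B - (N : ℂ)⁻¹ • ∑ i, θ i (ψ i x)) - (x - (N : ℂ)⁻¹ • ∑ i, θ i (ψ i x))‖ := by
          congr 1; abel
      _ ≤ δ * M + δ := (norm_sub_le _ _).trans (add_le_add e h1)
      _ ≤ 2 * δ * M := by nlinarith
  have bB' : ‖B' - star x‖ ≤ 2 * δ * M := by
    have e := avg_bound hN (fun i => L i (θ i (star (ψ i x)))) (fun i => θ i (star (ψ i x)))
      (δ * M) (fun i => (hL i _).trans (mul_le_mul_of_nonneg_left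
        ((fd_norm_star (ψ i x)).le.trans ((hψ i x).trans hxM)) hδ.le))
    have h2' : ‖star x - (N : ℂ)⁻¹ • ∑ i, θ i (star (ψ i x))‖ ≤ δ := by
      simpa only [cp_star] using h2
    calc ‖B' - star x‖ = ‖(B' - (N : ℂ)⁻¹ • ∑ i, θ i (star (ψ i x))) -
            (star x - (N : ℂ)⁻¹ • ∑ i, θ i (star (ψ i x)))‖ := by
          congr 1; abel
      _ ≤ δ * M + δ := (norm_sub_le _ _).trans (add_le_add e h2')
      _ ≤ 2 * δ * M := by nlinarith
  have bS : ‖S - S0‖ ≤ δ * M ^ 2 := by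
    refine avg_bound hN _ _ _ (fun i => (hL i _).trans (mul_le_mul_of_nonneg_left ?_ hδ.le))
    have := (hψ i x).trans hxM
    refine (fd_norm_star_mul (ψ i x)).le.trans ?_
    rw [sq]
    exact mul_le_mul this this (norm_nonneg _) hM0.le
  have hS0T : S0 ≤ T3 := by
    rw [hS0, hT3]
    refine smul_le_smul_of_nonneg_left (Finset.sum_le_sum fun i _ => ?_) hNinv
    have e := cp_schwarz (ψ i) (hψ i) 1 (fun _ => x) (fun _ => 1)
    simp only [Finset.univ_unique, Finset.sum_const, Finset.card_singleton, one_smul, mul_one,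
      star_one, one_mul] at e
    exact OrderHomClass.mono (θ i) e
  set Err : A := -(star x * (B - x)) - (B' - star x) * x + (S - S0) + (T3 - star x * x) with hErr
  have hErrn : ‖Err‖ ≤ 6 * δ * M ^ 2 := by
    have a1 : ‖star x * (B - x)‖ ≤ M * (2 * δ * M) := by
      refine (norm_mul_le _ _).trans (mul_le_mul (by rwa [norm_star]) bB (norm_nonneg _) hM0.le)
    have a2 : ‖(B' - star x) * x‖ ≤ (2 * δ * M) * M :=
      (norm_mul_le _ _).trans (mul_le_mul bB' hxM (norm_nonneg _) (by positivity))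
    have a3 : ‖T3 - star x * x‖ ≤ δ := by rw [norm_sub_rev]; exact h3
    calc ‖Err‖ ≤ M * (2 * δ * M) + (2 * δ * M) * M + δ * M ^ 2 + δ := by
          rw [hErr]
          refine (norm_add_le _ _).trans (add_le_add ((norm_add_le _ _).trans (add_le_add
            ((norm_sub_le _ _).trans (add_le_add ?_ a2)) bS)) a3)
          rw [norm_neg]; exact a1
      _ ≤ 6 * δ * M ^ 2 := by nlinarith [mul_pos hδ hM0, mul_nonneg hδ.le (sub_nonneg.mpr hM)]
  obtain ⟨g1, g2⟩ := one_sub_le hG0 hG1 x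
  have hsum : Err = Q + (T3 - S0) + (star x * x - star x * G * x) := by
    rw [hErr, hQe]
    simp only [mul_sub, sub_mul]
    abel
  have hTS : 0 ≤ T3 - S0 := sub_nonneg.mpr hS0T
  constructor
  · refine (CStarAlgebra.norm_le_norm_of_nonneg_of_le hQ0 ?_).trans hErrn
    rw [hsum, add_assoc]
    exact le_add_of_nonneg_right (add_nonneg hTS g1)
  · refine g2.trans ((CStarAlgebra.norm_le_norm_of_nonneg_of_le g1 ?_).trans hErrn)
    rw [hsum]
    exact le_add_of_nonneg_left (add_nonneg hQ0 hTS)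

theorem swap_sumU {n : ℕ} {k : Fin n → ℕ} (s : FD k →ₗ[ℂ] A) (p : FD k) {E : Type w}
    [NormedAddCommGroup E] [InnerProductSpace ℂ E] [CompleteSpace E]
    (σ : A →⋆ₙₐ[ℂ] (E →L[ℂ] E)) (T : E →L[ℂ] E) :
    ∑ κ, star (σ (s (uu k κ * star p))) * T * σ (s (uu k κ)) =
      ∑ κ, star (σ (s (uu k κ))) * T * σ (s (uu k κ * p)) := by
  let Φ : FD k →ₗ⋆[ℂ] FD k →ₗ[ℂ] (E →L[ℂ] E) :=
    LinearMap.mk₂'ₛₗ (starRingEnd ℂ) (RingHom.id ℂ)
      (fun u v => star (σ (s u)) * T * σ (s v))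
      (by intro a b c; simp only [map_add, star_add, add_mul])
      (by intro c a b; simp only [map_smul, star_smul, smul_mul_assoc]; rfl)
      (by intro a b c; simp only [map_add, mul_add])
      (by intro c a b; simp only [map_smul, mul_smul_comm, RingHom.id_apply])
  exact uu_swap k Φ p

theorem comm_estU {N : ℕ} {n : Fin N → ℕ} {k : ∀ i, Fin (n i) → ℕ}
    (s : ∀ i, FD (k i) →ₗ[ℂ] A) (c : ℂ) (x : A) (p : ∀ i, FD (k i))
    {E : Type w} [NormedAddCommGroup E] [InnerProductSpace ℂ E] [CompleteSpace E]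
    (σ : A →⋆ₙₐ[ℂ] (E →L[ℂ] E)) (T : E →L[ℂ] E)
    (r D D' : (Σ i, GG (k i)) → A) (hr : ∀ κ, r κ = c • s κ.1 (uu (k κ.1) κ.2))
    (hD : ∀ κ, D κ = c • (s κ.1 (uu (k κ.1) κ.2) * x - s κ.1 (uu (k κ.1) κ.2 * p κ.1)))
    (hD' : ∀ κ, D' κ = c • (s κ.1 (uu (k κ.1) κ.2) * star x -
      s κ.1 (uu (k κ.1) κ.2 * star (p κ.1)))) :
    σ x * ∑ κ, star (σ (r κ)) * T * σ (r κ) - (∑ κ, star (σ (r κ)) * T * σ (r κ)) * σ x =
      ∑ κ, star (σ (D' κ)) * T * σ (r κ) - ∑ κ, star (σ (r κ)) * T * σ (D κ) := by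
  have hsw : ∑ κ : (Σ i, GG (k i)), star (σ (s κ.1 (uu (k κ.1) κ.2 * star (p κ.1)))) * T *
        σ (s κ.1 (uu (k κ.1) κ.2)) =
      ∑ κ : (Σ i, GG (k i)), star (σ (s κ.1 (uu (k κ.1) κ.2))) * T *
        σ (s κ.1 (uu (k κ.1) κ.2 * p κ.1)) := by
    rw [Fintype.sum_sigma, Fintype.sum_sigma]
    exact Finset.sum_congr rfl fun i _ => swap_sumU (s i) (p i) σ T
  have e1 : ∀ κ, star (σ (D' κ)) * T * σ (r κ) = σ x * (star (σ (r κ)) * T * σ (r κ)) -
      (star c * c) • (star (σ (s κ.1 (uu (k κ.1) κ.2 * star (p κ.1)))) * T *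
        σ (s κ.1 (uu (k κ.1) κ.2))) := by
    intro κ
    rw [hD', hr]
    simp only [map_smul, map_sub, map_mul, map_star, star_smul, star_sub, star_mul, star_star,
      smul_mul_assoc, mul_smul_comm, sub_mul, smul_sub, mul_assoc, smul_smul]
    rw [mul_comm c (star c)]
  have e2 : ∀ κ, star (σ (r κ)) * T * σ (D κ) = star (σ (r κ)) * T * σ (r κ) * σ x -
      (star c * c) • (star (σ (s κ.1 (uu (k κ.1) κ.2))) * T *
        σ (s κ.1 (uu (k κ.1) κ.2 * p κ.1))) := by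
    intro κ
    rw [hD, hr]
    simp only [map_smul, map_sub, map_mul, star_smul, smul_mul_assoc, mul_smul_comm, mul_sub,
      smul_sub, mul_assoc, smul_smul]
    rw [mul_comm c (star c)]
  rw [Finset.sum_congr rfl fun κ _ => e1 κ, Finset.sum_congr rfl fun κ _ => e2 κ,
    Finset.sum_sub_distrib, Finset.sum_sub_distrib, ← Finset.smul_sum, ← Finset.smul_sum, hsw,
    Finset.mul_sum, Finset.sum_mul]
  abel


end assemblyU

/-- T5a2: as `averaging`, but with `∑ ‖r i‖ ^ 2 ≤ 1`. -/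
theorem averaging2 (A : Type u) [NonUnitalCStarAlgebra A] [PartialOrder A] [StarOrderedRing A]
    (hA : IsDecNuclear A) (X : Finset A) (η : ℝ) (hη : 0 < η) :
    ∃ (K : Type) (_ : Fintype K) (r : K → A), ∑ i, ‖r i‖ ^ 2 ≤ 1 ∧
      (∀ x ∈ X, ‖x - ∑ i, star (r i) * r i * x‖ ≤ η) ∧
      ∀ x ∈ X, ∀ (E : Type w) [NormedAddCommGroup E] [InnerProductSpace ℂ E] [CompleteSpace E]
        (σ : A →⋆ₙₐ[ℂ] (E →L[ℂ] E)) (T : E →L[ℂ] E),
        ‖σ x * ∑ i, star (σ (r i)) * T * σ (r i) - (∑ i, star (σ (r i)) * T * σ (r i)) * σ x‖ ≤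
          η * ‖T‖ := by
  classical
  obtain ⟨M, hM1, hM⟩ : ∃ M : ℝ, 1 ≤ M ∧ ∀ x ∈ X, ‖x‖ ≤ M := by
    refine ⟨1 + ∑ x ∈ X, ‖x‖, ?_, fun x hx => ?_⟩
    · have : 0 ≤ ∑ x ∈ X, ‖x‖ := Finset.sum_nonneg fun _ _ => norm_nonneg _
      linarith
    · have h5 : ‖x‖ ≤ ∑ x ∈ X, ‖x‖ :=
        Finset.single_le_sum (f := fun x => ‖x‖) (fun _ _ => norm_nonneg _) hx
      linarith
  have hM0 : 0 < M := lt_of_lt_of_le one_pos hM1
  set δ : ℝ := (η / 2) ^ 2 / (6 * M ^ 2) with hδdef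
  have hδ : 0 < δ := by positivity
  have hδM : 6 * δ * M ^ 2 = (η / 2) ^ 2 := by
    rw [hδdef]; field_simp
  obtain ⟨N, n, k, ψ, θ, hN, hψ, hθ, happ⟩ := hA
    (X ∪ X.image star ∪ X.image (fun x => star x * x) ∪ X.image (fun x => star (star x) * star x))
    δ hδ
  have hex : ∀ i, ∃ (s : FD (k i) →ₗ[ℂ] A) (L : A →ₗ[ℂ] A), (∀ z, ‖L z‖ ≤ ‖z‖) ∧
      (∀ y z, star (s y) * s z = L (θ i (star y * z))) ∧
      (∀ w, ‖L (θ i w) - θ i w‖ ≤ δ * ‖w‖) := fun i =>
    exists_s (θ i).toLinearMap (cp_star (θ i)) (orderZero_mul (θ i) (hθ i))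
      (map_nonneg (θ i) zero_le_one) (hθ i).contr δ hδ
  choose s L hLc hs hL using hex
  have hNr : (0 : ℝ) < N := by exact_mod_cast hN
  set c : ℂ := (((√(N : ℝ))⁻¹ : ℝ) : ℂ) with hc
  have hcc : star c * c = (N : ℂ)⁻¹ := by
    have : (√(N : ℝ))⁻¹ * (√(N : ℝ))⁻¹ = (N : ℝ)⁻¹ := by
      rw [← mul_inv, Real.mul_self_sqrt hNr.le]
    rw [hc, Complex.star_def, Complex.conj_ofReal, ← Complex.ofReal_mul, this]
    simp
  let r : (Σ i, GG (k i)) → A := fun κ => c • s κ.1 (uu (k κ.1) κ.2)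
  let D : A → (Σ i, GG (k i)) → A := fun x κ =>
    c • (s κ.1 (uu (k κ.1) κ.2) * x - s κ.1 (uu (k κ.1) κ.2 * ψ κ.1 x))
  have hrr : ∑ κ, star (r κ) * r κ = (N : ℂ)⁻¹ • ∑ i, L i (θ i 1) := by
    have e1 : ∀ κ, star (r κ) * r κ = (N : ℂ)⁻¹ •
        (star (s κ.1 (uu (k κ.1) κ.2)) * s κ.1 (uu (k κ.1) κ.2)) := by
      intro κ
      simp only [r, star_smul, smul_mul_assoc, mul_smul_comm, smul_smul]
      rw [mul_comm c (star c), hcc]
    rw [Finset.sum_congr rfl fun κ _ => e1 κ, ← Finset.smul_sum, Fintype.sum_sigma]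
    congr 1
    refine Finset.sum_congr rfl fun i _ => ?_
    have := block_sumU (θ := (θ i).toLinearMap) (hs i) 1 1
    simp only [mul_one, star_one] at this
    exact this
  have hDD : ∀ x, ∑ κ, star (D x κ) * D x κ = (N : ℂ)⁻¹ • ∑ i, ∑ κ : GG (k i),
      star (s i (uu (k i) κ) * x - s i (uu (k i) κ * ψ i x)) *
        (s i (uu (k i) κ) * x - s i (uu (k i) κ * ψ i x)) := by
    intro x
    have e1 : ∀ κ, star (D x κ) * D x κ = (N : ℂ)⁻¹ •
        (star (s κ.1 (uu (k κ.1) κ.2) * x - s κ.1 (uu (k κ.1) κ.2 * ψ κ.1 x)) *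
          (s κ.1 (uu (k κ.1) κ.2) * x - s κ.1 (uu (k κ.1) κ.2 * ψ κ.1 x))) := by
      intro κ
      simp only [D, star_smul, smul_mul_assoc, mul_smul_comm, smul_smul]
      rw [mul_comm c (star c), hcc]
    rw [Finset.sum_congr rfl fun κ _ => e1 κ, ← Finset.smul_sum, Fintype.sum_sigma]
  set G : A := (N : ℂ)⁻¹ • ∑ i, L i (θ i 1) with hG
  have hG0 : 0 ≤ G := by
    rw [← hrr]; exact Finset.sum_nonneg fun κ _ => star_mul_self_nonneg _
  have hG1 : ‖G‖ ≤ 1 := by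
    have e := avg_bound hN (fun i => L i (θ i 1)) (fun _ => 0) 1 (fun i => by
      rw [sub_zero]
      exact (hLc i _).trans (((hθ i).contr 1).trans norm_one_le_one))
    simpa [← hG] using e
  have hcore : ∀ x, ‖x‖ ≤ M → ‖x - (N : ℂ)⁻¹ • ∑ i, θ i (ψ i x)‖ ≤ δ →
      ‖star x - (N : ℂ)⁻¹ • ∑ i, θ i (ψ i (star x))‖ ≤ δ →
      ‖star x * x - (N : ℂ)⁻¹ • ∑ i, θ i (ψ i (star x * x))‖ ≤ δ →
      ‖∑ κ, star (D x κ) * D x κ‖ ≤ (η / 2) ^ 2 ∧ ‖x - G * x‖ ^ 2 ≤ (η / 2) ^ 2 := by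
    intro x hx h1 h2 h3
    rw [hDD, ← hδM]
    exact core_estU hN ψ θ hψ s L δ hδ hs hL G hG hG0 hG1 x M hM1 hx h1 h2 h3 _ (fun i κ => rfl)
  have hX : ∀ x ∈ X, (‖∑ κ, star (D x κ) * D x κ‖ ≤ (η / 2) ^ 2 ∧ ‖x - G * x‖ ^ 2 ≤ (η / 2) ^ 2) ∧
      ‖∑ κ, star (D (star x) κ) * D (star x) κ‖ ≤ (η / 2) ^ 2 := by
    intro x hx
    have m1 := happ x (by simp [hx])
    have m2 := happ (star x) (by
      simp only [Finset.mem_union, Finset.mem_image]
      exact Or.inl (Or.inl (Or.inr ⟨x, hx, rfl⟩)))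
    have m3 := happ (star x * x) (by
      simp only [Finset.mem_union, Finset.mem_image]
      exact Or.inl (Or.inr ⟨x, hx, rfl⟩))
    have m4 := happ (star (star x) * star x) (by
      simp only [Finset.mem_union, Finset.mem_image]
      exact Or.inr ⟨x, hx, rfl⟩)
    refine ⟨hcore x (hM x hx) m1 m2 m3, (hcore (star x) ?_ m2 ?_ m4).1⟩
    · rw [norm_star]; exact hM x hx
    · rw [star_star]; exact m1
  refine ⟨(Σ i, GG (k i)), inferInstance, r, ?_, ?_, ?_⟩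
  · have hn : ∀ κ : (Σ i, GG (k i)), ‖r κ‖ ^ 2 ≤
        (N : ℝ)⁻¹ * ((Fintype.card (GG (k κ.1)) : ℝ))⁻¹ := by
      intro κ
      have e1 : star (r κ) * r κ = (N : ℂ)⁻¹ •
          (star (s κ.1 (uu (k κ.1) κ.2)) * s κ.1 (uu (k κ.1) κ.2)) := by
        simp only [r, star_smul, smul_mul_assoc, mul_smul_comm, smul_smul]
        rw [mul_comm c (star c), hcc]
      rw [sq, ← CStarRing.norm_star_mul_self, e1, norm_smul, norm_inv, Complex.norm_natCast, hs,
        uu_star_mul]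
      gcongr
      refine (hLc κ.1 _).trans (((hθ κ.1).contr _).trans ?_)
      rw [norm_smul, norm_inv, Complex.norm_real, Real.norm_of_nonneg (by positivity)]
      exact mul_le_of_le_one_right (by positivity) norm_one_le_one
    refine (Finset.sum_le_sum fun κ _ => hn κ).trans ?_
    rw [Fintype.sum_sigma]
    have e2 : ∀ i : Fin N, ∑ _g : GG (k i), (N : ℝ)⁻¹ * ((Fintype.card (GG (k i)) : ℝ))⁻¹ =
        (N : ℝ)⁻¹ := by
      intro i
      have h1 : (Fintype.card (GG (k i)) : ℝ) ≠ 0 := by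
        exact_mod_cast (GG_card_pos (k i)).ne'
      rw [Finset.sum_const, Finset.card_univ, nsmul_eq_mul]
      field_simp
    refine le_of_eq ((Finset.sum_congr rfl fun i _ => e2 i).trans ?_)
    rw [Finset.sum_const, Finset.card_univ, Fintype.card_fin, nsmul_eq_mul,
      mul_inv_cancel₀ hNr.ne']
  · intro x hx
    rw [← Finset.sum_mul, hrr]
    have h1 := (hX x hx).1.2
    have h2 : ‖x - G * x‖ ≤ η / 2 := le_of_sq_le_sq h1 (by positivity)
    linarith
  · intro x hx E _ _ _ σ T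
    rw [comm_estU s c x (fun i => ψ i x) σ T r (D x) (D (star x)) (fun κ => rfl) (fun κ => rfl)
      (fun κ => by simp only [D, cp_star])]
    have b1 : √‖∑ κ, star (σ (D (star x) κ)) * σ (D (star x) κ)‖ ≤ η / 2 := by
      rw [Real.sqrt_le_left (by positivity)]
      exact (sigma_sum_le _ σ).trans (hX x hx).2
    have b2 : √‖∑ κ, star (σ (D x κ)) * σ (D x κ)‖ ≤ η / 2 := by
      rw [Real.sqrt_le_left (by positivity)]
      exact (sigma_sum_le _ σ).trans (hX x hx).1.1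
    have b3 : √‖∑ κ, star (σ (r κ)) * σ (r κ)‖ ≤ 1 := by
      rw [Real.sqrt_le_left zero_le_one]
      refine (sigma_sum_le _ σ).trans ?_
      rw [hrr]; simpa using hG1
    have c1 := op_cs (fun κ => σ (D (star x) κ)) (fun κ => σ (r κ)) T
    have c2 := op_cs (fun κ => σ (r κ)) (fun κ => σ (D x κ)) T
    have d1 : √‖∑ κ, star (σ (D (star x) κ)) * σ (D (star x) κ)‖ *
        √‖∑ κ, star (σ (r κ)) * σ (r κ)‖ ≤ η / 2 * 1 :=
      mul_le_mul b1 b3 (Real.sqrt_nonneg _) (by positivity)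
    have d2 : √‖∑ κ, star (σ (r κ)) * σ (r κ)‖ * √‖∑ κ, star (σ (D x κ)) * σ (D x κ)‖ ≤
        1 * (η / 2) :=
      mul_le_mul b3 b2 (Real.sqrt_nonneg _) zero_le_one
    calc _ ≤ _ := norm_sub_le _ _
      _ ≤ ‖T‖ * (η / 2 * 1) + ‖T‖ * (1 * (η / 2)) :=
        add_le_add (c1.trans (mul_le_mul_of_nonneg_left d1 (norm_nonneg _)))
          (c2.trans (mul_le_mul_of_nonneg_left d2 (norm_nonneg _)))
      _ = η * ‖T‖ := by ring



end Pool.Agent.H253.US
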