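import Mathlib

set_option autoImplicit false
set_option linter.unusedSectionVars false
set_option linter.deprecated false

open scoped InnerProductSpace
open Filter Topology

namespace Pool.Agent.H253.US

universe u v w

section wlim

variable {I : Type w} (𝒰 : Ultrafilter I)
variable {E : Type v} [NormedAddCommGroup E] [InnerProductSpace ℂ E] [CompleteSpace E]

/-- `S` is the limit of `T` in the weak operator topology along `𝒰`. -/
def WLim (T : I → E →L[ℂ] E) (S : E →L[ℂ] E) : Prop :=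
  ∀ x y : E, Tendsto (fun i => inner ℂ x (T i y)) 𝒰 (𝓝 (inner ℂ x (S y)))

theorem ultra_lim (f : I → ℂ) (r : ℝ) (hf : ∀ i, ‖f i‖ ≤ r) : ∃ z : ℂ, Tendsto f 𝒰 (𝓝 z) := by
  have hc : IsCompact (Metric.closedBall (0 : ℂ) r) := isCompact_closedBall 0 r
  have h := hc.ultrafilter_le_nhds (𝒰.map f) (by
    rw [Ultrafilter.coe_map, le_principal_iff, mem_map]
    refine Filter.univ_mem' fun i => ?_
    simp only [Set.mem_preimage, Metric.mem_closedBall, dist_zero_right]
    exact hf i)
  obtain ⟨z, _, hz⟩ := h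
  exact ⟨z, hz⟩

theorem exists_wlim (T : I → E →L[ℂ] E) (r : ℝ) (hT : ∀ i, ‖T i‖ ≤ r) :
    ∃ S : E →L[ℂ] E, WLim 𝒰 T S := by
  have hne : (𝒰 : Filter I).NeBot := 𝒰.neBot
  have hr : 0 ≤ r := by
    obtain ⟨i⟩ : Nonempty I := Filter.nonempty_of_neBot (𝒰 : Filter I)
    exact (norm_nonneg _).trans (hT i)
  have hb : ∀ x y : E, ∀ i, ‖inner ℂ (T i x) y‖ ≤ r * ‖x‖ * ‖y‖ := fun x y i =>
    (norm_inner_le_norm _ _).trans (by
      gcongr
      exact ((T i).le_opNorm x).trans (by gcongr; exact hT i))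
  choose L hL using fun (x y : E) => ultra_lim 𝒰 (fun i => inner ℂ (T i x) y) _ (hb x y)
  have hLb : ∀ x y, ‖L x y‖ ≤ r * ‖x‖ * ‖y‖ := fun x y =>
    le_of_tendsto (hL x y).norm (Eventually.of_forall fun i => hb x y i)
  let B : E →L⋆[ℂ] E →L[ℂ] ℂ := LinearMap.mkContinuous₂
    (LinearMap.mk₂'ₛₗ (starRingEnd ℂ) (RingHom.id ℂ) L
      (fun x x' y => tendsto_nhds_unique (hL (x + x') y) (by
        have := (hL x y).add (hL x' y)
        refine this.congr fun i => ?_
        rw [map_add, inner_add_left]))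
      (fun c x y => tendsto_nhds_unique (hL (c • x) y) (by
        have := (hL x y).const_mul (starRingEnd ℂ c)
        refine this.congr fun i => ?_
        rw [map_smul, inner_smul_left]))
      (fun x y y' => tendsto_nhds_unique (hL x (y + y')) (by
        have := (hL x y).add (hL x y')
        refine this.congr fun i => ?_
        rw [inner_add_right]))
      (fun c x y => tendsto_nhds_unique (hL x (c • y)) (by
        have := (hL x y).const_mul c
        refine this.congr fun i => ?_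
        rw [inner_smul_right]))) r (fun x y => hLb x y)
  refine ⟨InnerProductSpace.continuousLinearMapOfBilin B, fun x y => ?_⟩
  have h1 : inner ℂ (InnerProductSpace.continuousLinearMapOfBilin B y) x = L y x := by
    rw [InnerProductSpace.continuousLinearMapOfBilin_apply]
    rfl
  have h2 := (hL y x)
  rw [← h1] at h2
  have h3 := (Complex.continuous_conj.tendsto _).comp h2
  rw [inner_conj_symm] at h3
  refine h3.congr fun i => ?_
  simp only [Function.comp]
  exact inner_conj_symm _ _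

variable {𝒰}

theorem WLim.norm_le {T : I → E →L[ℂ] E} {S : E →L[ℂ] E} (h : WLim 𝒰 T S) (r : ℝ) (hr : 0 ≤ r)
    (hT : ∀ᶠ i in 𝒰, ‖T i‖ ≤ r) : ‖S‖ ≤ r := by
  refine ContinuousLinearMap.opNorm_le_bound _ hr fun y => ?_
  have h1 : ‖inner ℂ (S y) (S y)‖ ≤ r * ‖y‖ * ‖S y‖ := by
    refine le_of_tendsto (h (S y) y).norm ?_
    filter_upwards [hT] with i hi
    refine (norm_inner_le_norm _ _).trans ?_
    rw [mul_comm]
    gcongr
    exact ((T i).le_opNorm y).trans (by gcongr)
  rw [inner_self_eq_norm_sq_to_K] at h1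
  have h2 : ‖((‖S y‖ : ℂ)) ^ 2‖ = ‖S y‖ ^ 2 := by
    rw [norm_pow, Complex.norm_real, norm_norm]
  have h3 : ‖S y‖ ^ 2 ≤ r * ‖y‖ * ‖S y‖ := by
    rw [← h2]; exact h1
  by_cases h0 : ‖S y‖ = 0
  · rw [h0]; positivity
  have : 0 < ‖S y‖ := lt_of_le_of_ne (norm_nonneg _) (Ne.symm h0)
  rw [sq] at h3
  exact le_of_mul_le_mul_right h3 this

theorem WLim.unique {T : I → E →L[ℂ] E} {S S' : E →L[ℂ] E} (h : WLim 𝒰 T S) (h' : WLim 𝒰 T S') :
    S = S' := by
  ext y
  refine ext_inner_left ℂ fun x => ?_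
  exact tendsto_nhds_unique (h x y) (h' x y)

theorem WLim.add {T T' : I → E →L[ℂ] E} {S S' : E →L[ℂ] E} (h : WLim 𝒰 T S)
    (h' : WLim 𝒰 T' S') : WLim 𝒰 (fun i => T i + T' i) (S + S') := by
  intro x y
  have := (h x y).add (h' x y)
  simpa [inner_add_right] using this

theorem WLim.sub {T T' : I → E →L[ℂ] E} {S S' : E →L[ℂ] E} (h : WLim 𝒰 T S)
    (h' : WLim 𝒰 T' S') : WLim 𝒰 (fun i => T i - T' i) (S - S') := by
  intro x y
  have := (h x y).sub (h' x y)
  simpa [inner_sub_right] using this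

theorem WLim.smul {T : I → E →L[ℂ] E} {S : E →L[ℂ] E} (c : ℂ) (h : WLim 𝒰 T S) :
    WLim 𝒰 (fun i => c • T i) (c • S) := by
  intro x y
  have := (h x y).const_mul c
  simpa [inner_smul_right] using this

theorem WLim.star {T : I → E →L[ℂ] E} {S : E →L[ℂ] E} (h : WLim 𝒰 T S) :
    WLim 𝒰 (fun i => star (T i)) (star S) := by
  intro x y
  have := (Complex.continuous_conj.tendsto _).comp (h y x)
  simp only [ContinuousLinearMap.star_eq_adjoint, ContinuousLinearMap.adjoint_inner_right]
  rw [inner_conj_symm] at this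
  refine this.congr fun i => ?_
  simp only [Function.comp]
  exact inner_conj_symm _ _

theorem WLim.const (S : E →L[ℂ] E) : WLim 𝒰 (fun _ => S) S := fun _ _ => tendsto_const_nhds

theorem WLim.mul_left {T : I → E →L[ℂ] E} {S : E →L[ℂ] E} (R : E →L[ℂ] E) (h : WLim 𝒰 T S) :
    WLim 𝒰 (fun i => R * T i) (R * S) := by
  intro x y
  have := h (ContinuousLinearMap.adjoint R x) y
  simpa [ContinuousLinearMap.adjoint_inner_left] using this

theorem WLim.mul_right {T : I → E →L[ℂ] E} {S : E →L[ℂ] E} (R : E →L[ℂ] E) (h : WLim 𝒰 T S) :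
    WLim 𝒰 (fun i => T i * R) (S * R) := by
  intro x y
  have := h x (R y)
  simpa using this

/-- norm-null perturbations do not change the limit -/
theorem WLim.of_tendsto_zero {T : I → E →L[ℂ] E} (h : Tendsto (fun i => ‖T i‖) 𝒰 (𝓝 0)) :
    WLim 𝒰 T 0 := by
  intro x y
  simp only [ContinuousLinearMap.zero_apply, inner_zero_right]
  rw [tendsto_zero_iff_norm_tendsto_zero]
  refine squeeze_zero (fun _ => norm_nonneg _) (g := fun i => ‖x‖ * (‖T i‖ * ‖y‖)) ?_ ?_
  · intro i
    refine (norm_inner_le_norm _ _).trans ?_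
    gcongr
    exact (T i).le_opNorm y
  · have := (h.mul_const ‖y‖).const_mul ‖x‖
    simpa using this

theorem WLim.mem {M : VonNeumannAlgebra E} {T : I → E →L[ℂ] E} {S : E →L[ℂ] E} (h : WLim 𝒰 T S)
    (hT : ∀ᶠ i in 𝒰, T i ∈ M) : S ∈ M := by
  have hM : ∀ R : E →L[ℂ] E, (∀ y ∈ M.commutant, y * R = R * y) → R ∈ M := by
    intro R hR
    have : R ∈ M.commutant.commutant := by
      rw [VonNeumannAlgebra.mem_commutant_iff]
      exact hR
    rwa [VonNeumannAlgebra.commutant_commutant] at this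
  apply hM
  intro y hy
  have h1 : ∀ᶠ i in 𝒰, y * T i = T i * y := by
    filter_upwards [hT] with i hi
    exact ((VonNeumannAlgebra.mem_commutant_iff.mp hy) (T i) hi).symm
  refine (h.mul_left y).unique (S' := S * y) ?_
  intro a b
  refine (h.mul_right y a b).congr' ?_
  filter_upwards [h1] with i hi
  rw [hi]

end wlim

end Pool.Agent.H253.US
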