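import Pool.Agent.H253.US.Defs
import Pool.Agent.H253.US.Averaging
import Pool.Agent.H253.US.Wlim

/-!
# Ulam stability of nuclear C*-algebras (MP_a35bd4_an): definitions and basic facts
-/

set_option autoImplicit false
set_option linter.unusedSectionVars false
set_option linter.deprecated false

open scoped CStarAlgebra ComplexOrder

namespace Pool.Agent.H253.US

universe u v w



open scoped InnerProductSpace
open Filter Topology



/-- T6a: an operator almost commuting with `σ(A)` is close to one commuting with `σ(A)`. -/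
theorem avg_limit (A : Type u) [NonUnitalCStarAlgebra A] [PartialOrder A] [StarOrderedRing A]
    (hA : IsDecNuclear A) (K : Type w) [NormedAddCommGroup K] [InnerProductSpace ℂ K]
    [CompleteSpace K] (σ : A →⋆ₙₐ[ℂ] (K →L[ℂ] K))
    (hσ : ∀ T : K →L[ℂ] K, (∀ a, T * σ a = 0) → T = 0)
    (P₀ : K →L[ℂ] K) (hsa : star P₀ = P₀) (hn : ‖P₀‖ ≤ 1) (c : ℝ)
    (hc : ∀ a, ‖a‖ ≤ 1 → ‖σ a * P₀ - P₀ * σ a‖ ≤ c) :
    ∃ P : K →L[ℂ] K, star P = P ∧ ‖P‖ ≤ 1 ∧ (∀ a, σ a * P = P * σ a) ∧ ‖P - P₀‖ ≤ c ∧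
      ∀ U : K →L[ℂ] K, (∀ a, U * σ a = σ a * U) → U * P₀ = P₀ * U → U * P = P * U := by
  classical
  have hc0 : 0 ≤ c := (norm_nonneg _).trans (hc 0 (by simp))
  have hσn : ∀ a, ‖σ a‖ ≤ ‖a‖ := fun a => NonUnitalStarAlgHom.norm_apply_le σ a
  -- homogeneity
  have hhom : ∀ a, ‖σ a * P₀ - P₀ * σ a‖ ≤ c * ‖a‖ := by
    intro a
    by_cases h0 : a = 0
    · subst h0; simp
    have hpos : 0 < ‖a‖ := norm_pos_iff.mpr h0
    have h1 : ‖((‖a‖⁻¹ : ℝ) : ℂ) • a‖ ≤ 1 := by
      rw [norm_smul]; simp [hpos.ne']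
    have h2 := hc _ h1
    rw [map_smul, smul_mul_assoc, mul_smul_comm, ← smul_sub, norm_smul] at h2
    simp only [Complex.norm_real, norm_inv, norm_norm] at h2
    rw [inv_mul_le_iff₀ hpos] at h2
    linarith
  -- the averaging data
  have hav := fun i : Finset A × ℕ => averaging2.{u, w} A hA i.1 (1 / ((i.2 : ℝ) + 1)) (by positivity)
  choose κ fκ r hr using hav
  let E : ∀ i : Finset A × ℕ, (K →L[ℂ] K) → (K →L[ℂ] K) := fun i T =>
    ∑ k, star (σ (r i k)) * T * σ (r i k)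
  have hEn : ∀ i T, ‖E i T‖ ≤ ‖T‖ := by
    intro i T
    calc ‖E i T‖ ≤ ∑ k, ‖star (σ (r i k)) * T * σ (r i k)‖ := norm_sum_le _ _
      _ ≤ ∑ k, ‖r i k‖ ^ 2 * ‖T‖ := by
          refine Finset.sum_le_sum fun k _ => ?_
          calc ‖star (σ (r i k)) * T * σ (r i k)‖ ≤ ‖star (σ (r i k))‖ * ‖T‖ * ‖σ (r i k)‖ :=
                (norm_mul_le _ _).trans (by gcongr; exact norm_mul_le _ _)
            _ ≤ ‖r i k‖ * ‖T‖ * ‖r i k‖ := by
                rw [norm_star]
                gcongr <;> exact hσn _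
            _ = ‖r i k‖ ^ 2 * ‖T‖ := by ring
      _ = (∑ k, ‖r i k‖ ^ 2) * ‖T‖ := by rw [Finset.sum_mul]
      _ ≤ 1 * ‖T‖ := by gcongr; exact (hr i).1
      _ = ‖T‖ := one_mul _
  let 𝒰 : Ultrafilter (Finset A × ℕ) := Ultrafilter.of Filter.atTop
  have h𝒰 : (𝒰 : Filter (Finset A × ℕ)) ≤ Filter.atTop := Ultrafilter.of_le _
  -- eventually membership
  have hmem : ∀ x : A, ∀ᶠ i : Finset A × ℕ in 𝒰, x ∈ i.1 := by
    intro x
    refine h𝒰 ?_
    filter_upwards [Filter.eventually_ge_atTop (({x} : Finset A), 0)] with i hi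
    exact hi.1 (Finset.mem_singleton_self x)
  have heta : Filter.Tendsto (fun i : Finset A × ℕ => 1 / ((i.2 : ℝ) + 1)) 𝒰 (nhds 0) := by
    refine Filter.Tendsto.mono_left ?_ h𝒰
    have h1 : Filter.Tendsto (fun i : Finset A × ℕ => i.2) Filter.atTop Filter.atTop := by
      rw [← Filter.prod_atTop_atTop_eq]
      exact Filter.tendsto_snd
    exact tendsto_one_div_add_atTop_nhds_zero_nat.comp h1
  obtain ⟨P, hP⟩ := exists_wlim 𝒰 (fun i => E i P₀) 1 (fun i => (hEn i P₀).trans hn)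
  -- star-symmetry of the averages
  have hEstar : ∀ i, star (E i P₀) = E i P₀ := by
    intro i
    simp only [E, star_sum, star_mul, star_star, hsa, mul_assoc]
  -- (1)
  have hcomm : ∀ a, σ a * P = P * σ a := by
    intro a
    have h1 : WLim 𝒰 (fun i => σ a * E i P₀ - E i P₀ * σ a) (σ a * P - P * σ a) :=
      (hP.mul_left (σ a)).sub (hP.mul_right (σ a))
    have h2 : WLim 𝒰 (fun i => σ a * E i P₀ - E i P₀ * σ a) 0 := by
      refine WLim.of_tendsto_zero ?_
      refine squeeze_zero' (Filter.Eventually.of_forall fun _ => norm_nonneg _)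
        (g := fun i : Finset A × ℕ => 1 / ((i.2 : ℝ) + 1)) ?_ heta
      filter_upwards [hmem a] with i hi
      have h3 := (hr i).2.2 a hi K σ P₀
      refine h3.trans ?_
      have h4 : (0 : ℝ) ≤ 1 / ((i.2 : ℝ) + 1) := by positivity
      calc 1 / ((i.2 : ℝ) + 1) * ‖P₀‖ ≤ 1 / ((i.2 : ℝ) + 1) * 1 := by gcongr
        _ = _ := mul_one _
    exact sub_eq_zero.mp (h1.unique h2)
  -- (2)
  let e : ∀ i : Finset A × ℕ, A := fun i => ∑ k, star (r i k) * r i k
  have hen : ∀ i, ‖e i‖ ≤ 1 := by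
    intro i
    calc ‖e i‖ ≤ ∑ k, ‖star (r i k) * r i k‖ := norm_sum_le _ _
      _ ≤ ∑ k, ‖r i k‖ ^ 2 := by
          refine Finset.sum_le_sum fun k _ => ?_
          refine (norm_mul_le _ _).trans ?_
          rw [norm_star, sq]
      _ ≤ 1 := (hr i).1
  have hdiff : ∀ i, ‖E i P₀ - P₀ * σ (e i)‖ ≤ c := by
    intro i
    have h1 : E i P₀ - P₀ * σ (e i) =
        ∑ k, (σ (star (r i k)) * P₀ - P₀ * σ (star (r i k))) * σ (r i k) := by
      simp only [E, e, map_sum, map_mul, Finset.mul_sum, ← Finset.sum_sub_distrib, sub_mul,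
        ← map_star, mul_assoc]
    rw [h1]
    calc _ ≤ ∑ k, ‖(σ (star (r i k)) * P₀ - P₀ * σ (star (r i k))) * σ (r i k)‖ := norm_sum_le _ _
      _ ≤ ∑ k, c * ‖r i k‖ ^ 2 := by
          refine Finset.sum_le_sum fun k _ => ?_
          calc _ ≤ ‖σ (star (r i k)) * P₀ - P₀ * σ (star (r i k))‖ * ‖σ (r i k)‖ := norm_mul_le _ _
            _ ≤ (c * ‖star (r i k)‖) * ‖r i k‖ := by
                gcongr
                · exact hhom _
                · exact hσn _
            _ = c * ‖r i k‖ ^ 2 := by rw [norm_star]; ring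
      _ = c * ∑ k, ‖r i k‖ ^ 2 := by rw [Finset.mul_sum]
      _ ≤ c * 1 := by gcongr; exact (hr i).1
      _ = c := mul_one _
  -- (3)
  obtain ⟨R, hR⟩ := exists_wlim 𝒰 (fun i => σ (e i)) 1 (fun i => (hσn _).trans (hen i))
  have hR1 : R = 1 := by
    refine sub_eq_zero.mp (hσ (R - 1) fun a => ?_)
    have h1 : WLim 𝒰 (fun i => σ (e i) * σ a - σ a) (R * σ a - σ a) :=
      (hR.mul_right (σ a)).sub (WLim.const (σ a))
    have h2 : WLim 𝒰 (fun i => σ (e i) * σ a - σ a) 0 := by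
      refine WLim.of_tendsto_zero ?_
      refine squeeze_zero' (Filter.Eventually.of_forall fun _ => norm_nonneg _)
        (g := fun i : Finset A × ℕ => 1 / ((i.2 : ℝ) + 1)) ?_ heta
      filter_upwards [hmem a] with i hi
      have h3 := (hr i).2.1 a hi
      have h4 : σ (e i) * σ a - σ a = - σ (a - ∑ k, star (r i k) * r i k * a) := by
        simp only [e, map_sub, map_sum, map_mul, Finset.sum_mul, neg_sub]
      rw [h4, norm_neg]
      exact (hσn _).trans h3
    rw [sub_mul, one_mul]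
    exact h1.unique h2
  have hPc : ‖P - P₀‖ ≤ c := by
    have h1 : WLim 𝒰 (fun i => E i P₀ - P₀ * σ (e i)) (P - P₀ * R) :=
      hP.sub (hR.mul_left P₀)
    rw [hR1, mul_one] at h1
    exact h1.norm_le c hc0 (Filter.Eventually.of_forall hdiff)
  refine ⟨P, ?_, ?_, hcomm, hPc, ?_⟩
  · have h1 := hP.star
    simp only [hEstar] at h1
    exact h1.unique hP
  · exact hP.norm_le 1 zero_le_one (Filter.Eventually.of_forall fun i => (hEn i P₀).trans hn)
  · intro U hU hUP
    have h1 : ∀ i, U * E i P₀ = E i P₀ * U := by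
      intro i
      simp only [E, Finset.mul_sum, Finset.sum_mul, ← map_star]
      refine Finset.sum_congr rfl fun k _ => ?_
      calc U * (σ (star (r i k)) * P₀ * σ (r i k)) = (U * σ (star (r i k))) * P₀ * σ (r i k) := by
            simp only [mul_assoc]
        _ = σ (star (r i k)) * (U * P₀) * σ (r i k) := by rw [hU]; simp only [mul_assoc]
        _ = σ (star (r i k)) * P₀ * (U * σ (r i k)) := by rw [hUP]; simp only [mul_assoc]
        _ = _ := by rw [hU]; simp only [mul_assoc]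
    have h2 := hP.mul_left U
    have h3 := hP.mul_right U
    simp only [h1] at h2
    exact h2.unique h3

end Pool.Agent.H253.US
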