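import Pool.Agent.H253.US.Union

set_option autoImplicit false
set_option linter.unusedSectionVars false
set_option linter.deprecated false

open scoped CStarAlgebra ComplexOrder InnerProductSpace

namespace Pool.Agent.H253.US

universe u v w

section core

variable {A : Type u} [NonUnitalCStarAlgebra A] [PartialOrder A] [StarOrderedRing A]
variable {H : Type v} [NormedAddCommGroup H] [InnerProductSpace ℂ H] [CompleteSpace H]

/-- The real part of the quadratic form. -/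
noncomputable def Fq (φ : A → H →L[ℂ] H) (ξ : H) (a : A) : ℝ := (inner ℂ ξ (φ a ξ)).re

theorem re_inner_le (T : H →L[ℂ] H) (ξ : H) (hξ : ‖ξ‖ = 1) (r : ℝ) (hT : ‖T‖ ≤ r) :
    |(inner ℂ ξ (T ξ)).re| ≤ r := by
  have h1 : ‖inner ℂ ξ (T ξ)‖ ≤ ‖ξ‖ * ‖T ξ‖ := norm_inner_le_norm _ _
  have h2 : ‖T ξ‖ ≤ ‖T‖ * ‖ξ‖ := T.le_opNorm ξ
  rw [hξ] at h1 h2
  have h3 := Complex.abs_re_le_norm (inner ℂ ξ (T ξ))
  linarith

theorem re_inner_self (x : H) : (inner ℂ x x).re = ‖x‖ ^ 2 := by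
  have := @inner_self_eq_norm_sq ℂ H _ _ _ x
  simpa using this

variable {ε : ℝ} {φ : A → H →L[ℂ] H}

theorem norm_star_mul (h : IsEpsHom ε φ) (x y : A) (hx : ‖x‖ ≤ 1) (hy : ‖y‖ ≤ 1) :
    ‖star (φ x) * φ y - φ (star x * y)‖ ≤ 2 * ε := by
  have h1 := h.star x hx
  have h2 := h.mul (star x) y (by simpa using hx) hy
  have h3 := h.contr y hy
  have : star (φ x) * φ y - φ (star x * y) =
      -((φ (star x) - star (φ x)) * φ y) - (φ (star x * y) - φ (star x) * φ y) := by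
    noncomm_ring
  rw [this]
  refine (norm_sub_le _ _).trans ?_
  rw [norm_neg]
  have h4 : ‖(φ (star x) - star (φ x)) * φ y‖ ≤ ε * 1 :=
    (norm_mul_le _ _).trans (mul_le_mul h1 h3 (norm_nonneg _) h.eps_nonneg)
  linarith

theorem inner_Fq (h : IsEpsHom ε φ) (x y : A) (hx : ‖x‖ ≤ 1) (hy : ‖y‖ ≤ 1) (ξ : H)
    (hξ : ‖ξ‖ = 1) : |(inner ℂ (φ x ξ) (φ y ξ)).re - Fq φ ξ (star x * y)| ≤ 2 * ε := by
  have h1 : inner ℂ (φ x ξ) (φ y ξ) = inner ℂ ξ ((star (φ x) * φ y) ξ) := by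
    rw [ContinuousLinearMap.mul_apply, ContinuousLinearMap.star_eq_adjoint,
      ContinuousLinearMap.adjoint_inner_right]
  have h2 : (inner ℂ (φ x ξ) (φ y ξ)).re - Fq φ ξ (star x * y) =
      (inner ℂ ξ ((star (φ x) * φ y - φ (star x * y)) ξ)).re := by
    rw [ContinuousLinearMap.sub_apply, inner_sub_right, Complex.sub_re, h1]
    rfl
  rw [h2]
  exact re_inner_le _ ξ hξ _ (norm_star_mul h x y hx hy)

theorem norm_sq_Fq (h : IsEpsHom ε φ) (x : A) (hx : ‖x‖ ≤ 1) (ξ : H)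
    (hξ : ‖ξ‖ = 1) : |‖φ x ξ‖ ^ 2 - Fq φ ξ (star x * x)| ≤ 2 * ε := by
  have := inner_Fq h x x hx hx ξ hξ
  rwa [re_inner_self] at this

theorem Fq_add (h : IsEpsHom ε φ) (x y : A) (hx : ‖x‖ ≤ 1) (hy : ‖y‖ ≤ 1) (ξ : H)
    (hξ : ‖ξ‖ = 1) : |Fq φ ξ (x + y) - Fq φ ξ x - Fq φ ξ y| ≤ ε := by
  have h2 : Fq φ ξ (x + y) - Fq φ ξ x - Fq φ ξ y =
      (inner ℂ ξ ((φ (x + y) - φ x - φ y) ξ)).re := by
    rw [ContinuousLinearMap.sub_apply, ContinuousLinearMap.sub_apply, inner_sub_right,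
      inner_sub_right, Complex.sub_re, Complex.sub_re]
    rfl
  rw [h2]
  exact re_inner_le _ ξ hξ _ (h.add x y hx hy)

theorem Fq_sub (h : IsEpsHom ε φ) (x y : A) (hx : ‖x‖ ≤ 1) (hy : ‖y‖ ≤ 1) (ξ : H)
    (hξ : ‖ξ‖ = 1) : |Fq φ ξ (x - y) - Fq φ ξ x + Fq φ ξ y| ≤ 2 * ε := by
  have h2 : Fq φ ξ (x - y) - Fq φ ξ x + Fq φ ξ y =
      (inner ℂ ξ ((φ (x - y) - φ x + φ y) ξ)).re := by
    rw [ContinuousLinearMap.add_apply, ContinuousLinearMap.sub_apply, inner_add_right,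
      inner_sub_right, Complex.add_re, Complex.sub_re]
    rfl
  rw [h2]
  exact re_inner_le _ ξ hξ _ (h.sub x y hx hy)

theorem Fq_lip (h : IsEpsHom ε φ) (x y : A) (hx : ‖x‖ ≤ 1) (hy : ‖y‖ ≤ 1) (ξ : H)
    (hξ : ‖ξ‖ = 1) : |Fq φ ξ x - Fq φ ξ y| ≤ ‖x - y‖ + 10 * ε := by
  have h2 : Fq φ ξ x - Fq φ ξ y = (inner ℂ ξ ((φ x - φ y) ξ)).re := by
    rw [ContinuousLinearMap.sub_apply, inner_sub_right, Complex.sub_re]
    rfl
  rw [h2]
  exact re_inner_le _ ξ hξ _ (h.lip x y hx hy)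

theorem Fq_le (h : IsEpsHom ε φ) (x : A) (hx : ‖x‖ ≤ 1) (ξ : H)
    (hξ : ‖ξ‖ = 1) : |Fq φ ξ x| ≤ ‖x‖ + ε :=
  re_inner_le _ ξ hξ _ (h.norm_le x hx)

theorem Fq_nonneg (h : IsEpsHom ε φ) (x : A) (hx0 : 0 ≤ x) (hx : ‖x‖ ≤ 1) (ξ : H)
    (hξ : ‖ξ‖ = 1) : -(2 * ε) ≤ Fq φ ξ x := by
  have hs : star (CFC.sqrt x) = CFC.sqrt x := IsSelfAdjoint.of_nonneg (CFC.sqrt_nonneg x)
  have h1 : star (CFC.sqrt x) * CFC.sqrt x = x := by
    rw [hs, CFC.sqrt_mul_sqrt_self x hx0]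
  have h2 : ‖CFC.sqrt x‖ ≤ 1 := by
    have : ‖CFC.sqrt x‖ * ‖CFC.sqrt x‖ = ‖x‖ := by
      rw [← CStarRing.norm_star_mul_self, h1]
    nlinarith [norm_nonneg (CFC.sqrt x)]
  have h3 := norm_sq_Fq h (CFC.sqrt x) h2 ξ hξ
  rw [h1] at h3
  have := abs_le.mp h3
  nlinarith [sq_nonneg ‖φ (CFC.sqrt x) ξ‖]

theorem Fq_mono (h : IsEpsHom ε φ) (x y : A) (hx0 : 0 ≤ x) (hxy : x ≤ y) (hy : ‖y‖ ≤ 1) (ξ : H)
    (hξ : ‖ξ‖ = 1) : Fq φ ξ x ≤ Fq φ ξ y + 3 * ε := by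
  have hx : ‖x‖ ≤ 1 := (CStarAlgebra.norm_le_norm_of_nonneg_of_le hx0 hxy).trans hy
  have hd0 : 0 ≤ y - x := sub_nonneg.mpr hxy
  have hd : ‖y - x‖ ≤ 1 := (CStarAlgebra.norm_le_norm_of_nonneg_of_le hd0
    (sub_le_self y hx0)).trans hy
  have h1 := Fq_nonneg h (y - x) hd0 hd ξ hξ
  have h2 := Fq_add h x (y - x) hx hd ξ hξ
  rw [add_sub_cancel] at h2
  have := abs_le.mp h2
  linarith

/-- comparison of `φ b ξ` with `φ u ξ` -/
theorem dist_union (h : IsEpsHom ε φ) (b u : A) (hb0 : 0 ≤ b) (hb : ‖b‖ ≤ 1) (hu0 : 0 ≤ u)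
    (hu : ‖u‖ ≤ 1) (r : ℝ) (hr : ‖b - u * b‖ ≤ r) (ξ : H) (hξ : ‖ξ‖ = 1) :
    ‖φ b ξ - φ u ξ‖ ^ 2 ≤ Fq φ ξ u - Fq φ ξ b + 2 * r + 34 * ε := by
  have hbs : star b = b := IsSelfAdjoint.of_nonneg hb0
  have hus : star u = u := IsSelfAdjoint.of_nonneg hu0
  have e0 : ‖φ b ξ - φ u ξ‖ ^ 2 = ‖φ b ξ‖ ^ 2 + ‖φ u ξ‖ ^ 2 - 2 * (inner ℂ (φ b ξ) (φ u ξ)).re := by
    have := @norm_sub_sq ℂ H _ _ _ (φ b ξ) (φ u ξ)
    rw [this]
    simp only [RCLike.re_to_complex]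
    ring
  have h1 := abs_le.mp (norm_sq_Fq h b hb ξ hξ)
  have h2 := abs_le.mp (norm_sq_Fq h u hu ξ hξ)
  have h3 := abs_le.mp (inner_Fq h b u hb hu ξ hξ)
  rw [hbs] at h1 h3
  rw [hus] at h2
  have hbb : 0 ≤ b * b := by have := star_mul_self_nonneg b; rwa [hbs] at this
  have huu : 0 ≤ u * u := by have := star_mul_self_nonneg u; rwa [hus] at this
  have h4 := Fq_mono h (b * b) b hbb (mul_self_le_self b hb0 hb) hb ξ hξ
  have h5 := Fq_mono h (u * u) u huu (mul_self_le_self u hu0 hu) hu ξ hξ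
  have hbu : ‖b * u‖ ≤ 1 := (norm_mul_le _ _).trans (mul_le_one₀ hb (norm_nonneg _) hu)
  have h6 := abs_le.mp (Fq_lip h b (b * u) hb hbu ξ hξ)
  have h7 : ‖b - b * u‖ = ‖b - u * b‖ := by
    rw [← norm_star (b - b * u), star_sub, star_mul, hbs, hus]
  rw [h7] at h6
  rw [e0]
  linarith

theorem sum_dist_sq {ι : Type} [Fintype ι] (x : ι → H) :
    ∑ i, ∑ j, ‖x i - x j‖ ^ 2 = 2 * Fintype.card ι * ∑ i, ‖x i‖ ^ 2 - 2 * ‖∑ i, x i‖ ^ 2 := by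
  have h1 : ∀ i j, ‖x i - x j‖ ^ 2 = ‖x i‖ ^ 2 + ‖x j‖ ^ 2 - 2 * (inner ℂ (x i) (x j)).re := by
    intro i j
    have := @norm_sub_sq ℂ H _ _ _ (x i) (x j)
    rw [this]
    simp only [RCLike.re_to_complex]
    ring
  have h2 : ‖∑ i, x i‖ ^ 2 = ∑ i, ∑ j, (inner ℂ (x i) (x j)).re := by
    rw [← re_inner_self, sum_inner]
    simp only [inner_sum, Complex.re_sum]
  rw [h2]
  simp only [h1, Finset.sum_sub_distrib, Finset.sum_add_distrib, Finset.sum_const,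
    Finset.card_univ, nsmul_eq_mul, ← Finset.mul_sum]
  ring

/-- The norm of a sum of images of positive elements, from bounds of the numerical range. -/
theorem norm_sum_phi_le (h : IsEpsHom ε φ) {ι : Type} [Fintype ι] (b : ι → A)
    (hb0 : ∀ i, 0 ≤ b i) (hb : ∀ i, ‖b i‖ ≤ 1) (M : ℝ) (hM0 : 0 ≤ M)
    (hM : ∀ ζ : H, ‖ζ‖ = 1 → ∑ i, Fq φ ζ (b i) ≤ Fintype.card ι * M) :
    ‖∑ i, φ (b i)‖ ≤ Fintype.card ι * (M + 5 * ε) := by
  set N : ℝ := (Fintype.card ι : ℝ) with hN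
  have hN0 : 0 ≤ N := by positivity
  have he := h.eps_nonneg
  set Q : H →L[ℂ] H := ∑ i, φ (b i) with hQ
  set T : H →L[ℂ] H := (2⁻¹ : ℂ) • (Q + star Q) with hT
  have hTsa : star T = T := by
    rw [hT, star_smul, star_add, star_star, add_comm]
    simp
  have hQd : ‖Q - star Q‖ ≤ N * ε := by
    have : Q - star Q = ∑ i, (φ (b i) - star (φ (b i))) := by
      rw [hQ, star_sum, Finset.sum_sub_distrib]
    rw [this]
    refine (norm_sum_le _ _).trans ?_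
    have : ∀ i ∈ Finset.univ, ‖φ (b i) - star (φ (b i))‖ ≤ ε := by
      intro i _
      have := h.star (b i) (hb i)
      rwa [show star (b i) = b i from IsSelfAdjoint.of_nonneg (hb0 i)] at this
    refine (Finset.sum_le_card_nsmul _ _ _ this).trans ?_
    simp [hN]
  have hQT : ‖Q - T‖ ≤ N * ε := by
    have : Q - T = (2⁻¹ : ℂ) • (Q - star Q) := by
      rw [hT]
      module
    rw [this, norm_smul]
    norm_num
    nlinarith [norm_nonneg (Q - star Q)]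
  -- numerical range of T
  have hinner : ∀ ζ : H, (inner ℂ ζ (T ζ)).re = ∑ i, Fq φ ζ (b i) := by
    intro ζ
    have h1 : (inner ℂ ζ (Q ζ)).re = ∑ i, Fq φ ζ (b i) := by
      rw [hQ, ContinuousLinearMap.sum_apply, inner_sum, Complex.re_sum]
      rfl
    have h2 : (inner ℂ ζ ((star Q) ζ)).re = (inner ℂ ζ (Q ζ)).re := by
      rw [ContinuousLinearMap.star_eq_adjoint, ContinuousLinearMap.adjoint_inner_right,
        ← inner_conj_symm, Complex.conj_re]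
    rw [hT, ContinuousLinearMap.smul_apply, ContinuousLinearMap.add_apply, inner_smul_right,
      inner_add_right]
    have h3 : ((2⁻¹ : ℂ) * (inner ℂ ζ (Q ζ) + inner ℂ ζ ((star Q) ζ))).re =
        2⁻¹ * ((inner ℂ ζ (Q ζ)).re + (inner ℂ ζ ((star Q) ζ)).re) := by
      rw [show (2⁻¹ : ℂ) = ((2⁻¹ : ℝ) : ℂ) by push_cast; rfl, Complex.re_ofReal_mul, Complex.add_re]
    rw [h3, h2, h1]
    ring
  have hreal : ∀ ζ : H, ∀ r : ℝ, (∀ ζ' : H, ‖ζ'‖ = 1 → r ≤ (inner ℂ ζ' (T ζ')).re) →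
      r * ‖ζ‖ ^ 2 ≤ (inner ℂ ζ (T ζ)).re := by
    intro ζ r hr
    by_cases hz : ζ = 0
    · simp [hz]
    have hz' : 0 < ‖ζ‖ := norm_pos_iff.mpr hz
    have := hr (((‖ζ‖⁻¹ : ℝ) : ℂ) • ζ) (by rw [norm_smul]; simp [hz'.ne'])
    rw [map_smul, inner_smul_left, inner_smul_right, Complex.conj_ofReal, ← mul_assoc,
      ← Complex.ofReal_mul, Complex.re_ofReal_mul] at this
    have h4 : ‖ζ‖⁻¹ * ‖ζ‖⁻¹ * ‖ζ‖ ^ 2 = 1 := by field_simp
    calc r * ‖ζ‖ ^ 2 ≤ (‖ζ‖⁻¹ * ‖ζ‖⁻¹ * (inner ℂ ζ (T ζ)).re) * ‖ζ‖ ^ 2 := by gcongr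
      _ = (‖ζ‖⁻¹ * ‖ζ‖⁻¹ * ‖ζ‖ ^ 2) * (inner ℂ ζ (T ζ)).re := by ring
      _ = _ := by rw [h4, one_mul]
  have hlow : ∀ ζ : H, ‖ζ‖ = 1 → -(2 * ε * N) ≤ (inner ℂ ζ (T ζ)).re := by
    intro ζ hζ
    rw [hinner]
    have : ∑ i : ι, (-(2 * ε)) ≤ ∑ i, Fq φ ζ (b i) :=
      Finset.sum_le_sum fun i _ => Fq_nonneg h (b i) (hb0 i) (hb i) ζ hζ
    simp only [Finset.sum_const, Finset.card_univ, nsmul_eq_mul] at this
    rw [← hN] at this
    linarith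
  -- the positive operator T + 2 ε N
  set c : ℝ := 2 * ε * N with hc
  set P : H →L[ℂ] H := T + (c : ℂ) • (1 : H →L[ℂ] H) with hP
  have hPsa : star P = P := by
    rw [hP, star_add, hTsa, star_smul, star_one]
    simp
  have hPre : ∀ ζ : H, (inner ℂ ζ (P ζ)).re = (inner ℂ ζ (T ζ)).re + c * ‖ζ‖ ^ 2 := by
    intro ζ
    have e1 : P ζ = T ζ + (c : ℂ) • ζ := rfl
    rw [e1, inner_add_right, Complex.add_re, inner_smul_right, Complex.re_ofReal_mul,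
      re_inner_self]
  have hpos : ∀ R : H →L[ℂ] H, star R = R → (∀ ζ, 0 ≤ (inner ℂ ζ (R ζ)).re) → 0 ≤ R := by
    intro R hR hRe
    rw [ContinuousLinearMap.nonneg_iff_isPositive, ContinuousLinearMap.isPositive_def']
    refine ⟨hR, fun x => ?_⟩
    rw [ContinuousLinearMap.reApplyInnerSelf_apply]
    have := hRe x
    rw [← inner_conj_symm, Complex.conj_re] at this
    exact this
  have hP0 : 0 ≤ P := by
    refine hpos P hPsa fun ζ => ?_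
    rw [hPre]
    have := hreal ζ (-c) hlow
    nlinarith
  have hPle : P ≤ algebraMap ℝ (H →L[ℂ] H) (N * M + c) := by
    rw [← sub_nonneg]
    have e : algebraMap ℝ (H →L[ℂ] H) (N * M + c) =
        (((N * M + c : ℝ) : ℂ)) • (1 : H →L[ℂ] H) := by
      rw [Algebra.algebraMap_eq_smul_one]
      rfl
    refine hpos _ ?_ fun ζ => ?_
    · rw [star_sub, hPsa, e, star_smul, star_one]
      simp
    have e1 : (algebraMap ℝ (H →L[ℂ] H) (N * M + c) - P) ζ =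
        ((N * M + c : ℝ) : ℂ) • ζ - P ζ := by rw [e]; rfl
    rw [e1, inner_sub_right, Complex.sub_re, hPre, inner_smul_right, Complex.re_ofReal_mul,
      re_inner_self]
    have e3 : (inner ℂ ζ (T ζ)).re ≤ N * M * ‖ζ‖ ^ 2 := by
      by_cases hz : ζ = 0
      · simp [hz]
      have hz' : 0 < ‖ζ‖ := norm_pos_iff.mpr hz
      have h1 := hM (((‖ζ‖⁻¹ : ℝ) : ℂ) • ζ) (by rw [norm_smul]; simp [hz'.ne'])
      rw [← hinner, map_smul, inner_smul_left, inner_smul_right, Complex.conj_ofReal, ← mul_assoc,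
        ← Complex.ofReal_mul, Complex.re_ofReal_mul] at h1
      have h4 : ‖ζ‖⁻¹ * ‖ζ‖⁻¹ * ‖ζ‖ ^ 2 = 1 := by field_simp
      calc (inner ℂ ζ (T ζ)).re = (‖ζ‖⁻¹ * ‖ζ‖⁻¹ * ‖ζ‖ ^ 2) * (inner ℂ ζ (T ζ)).re := by
            rw [h4, one_mul]
        _ = (‖ζ‖⁻¹ * ‖ζ‖⁻¹ * (inner ℂ ζ (T ζ)).re) * ‖ζ‖ ^ 2 := by ring
        _ ≤ N * M * ‖ζ‖ ^ 2 := by gcongr
    nlinarith
  have hPn : ‖P‖ ≤ N * M + c :=
    (CStarAlgebra.norm_le_iff_le_algebraMap P (by positivity) hP0).mpr hPle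
  have hTn : ‖T‖ ≤ N * M + c + c := by
    have : T = P - (c : ℂ) • (1 : H →L[ℂ] H) := by rw [hP]; abel
    rw [this]
    refine (norm_sub_le _ _).trans (add_le_add hPn ?_)
    rw [norm_smul, Complex.norm_real, Real.norm_eq_abs, abs_of_nonneg (by positivity : 0 ≤ c)]
    have : ‖(1 : H →L[ℂ] H)‖ ≤ 1 := ContinuousLinearMap.norm_id_le
    nlinarith [norm_nonneg (1 : H →L[ℂ] H), (by positivity : 0 ≤ c)]
  calc ‖Q‖ = ‖(Q - T) + T‖ := by congr 1; abel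
    _ ≤ N * ε + (N * M + c + c) := (norm_add_le _ _).trans (add_le_add hQT hTn)
    _ = N * (M + 5 * ε) := by rw [hc]; ring

end core

end Pool.Agent.H253.US
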