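import Mathlib

/-!
# Ulam stability of nuclear C*-algebras (MP_a35bd4_an): definitions and basic facts
-/

set_option autoImplicit false

open scoped CStarAlgebra ComplexOrder

namespace Pool.Agent.H253.US

universe u v w

/-- `φ` is an `ε`-`*`-homomorphism (no linearity or continuity is assumed). -/
structure IsEpsHom {A : Type u} {B : Type v} [NonUnitalCStarAlgebra A] [NonUnitalCStarAlgebra B]
    (ε : ℝ) (φ : A → B) : Prop where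
  contr : ∀ a, ‖a‖ ≤ 1 → ‖φ a‖ ≤ 1
  add : ∀ a b, ‖a‖ ≤ 1 → ‖b‖ ≤ 1 → ‖φ (a + b) - φ a - φ b‖ ≤ ε
  mul : ∀ a b, ‖a‖ ≤ 1 → ‖b‖ ≤ 1 → ‖φ (a * b) - φ a * φ b‖ ≤ ε
  star : ∀ a, ‖a‖ ≤ 1 → ‖φ (star a) - star (φ a)‖ ≤ ε
  smul : ∀ a (z : ℂ), ‖a‖ ≤ 1 → ‖z‖ ≤ 1 → ‖φ (z • a) - z • φ a‖ ≤ ε

/-- The finite-dimensional C*-algebra `⊕_b M_{k b}(ℂ)`. -/
abbrev FD {n : ℕ} (k : Fin n → ℕ) : Type :=
  ∀ b : Fin n, CStarMatrix (Fin (k b)) (Fin (k b)) ℂ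

/-- A contractive completely positive map is of order zero if it preserves orthogonality of
positive elements. -/
structure IsOrderZero {A : Type u} {B : Type v} [NonUnitalCStarAlgebra A] [PartialOrder A]
    [StarOrderedRing A] [NonUnitalCStarAlgebra B] [PartialOrder B] [StarOrderedRing B]
    (θ : A →CP B) : Prop where
  contr : ∀ y, ‖θ y‖ ≤ ‖y‖
  orth : ∀ x y : A, 0 ≤ x → 0 ≤ y → x * y = 0 → θ x * θ y = 0

/-- Decomposable completely positive approximation property: the identity of `A` is a limit, in the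
point-norm topology, of averages of maps `θ i ∘ ψ i`, where `ψ i` is a completely positive
contraction of `A` to a finite-dimensional C*-algebra and `θ i` is a contractive order zero map of
that algebra to `A`. -/
def IsDecNuclear (A : Type u) [NonUnitalCStarAlgebra A] [PartialOrder A] [StarOrderedRing A] :
    Prop :=
  ∀ (X : Finset A) (η : ℝ), 0 < η → ∃ (N : ℕ) (n : Fin N → ℕ) (k : ∀ i, Fin (n i) → ℕ)
    (ψ : ∀ i, A →CP FD (k i)) (θ : ∀ i, FD (k i) →CP A),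
    0 < N ∧ (∀ i a, ‖ψ i a‖ ≤ ‖a‖) ∧ (∀ i, IsOrderZero (θ i)) ∧
    ∀ x ∈ X, ‖x - (N : ℂ)⁻¹ • ∑ i, θ i (ψ i x)‖ ≤ η

namespace IsEpsHom

section basic

variable {A : Type u} {B : Type v} [NonUnitalCStarAlgebra A] [NonUnitalCStarAlgebra B]
  {ε : ℝ} {φ : A → B}

theorem eps_nonneg (h : IsEpsHom ε φ) : 0 ≤ ε :=
  (norm_nonneg _).trans (h.add 0 0 (by simp) (by simp))

theorem zero (h : IsEpsHom ε φ) : ‖φ 0‖ ≤ ε := by
  have := h.add 0 0 (by simp) (by simp)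
  simpa using this

theorem neg (h : IsEpsHom ε φ) (a : A) (ha : ‖a‖ ≤ 1) : ‖φ (-a) + φ a‖ ≤ ε := by
  have := h.smul a (-1) ha (by simp)
  simpa using this

theorem sub (h : IsEpsHom ε φ) (a b : A) (ha : ‖a‖ ≤ 1) (hb : ‖b‖ ≤ 1) :
    ‖φ (a - b) - φ a + φ b‖ ≤ 2 * ε := by
  have h1 := h.add a (-b) ha (by simpa using hb)
  have h2 := h.neg b hb
  have : φ (a - b) - φ a + φ b = (φ (a + -b) - φ a - φ (-b)) + (φ (-b) + φ b) := by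
    rw [sub_eq_add_neg a b]; abel
  rw [this]
  calc _ ≤ _ := norm_add_le _ _
    _ ≤ 2 * ε := by linarith

/-- `‖φ z‖ ≤ ‖z‖ + ε` on the unit ball. -/
theorem norm_le (h : IsEpsHom ε φ) (z : A) (hz : ‖z‖ ≤ 1) : ‖φ z‖ ≤ ‖z‖ + ε := by
  by_cases h0 : z = 0
  · rw [h0]; simpa using h.zero
  have hz0 : 0 < ‖z‖ := norm_pos_iff.mpr h0
  have h1 : ‖((‖z‖⁻¹ : ℝ) : ℂ) • z‖ ≤ 1 := by
    rw [norm_smul]; simp [hz0.ne']
  have h2 := h.smul (((‖z‖⁻¹ : ℝ) : ℂ) • z) (‖z‖ : ℂ) h1 (by simpa using hz)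
  have h3 : (‖z‖ : ℂ) • (((‖z‖⁻¹ : ℝ) : ℂ) • z) = z := by
    rw [smul_smul, ← Complex.ofReal_mul, mul_inv_cancel₀ hz0.ne']; simp
  rw [h3] at h2
  have h4 := h.contr _ h1
  calc ‖φ z‖ = ‖(φ z - (‖z‖ : ℂ) • φ (((‖z‖⁻¹ : ℝ) : ℂ) • z)) +
        (‖z‖ : ℂ) • φ (((‖z‖⁻¹ : ℝ) : ℂ) • z)‖ := by congr 1; abel
    _ ≤ ε + ‖z‖ * 1 := by
        refine (norm_add_le _ _).trans (add_le_add h2 ?_)
        rw [norm_smul]
        simp only [Complex.norm_real, norm_norm]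
        gcongr
    _ = ‖z‖ + ε := by ring

theorem half (h : IsEpsHom ε φ) (a : A) (ha : ‖a‖ ≤ 1) :
    ‖φ ((2 : ℂ)⁻¹ • a) - (2 : ℂ)⁻¹ • φ a‖ ≤ ε :=
  h.smul a _ ha (by norm_num)

/-- near-Lipschitz property. -/
theorem lip (h : IsEpsHom ε φ) (a b : A) (ha : ‖a‖ ≤ 1) (hb : ‖b‖ ≤ 1) :
    ‖φ a - φ b‖ ≤ ‖a - b‖ + 10 * ε := by
  have h0 := h.eps_nonneg
  have ha' : ‖(2 : ℂ)⁻¹ • a‖ ≤ 1 := by
    rw [norm_smul]; norm_num; linarith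
  have hb' : ‖(2 : ℂ)⁻¹ • b‖ ≤ 1 := by
    rw [norm_smul]; norm_num; linarith
  have h1 := h.sub _ _ ha' hb'
  have h2 := h.half a ha
  have h3 := h.half b hb
  have hab : ‖(2 : ℂ)⁻¹ • a - (2 : ℂ)⁻¹ • b‖ = ‖a - b‖ / 2 := by
    rw [← smul_sub, norm_smul]; norm_num; ring
  have h4 := h.norm_le ((2 : ℂ)⁻¹ • a - (2 : ℂ)⁻¹ • b) (by
    rw [hab]
    have := norm_sub_le a b
    linarith)
  rw [hab] at h4
  have key : (2 : ℂ)⁻¹ • (φ a - φ b) = φ ((2 : ℂ)⁻¹ • a - (2 : ℂ)⁻¹ • b)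
      - (φ ((2 : ℂ)⁻¹ • a - (2 : ℂ)⁻¹ • b) - φ ((2 : ℂ)⁻¹ • a) + φ ((2 : ℂ)⁻¹ • b))
      - (φ ((2 : ℂ)⁻¹ • a) - (2 : ℂ)⁻¹ • φ a) + (φ ((2 : ℂ)⁻¹ • b) - (2 : ℂ)⁻¹ • φ b) := by
    rw [smul_sub]; abel
  have h5 : ‖(2 : ℂ)⁻¹ • (φ a - φ b)‖ ≤ (‖a - b‖ / 2 + ε) + 2 * ε + ε + ε := by
    rw [key]
    refine (norm_add_le _ _).trans (add_le_add ((norm_sub_le _ _).trans (add_le_add
      ((norm_sub_le _ _).trans (add_le_add h4 h1)) h2)) h3)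
  rw [norm_smul] at h5
  norm_num at h5
  linarith

end basic

end IsEpsHom

end Pool.Agent.H253.US
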