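import Pool.Agent.H253.US.Defs


/-!
# Ulam stability of nuclear C*-algebras (MP_a35bd4_an): definitions and basic facts
-/

set_option autoImplicit false
set_option linter.unusedSectionVars false

open scoped CStarAlgebra ComplexOrder

namespace Pool.Agent.H253.US

universe u v w




section Kaz

open MeasureTheory

variable {U : Type} [Group U] [TopologicalSpace U] [IsTopologicalGroup U] [CompactSpace U]
  [T2Space U] [SecondCountableTopology U] [MeasurableSpace U] [BorelSpace U]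
  {B : Type u} [CStarAlgebra B] (μ : Measure U) [IsProbabilityMeasure μ]

theorem kz_int {f : U → B} (hf : Continuous f) : Integrable f μ :=
  hf.integrable_of_hasCompactSupport (HasCompactSupport.of_compactSpace f)

theorem kz_norm {f : U → B} {c : ℝ} (h : ∀ u, ‖f u‖ ≤ c) : ‖∫ u, f u ∂μ‖ ≤ c := by
  have := norm_integral_le_of_norm_le_const (μ := μ) (Filter.Eventually.of_forall h)
  simpa using this

/-- one step of the averaging procedure -/
noncomputable def kz (p : U → B) : U → B := fun g => ∫ u, p (g * u) * Ring.inverse (p u) ∂μ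

theorem kz_inv_cont {p : U → B} (hp : Continuous p) (hu : ∀ u, IsUnit (p u)) :
    Continuous fun u => Ring.inverse (p u) := by
  rw [continuous_iff_continuousAt]
  intro u
  obtain ⟨x, hx⟩ := hu u
  have h1 : ContinuousAt Ring.inverse (p u) := by
    rw [← hx]
    exact NormedRing.inverse_continuousAt x
  exact ContinuousAt.comp h1 hp.continuousAt

theorem kz_cont {p : U → B} (hp : Continuous p) (hu : ∀ u, IsUnit (p u)) :
    Continuous (kz μ p) := by
  have hq := kz_inv_cont hp hu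
  have := continuous_parametric_integral_of_continuous (μ := μ) (X := U) (Y := U)
    (f := fun g u => p (g * u) * Ring.inverse (p u))
    ((hp.comp (continuous_fst.mul continuous_snd)).mul (hq.comp continuous_snd))
    (isCompact_univ (X := U))
  rw [Measure.restrict_univ] at this
  exact this

variable [μ.IsMulLeftInvariant]

theorem kz_step {p : U → B} (hp : Continuous p) (hu : ∀ u, IsUnit (p u))
    (hq : ∀ u, ‖Ring.inverse (p u)‖ ≤ 6 / 5) {d : ℝ} (hd0 : 0 ≤ d)
    (hd : ∀ u v, ‖p (u * v) - p u * p v‖ ≤ d) :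
    (∀ g, ‖kz μ p g - p g‖ ≤ 6 / 5 * d) ∧
    ∀ g h, ‖kz μ p (g * h) - kz μ p g * kz μ p h‖ ≤ 3 * d ^ 2 := by
  have hqc := kz_inv_cont hp hu
  obtain ⟨q, hqdef⟩ : ∃ q : U → B, q = fun u => Ring.inverse (p u) := ⟨_, rfl⟩
  have hqc' : Continuous q := by rw [hqdef]; exact hqc
  have hq' : ∀ u, ‖q u‖ ≤ 6 / 5 := by rw [hqdef]; exact hq
  have hpq : ∀ u, p u * q u = 1 := fun u => by
    rw [hqdef]; exact Ring.mul_inverse_cancel _ (hu u)
  have hqp : ∀ u, q u * p u = 1 := fun u => by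
    rw [hqdef]; exact Ring.inverse_mul_cancel _ (hu u)
  obtain ⟨D, hD⟩ : ∃ D : U → U → B, D = fun g u => p (g * u) * q u - p g := ⟨_, rfl⟩
  have hDc : ∀ g, Continuous (D g) := fun g => by rw [hD]; fun_prop
  have hDn : ∀ g u, ‖D g u‖ ≤ 6 / 5 * d := by
    intro g u
    have e : D g u = (p (g * u) - p g * p u) * q u := by
      rw [hD, sub_mul, mul_assoc, hpq, mul_one]
    rw [e]
    calc _ ≤ ‖p (g * u) - p g * p u‖ * ‖q u‖ := norm_mul_le _ _
      _ ≤ d * (6 / 5) := mul_le_mul (hd g u) (hq' u) (norm_nonneg _) hd0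
      _ = _ := by ring
  have hk : ∀ g, kz μ p g = p g + ∫ u, D g u ∂μ := by
    intro g
    have e1 : kz μ p g = ∫ u, (p g + D g u) ∂μ := by
      unfold kz
      refine integral_congr_ae (Filter.Eventually.of_forall fun u => ?_)
      simp only [hD, hqdef]
      abel
    rw [e1, integral_add (integrable_const _) (kz_int μ (hDc g))]
    simp
  refine ⟨fun g => ?_, fun g h => ?_⟩
  · rw [hk, add_sub_cancel_left]
    exact kz_norm μ (hDn g)
  · have hc1 : Continuous fun u => D g (h * u) := (hDc g).comp (continuous_const_mul h)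
    have e2 : kz μ p (g * h) = p g * p h + p g * (∫ u, D h u ∂μ) + (∫ u, D g u ∂μ) * p h +
        ∫ u, D g (h * u) * D h u ∂μ := by
      have e3 : kz μ p (g * h) = ∫ u, (p g * p h + p g * D h u + D g (h * u) * p h +
          D g (h * u) * D h u) ∂μ := by
        unfold kz
        refine integral_congr_ae (Filter.Eventually.of_forall fun u => ?_)
        have e4 : p g * p h + p g * D h u + D g (h * u) * p h + D g (h * u) * D h u =
            (p g + D g (h * u)) * (p h + D h u) := by noncomm_ring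
        show p (g * h * u) * Ring.inverse (p u) =
          p g * p h + p g * D h u + D g (h * u) * p h + D g (h * u) * D h u
        rw [e4]
        have e5 : p g + D g (h * u) = p (g * (h * u)) * q (h * u) := by
          simp only [hD]; abel
        have e6 : p h + D h u = p (h * u) * q u := by
          simp only [hD]; abel
        rw [e5, e6]
        calc p (g * h * u) * Ring.inverse (p u) = p (g * (h * u)) * (q (h * u) * p (h * u)) * q u := by
              rw [hqp, mul_one, mul_assoc g h u, hqdef]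
          _ = _ := by noncomm_ring
      rw [e3]
      have i1 : Integrable (fun u => p g * D h u) μ := kz_int μ (continuous_const.mul (hDc h))
      have i2 : Integrable (fun u => D g (h * u) * p h) μ := kz_int μ (hc1.mul continuous_const)
      have i3 : Integrable (fun u => D g (h * u) * D h u) μ := kz_int μ (hc1.mul (hDc h))
      have i0 : Integrable (fun _ : U => p g * p h) μ := integrable_const _
      have s1 : ∫ u, (p g * p h + p g * D h u + D g (h * u) * p h + D g (h * u) * D h u) ∂μ =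
          (∫ u, (p g * p h + p g * D h u + D g (h * u) * p h) ∂μ) +
          ∫ u, D g (h * u) * D h u ∂μ := integral_add ((i0.add i1).add i2) i3
      have s2 : ∫ u, (p g * p h + p g * D h u + D g (h * u) * p h) ∂μ =
          (∫ u, (p g * p h + p g * D h u) ∂μ) + ∫ u, D g (h * u) * p h ∂μ :=
        integral_add (i0.add i1) i2
      have s3 : ∫ u, (p g * p h + p g * D h u) ∂μ =
          (∫ _ : U, p g * p h ∂μ) + ∫ u, p g * D h u ∂μ := integral_add i0 i1
      have s4 : ∫ u, p g * D h u ∂μ = p g * ∫ u, D h u ∂μ :=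
        integral_const_mul_of_integrable (kz_int μ (hDc h))
      have s5 : ∫ u, D g (h * u) * p h ∂μ = (∫ u, D g (h * u) ∂μ) * p h :=
        integral_mul_const_of_integrable (kz_int μ hc1)
      have s6 : ∫ u, D g (h * u) ∂μ = ∫ u, D g u ∂μ :=
        integral_mul_left_eq_self (fun u => D g u) h
      rw [s1, s2, s3, s4, s5, s6]
      simp
    have e7 : kz μ p (g * h) - kz μ p g * kz μ p h = (∫ u, D g (h * u) * D h u ∂μ) -
        (∫ u, D g u ∂μ) * ∫ u, D h u ∂μ := by
      rw [e2, hk g, hk h]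
      noncomm_ring
    rw [e7]
    have n1 : ‖∫ u, D g (h * u) * D h u ∂μ‖ ≤ (6 / 5 * d) * (6 / 5 * d) :=
      kz_norm μ fun u => (norm_mul_le _ _).trans
        (mul_le_mul (hDn _ _) (hDn _ _) (norm_nonneg _) (by positivity))
    have n2 : ‖(∫ u, D g u ∂μ) * ∫ u, D h u ∂μ‖ ≤ (6 / 5 * d) * (6 / 5 * d) :=
      (norm_mul_le _ _).trans (mul_le_mul (kz_norm μ (hDn g)) (kz_norm μ (hDn h))
        (norm_nonneg _) (by positivity))
    have n3 := norm_sub_le (∫ u, D g (h * u) * D h u ∂μ) ((∫ u, D g u ∂μ) * ∫ u, D h u ∂μ)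
    nlinarith [sq_nonneg d]

/-- operators near an almost unitary are invertible -/
theorem kz_unit [Nontrivial B] {x y : B} {r : ℝ} (hr : r < 1) (hy : ‖y‖ ≤ 1)
    (h1 : ‖y * x - 1‖ ≤ r) (h2 : ‖x * y - 1‖ ≤ r) :
    IsUnit x ∧ ‖Ring.inverse x‖ * (1 - r) ≤ 1 := by
  have u1 : IsUnit (y * x) := by
    have h : ‖1 - y * x‖ < 1 := by rw [norm_sub_rev]; linarith
    have := (Units.oneSub (1 - y * x) h).isUnit
    simpa using this
  have u2 : IsUnit (x * y) := by
    have h : ‖1 - x * y‖ < 1 := by rw [norm_sub_rev]; linarith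
    have := (Units.oneSub (1 - x * y) h).isUnit
    simpa using this
  obtain ⟨a, ha⟩ := u1
  obtain ⟨b, hb⟩ := u2
  have l1 : ((a⁻¹ : Bˣ) : B) * y * x = 1 := by
    rw [mul_assoc, ← ha]; simp
  have r1 : x * (y * ((b⁻¹ : Bˣ) : B)) = 1 := by
    rw [← mul_assoc, ← hb]; simp
  have hlr : ((a⁻¹ : Bˣ) : B) * y = y * ((b⁻¹ : Bˣ) : B) := left_inv_eq_right_inv l1 r1
  have hx : IsUnit x := ⟨⟨x, y * ((b⁻¹ : Bˣ) : B), r1, by rw [← hlr]; exact l1⟩, rfl⟩
  refine ⟨hx, ?_⟩
  have e : Ring.inverse x = y - (y * x - 1) * Ring.inverse x := by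
    rw [sub_mul, mul_assoc, Ring.mul_inverse_cancel _ hx, mul_one, one_mul]
    abel
  have n1 : ‖Ring.inverse x‖ ≤ ‖y‖ + ‖(y * x - 1) * Ring.inverse x‖ := by
    conv_lhs => rw [e]
    exact norm_sub_le _ _
  have n2 : ‖(y * x - 1) * Ring.inverse x‖ ≤ r * ‖Ring.inverse x‖ :=
    (norm_mul_le _ _).trans (by gcongr)
  linarith

theorem kz_near [Nontrivial B] {p : U → B} {δ : ℝ} (hδ0 : 0 ≤ δ) (hδ : δ ≤ 1 / 100)
    (h1 : ∀ u, ‖p u‖ ≤ 1) (h3 : ∀ u, ‖star (p u) * p u - 1‖ ≤ δ)
    (h4 : ∀ u, ‖p u * star (p u) - 1‖ ≤ δ) {u : U} {x : B} (hx : ‖x - p u‖ ≤ 12 / 5 * δ) :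
    IsUnit x ∧ ‖Ring.inverse x‖ ≤ 6 / 5 := by
  have hs : ‖star (p u)‖ ≤ 1 := by rw [norm_star]; exact h1 u
  have a1 : ‖star (p u) * x - 1‖ ≤ 17 / 5 * δ := by
    have e : star (p u) * x - 1 = star (p u) * (x - p u) + (star (p u) * p u - 1) := by
      noncomm_ring
    rw [e]
    have n1 : ‖star (p u) * (x - p u)‖ ≤ 1 * (12 / 5 * δ) :=
      (norm_mul_le _ _).trans (mul_le_mul hs hx (norm_nonneg _) zero_le_one)
    have := norm_add_le (star (p u) * (x - p u)) (star (p u) * p u - 1)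
    have := h3 u
    linarith
  have a2 : ‖x * star (p u) - 1‖ ≤ 17 / 5 * δ := by
    have e : x * star (p u) - 1 = (x - p u) * star (p u) + (p u * star (p u) - 1) := by
      noncomm_ring
    rw [e]
    have n1 : ‖(x - p u) * star (p u)‖ ≤ (12 / 5 * δ) * 1 :=
      (norm_mul_le _ _).trans (mul_le_mul hx hs (norm_nonneg _) (by positivity))
    have := norm_add_le ((x - p u) * star (p u)) (p u * star (p u) - 1)
    have := h4 u
    linarith
  obtain ⟨b1, b2⟩ := kz_unit (r := 17 / 5 * δ) (by linarith) hs a1 a2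
  refine ⟨b1, ?_⟩
  by_contra hcon
  push Not at hcon
  nlinarith [norm_nonneg (Ring.inverse x)]

include μ in
theorem kz_limit [Nontrivial B] {p : U → B} {δ : ℝ} (hδ0 : 0 ≤ δ) (hδ : δ ≤ 1 / 100)
    (hp : Continuous p) (h1 : ∀ u, ‖p u‖ ≤ 1) (h2 : ∀ u v, ‖p (u * v) - p u * p v‖ ≤ δ)
    (h3 : ∀ u, ‖star (p u) * p u - 1‖ ≤ δ) (h4 : ∀ u, ‖p u * star (p u) - 1‖ ≤ δ) :
    ∃ ρ : U → B, Continuous ρ ∧ (∀ u v, ρ (u * v) = ρ u * ρ v) ∧ (∀ u, IsUnit (ρ u)) ∧
      ∀ u, ‖ρ u - p u‖ ≤ 12 / 5 * δ := by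
  obtain ⟨P, hP0, hP1⟩ : ∃ P : ℕ → U → B, P 0 = p ∧ ∀ n, P (n + 1) = kz μ (P n) :=
    ⟨fun n => (kz μ)^[n] p, rfl, fun n => Function.iterate_succ_apply' _ _ _⟩
  have hpow : ∀ n : ℕ, 0 < (1 / 2 : ℝ) ^ n ∧ (1 / 2 : ℝ) ^ n ≤ 1 := fun n =>
    ⟨by positivity, pow_le_one₀ (by norm_num) (by norm_num)⟩
  have inv : ∀ n : ℕ, Continuous (P n) ∧ (∀ u, ‖P n u - p u‖ ≤ 12 / 5 * δ * (1 - (1 / 2) ^ n)) ∧
      ∀ u v, ‖P n (u * v) - P n u * P n v‖ ≤ δ * (1 / 2) ^ n := by
    intro n
    induction n with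
    | zero =>
      rw [hP0]
      refine ⟨hp, fun u => by simp, fun u v => by simpa using h2 u v⟩
    | succ n ih =>
      obtain ⟨c1, c2, c3⟩ := ih
      have hle : ∀ u, ‖P n u - p u‖ ≤ 12 / 5 * δ := fun u => (c2 u).trans (by
        have := hpow n
        nlinarith)
      have hn := fun u => kz_near hδ0 hδ h1 h3 h4 (hle u)
      obtain ⟨d1, d2⟩ := kz_step μ c1 (fun u => (hn u).1) (fun u => (hn u).2)
        (d := δ * (1 / 2) ^ n) (by have := hpow n; positivity) c3
      refine ⟨?_, ?_, ?_⟩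
      · rw [hP1]
        exact kz_cont μ c1 fun u => (hn u).1
      · intro u
        rw [hP1]
        have e : kz μ (P n) u - p u = (kz μ (P n) u - P n u) + (P n u - p u) := by abel
        rw [e]
        refine (norm_add_le _ _).trans ((add_le_add (d1 u) (c2 u)).trans (le_of_eq ?_))
        rw [pow_succ]
        ring
      · intro u v
        rw [hP1]
        refine (d2 u v).trans ?_
        have e : (1 / 2 : ℝ) ^ (n + 1) = (1 / 2) ^ n * (1 / 2) := pow_succ _ _
        rw [e]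
        have := hpow n
        have h5 : 0 ≤ δ * (1 / 2) ^ n := by positivity
        have h6 : δ * (1 / 2) ^ n ≤ 1 / 100 := by nlinarith
        nlinarith
  have step : ∀ u n, dist (P n u) (P (n + 1) u) ≤ (12 / 5 * δ) / 2 / 2 ^ n := by
    intro u n
    obtain ⟨c1, c2, c3⟩ := inv n
    have hle : ∀ u, ‖P n u - p u‖ ≤ 12 / 5 * δ := fun u => (c2 u).trans (by
      have := hpow n
      nlinarith)
    have hn := fun u => kz_near hδ0 hδ h1 h3 h4 (hle u)
    obtain ⟨d1, d2⟩ := kz_step μ c1 (fun u => (hn u).1) (fun u => (hn u).2)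
      (d := δ * (1 / 2) ^ n) (by have := hpow n; positivity) c3
    rw [dist_comm, dist_eq_norm, hP1]
    refine (d1 u).trans (le_of_eq ?_)
    rw [one_div, inv_pow]
    ring
  have hlim : ∀ u, ∃ x, Filter.Tendsto (fun n => P n u) Filter.atTop (nhds x) := fun u =>
    cauchySeq_tendsto_of_complete (cauchySeq_of_le_geometric_two (step u))
  choose ρ hρ using hlim
  have hd : ∀ u n, dist (P n u) (ρ u) ≤ (12 / 5 * δ) / 2 ^ n := fun u n =>
    dist_le_of_le_geometric_two_of_tendsto (step u) (hρ u) n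
  have hclose : ∀ u, ‖ρ u - p u‖ ≤ 12 / 5 * δ := by
    intro u
    have := hd u 0
    rw [hP0, dist_comm, dist_eq_norm] at this
    simpa using this
  refine ⟨ρ, ?_, ?_, fun u => (kz_near hδ0 hδ h1 h3 h4 (hclose u)).1, hclose⟩
  · have hU : TendstoUniformly P ρ Filter.atTop := by
      rw [Metric.tendstoUniformly_iff]
      intro ε hε
      have h5 : Filter.Tendsto (fun n : ℕ => (12 / 5 * δ) * (1 / 2) ^ n) Filter.atTop
          (nhds ((12 / 5 * δ) * 0)) :=
        (tendsto_pow_atTop_nhds_zero_of_lt_one (by norm_num) (by norm_num)).const_mul _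
      rw [mul_zero] at h5
      filter_upwards [h5.eventually (gt_mem_nhds hε)] with n hn u
      rw [dist_comm]
      refine (hd u n).trans_lt ?_
      rw [one_div, inv_pow] at hn
      exact hn
    exact hU.continuous (Filter.Frequently.of_forall fun n => (inv n).1)
  · intro u v
    have t1 : Filter.Tendsto (fun n => P n (u * v) - P n u * P n v) Filter.atTop
        (nhds (ρ (u * v) - ρ u * ρ v)) := (hρ (u * v)).sub ((hρ u).mul (hρ v))
    have t2 : Filter.Tendsto (fun n => P n (u * v) - P n u * P n v) Filter.atTop (nhds 0) := by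
      rw [tendsto_zero_iff_norm_tendsto_zero]
      have h5 : Filter.Tendsto (fun n : ℕ => δ * (1 / 2) ^ n) Filter.atTop
          (nhds (δ * 0)) :=
        (tendsto_pow_atTop_nhds_zero_of_lt_one (by norm_num) (by norm_num)).const_mul _
      rw [mul_zero] at h5
      exact squeeze_zero (fun n => norm_nonneg _) (fun n => (inv n).2.2 u v) h5
    exact sub_eq_zero.mp (tendsto_nhds_unique t1 t2)

include μ in
theorem kz_unitary [Nontrivial B] {ρ : U → B} (hc : Continuous ρ)
    (hm : ∀ u v, ρ (u * v) = ρ u * ρ v) (hu : ∀ u, IsUnit (ρ u)) {ε : ℝ} (hε : ε ≤ 1 / 10)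
    (h : ∀ u, ‖ρ u * star (ρ u) - 1‖ ≤ ε) :
    ∃ σ : U →* unitary B, ∀ u, ‖(σ u : B) - ρ u‖ ≤ 10 * ε := by
  have hε0 : 0 ≤ ε := (norm_nonneg _).trans (h 1)
  have h1 : ρ 1 = 1 := by
    have := hm 1 1
    rw [mul_one] at this
    obtain ⟨x, hx⟩ := hu 1
    rw [← hx] at this ⊢
    have h2 := congrArg (fun y => ((x⁻¹ : Bˣ) : B) * y) this
    have h3 : ((x⁻¹ : Bˣ) : B) * (x : B) = ((x⁻¹ : Bˣ) : B) * ((x : B) * (x : B)) := h2
    rw [← mul_assoc, Units.inv_mul, one_mul] at h3
    exact h3.symm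
  obtain ⟨R, hR⟩ : ∃ R : B, R = ∫ u, ρ u * star (ρ u) ∂μ := ⟨_, rfl⟩
  have hRc : Continuous fun u => ρ u * star (ρ u) := hc.mul hc.star
  have hR1 : ‖R - 1‖ ≤ ε := by
    have e : R - 1 = ∫ u, (ρ u * star (ρ u) - 1) ∂μ := by
      rw [integral_sub (kz_int μ hRc) (integrable_const _), hR]
      simp
    rw [e]
    exact kz_norm μ h
  have hRs : IsSelfAdjoint R := by
    have e : star R = ∫ u, star (ρ u * star (ρ u)) ∂μ := by
      rw [hR]
      exact ((starL' ℝ : B ≃L[ℝ] B).integral_comp_comm _).symm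
    rw [isSelfAdjoint_iff, e, hR]
    simp
  have hRinv : ∀ g, ρ g * R * star (ρ g) = R := by
    intro g
    have e1 : ρ g * R = ∫ u, ρ g * (ρ u * star (ρ u)) ∂μ := by
      rw [hR]
      exact (integral_const_mul_of_integrable (kz_int μ hRc)).symm
    have e2 : ρ g * R * star (ρ g) = ∫ u, ρ g * (ρ u * star (ρ u)) * star (ρ g) ∂μ := by
      rw [e1]
      exact (integral_mul_const_of_integrable (kz_int μ (continuous_const.mul hRc))).symm
    rw [e2, hR, ← integral_mul_left_eq_self (fun u => ρ u * star (ρ u)) g]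
    refine integral_congr_ae (Filter.Eventually.of_forall fun u => ?_)
    simp only [hm, star_mul]
    noncomm_ring
  have hsp : ∀ x ∈ spectrum ℝ R, |x - 1| ≤ ε := by
    have e : cfc (fun x : ℝ => x - 1) R = R - 1 := by
      rw [cfc_sub (fun x : ℝ => x) (fun _ => (1 : ℝ)) R continuousOn_id continuousOn_const,
        cfc_id' ℝ R, cfc_const_one ℝ R]
    have h2 : ‖cfc (fun x : ℝ => x - 1) R‖ ≤ ε := by rw [e]; exact hR1
    intro x hx
    exact (norm_cfc_le_iff (fun x : ℝ => x - 1) R hε0).mp h2 x hx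
  have hpos : ∀ x ∈ spectrum ℝ R, 9 / 10 ≤ x ∧ x ≤ 11 / 10 := by
    intro x hx
    have := abs_le.mp (hsp x hx)
    constructor <;> linarith
  obtain ⟨S, hS⟩ : ∃ S : B, S = cfc (fun x : ℝ => √x) R := ⟨_, rfl⟩
  obtain ⟨T, hT⟩ : ∃ T : B, T = cfc (fun x : ℝ => (√x)⁻¹) R := ⟨_, rfl⟩
  have hSc : ContinuousOn (fun x : ℝ => √x) (spectrum ℝ R) := Real.continuous_sqrt.continuousOn
  have hTc : ContinuousOn (fun x : ℝ => (√x)⁻¹) (spectrum ℝ R) := by
    refine ContinuousOn.inv₀ (Real.continuous_sqrt.continuousOn) fun x hx => ?_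
    have := hpos x hx
    exact (Real.sqrt_pos.mpr (by linarith)).ne'
  have hSS : S * S = R := by
    rw [hS, ← cfc_mul (fun x : ℝ => √x) (fun x : ℝ => √x) R hSc hSc]
    conv_rhs => rw [← cfc_id' ℝ R]
    refine cfc_congr fun x hx => ?_
    have := hpos x hx
    exact Real.mul_self_sqrt (by linarith)
  have hST : S * T = 1 := by
    rw [hS, hT, ← cfc_mul (fun x : ℝ => √x) (fun x : ℝ => (√x)⁻¹) R hSc hTc]
    conv_rhs => rw [← cfc_one ℝ R]
    refine cfc_congr fun x hx => ?_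
    have := hpos x hx
    exact mul_inv_cancel₀ (Real.sqrt_pos.mpr (by linarith)).ne'
  have hTS : T * S = 1 := by
    rw [hS, hT, ← cfc_mul (fun x : ℝ => (√x)⁻¹) (fun x : ℝ => √x) R hTc hSc]
    conv_rhs => rw [← cfc_one ℝ R]
    refine cfc_congr fun x hx => ?_
    have := hpos x hx
    exact inv_mul_cancel₀ (Real.sqrt_pos.mpr (by linarith)).ne'
  have hSs : star S = S := by
    rw [hS]
    exact (cfc_predicate (R := ℝ) (p := IsSelfAdjoint) (fun x : ℝ => √x) R).star_eq
  have hTs : star T = T := by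
    rw [hT]
    exact (cfc_predicate (R := ℝ) (p := IsSelfAdjoint) (fun x : ℝ => (√x)⁻¹) R).star_eq
  have hS1 : ‖S - 1‖ ≤ ε := by
    have e : S - 1 = cfc (fun x : ℝ => √x - 1) R := by
      rw [cfc_sub (fun x : ℝ => √x) (fun _ => (1 : ℝ)) R hSc continuousOn_const, hS,
        cfc_const_one ℝ R]
    rw [e]
    refine norm_cfc_le hε0 fun x hx => ?_
    refine le_trans ?_ (hsp x hx)
    have h2 := hpos x hx
    have h3 : x - 1 = (√x - 1) * (√x + 1) := by
      have := Real.mul_self_sqrt (show 0 ≤ x by linarith)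
      linear_combination -this
    rw [h3, abs_mul, Real.norm_eq_abs]
    have h4 : (1 : ℝ) ≤ |√x + 1| := by
      rw [abs_of_nonneg (by positivity)]
      linarith [Real.sqrt_nonneg x]
    exact le_mul_of_one_le_right (abs_nonneg _) h4
  have hTn : ‖T‖ ≤ 2 := by
    rw [hT]
    refine norm_cfc_le (by norm_num) fun x hx => ?_
    have h2 := hpos x hx
    rw [Real.norm_eq_abs, abs_of_nonneg (by positivity)]
    have h3 : (1 / 2 : ℝ) ≤ √x := by
      refine Real.le_sqrt_of_sq_le ?_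
      linarith
    calc (√x)⁻¹ ≤ (1 / 2 : ℝ)⁻¹ := inv_anti₀ (by norm_num) h3
      _ = 2 := by norm_num
  obtain ⟨σ, hσ⟩ : ∃ σ : U → B, σ = fun g => T * ρ g * S := ⟨_, rfl⟩
  have hσm : ∀ u v, σ (u * v) = σ u * σ v := by
    intro u v
    rw [hσ]
    show T * ρ (u * v) * S = T * ρ u * S * (T * ρ v * S)
    calc T * ρ (u * v) * S = T * ρ u * 1 * ρ v * S := by rw [hm]; noncomm_ring
      _ = T * ρ u * (S * T) * ρ v * S := by rw [hST]
      _ = _ := by noncomm_ring
  have hσ1 : σ 1 = 1 := by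
    rw [hσ]
    show T * ρ 1 * S = 1
    rw [h1, mul_one, hTS]
  have hσs : ∀ g, σ g * star (σ g) = 1 := by
    intro g
    have e : σ g = T * ρ g * S := by rw [hσ]
    rw [e, star_mul, star_mul, hSs, hTs]
    calc T * ρ g * S * (S * (star (ρ g) * T)) = T * (ρ g * (S * S) * star (ρ g)) * T := by
          noncomm_ring
      _ = T * R * T := by rw [hSS, hRinv]
      _ = (T * S) * (S * T) := by rw [← hSS]; noncomm_ring
      _ = 1 := by rw [hST, hTS, one_mul]
  have hσs' : ∀ g, star (σ g) * σ g = 1 := by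
    intro g
    have e1 : σ g⁻¹ * σ g = 1 := by rw [← hσm, inv_mul_cancel, hσ1]
    have e2 := left_inv_eq_right_inv e1 (hσs g)
    rw [← e2, e1]
  refine ⟨⟨⟨fun g => ⟨σ g, Unitary.mem_iff.mpr ⟨hσs' g, hσs g⟩⟩, Subtype.ext hσ1⟩, fun u v =>
    Subtype.ext (hσm u v)⟩, fun g => ?_⟩
  show ‖σ g - ρ g‖ ≤ 10 * ε
  have hρn : ‖ρ g‖ ≤ 11 / 10 := by
    have h2 : ‖ρ g‖ * ‖ρ g‖ = ‖ρ g * star (ρ g)‖ := (CStarRing.norm_self_mul_star).symm
    have h3 : ‖ρ g * star (ρ g)‖ ≤ 11 / 10 := by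
      have e : ρ g * star (ρ g) = (ρ g * star (ρ g) - 1) + 1 := by abel
      rw [e]
      refine (norm_add_le _ _).trans ?_
      rw [norm_one]
      have := h g
      linarith
    by_contra hcon
    push Not at hcon
    nlinarith [norm_nonneg (ρ g)]
  have e : σ g - ρ g = T * (ρ g * (S - 1) - (S - 1) * ρ g) := by
    rw [hσ]
    show T * ρ g * S - ρ g = _
    calc T * ρ g * S - ρ g = T * ρ g * S - (T * S) * ρ g := by rw [hTS, one_mul]
      _ = _ := by noncomm_ring
  rw [e]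
  have n1 : ‖ρ g * (S - 1)‖ ≤ 11 / 10 * ε :=
    (norm_mul_le _ _).trans (mul_le_mul hρn hS1 (norm_nonneg _) (by norm_num))
  have n2 : ‖(S - 1) * ρ g‖ ≤ ε * (11 / 10) :=
    (norm_mul_le _ _).trans (mul_le_mul hS1 hρn (norm_nonneg _) hε0)
  have n3 := norm_sub_le (ρ g * (S - 1)) ((S - 1) * ρ g)
  have n4 : ‖T * (ρ g * (S - 1) - (S - 1) * ρ g)‖ ≤ 2 * (11 / 10 * ε + ε * (11 / 10)) :=
    (norm_mul_le _ _).trans (mul_le_mul hTn (n3.trans (add_le_add n1 n2)) (norm_nonneg _)
      (by norm_num))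
  linarith

end Kaz

/-- T1a. Approximate representations of compact groups are near representations. -/
theorem kazhdan : ∃ C : ℝ, 0 < C ∧ ∃ δ₀ : ℝ, 0 < δ₀ ∧
    ∀ (U : Type) [Group U] [TopologicalSpace U] [IsTopologicalGroup U] [CompactSpace U]
      [T2Space U] [SecondCountableTopology U] (B : Type u) [CStarAlgebra B] (δ : ℝ) (p : U → B),
      Continuous p → δ ≤ δ₀ → (∀ u, ‖p u‖ ≤ 1) → (∀ u v, ‖p (u * v) - p u * p v‖ ≤ δ) →
      (∀ u, ‖star (p u) * p u - 1‖ ≤ δ) → (∀ u, ‖p u * star (p u) - 1‖ ≤ δ) →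
      ∃ ρ : U →* unitary B, ∀ u, ‖(ρ u : B) - p u‖ ≤ C * δ := by
  classical
  refine ⟨100, by norm_num, 1 / 100, by norm_num, ?_⟩
  intro U _ _ _ _ _ _ B _ δ p hp hδ h1 h2 h3 h4
  rcases subsingleton_or_nontrivial B with hB | hB
  · refine ⟨1, fun u => ?_⟩
    have e : ‖((1 : U →* unitary B) u : B) - p u‖ = 0 := by
      rw [Subsingleton.elim (((1 : U →* unitary B) u : B) - p u) 0, norm_zero]
    rw [e]
    have := (norm_nonneg _).trans (h2 1 1)
    positivity
  have hδ0 : 0 ≤ δ := (norm_nonneg _).trans (h2 1 1)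
  borelize U
  let K : TopologicalSpace.PositiveCompacts U := ⟨⟨Set.univ, isCompact_univ⟩, by simp⟩
  let μ : MeasureTheory.Measure U := MeasureTheory.Measure.haarMeasure K
  have : MeasureTheory.IsProbabilityMeasure μ := ⟨by
    have := MeasureTheory.Measure.haarMeasure_self (K₀ := K)
    exact this⟩
  obtain ⟨ρ, r1, r2, r3, r4⟩ := kz_limit μ hδ0 hδ hp h1 h2 h3 h4
  have hρn : ∀ u, ‖ρ u‖ ≤ 2 := by
    intro u
    have e : ρ u = (ρ u - p u) + p u := by abel
    rw [e]
    refine (norm_add_le _ _).trans ?_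
    have := r4 u
    have := h1 u
    linarith
  have r5 : ∀ u, ‖ρ u * star (ρ u) - 1‖ ≤ 9 * δ := by
    intro u
    have e : ρ u * star (ρ u) - 1 = ρ u * star (ρ u - p u) + (ρ u - p u) * star (p u) +
        (p u * star (p u) - 1) := by
      rw [star_sub]
      noncomm_ring
    rw [e]
    have n1 : ‖ρ u * star (ρ u - p u)‖ ≤ 2 * (12 / 5 * δ) :=
      (norm_mul_le _ _).trans (mul_le_mul (hρn u) (by rw [norm_star]; exact r4 u)
        (norm_nonneg _) (by norm_num))
    have n2 : ‖(ρ u - p u) * star (p u)‖ ≤ (12 / 5 * δ) * 1 :=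
      (norm_mul_le _ _).trans (mul_le_mul (r4 u) (by rw [norm_star]; exact h1 u)
        (norm_nonneg _) (by positivity))
    have n3 := norm_add_le (ρ u * star (ρ u - p u) + (ρ u - p u) * star (p u))
      (p u * star (p u) - 1)
    have n4 := norm_add_le (ρ u * star (ρ u - p u)) ((ρ u - p u) * star (p u))
    have n5 := h4 u
    linarith
  obtain ⟨σ, hσ⟩ := kz_unitary μ r1 r2 r3 (ε := 9 * δ) (by linarith) r5
  refine ⟨σ, fun u => ?_⟩
  have e : (σ u : B) - p u = ((σ u : B) - ρ u) + (ρ u - p u) := by abel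
  rw [e]
  have := norm_add_le ((σ u : B) - ρ u) (ρ u - p u)
  have := hσ u
  have := r4 u
  linarith

end Pool.Agent.H253.US
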