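import Pool.Agent.H253.US.Defs


/-!
# Ulam stability of nuclear C*-algebras (MP_a35bd4_an): definitions and basic facts
-/

set_option autoImplicit false

open scoped CStarAlgebra ComplexOrder

namespace Pool.Agent.H253.US

universe u v w



namespace T1b

open Polynomial Complex

theorem mem_unitary_circle {F : Type u} [CStarAlgebra F] {e : F} (he : IsStarProjection e) {z : ℂ}
    (hz : ‖z‖ = 1) : 1 + (z - 1) • e ∈ unitary F := by
  have hee : e * e = e := he.isIdempotentElem
  have hse : star e = e := he.isSelfAdjoint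
  have hzz : z * star z = 1 := by
    rw [Complex.star_def, Complex.mul_conj, Complex.normSq_eq_norm_sq, hz]; simp
  have hzz' : star z * z = 1 := by rw [mul_comm]; exact hzz
  rw [Unitary.mem_iff]
  have hs : star (1 + (z - 1) • e) = 1 + (star z - 1) • e := by
    rw [star_add, star_one, star_smul, hse, star_sub, star_one]
  rw [hs]
  constructor
  · have : (1 + (star z - 1) • e) * (1 + (z - 1) • e) = 1 + (star z * z - 1) • e := by
      simp only [add_mul, mul_add, one_mul, mul_one, smul_mul_smul_comm, hee]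
      module
    rw [this, hzz', sub_self, zero_smul, add_zero]
  · have : (1 + (z - 1) • e) * (1 + (star z - 1) • e) = 1 + (z * star z - 1) • e := by
      simp only [add_mul, mul_add, one_mul, mul_one, smul_mul_smul_comm, hee]
      module
    rw [this, hzz, sub_self, zero_smul, add_zero]

/-- the circle of a projection -/
noncomputable def circ {F : Type u} [CStarAlgebra F] {e : F} (he : IsStarProjection e) {z : ℂ}
    (hz : ‖z‖ = 1) : unitary F := ⟨1 + (z - 1) • e, mem_unitary_circle he hz⟩

theorem circ_mul {F : Type u} [CStarAlgebra F] {e : F} (he : IsStarProjection e) {z w : ℂ}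
    (hz : ‖z‖ = 1) (hw : ‖w‖ = 1) (hzw : ‖z * w‖ = 1) :
    circ he hz * circ he hw = circ he hzw := by
  have hee : e * e = e := he.isIdempotentElem
  apply Subtype.ext
  show (1 + (z - 1) • e) * (1 + (w - 1) • e) = 1 + (z * w - 1) • e
  simp only [add_mul, mul_add, one_mul, mul_one, smul_mul_smul_comm, hee]
  module

theorem norm_unitary_le {B : Type u} [CStarAlgebra B] (u : unitary B) : ‖(u : B)‖ ≤ 1 := by
  rcases subsingleton_or_nontrivial B with h | h
  · rw [Subsingleton.elim (u : B) 0]; simp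
  · exact (CStarRing.norm_coe_unitary u).le

theorem circle_rigid {F B : Type*} [CStarAlgebra F] [CStarAlgebra B] (ρ : unitary F →* unitary B)
    {e : F} (he : IsStarProjection e) (q : B)
    (h : ∀ z : ℂ, ‖z‖ = 1 → ∀ u : unitary F, (u : F) = 1 + (z - 1) • e →
      ‖(ρ u : B) - (1 + (z - 1) • q)‖ ≤ 1 / 20) :
    ∃ P : B, IsStarProjection P ∧ ∀ z : ℂ, ‖z‖ = 1 → ∀ u : unitary F,
      (u : F) = 1 + (z - 1) • e → (ρ u : B) = 1 + (z - 1) • P := by
  have hm1 : ‖(-1 : ℂ)‖ = 1 := by simp
  set T : B := (ρ (circ he hm1) : B) with hT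
  have hTT : T * T = 1 := by
    have h1 : circ he hm1 * circ he hm1 = 1 := by
      rw [circ_mul he hm1 hm1 (by simp)]
      apply Subtype.ext
      show 1 + ((-1 : ℂ) * (-1) - 1) • e = 1
      simp
    have h2 : ρ (circ he hm1) * ρ (circ he hm1) = 1 := by rw [← map_mul, h1, map_one]
    have := congrArg (fun x : unitary B => (x : B)) h2
    simpa using this
  have hsT : star T = T := by
    have h3 : star T * T = 1 := Unitary.coe_star_mul_self (ρ (circ he hm1))
    calc star T = star T * (T * T) := by rw [hTT, mul_one]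
      _ = (star T * T) * T := by rw [mul_assoc]
      _ = T := by rw [h3, one_mul]
  set P : B := (2 : ℂ)⁻¹ • (1 - T) with hP
  have hPP : P * P = P := by
    rw [hP, smul_mul_smul_comm]
    have : (1 - T) * (1 - T) = (2 : ℂ) • (1 - T) := by
      rw [mul_sub, sub_mul, sub_mul, one_mul, mul_one, hTT, one_mul]
      module
    rw [this, smul_smul]
    norm_num
  have hsP : star P = P := by
    rw [hP, star_smul, star_sub, star_one, hsT]
    simp
  have hPpr : IsStarProjection P := ⟨hPP, hsP⟩
  refine ⟨P, hPpr, ?_⟩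
  have hqP : ‖q - P‖ ≤ 1 / 40 := by
    have h1 := h (-1) hm1 (circ he hm1) rfl
    have h2 : (ρ (circ he hm1) : B) - (1 + ((-1 : ℂ) - 1) • q) = (2 : ℂ) • (q - P) := by
      rw [← hT, hP]
      module
    rw [h2, norm_smul] at h1
    simp at h1
    linarith
  -- commutation
  have hcomm : ∀ z (hz : ‖z‖ = 1), (ρ (circ he hz) : B) * P = P * (ρ (circ he hz) : B) := by
    intro z hz
    have h1 : circ he hz * circ he hm1 = circ he hm1 * circ he hz := by
      rw [circ_mul he hz hm1 (by simp [hz]), circ_mul he hm1 hz (by simp [hz])]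
      apply Subtype.ext
      show 1 + (z * (-1) - 1) • e = 1 + ((-1) * z - 1) • e
      rw [mul_comm]
    have h2 : (ρ (circ he hz) : B) * T = T * (ρ (circ he hz) : B) := by
      have := congrArg (fun x : unitary F => (ρ x : B)) h1
      simpa using this
    rw [hP, mul_smul_comm, smul_mul_assoc, mul_sub, sub_mul, h2, one_mul, mul_one]
  have hbase : ∀ z (hz : ‖z‖ = 1),
      ‖(ρ (circ he hz) : B) * star (circ hPpr hz : B) - 1‖ ≤ 1 / 10 := by
      intro z hz
      have h1 : (ρ (circ he hz) : B) * star (circ hPpr hz : B) - 1 =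
          ((ρ (circ he hz) : B) - (circ hPpr hz : B)) * (star (circ hPpr hz) : unitary B) := by
        rw [sub_mul]
        simp
      rw [h1]
      have h2 : ‖(ρ (circ he hz) : B) - (circ hPpr hz : B)‖ ≤ 1 / 10 := by
        have h3 := h z hz (circ he hz) rfl
        have h4 : (ρ (circ he hz) : B) - (circ hPpr hz : B) =
            ((ρ (circ he hz) : B) - (1 + (z - 1) • q)) + (z - 1) • (q - P) := by
          show (ρ (circ he hz) : B) - (1 + (z - 1) • P) = _
          module
        rw [h4]
        have h5 : ‖(z - 1) • (q - P)‖ ≤ 2 * (1 / 40) := by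
          rw [norm_smul]
          have : ‖z - 1‖ ≤ 2 := by
            calc ‖z - 1‖ ≤ ‖z‖ + ‖(1 : ℂ)‖ := norm_sub_le _ _
              _ = 2 := by rw [hz]; norm_num
          exact mul_le_mul this hqP (norm_nonneg _) (by norm_num)
        calc _ ≤ _ := norm_add_le _ _
          _ ≤ 1 / 20 + 2 * (1 / 40) := add_le_add h3 h5
          _ = 1 / 10 := by norm_num
      calc _ ≤ _ := norm_mul_le _ _
        _ ≤ (1 / 10) * 1 := mul_le_mul h2 (norm_unitary_le _) (norm_nonneg _) (by norm_num)
        _ = _ := by norm_num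
  have hmain : ∀ n : ℕ, ∀ z (hz : ‖z‖ = 1),
      ‖(ρ (circ he hz) : B) * star (circ hPpr hz : B) - 1‖ ≤ (1 / 10) * (10 / 19 : ℝ) ^ n := by
    intro n
    induction n with
    | zero =>
      intro z hz
      simpa using hbase z hz
    | succ n ih =>
      intro z hz
      have hz2 : ‖z * z‖ = 1 := by rw [norm_mul, hz]; norm_num
      have h0 := hbase z hz
      set S : B := (ρ (circ he hz) : B) * star (circ hPpr hz : B) with hS
      have hSS : S * S = (ρ (circ he hz2) : B) * star (circ hPpr hz2 : B) := by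
        have c1 : (ρ (circ he hz) : B) * star (circ hPpr hz : B) =
            star (circ hPpr hz : B) * (ρ (circ he hz) : B) := by
          have : star (circ hPpr hz : B) = 1 + (star z - 1) • P := by
            show star (1 + (z - 1) • P) = _
            rw [star_add, star_one, star_smul, hsP, star_sub, star_one]
          rw [this, mul_add, add_mul, mul_one, one_mul, mul_smul_comm, smul_mul_assoc, hcomm]
        have c2 : (ρ (circ he hz2) : B) = (ρ (circ he hz) : B) * (ρ (circ he hz) : B) := by
          rw [← circ_mul he hz hz hz2, map_mul]; rfl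
        have c3 : (circ hPpr hz2 : B) = (circ hPpr hz : B) * (circ hPpr hz : B) := by
          rw [← circ_mul hPpr hz hz hz2]; rfl
        rw [c2, c3, star_mul]
        calc S * S = ((ρ (circ he hz) : B) * star (circ hPpr hz : B)) *
              ((ρ (circ he hz) : B) * star (circ hPpr hz : B)) := rfl
          _ = (ρ (circ he hz) : B) * (star (circ hPpr hz : B) *
              (ρ (circ he hz) : B)) * star (circ hPpr hz : B) := by simp only [mul_assoc]
          _ = (ρ (circ he hz) : B) * ((ρ (circ he hz) : B) * star (circ hPpr hz : B)) *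
              star (circ hPpr hz : B) := by rw [c1]
          _ = _ := by simp only [mul_assoc]
      have h1 := ih (z * z) hz2
      rw [← hSS] at h1
      have h2 : S * S - 1 = (S - 1) * (S - 1) + (2 : ℂ) • (S - 1) := by
        rw [mul_sub, sub_mul, sub_mul, one_mul, mul_one, one_mul]
        module
      have h3 : (2 : ℂ) • (S - 1) = (S * S - 1) - (S - 1) * (S - 1) := by rw [h2]; abel
      have h4 : 2 * ‖S - 1‖ ≤ ‖S * S - 1‖ + ‖S - 1‖ * ‖S - 1‖ := by
        have : ‖(2 : ℂ) • (S - 1)‖ = 2 * ‖S - 1‖ := by rw [norm_smul]; norm_num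
        rw [← this, h3]
        calc _ ≤ _ := norm_sub_le _ _
          _ ≤ _ := by gcongr; exact norm_mul_le _ _
      have h5 : ‖S - 1‖ * ‖S - 1‖ ≤ ‖S - 1‖ * (1 / 10) := by gcongr
      rw [pow_succ]
      nlinarith [norm_nonneg (S - 1)]
  intro z hz u hu
  have hu' : u = circ he hz := Subtype.ext hu
  have hlim : ‖(ρ (circ he hz) : B) * star (circ hPpr hz : B) - 1‖ ≤ 0 := by
    have ht : Filter.Tendsto (fun n : ℕ => (1 / 10) * (10 / 19 : ℝ) ^ n) Filter.atTop (nhds ((1 / 10) * 0)) :=
      (tendsto_pow_atTop_nhds_zero_of_lt_one (by norm_num) (by norm_num)).const_mul _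
    rw [mul_zero] at ht
    exact ge_of_tendsto' ht (fun n => hmain n z hz)
  have h0 : (ρ (circ he hz) : B) * star (circ hPpr hz : B) = 1 :=
    sub_eq_zero.mp (norm_le_zero_iff.mp hlim)
  rw [hu']
  show _ = (circ hPpr hz : B)
  calc (ρ (circ he hz) : B) = (ρ (circ he hz) : B) * (star (circ hPpr hz : B) * (circ hPpr hz : B)) := by
        rw [Unitary.coe_star_mul_self, mul_one]
    _ = _ := by rw [← mul_assoc, h0, one_mul]


/-- the conclusion of the first step, for all projections -/
def Circ {F B : Type*} [CStarAlgebra F] [CStarAlgebra B] (ρ : unitary F →* unitary B)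
    (P : F → B) : Prop :=
  ∀ e : F, IsStarProjection e → IsStarProjection (P e) ∧ ∀ z : ℂ, ‖z‖ = 1 → ∀ u : unitary F,
      (u : F) = 1 + (z - 1) • e → (ρ u : B) = 1 + (z - 1) • P e

section

variable {F B : Type*} [CStarAlgebra F] [CStarAlgebra B] {ρ : unitary F →* unitary B}
  {P : F → B}

theorem Circ.orth (hP : Circ ρ P) {e f : F} (he : IsStarProjection e) (hf : IsStarProjection f)
    (hef : e * f = 0) : P e * P f = 0 := by
  have hfe : f * e = 0 := by
    have := congrArg star hef
    rwa [star_mul, star_zero, he.isSelfAdjoint.star_eq, hf.isSelfAdjoint.star_eq] at this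
  have hsum : IsStarProjection (e + f) := he.add hf hef
  have key : ∀ z : ℂ, ‖z‖ = 1 → (z - 1) • P (e + f) =
      (z - 1) • (P e + P f) + ((z - 1) * (z - 1)) • (P e * P f) := by
    intro z hz
    have h1 := (hP e he).2 z hz (circ he hz) rfl
    have h2 := (hP f hf).2 z hz (circ hf hz) rfl
    have h3 := (hP (e + f) hsum).2 z hz (circ hsum hz) rfl
    have h4 : circ hsum hz = circ he hz * circ hf hz := by
      apply Subtype.ext
      show 1 + (z - 1) • (e + f) = (1 + (z - 1) • e) * (1 + (z - 1) • f)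
      simp only [add_mul, mul_add, one_mul, mul_one, smul_mul_smul_comm, hef]
      module
    have h5 : (ρ (circ hsum hz) : B) = (ρ (circ he hz) : B) * (ρ (circ hf hz) : B) := by
      rw [h4, map_mul]; rfl
    rw [h1, h2, h3] at h5
    have h6 : (1 + (z - 1) • P e) * (1 + (z - 1) • P f) =
        1 + ((z - 1) • (P e + P f) + ((z - 1) * (z - 1)) • (P e * P f)) := by
      simp only [add_mul, mul_add, one_mul, mul_one, smul_mul_smul_comm]
      module
    rw [h6] at h5
    exact add_left_cancel h5
  have k1 := key (-1) (by simp)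
  have k2 := key Complex.I (by simp)
  -- divide by `z - 1`
  have hI : (Complex.I - 1) ≠ 0 := by
    intro h
    have := congrArg Complex.im h
    simp at this
  have k1' : P (e + f) = (P e + P f) + ((-1 : ℂ) - 1) • (P e * P f) := by
    have : ((-1 : ℂ) - 1) ≠ 0 := by norm_num
    apply smul_right_injective B this
    simp only [smul_add, smul_smul] at k1 ⊢
    exact k1
  have k2' : P (e + f) = (P e + P f) + (Complex.I - 1) • (P e * P f) := by
    apply smul_right_injective B hI
    simp only [smul_add, smul_smul] at k2 ⊢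
    exact k2
  have k3 : ((-1 : ℂ) - 1) • (P e * P f) = (Complex.I - 1) • (P e * P f) := by
    have := k1'.symm.trans k2'
    exact add_left_cancel this
  have k4 : (Complex.I + 1) • (P e * P f) = 0 := by
    have : (Complex.I + 1) • (P e * P f) = (Complex.I - 1) • (P e * P f) -
      ((-1 : ℂ) - 1) • (P e * P f) := by module
    rw [this, k3, sub_self]
  have hI' : (Complex.I + 1) ≠ 0 := by
    intro h
    have := congrArg Complex.im h
    simp at this
  exact (smul_eq_zero.mp k4).resolve_left hI'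

theorem Circ.prod (hP : Circ ρ P) {ι : Type*} (s : Finset ι) (e : ι → F) (z : ι → ℂ)
    (he : ∀ i ∈ s, IsStarProjection (e i)) (hz : ∀ i ∈ s, ‖z i‖ = 1)
    (horth : ∀ i ∈ s, ∀ j ∈ s, i ≠ j → e i * e j = 0) :
    ∀ u : unitary F, (u : F) = 1 + ∑ i ∈ s, (z i - 1) • e i →
      (ρ u : B) = 1 + ∑ i ∈ s, (z i - 1) • P (e i) := by
  classical
  induction s using Finset.induction_on with
  | empty =>
    intro u hu
    have : u = 1 := Subtype.ext (by simpa using hu)
    rw [this]; simp
  | insert j s hj ih =>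
    intro u hu
    have hej := he j (Finset.mem_insert_self _ _)
    have hzj := hz j (Finset.mem_insert_self _ _)
    have he' : ∀ i ∈ s, IsStarProjection (e i) := fun i hi => he i (Finset.mem_insert_of_mem hi)
    have hz' : ∀ i ∈ s, ‖z i‖ = 1 := fun i hi => hz i (Finset.mem_insert_of_mem hi)
    have ho' : ∀ i ∈ s, ∀ k ∈ s, i ≠ k → e i * e k = 0 := fun i hi k hk =>
      horth i (Finset.mem_insert_of_mem hi) k (Finset.mem_insert_of_mem hk)
    have hji : ∀ i ∈ s, e j * e i = 0 := fun i hi =>
      horth j (Finset.mem_insert_self _ _) i (Finset.mem_insert_of_mem hi)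
        (fun h => hj (h ▸ hi))
    set w : unitary F := circ hej hzj with hw
    set v : unitary F := w⁻¹ * u with hv
    have huv : u = w * v := by rw [hv, mul_inv_cancel_left]
    rw [Finset.sum_insert hj] at hu ⊢
    have h1 : (u : F) = (w : F) * (1 + ∑ i ∈ s, (z i - 1) • e i) := by
      rw [hu]
      show _ = (1 + (z j - 1) • e j) * _
      rw [add_mul, one_mul, mul_add, mul_one, Finset.mul_sum]
      have : ∑ i ∈ s, (z j - 1) • e j * (z i - 1) • e i = 0 := by
        refine Finset.sum_eq_zero (fun i hi => ?_)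
        rw [smul_mul_smul_comm, hji i hi, smul_zero]
      rw [this]
      abel
    have h2 : (v : F) = 1 + ∑ i ∈ s, (z i - 1) • e i := by
      have : (v : F) = star (w : F) * (u : F) := rfl
      rw [this, h1, ← mul_assoc, Unitary.coe_star_mul_self, one_mul]
    have h3 := ih he' hz' ho' v h2
    have h4 := (hP _ hej).2 _ hzj w rfl
    have h5 : (ρ u : B) = (ρ w : B) * (ρ v : B) := by rw [huv, map_mul]; rfl
    rw [h5, h3, h4, add_mul, one_mul, mul_add, mul_one, Finset.mul_sum]
    have : ∑ i ∈ s, (z j - 1) • P (e j) * (z i - 1) • P (e i) = 0 := by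
      refine Finset.sum_eq_zero (fun i hi => ?_)
      rw [smul_mul_smul_comm, hP.orth hej (he' i hi) (hji i hi), smul_zero]
    rw [this]
    abel

end


theorem spectrum_finite {F : Type*} [CStarAlgebra F] [FiniteDimensional ℂ F] (a : F) :
    (spectrum ℂ a).Finite := by
  rcases subsingleton_or_nontrivial F with h | h
  · have : spectrum ℂ a = ∅ := by
      exact spectrum.of_subsingleton a
    rw [this]; exact Set.finite_empty
  · have hint : IsIntegral ℂ a := Algebra.IsIntegral.isIntegral a
    refine ((minpoly ℂ a).rootSet_finite ℂ).subset ?_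
    intro z hz
    rw [Polynomial.mem_rootSet]
    refine ⟨minpoly.ne_zero hint, ?_⟩
    have h1 := spectrum.subset_polynomial_aeval a (minpoly ℂ a) ⟨z, hz, rfl⟩
    rw [minpoly.aeval, spectrum.zero_eq] at h1
    simpa using h1

/-- spectral decomposition in a finite dimensional C*-algebra -/
theorem spectral {F : Type*} [CStarAlgebra F] [FiniteDimensional ℂ F] (a : F)
    (_ha : IsStarNormal a) :
    ∃ (s : Finset ℂ) (e : ℂ → F), (∀ l ∈ s, l ∈ spectrum ℂ a) ∧ (∀ l, IsStarProjection (e l)) ∧
      (∀ l m, l ≠ m → e l * e m = 0) ∧ ∀ f : ℂ → ℂ, cfc f a = ∑ l ∈ s, f l • e l := by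
  classical
  have hfin := spectrum_finite a
  have hc : ∀ f : ℂ → ℂ, ContinuousOn f (spectrum ℂ a) := fun f => hfin.continuousOn f
  refine ⟨hfin.toFinset, fun l => cfc (fun z : ℂ => if z = l then (1 : ℂ) else 0) a, ?_, ?_, ?_, ?_⟩
  · intro l hl
    simpa using hl
  · intro l
    refine ⟨?_, ?_⟩
    · show _ * _ = _
      rw [← cfc_mul _ _ a (hc _) (hc _)]
      congr 1
      ext z
      by_cases h : z = l <;> simp [h]
    · show star _ = _
      rw [← cfc_star]
      congr 1
      ext z
      by_cases h : z = l <;> simp [h]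
  · intro l m hlm
    show cfc _ a * cfc _ a = 0
    rw [← cfc_mul _ _ a (hc _) (hc _)]
    have : (fun z : ℂ => (if z = l then (1 : ℂ) else 0) * (if z = m then (1 : ℂ) else 0)) = 0 := by
      ext z
      by_cases h : z = l
      · subst h; simp [hlm]
      · simp [h]
    rw [this, cfc_zero]
  · intro f
    have h1 : ∀ l : ℂ, f l • cfc (fun z : ℂ => if z = l then (1 : ℂ) else 0) a =
        cfc (fun z : ℂ => f l • (if z = l then (1 : ℂ) else 0)) a := by
      intro l
      rw [cfc_smul (f l) _ a (hc _)]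
    simp only [h1]
    rw [← cfc_sum _ a _ (fun i _ => hc _)]
    refine cfc_congr ?_
    intro z hz
    simp only [Finset.sum_apply]
    simp [hz]

theorem mem_sphere_of_spectrum {F : Type*} [CStarAlgebra F] (u : unitary F) {l : ℂ}
    (hl : l ∈ spectrum ℂ (u : F)) : ‖l‖ = 1 := by
  have := Unitary.spectrum_subset_circle (𝕜 := ℂ) u hl
  simpa using this

section

variable {F B : Type*} [CStarAlgebra F] [FiniteDimensional ℂ F] [CStarAlgebra B]
  {ρ : unitary F →* unitary B} {P : F → B}

/-- the values on unitaries -/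
theorem Circ.onUnitary (hP : Circ ρ P) (u : unitary F) :
    ∃ (s : Finset ℂ) (e : ℂ → F), (∀ l ∈ s, ‖l‖ = 1) ∧ (∀ l ∈ s, ‖l - 1‖ ≤ ‖(u : F) - 1‖) ∧
      (∀ l, IsStarProjection (e l)) ∧
      (∀ l m, l ≠ m → e l * e m = 0) ∧ ∑ l ∈ s, e l = 1 ∧ (u : F) = ∑ l ∈ s, l • e l ∧
      (ρ u : B) = 1 + ∑ l ∈ s, (l - 1) • P (e l) := by
  have hn : IsStarNormal (u : F) := by infer_instance
  obtain ⟨s, e, h1, h2, h3, h4⟩ := spectral (u : F) hn
  have h5 : ∑ l ∈ s, e l = 1 := by
    have := h4 1
    rw [cfc_one ℂ (u : F)] at this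
    simpa using this.symm
  have h6 : (u : F) = ∑ l ∈ s, l • e l := by
    have := h4 id
    rw [cfc_id ℂ (u : F)] at this
    simpa using this
  refine ⟨s, e, fun l hl => mem_sphere_of_spectrum u (h1 l hl), ?_, h2, h3, h5, h6, ?_⟩
  · intro l hl
    rcases subsingleton_or_nontrivial F with h | h
    · have := h1 l hl
      rw [spectrum.of_subsingleton] at this
      exact absurd this (Set.notMem_empty _)
    · have h7 : l - 1 ∈ spectrum ℂ ((u : F) - algebraMap ℂ F 1) := by
        rw [← spectrum.sub_singleton_eq]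
        exact ⟨l, h1 l hl, 1, rfl, rfl⟩
      have h8 := spectrum.norm_le_norm_of_mem h7
      simpa using h8
  · refine hP.prod s e (fun l => l) (fun l _ => h2 l)
      (fun l hl => mem_sphere_of_spectrum u (h1 l hl)) (fun i _ j _ hij => h3 i j hij) u ?_
    simp only [sub_smul, one_smul, Finset.sum_sub_distrib, h5, ← h6]
    abel

end


section

variable {F B : Type*} [CStarAlgebra F] [CStarAlgebra B]
  {ρ : unitary F →* unitary B} {P : F → B}

/-- values on a partition of unity -/
theorem Circ.sum_one (hP : Circ ρ P) {ι : Type*} (s : Finset ι) (e : ι → F)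
    (he : ∀ i ∈ s, IsStarProjection (e i))
    (horth : ∀ i ∈ s, ∀ j ∈ s, i ≠ j → e i * e j = 0) (h1 : ∑ i ∈ s, e i = 1) :
    ∑ i ∈ s, P (e i) = P 1 := by
  have hm1 : ‖(-1 : ℂ)‖ = 1 := by simp
  have h2 := (hP 1 (.one F)).2 (-1) hm1 (circ (F := F) (.one F) hm1) rfl
  have h3 := hP.prod s e (fun _ => -1) he (fun _ _ => hm1) horth (circ (F := F) (.one F) hm1) (by
    show 1 + ((-1 : ℂ) - 1) • (1 : F) = _
    rw [← Finset.smul_sum, h1])
  rw [h2, ← Finset.smul_sum] at h3
  have h4 := add_left_cancel h3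
  have : ((-1 : ℂ) - 1) ≠ 0 := by norm_num
  exact (smul_right_injective B this h4).symm

theorem Circ.norm_le [FiniteDimensional ℂ F] (hP : Circ ρ P) (u : unitary F) :
    ‖(ρ u : B) - 1‖ ≤ ‖(u : F) - 1‖ := by
  let _ := CStarAlgebra.spectralOrder B
  have _ := CStarAlgebra.spectralOrderedRing B
  obtain ⟨s, e, h1, h2, h3, h4, h5, h6, h7⟩ := hP.onUnitary u
  set M : ℝ := ‖(u : F) - 1‖ with hM
  have hM0 : 0 ≤ M := norm_nonneg _
  set T : B := ∑ l ∈ s, (l - 1) • P (e l) with hT
  rw [h7, add_sub_cancel_left]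
  have hsum := hP.sum_one s e (fun l _ => h3 l) (fun i _ j _ hij => h4 i j hij) h5
  have hTT : star T * T = ∑ l ∈ s, ((‖l - 1‖ ^ 2 : ℝ) : ℂ) • P (e l) := by
    rw [hT, star_sum, Finset.sum_mul]
    refine Finset.sum_congr rfl (fun l hl => ?_)
    rw [Finset.mul_sum, Finset.sum_eq_single l]
    · rw [star_smul, smul_mul_smul_comm, (hP _ (h3 l)).1.isSelfAdjoint.star_eq,
        (hP _ (h3 l)).1.isIdempotentElem.eq, Complex.star_def, Complex.conj_mul']
      norm_cast
    · intro m hm hml
      rw [star_smul, smul_mul_smul_comm, (hP _ (h3 l)).1.isSelfAdjoint.star_eq,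
        hP.orth (h3 l) (h3 m) (h4 l m hml.symm), smul_zero]
    · intro h; exact absurd hl h
  have hle : star T * T ≤ ((M ^ 2 : ℝ) : ℂ) • (1 : B) := by
    have e1 : ((M ^ 2 : ℝ) : ℂ) • (1 : B) - star T * T =
        ∑ l ∈ s, (((M ^ 2 - ‖l - 1‖ ^ 2 : ℝ)) : ℂ) • P (e l) + ((M ^ 2 : ℝ) : ℂ) • (1 - P 1) := by
      rw [hTT, ← hsum, smul_sub, Finset.smul_sum]
      simp only [Complex.ofReal_sub, sub_smul, Finset.sum_sub_distrib]
      abel
    rw [← sub_nonneg, e1]
    refine add_nonneg (Finset.sum_nonneg (fun l hl => ?_)) ?_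
    · have hc : 0 ≤ M ^ 2 - ‖l - 1‖ ^ 2 := by
        have := h2 l hl
        nlinarith [norm_nonneg (l - 1)]
      rw [Complex.coe_smul]
      exact smul_nonneg hc (hP _ (h3 l)).1.nonneg
    · rw [Complex.coe_smul]
      exact smul_nonneg (by positivity) (hP 1 (.one F)).1.one_sub.nonneg
  have h8 := CStarAlgebra.norm_le_norm_of_nonneg_of_le (star_mul_self_nonneg T) hle
  rw [CStarRing.norm_star_mul_self] at h8
  have h9 : ‖((M ^ 2 : ℝ) : ℂ) • (1 : B)‖ ≤ M ^ 2 := by
    rcases subsingleton_or_nontrivial B with h | h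
    · rw [Subsingleton.elim (((M ^ 2 : ℝ) : ℂ) • (1 : B)) 0, norm_zero]; positivity
    · rw [norm_smul, norm_one, mul_one, Complex.norm_real, Real.norm_of_nonneg (by positivity)]
  nlinarith [norm_nonneg T]

end


section

variable {F B : Type*} [CStarAlgebra F] [CStarAlgebra B]
  {ρ : unitary F →* unitary B} {P : F → B}

open selfAdjoint

/-- derivative of the one parameter group -/
theorem hasDerivAt_expUnitary (x : selfAdjoint F) :
    HasDerivAt (fun t : ℝ => (expUnitary (t • x) : F)) (Complex.I • (x : F)) 0 := by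
  have h1 : HasDerivAt (fun t : ℝ => NormedSpace.exp (t • (Complex.I • (x : F))))
      (NormedSpace.exp ((0 : ℝ) • (Complex.I • (x : F))) * (Complex.I • (x : F))) 0 :=
    hasDerivAt_exp_smul_const (𝕂 := ℝ) (Complex.I • (x : F)) 0
  rw [zero_smul, NormedSpace.exp_zero, one_mul] at h1
  refine h1.congr_of_eventuallyEq (Filter.Eventually.of_forall (fun t => ?_))
  simp only [expUnitary_coe]
  congr 1
  show Complex.I • (t • (x : F)) = _
  rw [smul_comm]

theorem Circ.exists_deriv [FiniteDimensional ℂ F] (hP : Circ ρ P) (x : selfAdjoint F) :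
    ∃ X : B, HasDerivAt (fun t : ℝ => (ρ (expUnitary (t • x)) : B)) (Complex.I • X) 0 := by
  have hn : IsStarNormal (x : F) := x.2.isStarNormal
  obtain ⟨s, e, h1, h2, h3, h4⟩ := spectral (x : F) hn
  have hreal : ∀ l ∈ s, (l.re : ℂ) = l := fun l hl => by
    have := x.2.mem_spectrum_eq_re (h1 l hl)
    exact this.symm
  have h5 : ∑ l ∈ s, e l = 1 := by
    have := h4 1
    rw [cfc_one ℂ (x : F)] at this
    simpa using this.symm
  refine ⟨∑ l ∈ s, l • P (e l), ?_⟩
  have key : ∀ t : ℝ, (ρ (expUnitary (t • x)) : B) =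
      1 + ∑ l ∈ s, (Complex.exp (t * (Complex.I * l)) - 1) • P (e l) := by
    intro t
    refine hP.prod s e (fun l => Complex.exp (t * (Complex.I * l))) (fun l _ => h2 l) ?_
      (fun i _ j _ hij => h3 i j hij) _ ?_
    · intro l hl
      rw [← hreal l hl]
      have : (t : ℂ) * (Complex.I * (l.re : ℂ)) = ((t * l.re : ℝ) : ℂ) * Complex.I := by
        push_cast; ring
      rw [this, Complex.norm_exp_ofReal_mul_I]
    · simp only [sub_smul, one_smul, Finset.sum_sub_distrib, h5]
      have h6 : (expUnitary (t • x) : F) = cfc (fun l : ℂ => Complex.exp (t * (Complex.I * l))) (x : F) := by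
        rw [expUnitary_coe]
        have h7 : Complex.I • ((t • x : selfAdjoint F) : F) = ((t : ℂ) * Complex.I) • (x : F) := by
          show Complex.I • (t • (x : F)) = _
          rw [mul_smul, Complex.coe_smul, smul_comm]
        show NormedSpace.exp (Complex.I • ((t • x : selfAdjoint F) : F)) = _
        rw [h7, ← CFC.exp_eq_normedSpace_exp (𝕜 := ℂ), ← cfc_comp_smul ..]
        refine cfc_congr (fun z _ => ?_)
        simp only [smul_eq_mul, ← Complex.exp_eq_exp_ℂ]
        congr 1
        ring
      rw [h6, h4]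
      abel
  simp only [key]
  have hd : ∀ l : ℂ, HasDerivAt (fun t : ℝ => (Complex.exp (t * (Complex.I * l)) - 1) • P (e l))
      ((Complex.I * l) • P (e l)) 0 := by
    intro l
    have h8 : HasDerivAt (fun t : ℝ => Complex.exp ((t : ℂ) * (Complex.I * l))) (Complex.I * l) 0 := by
      have h9 : HasDerivAt (fun t : ℂ => Complex.exp (t * (Complex.I * l)))
          (Complex.exp ((0 : ℝ) * (Complex.I * l)) * (Complex.I * l)) ((0 : ℝ) : ℂ) := by
        have := ((hasDerivAt_id (((0 : ℝ) : ℂ))).mul_const (Complex.I * l)).cexp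
        simpa using this
      have := h9.comp_ofReal
      simpa using this
    exact (h8.sub_const 1).smul_const (P (e l))
  have h10 : HasDerivAt (fun t : ℝ => ∑ l ∈ s, (Complex.exp (t * (Complex.I * l)) - 1) • P (e l))
      (∑ l ∈ s, (Complex.I * l) • P (e l)) 0 := by
    exact HasDerivAt.fun_sum (fun l _ => hd l)
  have h11 := h10.const_add (1 : B)
  rw [Finset.smul_sum]
  simpa only [smul_smul] using h11


/-- `X` -/
noncomputable def Circ.X [FiniteDimensional ℂ F] (hP : Circ ρ P) (x : selfAdjoint F) : B :=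
  (hP.exists_deriv x).choose

theorem Circ.hasDerivAt [FiniteDimensional ℂ F] (hP : Circ ρ P) (x : selfAdjoint F) :
    HasDerivAt (fun t : ℝ => (ρ (expUnitary (t • x)) : B)) (Complex.I • hP.X x) 0 :=
  (hP.exists_deriv x).choose_spec

theorem Circ.X_eq [FiniteDimensional ℂ F] (hP : Circ ρ P) {x : selfAdjoint F} {X : B}
    (h : HasDerivAt (fun t : ℝ => (ρ (expUnitary (t • x)) : B)) (Complex.I • X) 0) :
    hP.X x = X := by
  have := (hP.hasDerivAt x).unique h
  exact smul_right_injective B Complex.I_ne_zero this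

theorem Circ.X_smul [FiniteDimensional ℂ F] (hP : Circ ρ P) (r : ℝ) (x : selfAdjoint F) :
    hP.X (r • x) = r • hP.X x := by
  apply hP.X_eq
  have h1 : HasDerivAt (fun t : ℝ => (ρ (expUnitary (t • x)) : B)) (Complex.I • hP.X x)
      ((fun t : ℝ => t * r) 0) := by simpa using hP.hasDerivAt x
  have h2 : HasDerivAt (fun t : ℝ => t * r) r 0 := by
    simpa using (hasDerivAt_id (0 : ℝ)).mul_const r
  have h3 := h1.scomp (0 : ℝ) h2
  have h4 : (fun t : ℝ => (ρ (expUnitary (t • r • x)) : B)) =
      (fun t : ℝ => (ρ (expUnitary (t • x)) : B)) ∘ (fun t : ℝ => t * r) := by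
    ext t
    simp [smul_smul]
  rw [h4, smul_comm]
  exact h3

theorem Circ.X_add [FiniteDimensional ℂ F] (hP : Circ ρ P) (x y : selfAdjoint F) :
    hP.X (x + y) = hP.X x + hP.X y := by
  set w : selfAdjoint F := (-1 : ℝ) • (x + y) with hw
  set γ : ℝ → unitary F := fun t => expUnitary (t • w) * expUnitary (t • x) * expUnitary (t • y)
    with hγ
  have h0 : γ 0 = 1 := by simp [hγ]
  have h1 : HasDerivAt (fun t : ℝ => (γ t : F)) 0 0 := by
    have := ((hasDerivAt_expUnitary w).mul (hasDerivAt_expUnitary x)).mul (hasDerivAt_expUnitary y)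
    have e1 : (fun t : ℝ => (γ t : F)) = ((fun t : ℝ => (expUnitary (t • w) : F)) *
        (fun t : ℝ => (expUnitary (t • x) : F))) * (fun t : ℝ => (expUnitary (t • y) : F)) := by
      ext t; rfl
    rw [e1]
    convert this using 1
    have e2 : (w : F) = -((x : F) + (y : F)) := by
      rw [hw]
      show (-1 : ℝ) • ((x : F) + (y : F)) = _
      rw [neg_smul, one_smul]
    simp only [Pi.mul_apply, zero_smul, expUnitary_zero, OneMemClass.coe_one, mul_one, one_mul, e2]
    module
  have h2 : HasDerivAt (fun t : ℝ => (ρ (γ t) : B)) (Complex.I • (hP.X w + hP.X x + hP.X y)) 0 := by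
    have := ((hP.hasDerivAt w).mul (hP.hasDerivAt x)).mul (hP.hasDerivAt y)
    have e1 : (fun t : ℝ => (ρ (γ t) : B)) = ((fun t : ℝ => (ρ (expUnitary (t • w)) : B)) *
        (fun t : ℝ => (ρ (expUnitary (t • x)) : B))) *
          (fun t : ℝ => (ρ (expUnitary (t • y)) : B)) := by
      ext t
      simp [hγ]
    rw [e1]
    convert this using 1
    simp only [Pi.mul_apply, zero_smul, expUnitary_zero, map_one, OneMemClass.coe_one, mul_one,
      one_mul]
    module
  have h3 : HasDerivAt (fun t : ℝ => (ρ (γ t) : B)) 0 0 := by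
    rw [hasDerivAt_iff_isLittleO_nhds_zero] at h1 ⊢
    simp only [zero_add, smul_zero, sub_zero, h0, map_one, OneMemClass.coe_one] at h1 ⊢
    refine Asymptotics.IsBigO.trans_isLittleO ?_ h1
    refine Asymptotics.IsBigO.of_bound 1 (Filter.Eventually.of_forall (fun t => ?_))
    rw [one_mul]
    exact hP.norm_le (γ t)
  have h4 := h2.unique h3
  have h5 : hP.X w + hP.X x + hP.X y = 0 :=
    (smul_eq_zero.mp h4).resolve_left Complex.I_ne_zero
  have h6 : hP.X w = - hP.X (x + y) := by
    rw [hw, hP.X_smul, neg_smul, one_smul]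
  rw [h6] at h5
  have : hP.X x + hP.X y - hP.X (x + y) = 0 := by rw [← h5]; abel
  exact (sub_eq_zero.mp this).symm

theorem Circ.X_proj [FiniteDimensional ℂ F] (hP : Circ ρ P) {e : F} (he : IsStarProjection e) :
    hP.X ⟨e, he.isSelfAdjoint⟩ = P e := by
  apply hP.X_eq
  set x : selfAdjoint F := ⟨e, he.isSelfAdjoint⟩ with hx
  have key : ∀ t : ℝ, (ρ (expUnitary (t • x)) : B) =
      1 + (Complex.exp (t * Complex.I) - 1) • P e := by
    intro t
    refine (hP e he).2 _ (by rw [Complex.norm_exp_ofReal_mul_I]) _ ?_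
    have h7 : Complex.I • ((t • x : selfAdjoint F) : F) = ((t : ℂ) * Complex.I) • e := by
      show Complex.I • (t • e) = _
      rw [mul_smul, Complex.coe_smul, smul_comm]
    show NormedSpace.exp (Complex.I • ((t • x : selfAdjoint F) : F)) = _
    rw [h7]
    have hn : IsStarNormal e := he.isStarNormal
    rw [← CFC.exp_eq_normedSpace_exp (𝕜 := ℂ), ← cfc_comp_smul ..]
    have h8 : cfc (fun z : ℂ => Complex.exp ((t : ℂ) * Complex.I * z)) e =
        cfc (fun z : ℂ => 1 + (Complex.exp (t * Complex.I) - 1) * z) e := by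
      refine cfc_congr (fun z hz => ?_)
      have h9 : z = 0 ∨ z = 1 := by
        have := he.isIdempotentElem.spectrum_subset ℂ hz
        simpa using this
      rcases h9 with h | h
      · simp [h]
      · simp [h]
    have h10 : cfc (fun z : ℂ => 1 + (Complex.exp (t * Complex.I) - 1) * z) e =
        1 + (Complex.exp (t * Complex.I) - 1) • e := by
      have hfin := (spectrum_finite e)
      rw [cfc_const_add (1 : ℂ) (fun z : ℂ => (Complex.exp (t * Complex.I) - 1) * z) e
        (hfin.continuousOn _), cfc_const_mul _ (fun z : ℂ => z) e (hfin.continuousOn _), cfc_id' ℂ e]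
      simp
    rw [← h10, ← h8]
    refine cfc_congr (fun z _ => ?_)
    simp only [smul_eq_mul, ← Complex.exp_eq_exp_ℂ]
  simp only [key]
  have h8 : HasDerivAt (fun t : ℝ => Complex.exp ((t : ℂ) * Complex.I)) Complex.I 0 := by
    have h9 : HasDerivAt (fun t : ℂ => Complex.exp (t * Complex.I))
        (Complex.exp ((0 : ℝ) * Complex.I) * Complex.I) ((0 : ℝ) : ℂ) := by
      have := ((hasDerivAt_id (((0 : ℝ) : ℂ))).mul_const Complex.I).cexp
      simpa using this
    have := h9.comp_ofReal
    simpa using this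
  exact (((h8.sub_const 1).smul_const (P e)).const_add 1)


/-- `X` as a real linear map -/
noncomputable def Circ.Xl [FiniteDimensional ℂ F] (hP : Circ ρ P) : selfAdjoint F →ₗ[ℝ] B where
  toFun := hP.X
  map_add' := hP.X_add
  map_smul' r x := hP.X_smul r x

/-- the complex linear extension -/
noncomputable def Circ.pi [FiniteDimensional ℂ F] (hP : Circ ρ P) : F →ₗ[ℂ] B where
  toFun a := hP.Xl (realPart a) + Complex.I • hP.Xl (imaginaryPart a)
  map_add' a b := by
    simp only [map_add, smul_add]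
    abel
  map_smul' z a := by
    have h1 : ∀ (r : ℝ) (a : F), hP.Xl (realPart ((r : ℂ) • a)) +
        Complex.I • hP.Xl (imaginaryPart ((r : ℂ) • a)) =
        (r : ℂ) • (hP.Xl (realPart a) + Complex.I • hP.Xl (imaginaryPart a)) := by
      intro r a
      rw [Complex.coe_smul, map_smul, map_smul, map_smul, map_smul, Complex.coe_smul, smul_add,
        smul_comm]
    have h2 : ∀ (a : F), hP.Xl (realPart (Complex.I • a)) +
        Complex.I • hP.Xl (imaginaryPart (Complex.I • a)) =
        Complex.I • (hP.Xl (realPart a) + Complex.I • hP.Xl (imaginaryPart a)) := by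
      intro a
      rw [realPart_I_smul, imaginaryPart_I_smul, map_neg, smul_add, smul_smul, Complex.I_mul_I,
        neg_smul, one_smul]
      abel
    have h3 : z • a = (z.re : ℂ) • a + (z.im : ℂ) • (Complex.I • a) := by
      rw [smul_smul, ← add_smul, Complex.re_add_im]
    have h4 : ∀ a b : F, hP.Xl (realPart (a + b)) + Complex.I • hP.Xl (imaginaryPart (a + b)) =
        (hP.Xl (realPart a) + Complex.I • hP.Xl (imaginaryPart a)) +
        (hP.Xl (realPart b) + Complex.I • hP.Xl (imaginaryPart b)) := by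
      intro a b
      simp only [map_add, smul_add]
      abel
    rw [h3, h4, h1, h1, h2, smul_smul, ← add_smul, Complex.re_add_im]
    rfl

theorem Circ.pi_proj [FiniteDimensional ℂ F] (hP : Circ ρ P) {e : F} (he : IsStarProjection e) :
    hP.pi e = P e := by
  show hP.X (realPart e) + Complex.I • hP.Xl (imaginaryPart e) = _
  have h1 : realPart e = ⟨e, he.isSelfAdjoint⟩ := Subtype.ext he.isSelfAdjoint.coe_realPart
  have h2 : imaginaryPart e = 0 := he.isSelfAdjoint.imaginaryPart
  rw [h1, h2, map_zero, smul_zero, add_zero, hP.X_proj he]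

theorem Circ.rho_eq [FiniteDimensional ℂ F] (hP : Circ ρ P) (u : unitary F) :
    (ρ u : B) = hP.pi u + 1 - hP.pi 1 := by
  obtain ⟨s, e, h1, h2, h3, h4, h5, h6, h7⟩ := hP.onUnitary u
  have h8 : hP.pi (u : F) = ∑ l ∈ s, l • P (e l) := by
    rw [h6, map_sum]
    exact Finset.sum_congr rfl (fun l _ => by rw [map_smul, hP.pi_proj (h3 l)])
  have h9 : hP.pi 1 = ∑ l ∈ s, P (e l) := by
    rw [← h5, map_sum]
    exact Finset.sum_congr rfl (fun l _ => by rw [hP.pi_proj (h3 l)])
  rw [h7, h8, h9]
  simp only [sub_smul, one_smul, Finset.sum_sub_distrib]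
  abel

theorem Circ.pi_mul_one [FiniteDimensional ℂ F] (hP : Circ ρ P) (u : unitary F) :
    hP.pi u * hP.pi 1 = hP.pi u ∧ hP.pi 1 * hP.pi u = hP.pi u := by
  obtain ⟨s, e, h1, h2, h3, h4, h5, h6, h7⟩ := hP.onUnitary u
  have h8 : hP.pi (u : F) = ∑ l ∈ s, l • P (e l) := by
    rw [h6, map_sum]
    exact Finset.sum_congr rfl (fun l _ => by rw [map_smul, hP.pi_proj (h3 l)])
  have h9 : hP.pi 1 = ∑ l ∈ s, P (e l) := by
    rw [← h5, map_sum]
    exact Finset.sum_congr rfl (fun l _ => by rw [hP.pi_proj (h3 l)])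
  constructor
  · rw [h8, h9, Finset.sum_mul]
    refine Finset.sum_congr rfl (fun l hl => ?_)
    rw [Finset.mul_sum, Finset.sum_eq_single l]
    · rw [smul_mul_assoc, (hP _ (h3 l)).1.isIdempotentElem.eq]
    · intro m hm hml
      rw [smul_mul_assoc, hP.orth (h3 l) (h3 m) (h4 l m hml.symm), smul_zero]
    · intro h; exact absurd hl h
  · rw [h8, h9, Finset.mul_sum]
    refine Finset.sum_congr rfl (fun l hl => ?_)
    rw [Finset.sum_mul, Finset.sum_eq_single l]
    · rw [mul_smul_comm, (hP _ (h3 l)).1.isIdempotentElem.eq]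
    · intro m hm hml
      rw [mul_smul_comm, hP.orth (h3 m) (h3 l) (h4 m l hml), smul_zero]
    · intro h; exact absurd hl h

theorem Circ.pi_mul_unitary [FiniteDimensional ℂ F] (hP : Circ ρ P) (u v : unitary F) :
    hP.pi ((u : F) * (v : F)) = hP.pi u * hP.pi v := by
  have h1 := hP.rho_eq (u * v)
  have h2 := hP.rho_eq u
  have h3 := hP.rho_eq v
  have h4 : (ρ (u * v) : B) = (ρ u : B) * (ρ v : B) := by rw [map_mul]; rfl
  have h5 : ((u * v : unitary F) : F) = (u : F) * (v : F) := rfl
  rw [h5] at h1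
  rw [h1, h2, h3] at h4
  obtain ⟨hu1, hu2⟩ := hP.pi_mul_one u
  obtain ⟨hv1, hv2⟩ := hP.pi_mul_one v
  have h11 : hP.pi 1 * hP.pi 1 = hP.pi 1 := (hP.pi_mul_one 1).1
  have h6 : (hP.pi u + 1 - hP.pi 1) * (hP.pi v + 1 - hP.pi 1) =
      hP.pi u * hP.pi v + 1 - hP.pi 1 := by
    have : (hP.pi u + 1 - hP.pi 1) * (hP.pi v + 1 - hP.pi 1) =
        hP.pi u * hP.pi v + hP.pi u - hP.pi u * hP.pi 1 + hP.pi v + 1 - hP.pi 1
          - hP.pi 1 * hP.pi v - hP.pi 1 + hP.pi 1 * hP.pi 1 := by
      noncomm_ring
    rw [this, hu1, hv2, h11]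
    abel
  rw [h6] at h4
  have h7 := sub_left_injective h4
  exact add_right_cancel h7

theorem Circ.pi_mul [FiniteDimensional ℂ F] (hP : Circ ρ P) (a b : F) :
    hP.pi (a * b) = hP.pi a * hP.pi b := by
  have ha : a ∈ Submodule.span ℂ (unitary F : Set F) := by
    rw [CStarAlgebra.span_unitary]; trivial
  have hb : b ∈ Submodule.span ℂ (unitary F : Set F) := by
    rw [CStarAlgebra.span_unitary]; trivial
  induction ha using Submodule.span_induction with
  | mem x hx =>
    induction hb using Submodule.span_induction with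
    | mem y hy => exact hP.pi_mul_unitary ⟨x, hx⟩ ⟨y, hy⟩
    | zero => simp
    | add y z _ _ h1 h2 => rw [mul_add, map_add, map_add, h1, h2, mul_add]
    | smul c y _ h1 => rw [mul_smul_comm, map_smul, map_smul, h1, mul_smul_comm]
  | zero => simp
  | add y z _ _ h1 h2 => rw [add_mul, map_add, map_add, h1, h2, add_mul]
  | smul c y _ h1 => rw [smul_mul_assoc, map_smul, map_smul, h1, smul_mul_assoc]

theorem Circ.pi_star [FiniteDimensional ℂ F] (hP : Circ ρ P) (a : F) :
    hP.pi (star a) = star (hP.pi a) := by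
  have ha : a ∈ Submodule.span ℂ (unitary F : Set F) := by
    rw [CStarAlgebra.span_unitary]; trivial
  induction ha using Submodule.span_induction with
  | mem x hx =>
    have h1 := hP.rho_eq ⟨x, hx⟩
    have h2 := hP.rho_eq (⟨x, hx⟩ : unitary F)⁻¹
    have h3 : (((⟨x, hx⟩ : unitary F)⁻¹ : unitary F) : F) = star x := rfl
    have h4 : (ρ (⟨x, hx⟩ : unitary F)⁻¹ : B) = star (ρ ⟨x, hx⟩ : B) := by
      rw [map_inv]; rfl
    rw [h3, h4, h1] at h2
    have h5 : star (hP.pi 1) = hP.pi 1 := by
      rw [hP.pi_proj (.one F)]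
      exact (hP 1 (.one F)).1.isSelfAdjoint
    rw [star_sub, star_add, star_one, h5] at h2
    exact (add_right_cancel (sub_left_injective h2)).symm
  | zero => simp
  | add y z _ _ h1 h2 => rw [star_add, map_add, map_add, h1, h2, star_add]
  | smul c y _ h1 => rw [star_smul, map_smul, map_smul, h1, star_smul]

end

end T1b

/-- T1b. Rigidity. -/
theorem rigidity (F : Type) [CStarAlgebra F] [FiniteDimensional ℂ F] (B : Type u) [CStarAlgebra B]
    (ρ : unitary F →* unitary B) (q : F → B)
    (h : ∀ e : F, IsStarProjection e → ∀ z : ℂ, ‖z‖ = 1 → ∀ u : unitary F,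
      (u : F) = 1 + (z - 1) • e → ‖(ρ u : B) - (1 + (z - 1) • q e)‖ ≤ 1 / 20) :
    ∃ π : F →⋆ₙₐ[ℂ] B, ∀ u : unitary F, (ρ u : B) = π u + 1 - π 1 := by
  classical
  have h1 : ∀ e : F, ∃ P : B, IsStarProjection e → IsStarProjection P ∧ ∀ z : ℂ, ‖z‖ = 1 →
      ∀ u : unitary F, (u : F) = 1 + (z - 1) • e → (ρ u : B) = 1 + (z - 1) • P := by
    intro e
    by_cases he : IsStarProjection e
    · obtain ⟨P, hP⟩ := T1b.circle_rigid ρ he (q e) (h e he)
      exact ⟨P, fun _ => hP⟩
    · exact ⟨0, fun h => absurd h he⟩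
  choose P hP using h1
  have hC : T1b.Circ ρ P := hP
  refine ⟨{ toFun := hC.pi, map_smul' := fun c a => map_smul hC.pi c a, map_zero' := map_zero _,
            map_add' := map_add _, map_mul' := hC.pi_mul, map_star' := hC.pi_star }, ?_⟩
  exact fun u => hC.rho_eq u

end Pool.Agent.H253.US
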