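import Pool.Agent.H253.US.Defs
import Pool.Agent.H253.US.Kazhdan
import Pool.Agent.H253.US.Rigidity

/-!
# Ulam stability of nuclear C*-algebras (MP_a35bd4_an): definitions and basic facts
-/

set_option autoImplicit false

open scoped CStarAlgebra ComplexOrder

namespace Pool.Agent.H253.US

universe u v w



namespace T1c

open Metric Filter Topology

section

variable {F : Type} [CStarAlgebra F] {B : Type u} [CStarAlgebra B] {ε : ℝ} {φ : F → B}

theorem one_le : ‖(1 : F)‖ ≤ 1 := by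
  rcases subsingleton_or_nontrivial F with h | h
  · rw [Subsingleton.elim (1 : F) 0, norm_zero]; exact zero_le_one
  · rw [CStarRing.norm_one]

theorem unitary_le (u : unitary F) : ‖(u : F)‖ ≤ 1 := by
  rcases subsingleton_or_nontrivial F with h | h
  · rw [Subsingleton.elim (u : F) 0, norm_zero]; exact zero_le_one
  · exact (CStarRing.norm_coe_unitary u).le

/-- a continuous approximation of `φ` on the unitary group -/
theorem exists_cont [FiniteDimensional ℂ F] (h : IsEpsHom ε φ) :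
    ∃ g : unitary F → B, Continuous g ∧ ∀ u, ‖g u - φ u‖ ≤ 12 * ε := by
  have h0 := h.eps_nonneg
  rcases h0.eq_or_lt with h1 | h1
  · refine ⟨fun u => φ u, ?_, fun u => by simp [← h1]⟩
    rw [Metric.continuous_iff]
    intro u r hr
    refine ⟨r, hr, fun v hv => ?_⟩
    have h2 := h.lip v u (unitary_le v) (unitary_le u)
    rw [← h1, mul_zero, add_zero] at h2
    rw [dist_eq_norm]
    refine lt_of_le_of_lt h2 ?_
    rwa [Subtype.dist_eq, dist_eq_norm] at hv
  · obtain ⟨g, hg⟩ := exists_continuous_forall_mem_convex_of_local_const (X := unitary F)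
      (t := fun u => closedBall (φ u) (12 * ε)) (fun u => convex_closedBall _ _) (fun u => by
        refine ⟨φ u, ?_⟩
        filter_upwards [ball_mem_nhds u (show 0 < 2 * ε by linarith)] with v hv
        rw [mem_ball, Subtype.dist_eq, dist_eq_norm, norm_sub_rev] at hv
        rw [mem_closedBall, dist_eq_norm]
        have h2 := h.lip u v (unitary_le u) (unitary_le v)
        linarith)
    exact ⟨g, g.continuous, fun u => by simpa [dist_eq_norm] using hg u⟩

/-- the map `u ↦ φ u + 1 - φ 1` -/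
noncomputable def aa (φ : F → B) (u : F) : B := φ u + 1 - φ 1

theorem aa_mul (h : IsEpsHom ε φ) (u v : F) (hu : ‖u‖ ≤ 1) (hv : ‖v‖ ≤ 1) :
    ‖aa φ (u * v) - aa φ u * aa φ v‖ ≤ 4 * ε := by
  have h1 := h.mul u v hu hv
  have h2 := h.mul u 1 hu one_le
  have h3 := h.mul 1 v one_le hv
  have h4 := h.mul 1 1 one_le one_le
  rw [mul_one] at h2 h4
  rw [one_mul] at h3
  have key : aa φ (u * v) - aa φ u * aa φ v = (φ (u * v) - φ u * φ v) - (φ u - φ u * φ 1)
      - (φ v - φ 1 * φ v) + (φ 1 - φ 1 * φ 1) := by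
    simp only [aa]; noncomm_ring
  rw [key]
  have k1 := norm_add_le (φ (u * v) - φ u * φ v - (φ u - φ u * φ 1) - (φ v - φ 1 * φ v))
    (φ 1 - φ 1 * φ 1)
  have k2 := norm_sub_le (φ (u * v) - φ u * φ v - (φ u - φ u * φ 1)) (φ v - φ 1 * φ v)
  have k3 := norm_sub_le (φ (u * v) - φ u * φ v) (φ u - φ u * φ 1)
  linarith

theorem aa_norm3 (h : IsEpsHom ε φ) (u : F) (hu : ‖u‖ ≤ 1) : ‖aa φ u‖ ≤ 3 := by
  have h1 := h.contr u hu
  have h2 := h.contr 1 one_le
  have h3 : ‖(1 : B)‖ ≤ 1 := by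
    rcases subsingleton_or_nontrivial B with h | h
    · rw [Subsingleton.elim (1 : B) 0, norm_zero]; exact zero_le_one
    · rw [CStarRing.norm_one]
  have k1 := norm_sub_le (φ u + 1) (φ 1)
  have k2 := norm_add_le (φ u) 1
  unfold aa
  linarith

theorem aa_star (h : IsEpsHom ε φ) (u : F) (hu : ‖u‖ ≤ 1) :
    ‖star (aa φ u) - aa φ (star u)‖ ≤ 2 * ε := by
  have h1 := h.star u hu
  have h2 := h.star 1 one_le
  rw [star_one] at h2
  have key : star (aa φ u) - aa φ (star u) =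
      (φ 1 - star (φ 1)) - (φ (star u) - star (φ u)) := by
    simp only [aa, star_sub, star_add, star_one]; abel
  rw [key]
  have k1 := norm_sub_le (φ 1 - star (φ 1)) (φ (star u) - star (φ u))
  linarith

theorem aa_one : aa φ 1 = 1 := by simp [aa]

theorem aa_unit1 (h : IsEpsHom ε φ) (u : unitary F) :
    ‖star (aa φ u) * aa φ u - 1‖ ≤ 10 * ε := by
  have hs : ‖star (u : F)‖ ≤ 1 := by rw [norm_star]; exact unitary_le u
  have h1 := aa_star h u (unitary_le u)
  have h2 := aa_mul h (star (u : F)) u hs (unitary_le u)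
  rw [Unitary.coe_star_mul_self, aa_one] at h2
  have h3 := aa_norm3 h u (unitary_le u)
  have key : star (aa φ u) * aa φ u - 1 = (star (aa φ u) - aa φ (star (u : F))) * aa φ u -
      (1 - aa φ (star (u : F)) * aa φ u) := by noncomm_ring
  rw [key]
  have k1 := norm_sub_le ((star (aa φ u) - aa φ (star (u : F))) * aa φ u)
    (1 - aa φ (star (u : F)) * aa φ u)
  have k2 := norm_mul_le (star (aa φ u) - aa φ (star (u : F))) (aa φ u)
  have h0 := h.eps_nonneg
  nlinarith [norm_nonneg (star (aa φ u) - aa φ (star (u : F))), norm_nonneg (aa φ u)]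

theorem aa_unit2 (h : IsEpsHom ε φ) (u : unitary F) :
    ‖aa φ u * star (aa φ u) - 1‖ ≤ 10 * ε := by
  have hs : ‖star (u : F)‖ ≤ 1 := by rw [norm_star]; exact unitary_le u
  have h1 := aa_star h u (unitary_le u)
  have h2 := aa_mul h u (star (u : F)) (unitary_le u) hs
  rw [Unitary.mul_star_self_of_mem u.2, aa_one] at h2
  have h3 := aa_norm3 h u (unitary_le u)
  have key : aa φ u * star (aa φ u) - 1 = aa φ u * (star (aa φ u) - aa φ (star (u : F))) -
      (1 - aa φ u * aa φ (star (u : F))) := by noncomm_ring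
  rw [key]
  have k1 := norm_sub_le (aa φ u * (star (aa φ u) - aa φ (star (u : F))))
    (1 - aa φ u * aa φ (star (u : F)))
  have k2 := norm_mul_le (aa φ u) (star (aa φ u) - aa φ (star (u : F)))
  have h0 := h.eps_nonneg
  nlinarith [norm_nonneg (star (aa φ u) - aa φ (star (u : F))), norm_nonneg (aa φ u)]

theorem aa_norm (h : IsEpsHom ε φ) (u : unitary F) : ‖aa φ u‖ ≤ 1 + 10 * ε := by
  have h1 := aa_unit1 h u
  have h0 := h.eps_nonneg
  have h3 : ‖(1 : B)‖ ≤ 1 := by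
    rcases subsingleton_or_nontrivial B with h | h
    · rw [Subsingleton.elim (1 : B) 0, norm_zero]; exact zero_le_one
    · rw [CStarRing.norm_one]
  have h2 : ‖aa φ u‖ * ‖aa φ u‖ ≤ 1 + 10 * ε := by
    rw [← CStarRing.norm_star_mul_self]
    have := norm_add_le (star (aa φ u) * aa φ u - 1) 1
    rw [sub_add_cancel] at this
    linarith
  by_contra hcon
  push Not at hcon
  nlinarith [norm_nonneg (aa φ u)]

/-- perturbation estimates -/
theorem pert {a b p q c : B} {α : ℝ} (hα : 0 ≤ α) (hp : ‖p - a‖ ≤ α) (hq : ‖q - b‖ ≤ α)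
    (ha : ‖a‖ ≤ 2) (hq1 : ‖q‖ ≤ 1) {β : ℝ} (h : ‖c - a * b‖ ≤ β) :
    ‖c - p * q‖ ≤ β + 3 * α := by
  have key : c - p * q = (c - a * b) - a * (q - b) - (p - a) * q := by noncomm_ring
  rw [key]
  have k1 := norm_sub_le (c - a * b - a * (q - b)) ((p - a) * q)
  have k2 := norm_sub_le (c - a * b) (a * (q - b))
  have k3 := norm_mul_le a (q - b)
  have k4 := norm_mul_le (p - a) q
  nlinarith [norm_nonneg (q - b), norm_nonneg (p - a), norm_nonneg a, norm_nonneg q]

/-- a contractive continuous map close to `aa` -/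
theorem exists_p [FiniteDimensional ℂ F] (h : IsEpsHom ε φ) (_hε : ε ≤ 1 / 10) :
    ∃ p : unitary F → B, Continuous p ∧ (∀ u, ‖p u‖ ≤ 1) ∧ ∀ u : unitary F,
      ‖p u - aa φ u‖ ≤ 34 * ε := by
  obtain ⟨g, hg, hg2⟩ := exists_cont h
  have h0 := h.eps_nonneg
  set c : ℝ := 1 + 22 * ε with hc
  have hc0 : 0 < c := by positivity
  have hn : ∀ u : unitary F, ‖g u + 1 - φ 1‖ ≤ c ∧ ‖(g u + 1 - φ 1) - aa φ u‖ ≤ 12 * ε := by
    intro u
    have h1 := aa_norm h u
    have h2 : (g u + 1 - φ 1) - aa φ u = g u - φ u := by simp only [aa]; abel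
    have h3 := hg2 u
    rw [← h2] at h3
    refine ⟨?_, h3⟩
    have := norm_add_le ((g u + 1 - φ 1) - aa φ u) (aa φ u)
    rw [sub_add_cancel] at this
    rw [hc]; linarith
  refine ⟨fun u => ((c⁻¹ : ℝ) : ℂ) • (g u + 1 - φ 1), ?_, ?_, ?_⟩
  · exact ((hg.add continuous_const).sub continuous_const).const_smul _
  · intro u
    rw [norm_smul, Complex.norm_real, Real.norm_of_nonneg (by positivity),
      inv_mul_le_iff₀ hc0, mul_one]
    exact (hn u).1
  · intro u
    obtain ⟨h1, h2⟩ := hn u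
    have key : ((c⁻¹ : ℝ) : ℂ) • (g u + 1 - φ 1) - aa φ u =
        ((g u + 1 - φ 1) - aa φ u) - ((1 - c⁻¹ : ℝ) : ℂ) • (g u + 1 - φ 1) := by
      push_cast
      rw [sub_smul, one_smul]; abel
    rw [key]
    have k1 := norm_sub_le ((g u + 1 - φ 1) - aa φ u) (((1 - c⁻¹ : ℝ) : ℂ) • (g u + 1 - φ 1))
    have h4 : c⁻¹ ≤ 1 := inv_le_one_of_one_le₀ (by rw [hc]; linarith)
    rw [norm_smul, Complex.norm_real, Real.norm_of_nonneg (by linarith)] at k1
    have h5 : (1 - c⁻¹) * ‖g u + 1 - φ 1‖ ≤ (1 - c⁻¹) * c :=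
      mul_le_mul_of_nonneg_left h1 (by linarith)
    have h6 : (1 - c⁻¹) * c = 22 * ε := by
      rw [sub_mul, inv_mul_cancel₀ hc0.ne', hc]; ring
    linarith

theorem proj_le {e : F} (he : IsStarProjection e) : ‖e‖ ≤ 1 := by
  have h1 : ‖e‖ * ‖e‖ = ‖e‖ := by
    rw [← CStarRing.norm_star_mul_self, he.isSelfAdjoint.star_eq, he.isIdempotentElem.eq]
  by_contra hcon
  push Not at hcon
  nlinarith

theorem aa_circle (h : IsEpsHom ε φ) {e : F} (he : IsStarProjection e) {z : ℂ} (hz : ‖z‖ = 1) :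
    ‖aa φ (1 + (z - 1) • e) - (1 + (z - 1) • φ e)‖ ≤ 4 * ε := by
  have he1 := proj_le he
  have he2 := proj_le he.one_sub
  have h1 := h.sub 1 e one_le he1
  have h2 := h.smul e z he1 hz.le
  have hze : ‖z • e‖ ≤ 1 := by rw [norm_smul, hz, one_mul]; exact he1
  have h3 := h.add (1 - e) (z • e) he2 hze
  have e1 : (1 : F) - e + z • e = 1 + (z - 1) • e := by rw [sub_smul, one_smul]; abel
  rw [e1] at h3
  have key : aa φ (1 + (z - 1) • e) - (1 + (z - 1) • φ e) =
      (φ (1 + (z - 1) • e) - φ (1 - e) - φ (z • e)) + (φ (1 - e) - φ 1 + φ e) +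
      (φ (z • e) - z • φ e) := by
    have e2 : (z - 1) • φ e = z • φ e - φ e := by rw [sub_smul, one_smul]
    simp only [aa]; rw [e2]; abel
  rw [key]
  have k1 := norm_add_le (φ (1 + (z - 1) • e) - φ (1 - e) - φ (z • e) + (φ (1 - e) - φ 1 + φ e))
    (φ (z • e) - z • φ e)
  have k2 := norm_add_le (φ (1 + (z - 1) • e) - φ (1 - e) - φ (z • e)) (φ (1 - e) - φ 1 + φ e)
  linarith

end

end T1c

/-- T1c. Finite-dimensional C*-algebras are Ulam stable (with linear control). -/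
theorem fd_stable : ∃ C : ℝ, 0 < C ∧ ∃ ε₀ : ℝ, 0 < ε₀ ∧
    ∀ (F : Type) [CStarAlgebra F] [FiniteDimensional ℂ F] (B : Type u) [CStarAlgebra B]
      (ε : ℝ) (φ : F → B), ε ≤ ε₀ → IsEpsHom ε φ →
      ∃ π : F →⋆ₙₐ[ℂ] B, ∀ y, ‖y‖ ≤ 1 → ‖φ y - π y‖ ≤ C * ε := by
  obtain ⟨C₁, hC₁, δ₀, hδ₀, hK⟩ := kazhdan.{u}
  set κ : ℝ := 140 * C₁ + 34 with hκ
  have hκ0 : 0 < κ := by positivity
  refine ⟨7 + 2 * (2 * κ + 1), by positivity, min (min (1 / 10) (δ₀ / 140))
    (1 / (20 * (κ + 4))), by positivity, ?_⟩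
  intro F _ _ B _ ε φ hε h
  have h0 := h.eps_nonneg
  have hε1 : ε ≤ 1 / 10 := hε.trans ((min_le_left _ _).trans (min_le_left _ _))
  have hε2 : ε ≤ δ₀ / 140 := hε.trans ((min_le_left _ _).trans (min_le_right _ _))
  have hε3 : ε ≤ 1 / (20 * (κ + 4)) := hε.trans (min_le_right _ _)
  obtain ⟨p, hpc, hp1, hp2⟩ := T1c.exists_p h hε1
  have : ProperSpace F := FiniteDimensional.proper ℂ F
  have : CompactSpace (unitary F) := by
    apply isCompact_iff_compactSpace.1
    apply (isCompact_closedBall (0 : F) 1).of_isClosed_subset isClosed_unitary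
    intro u hu
    simpa using T1c.unitary_le ⟨u, hu⟩
  have hamul : ∀ u v : unitary F, ‖p (u * v) - p u * p v‖ ≤ 140 * ε := by
    intro u v
    have h1 := T1c.pert (c := p (u * v)) (by positivity : 0 ≤ 34 * ε) (hp2 u) (hp2 v)
      ((T1c.aa_norm h u).trans (by linarith)) (hp1 v) (β := 38 * ε) (by
        have h2 := T1c.aa_mul h (u : F) v (T1c.unitary_le u) (T1c.unitary_le v)
        have h3 := hp2 (u * v)
        have h4 := norm_add_le (p (u * v) - T1c.aa φ ((u * v : unitary F) : F))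
          (T1c.aa φ ((u : F) * v) - T1c.aa φ u * T1c.aa φ v)
        have h5 : p (u * v) - T1c.aa φ ((u * v : unitary F) : F) +
          (T1c.aa φ ((u : F) * v) - T1c.aa φ u * T1c.aa φ v) =
          p (u * v) - T1c.aa φ u * T1c.aa φ v := by
          rw [Submonoid.coe_mul]; abel
        rw [h5] at h4
        linarith)
    linarith
  have hsp : ∀ u : unitary F, ‖star (p u) - star (T1c.aa φ u)‖ ≤ 34 * ε := fun u => by
    rw [← star_sub, norm_star]; exact hp2 u
  have hau1 : ∀ u : unitary F, ‖star (p u) * p u - 1‖ ≤ 140 * ε := by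
    intro u
    have h1 := T1c.pert (c := 1) (by positivity : 0 ≤ 34 * ε) (hsp u) (hp2 u)
      (by rw [norm_star]; exact (T1c.aa_norm h u).trans (by linarith)) (hp1 u) (β := 10 * ε)
      (by rw [norm_sub_rev]; exact T1c.aa_unit1 h u)
    rw [norm_sub_rev]; linarith
  have hau2 : ∀ u : unitary F, ‖p u * star (p u) - 1‖ ≤ 140 * ε := by
    intro u
    have h1 := T1c.pert (c := 1) (by positivity : 0 ≤ 34 * ε) (hp2 u) (hsp u)
      ((T1c.aa_norm h u).trans (by linarith)) (by rw [norm_star]; exact hp1 u) (β := 10 * ε)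
      (by rw [norm_sub_rev]; exact T1c.aa_unit2 h u)
    rw [norm_sub_rev]; linarith
  obtain ⟨ρ, hρ⟩ := hK (unitary F) B (140 * ε) p hpc (by linarith) hp1 hamul hau1 hau2
  have hρa : ∀ u : unitary F, ‖(ρ u : B) - T1c.aa φ u‖ ≤ κ * ε := by
    intro u
    have h1 := norm_add_le ((ρ u : B) - p u) (p u - T1c.aa φ u)
    rw [sub_add_sub_cancel] at h1
    have h2 := hρ u
    have h3 := hp2 u
    rw [hκ]; nlinarith
  obtain ⟨π, hπ⟩ := rigidity F B ρ φ (by
    intro e he z hz u hu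
    have h1 := hρa u
    have h2 := T1c.aa_circle h he hz
    rw [← hu] at h2
    have h3 := norm_add_le ((ρ u : B) - T1c.aa φ u) (T1c.aa φ u - (1 + (z - 1) • φ e))
    rw [sub_add_sub_cancel] at h3
    have h4 : (κ + 4) * ε ≤ 1 / 20 := by
      have h5 : (κ + 4) * ε ≤ (κ + 4) * (1 / (20 * (κ + 4))) := by gcongr
      refine h5.trans (le_of_eq ?_)
      field_simp
    linarith)
  refine ⟨π, ?_⟩
  have hd : ∀ u : unitary F, ‖(π u - π 1) - (φ u - φ 1)‖ ≤ κ * ε := by
    intro u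
    have h1 := hρa u
    rw [hπ u] at h1
    have h2 : (π u - π 1) - (φ u - φ 1) = π u + 1 - π 1 - T1c.aa φ u := by
      simp only [T1c.aa]; abel
    rw [h2]; exact h1
  have hone : ‖π 1 - φ 1‖ ≤ (κ + 1) * ε := by
    have h1 := hd (-1)
    have h2 := h.neg 1 T1c.one_le
    have h3 : ((-1 : unitary F) : F) = -1 := rfl
    rw [h3, map_neg] at h1
    have h4 : (2 : ℂ) • (π 1 - φ 1) = -((-π 1 - π 1) - (φ (-1) - φ 1)) - (φ (-1) + φ 1) := by
      rw [two_smul]; abel
    have h5 : ‖(2 : ℂ) • (π 1 - φ 1)‖ ≤ κ * ε + ε := by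
      rw [h4]
      refine (norm_sub_le _ _).trans ?_
      rw [norm_neg]
      linarith
    rw [norm_smul] at h5
    have h6 : ‖(2 : ℂ)‖ = 2 := by simp
    rw [h6] at h5
    nlinarith [norm_nonneg (π 1 - φ 1)]
  have hu : ∀ u : unitary F, ‖φ u - π u‖ ≤ (2 * κ + 1) * ε := by
    intro u
    have h1 := hd u
    have h2 := norm_add_le ((π u - π 1) - (φ u - φ 1)) (π 1 - φ 1)
    have h3 : (π u - π 1) - (φ u - φ 1) + (π 1 - φ 1) = π u - φ u := by abel
    rw [h3] at h2
    rw [norm_sub_rev]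
    linarith
  intro y hy
  obtain ⟨u, c, hyc, hc⟩ := CStarAlgebra.exists_sum_four_unitary y
  have hc' : ∀ i, ‖c i‖ ≤ 1 / 2 := fun i => (hc i).trans (by linarith)
  have hcu : ∀ i, ‖c i • (u i : F)‖ ≤ 1 / 2 := by
    intro i
    rw [norm_smul]
    have := T1c.unitary_le (u i)
    have := hc' i
    nlinarith [norm_nonneg (c i), norm_nonneg ((u i : F))]
  set x : Fin 4 → F := fun i => c i • (u i : F) with hx
  have hs1 : ‖x 0 + x 1‖ ≤ 1 := (norm_add_le _ _).trans (by
    have := hcu 0; have := hcu 1; simp only [hx]; linarith)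
  have hs2 : ‖x 2 + x 3‖ ≤ 1 := (norm_add_le _ _).trans (by
    have := hcu 2; have := hcu 3; simp only [hx]; linarith)
  have hyx : y = (x 0 + x 1) + (x 2 + x 3) := by
    rw [hyc, Fin.sum_univ_four]; simp only [hx]; abel
  have hx1 : ∀ i, ‖x i‖ ≤ 1 := fun i => (hcu i).trans (by norm_num)
  have a1 := h.add _ _ hs1 hs2
  have a2 := h.add _ _ (hx1 0) (hx1 1)
  have a3 := h.add _ _ (hx1 2) (hx1 3)
  have b : ∀ i, ‖φ (x i) - π (x i)‖ ≤ ε + 1 / 2 * ((2 * κ + 1) * ε) := by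
    intro i
    have b1 := h.smul (u i : F) (c i) (T1c.unitary_le _) ((hc' i).trans (by norm_num))
    have b2 := hu (u i)
    have b3 : φ (x i) - π (x i) = (φ (x i) - c i • φ (u i)) + c i • (φ (u i) - π (u i)) := by
      simp only [hx]; rw [map_smul, smul_sub]; abel
    rw [b3]
    have b4 := norm_add_le (φ (x i) - c i • φ (u i)) (c i • (φ (u i) - π (u i)))
    rw [norm_smul] at b4
    have b5 : ‖c i‖ * ‖φ (u i) - π (u i)‖ ≤ 1 / 2 * ((2 * κ + 1) * ε) := by
      have := hc' i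
      gcongr
    linarith
  have key : φ y - π y = (φ (x 0 + x 1 + (x 2 + x 3)) - φ (x 0 + x 1) - φ (x 2 + x 3)) +
      (φ (x 0 + x 1) - φ (x 0) - φ (x 1)) + (φ (x 2 + x 3) - φ (x 2) - φ (x 3)) +
      ((φ (x 0) - π (x 0)) + (φ (x 1) - π (x 1)) + (φ (x 2) - π (x 2)) +
        (φ (x 3) - π (x 3))) := by
    rw [hyx]; simp only [map_add]; abel
  rw [key]
  have n1 := norm_add_le ((φ (x 0 + x 1 + (x 2 + x 3)) - φ (x 0 + x 1) - φ (x 2 + x 3)) +
      (φ (x 0 + x 1) - φ (x 0) - φ (x 1)) + (φ (x 2 + x 3) - φ (x 2) - φ (x 3)))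
      ((φ (x 0) - π (x 0)) + (φ (x 1) - π (x 1)) + (φ (x 2) - π (x 2)) +
        (φ (x 3) - π (x 3)))
  have n2 := norm_add₃_le (a := φ (x 0 + x 1 + (x 2 + x 3)) - φ (x 0 + x 1) - φ (x 2 + x 3))
    (b := φ (x 0 + x 1) - φ (x 0) - φ (x 1)) (c := φ (x 2 + x 3) - φ (x 2) - φ (x 3))
  have n3 := norm_add_le ((φ (x 0) - π (x 0)) + (φ (x 1) - π (x 1)) + (φ (x 2) - π (x 2)))
    (φ (x 3) - π (x 3))
  have n4 := norm_add₃_le (a := φ (x 0) - π (x 0)) (b := φ (x 1) - π (x 1))
    (c := φ (x 2) - π (x 2))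
  have := b 0
  have := b 1
  have := b 2
  have := b 3
  linarith

end Pool.Agent.H253.US
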