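import Pool.Agent.H253.US.Defs


/-!
# Ulam stability of nuclear C*-algebras (MP_a35bd4_an): definitions and basic facts
-/

set_option autoImplicit false

open scoped CStarAlgebra ComplexOrder

namespace Pool.Agent.H253.US

universe u v w



/-- The constant. -/
noncomputable def thetaQ : ℝ := 256000 / 256001

/-- The hypothesis on the permutations (a Poincaré inequality). -/
def IsGapped (V S : Type) [Fintype V] [Fintype S] (σ : S → Equiv.Perm V) : Prop :=
  Fintype.card S = 5 ∧ (∃ s₀, σ s₀ = 1) ∧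
    ∀ (E : Type) [NormedAddCommGroup E] [InnerProductSpace ℂ E] (F : V → E), ∑ v, F v = 0 →
      ∑ v, ‖F v‖ ^ 2 ≤ 400 * ∑ s, ∑ v, ‖F (σ s v) - F v‖ ^ 2

namespace T4a1


section T4a1sec

open scoped ComplexOrder MatrixOrder Matrix.Norms.L2Operator
open Matrix

variable {d : ℕ}

abbrev Md (d : ℕ) : Type := Matrix (Fin d) (Fin d) ℂ

theorem exists_sqrt {A : Md d} (hA : A.PosSemidef) : CFC.sqrt A * CFC.sqrt A = A :=
  CFC.sqrt_mul_sqrt_self A (Matrix.nonneg_iff_posSemidef.2 hA)

theorem sqrt_psd (A : Md d) : (CFC.sqrt A).PosSemidef :=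
  Matrix.nonneg_iff_posSemidef.1 (CFC.sqrt_nonneg A)

/-- the trace of a product of positive matrices -/
theorem trace_mul_nonneg {A B : Md d} (hA : A.PosSemidef) (hB : B.PosSemidef) :
    0 ≤ (A * B).trace.re := by
  have h1 := exists_sqrt hA
  have h2 := sqrt_psd A
  set X := CFC.sqrt A
  have h3 : (A * B).trace = (Xᴴ * B * X).trace := by
    rw [h2.isHermitian.eq, Matrix.trace_mul_cycle, h1]
  rw [h3]
  have := (hB.conjTranspose_mul_mul_same X).trace_nonneg
  exact (Complex.le_def.1 this).1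

/-- the quadratic form -/
noncomputable def q (b X : Md d) : ℝ := (Matrix.trace (Xᴴ * b * X)).re

theorem q_nonneg {b : Md d} (hb : b.PosSemidef) (X : Md d) : 0 ≤ q b X :=
  (Complex.le_def.1 (hb.conjTranspose_mul_mul_same X).trace_nonneg).1

theorem q_add_le {b : Md d} (hb : b.PosSemidef) (X Z : Md d) :
    q b (X + Z) ≤ 2 * q b X + 2 * q b Z := by
  have h := q_nonneg hb (X - Z)
  have e : q b (X + Z) + q b (X - Z) = 2 * q b X + 2 * q b Z := by
    unfold q
    rw [← Complex.add_re, ← Matrix.trace_add]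
    have : (X + Z)ᴴ * b * (X + Z) + (X - Z)ᴴ * b * (X - Z) =
        (Xᴴ * b * X + Xᴴ * b * X) + (Zᴴ * b * Z + Zᴴ * b * Z) := by
      rw [Matrix.conjTranspose_add, Matrix.conjTranspose_sub]
      noncomm_ring
    rw [this, Matrix.trace_add, Matrix.trace_add, Matrix.trace_add, Complex.add_re, Complex.add_re,
      Complex.add_re]
    ring
  linarith

theorem q_add (b b' X : Md d) : q (b + b') X = q b X + q b' X := by
  unfold q
  rw [Matrix.mul_add, Matrix.add_mul, Matrix.trace_add, Complex.add_re]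

theorem q_sub (b b' X : Md d) : q (b - b') X = q b X - q b' X := by
  unfold q
  rw [Matrix.mul_sub, Matrix.sub_mul, Matrix.trace_sub, Complex.sub_re]

theorem q_sum {ι : Type} (s : Finset ι) (b : ι → Md d) (X : Md d) :
    q (∑ i ∈ s, b i) X = ∑ i ∈ s, q (b i) X := by
  unfold q
  rw [Finset.mul_sum, Finset.sum_mul, Matrix.trace_sum, Complex.re_sum]

theorem q_smul (r : ℝ) (b X : Md d) : q ((r : ℂ) • b) X = r * q b X := by
  unfold q
  rw [Matrix.mul_smul, Matrix.smul_mul, Matrix.trace_smul, smul_eq_mul, Complex.re_ofReal_mul]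

theorem q_mono {b b' : Md d} (h : (b' - b).PosSemidef) (X : Md d) : q b X ≤ q b' X := by
  have := q_nonneg h X
  rw [q_sub] at this
  linarith

/-- Hilbert-Schmidt vectors -/
noncomputable def toE (d : ℕ) : Md d →ₗ[ℂ] EuclideanSpace ℂ (Fin d × Fin d) where
  toFun X := WithLp.toLp 2 (fun p => X p.1 p.2)
  map_add' _ _ := rfl
  map_smul' _ _ := rfl

theorem norm_toE (X : Md d) : ‖toE d X‖ ^ 2 = q 1 X := by
  rw [EuclideanSpace.norm_sq_eq, q, Matrix.mul_one, Matrix.trace, Complex.re_sum,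
    Fintype.sum_prod_type, Finset.sum_comm]
  refine Finset.sum_congr rfl fun i _ => ?_
  rw [Matrix.diag_apply, Matrix.mul_apply, Complex.re_sum]
  refine Finset.sum_congr rfl fun j _ => ?_
  rw [Matrix.conjTranspose_apply]
  change ‖X j i‖ ^ 2 = (star (X j i) * X j i).re
  rw [Complex.star_def, ← Complex.normSq_eq_conj_mul_self, Complex.ofReal_re,
    Complex.normSq_eq_norm_sq]

theorem q_one_of_herm {X : Md d} (hX : X.IsHermitian) : q 1 X = (X * X).trace.re := by
  rw [q, hX.eq, Matrix.mul_one]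

/-- the square roots of comparable matrices -/
theorem sq_diff {f g : Md d} (hf : f.PosSemidef) (hg : g.PosSemidef) (h : (g - f).PosSemidef) :
    ‖toE d (CFC.sqrt g) - toE d (CFC.sqrt f)‖ ^ 2 ≤ g.trace.re - f.trace.re := by
  have hX := sqrt_psd f
  have hY := sqrt_psd g
  have hX2 := exists_sqrt hf
  have hY2 := exists_sqrt hg
  have hle : CFC.sqrt f ≤ CFC.sqrt g := CFC.sqrt_le_sqrt f g (Matrix.le_iff.2 h)
  have hD : (CFC.sqrt g - CFC.sqrt f).PosSemidef := Matrix.le_iff.1 hle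
  set X := CFC.sqrt f
  set Y := CFC.sqrt g
  have h1 := trace_mul_nonneg hX hD
  rw [← map_sub, norm_toE, q_one_of_herm (hY.isHermitian.sub hX.isHermitian)]
  have e : (Y - X) * (Y - X) = Y * Y - X * X - (X * (Y - X)) - ((Y - X) * X) := by
    noncomm_ring
  rw [e, Matrix.trace_sub, Matrix.trace_sub, Matrix.trace_sub, Matrix.trace_mul_comm (Y - X) X,
    hX2, hY2]
  simp only [Complex.sub_re]
  linarith

theorem trace_mul_eq_q {f b : Md d} (hf : f.PosSemidef) : (f * b).trace.re = q b (CFC.sqrt f) := by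
  have h1 := exists_sqrt hf
  have h2 := sqrt_psd f
  set X := CFC.sqrt f
  rw [q, h2.isHermitian.eq, Matrix.trace_mul_cycle, h1]

theorem sqrt_norm {f : Md d} (hf : f.PosSemidef) : ‖toE d (CFC.sqrt f)‖ ^ 2 = f.trace.re := by
  rw [norm_toE, ← trace_mul_eq_q hf, Matrix.mul_one]


/-- the main estimate -/
theorem main_ineq {V S : Type} [Fintype V] [Nonempty V] [Fintype S]
    (σ : S → Equiv.Perm V) (hσ : IsGapped V S σ) (b : V → Md d)
    (hb0 : ∀ v, (b v).PosSemidef) (hb1 : ∀ v, (1 - b v).PosSemidef)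
    (hb : (((Fintype.card V : ℂ) / 16) • (1 : Md d) - ∑ v, b v).PosSemidef)
    (f g : V → Md d) (hf : ∀ v, (f v).PosSemidef) (hg : ∀ v, (g v).PosSemidef)
    (hfg : ∀ s v, (g (σ s v) - f v).PosSemidef) :
    ∑ v, (f v * b v).trace.re ≤ thetaQ * ∑ v, (g v).trace.re := by
  obtain ⟨hS, ⟨s₀, hs₀⟩, hP⟩ := hσ
  obtain ⟨n, hn⟩ : ∃ n : ℝ, n = (Fintype.card V : ℝ) := ⟨_, rfl⟩
  have hn0 : 0 < n := by rw [hn]; exact_mod_cast Fintype.card_pos
  set B : ℝ := ∑ v, (f v).trace.re with hB
  set Γ : ℝ := ∑ v, (g v).trace.re with hΓ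
  set M : Md d := ((n : ℝ) : ℂ)⁻¹ • ∑ v, CFC.sqrt (f v) with hM
  have hM' : toE d M = ((n : ℝ) : ℂ)⁻¹ • ∑ v, toE d (CFC.sqrt (f v)) := by
    rw [hM, map_smul, map_sum]
  have hB0 : 0 ≤ B := Finset.sum_nonneg fun v _ => by
    rw [← sqrt_norm (hf v)]; positivity
  -- the differences
  have h1 : ∀ s, ∑ v, ‖toE d (CFC.sqrt (g (σ s v))) - toE d (CFC.sqrt (f v))‖ ^ 2 ≤ Γ - B := by
    intro s
    have : Γ - B = ∑ v, ((g (σ s v)).trace.re - (f v).trace.re) := by
      rw [Finset.sum_sub_distrib, Equiv.sum_comp (σ s) (fun v => (g v).trace.re)]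
    rw [this]
    exact Finset.sum_le_sum fun v _ => sq_diff (hf v) (hg _) (hfg s v)
  have h2 : ∀ s, ∑ v, ‖toE d (CFC.sqrt (g (σ s v))) - toE d (CFC.sqrt (f (σ s v)))‖ ^ 2 ≤
      Γ - B := by
    intro s
    rw [Equiv.sum_comp (σ s) (fun v => ‖toE d (CFC.sqrt (g v)) - toE d (CFC.sqrt (f v))‖ ^ 2)]
    have h := h1 s₀
    rw [hs₀] at h
    exact h
  have h3 : ∀ s, ∑ v, ‖(toE d (CFC.sqrt (f (σ s v))) - toE d M) -
      (toE d (CFC.sqrt (f v)) - toE d M)‖ ^ 2 ≤ 4 * (Γ - B) := by
    intro s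
    have h4 : ∀ v, ‖(toE d (CFC.sqrt (f (σ s v))) - toE d M) -
        (toE d (CFC.sqrt (f v)) - toE d M)‖ ^ 2 ≤
        2 * ‖toE d (CFC.sqrt (g (σ s v))) - toE d (CFC.sqrt (f v))‖ ^ 2 +
        2 * ‖toE d (CFC.sqrt (g (σ s v))) - toE d (CFC.sqrt (f (σ s v)))‖ ^ 2 := by
      intro v
      have e : (toE d (CFC.sqrt (f (σ s v))) - toE d M) - (toE d (CFC.sqrt (f v)) - toE d M) =
          (toE d (CFC.sqrt (g (σ s v))) - toE d (CFC.sqrt (f v))) -
          (toE d (CFC.sqrt (g (σ s v))) - toE d (CFC.sqrt (f (σ s v)))) := by abel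
      rw [e]
      have := norm_sub_le (toE d (CFC.sqrt (g (σ s v))) - toE d (CFC.sqrt (f v)))
        (toE d (CFC.sqrt (g (σ s v))) - toE d (CFC.sqrt (f (σ s v))))
      have h0 := norm_nonneg ((toE d (CFC.sqrt (g (σ s v))) - toE d (CFC.sqrt (f v))) -
          (toE d (CFC.sqrt (g (σ s v))) - toE d (CFC.sqrt (f (σ s v)))))
      nlinarith [sq_nonneg (‖toE d (CFC.sqrt (g (σ s v))) - toE d (CFC.sqrt (f v))‖ -
        ‖toE d (CFC.sqrt (g (σ s v))) - toE d (CFC.sqrt (f (σ s v)))‖)]
    refine (Finset.sum_le_sum fun v _ => h4 v).trans ?_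
    rw [Finset.sum_add_distrib, ← Finset.mul_sum, ← Finset.mul_sum]
    linarith [h1 s, h2 s]
  have h5 : ∑ v, (toE d (CFC.sqrt (f v)) - toE d M) = 0 := by
    rw [Finset.sum_sub_distrib, Finset.sum_const, Finset.card_univ, hM', ← Nat.cast_smul_eq_nsmul ℂ,
      smul_smul]
    have : ((Fintype.card V : ℕ) : ℂ) * ((n : ℝ) : ℂ)⁻¹ = 1 := by
      rw [hn, Complex.ofReal_natCast]
      exact mul_inv_cancel₀ (by exact_mod_cast Fintype.card_ne_zero)
    rw [this, one_smul, sub_self]
  have h6 := hP _ (fun v => toE d (CFC.sqrt (f v)) - toE d M) h5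
  have h7 : ∑ v, ‖toE d (CFC.sqrt (f v)) - toE d M‖ ^ 2 ≤ 8000 * (Γ - B) := by
    refine h6.trans ?_
    have h8 : ∑ s, ∑ v, ‖(toE d (CFC.sqrt (f (σ s v))) - toE d M) -
        (toE d (CFC.sqrt (f v)) - toE d M)‖ ^ 2 ≤ ∑ s : S, 4 * (Γ - B) :=
      Finset.sum_le_sum fun s _ => h3 s
    rw [Finset.sum_const, Finset.card_univ, hS, nsmul_eq_mul] at h8
    push_cast at h8
    linarith
  -- the mean
  have h9 : n * ‖toE d M‖ ^ 2 ≤ B := by
    have e1 : ‖∑ v, toE d (CFC.sqrt (f v))‖ ^ 2 ≤ n * B := by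
      calc ‖∑ v, toE d (CFC.sqrt (f v))‖ ^ 2 ≤ (∑ v, ‖toE d (CFC.sqrt (f v))‖) ^ 2 :=
            pow_le_pow_left₀ (norm_nonneg _) (norm_sum_le _ _) 2
        _ ≤ (Finset.univ.card : ℝ) * ∑ v, ‖toE d (CFC.sqrt (f v))‖ ^ 2 :=
            sq_sum_le_card_mul_sum_sq
        _ = n * B := by
            rw [hB, Finset.card_univ, ← hn]
            congr 1
            exact Finset.sum_congr rfl fun v _ => sqrt_norm (hf v)
    rw [hM', norm_smul, mul_pow, norm_inv, Complex.norm_real, Real.norm_of_nonneg hn0.le]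
    calc n * (n⁻¹ ^ 2 * ‖∑ v, toE d (CFC.sqrt (f v))‖ ^ 2) ≤ n * (n⁻¹ ^ 2 * (n * B)) := by
          gcongr
      _ = B := by field_simp
  have h10 : ∑ v, (f v * b v).trace.re ≤ B / 8 + 16000 * (Γ - B) := by
    have e1 : ∀ v, (f v * b v).trace.re ≤ 2 * q (b v) M +
        2 * ‖toE d (CFC.sqrt (f v)) - toE d M‖ ^ 2 := by
      intro v
      rw [trace_mul_eq_q (hf v)]
      have := q_add_le (hb0 v) M (CFC.sqrt (f v) - M)
      rw [add_sub_cancel] at this
      have h2 := q_mono (hb1 v) (CFC.sqrt (f v) - M)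
      rw [← map_sub, norm_toE]
      linarith
    refine (Finset.sum_le_sum fun v _ => e1 v).trans ?_
    rw [Finset.sum_add_distrib, ← Finset.mul_sum, ← Finset.mul_sum, ← q_sum]
    have e2 := q_mono hb M
    have e3 : q (((Fintype.card V : ℂ) / 16) • (1 : Md d)) M = n / 16 * ‖toE d M‖ ^ 2 := by
      have : ((Fintype.card V : ℂ) / 16) = ((n / 16 : ℝ) : ℂ) := by
        rw [hn]; push_cast; rfl
      rw [this, q_smul, norm_toE]
    rw [e3] at e2
    linarith
  have h11 : ∑ v, (f v * b v).trace.re ≤ B := by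
    refine Finset.sum_le_sum fun v _ => ?_
    rw [trace_mul_eq_q (hf v), ← sqrt_norm (hf v), norm_toE]
    exact q_mono (hb1 v) _
  have h12 : 0 ≤ Γ - B := (Finset.sum_nonneg fun v _ => by positivity).trans (h1 s₀)
  by_cases hc : B ≤ thetaQ * Γ
  · exact h11.trans hc
  · push Not at hc
    unfold thetaQ at hc ⊢
    linarith

/-! ### duality -/

theorem exists_repr (L : Md d →ₗ[ℝ] ℝ) :
    ∃ f : Md d, f.IsHermitian ∧ ∀ x : Md d, x.IsHermitian → L x = (f * x).trace.re := by
  let F : Md d := Matrix.of fun i j =>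
    ((L (Matrix.single j i (1 : ℂ)) : ℝ) : ℂ) - ((L (Matrix.single j i Complex.I) : ℝ) : ℂ) *
      Complex.I
  have h0 : ∀ (i j : Fin d) (z : ℂ), L (Matrix.single i j z) = (F j i * z).re := by
    intro i j z
    have e1 : Matrix.single i j z = z.re • Matrix.single i j (1 : ℂ) +
        z.im • Matrix.single i j Complex.I := by
      rw [Matrix.smul_single, Matrix.smul_single, ← Matrix.single_add]
      congr 1
      simp
    rw [e1, map_add, map_smul, map_smul]
    change _ = ((((L (Matrix.single i j (1 : ℂ)) : ℝ) : ℂ) -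
      ((L (Matrix.single i j Complex.I) : ℝ) : ℂ) * Complex.I) * z).re
    simp
    ring
  have hF : ∀ x : Md d, L x = (F * x).trace.re := by
    intro x
    have e1 : L x = ∑ i, ∑ j, L (Matrix.single i j (x i j)) := by
      conv_lhs => rw [Matrix.matrix_eq_sum_single x]
      simp only [map_sum]
    have e2 : (F * x).trace.re = ∑ j, ∑ i, (F j i * x i j).re := by
      rw [Matrix.trace, Complex.re_sum]
      refine Finset.sum_congr rfl fun j _ => ?_
      rw [Matrix.diag_apply, Matrix.mul_apply, Complex.re_sum]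
    rw [e1, e2, Finset.sum_comm]
    exact Finset.sum_congr rfl fun j _ => Finset.sum_congr rfl fun i _ => h0 i j _
  refine ⟨(2 : ℂ)⁻¹ • (F + Fᴴ), ?_, fun x hx => ?_⟩
  · rw [Matrix.IsHermitian, Matrix.conjTranspose_smul, Matrix.conjTranspose_add,
      Matrix.conjTranspose_conjTranspose, add_comm]
    congr 1
    simp
  · rw [hF, Matrix.smul_mul, Matrix.add_mul, Matrix.trace_smul, Matrix.trace_add]
    have e1 : (Fᴴ * x).trace = star ((F * x).trace) := by
      rw [← Matrix.trace_conjTranspose, Matrix.conjTranspose_mul, hx.eq, Matrix.trace_mul_comm]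
    rw [e1]
    have e2 : (2 : ℂ)⁻¹ • ((F * x).trace + star (F * x).trace) = ((F * x).trace.re : ℂ) := by
      rw [Complex.star_def, Complex.add_conj, smul_eq_mul]
      push_cast
      ring
    rw [e2, Complex.ofReal_re]

theorem psd_of_trace {f : Md d} (hf : f.IsHermitian)
    (h : ∀ p : Md d, p.PosSemidef → 0 ≤ (f * p).trace.re) : f.PosSemidef := by
  refine Matrix.PosSemidef.of_dotProduct_mulVec_nonneg hf fun x => ?_
  rw [Complex.le_def]
  have h1 := h _ (Matrix.posSemidef_vecMulVec_self_star x)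
  rw [Matrix.mul_vecMulVec, Matrix.trace_vecMulVec, dotProduct_comm] at h1
  exact ⟨h1, (hf.im_star_dotProduct_mulVec_self x).symm⟩

theorem small {e : Md d} (he : e.IsHermitian) {η : ℝ} (hη : ‖e‖ ≤ η) :
    ((η : ℂ) • (1 : Md d) - e).PosSemidef := by
  have h1 : e ≤ algebraMap ℝ (Md d) ‖e‖ := IsSelfAdjoint.le_algebraMap_norm_self (ha := he)
  have h2 := Matrix.le_iff.1 h1
  have h3 : ((η - ‖e‖ : ℝ) • (1 : Md d)).PosSemidef :=
    Matrix.PosSemidef.one.smul (sub_nonneg.2 hη)
  have h4 := h2.add h3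
  have h5 : algebraMap ℝ (Md d) ‖e‖ - e + (η - ‖e‖ : ℝ) • (1 : Md d) =
      (η : ℂ) • (1 : Md d) - e := by
    rw [Algebra.algebraMap_eq_smul_one, sub_smul]
    have : (η : ℂ) • (1 : Md d) = (η : ℝ) • (1 : Md d) := by
      ext i j
      simp
    rw [this]
    abel
  rwa [h5] at h4

/-- the cone -/
def Cn {V S : Type} [Fintype S] (d : ℕ) (σ : S → Equiv.Perm V) :
    Set ((V → Md d) × (V → Md d)) :=
  {z | ∃ c : V → S → Md d, (∀ v s, (c v s).PosSemidef) ∧ (∀ v, (∑ s, c v s - z.1 v).PosSemidef) ∧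
    ∀ w, (-∑ s, c ((σ s).symm w) s - z.2 w).PosSemidef}

theorem convex_Cn {V S : Type} [Fintype S] (σ : S → Equiv.Perm V) : Convex ℝ (Cn d σ) := by
  rintro z ⟨c, hc, h1, h2⟩ z' ⟨c', hc', h1', h2'⟩ a b ha hb _
  refine ⟨fun v s => a • c v s + b • c' v s, fun v s => ((hc v s).smul ha).add
    ((hc' v s).smul hb), fun v => ?_, fun w => ?_⟩
  · have e : ∑ s, (a • c v s + b • c' v s) - (a • z + b • z').1 v =
        a • (∑ s, c v s - z.1 v) + b • (∑ s, c' v s - z'.1 v) := by
      change ∑ s, (a • c v s + b • c' v s) - (a • z.1 v + b • z'.1 v) = _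
      rw [Finset.sum_add_distrib, ← Finset.smul_sum, ← Finset.smul_sum, smul_sub, smul_sub]
      abel
    rw [e]
    exact ((h1 v).smul ha).add ((h1' v).smul hb)
  · have e : -∑ s, (a • c ((σ s).symm w) s + b • c' ((σ s).symm w) s) - (a • z + b • z').2 w =
        a • (-∑ s, c ((σ s).symm w) s - z.2 w) + b • (-∑ s, c' ((σ s).symm w) s - z'.2 w) := by
      change -∑ s, (a • c ((σ s).symm w) s + b • c' ((σ s).symm w) s) -
        (a • z.2 w + b • z'.2 w) = _
      rw [Finset.sum_add_distrib, ← Finset.smul_sum, ← Finset.smul_sum, smul_sub, smul_sub,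
        smul_neg, smul_neg]
      abel
    rw [e]
    exact ((h2 w).smul ha).add ((h2' w).smul hb)

theorem smul_Cn {V S : Type} [Fintype S] (σ : S → Equiv.Perm V) {z : (V → Md d) × (V → Md d)}
    (hz : z ∈ Cn d σ) {a : ℝ} (ha : 0 ≤ a) : a • z ∈ Cn d σ := by
  obtain ⟨c, hc, h1, h2⟩ := hz
  refine ⟨fun v s => a • c v s, fun v s => (hc v s).smul ha, fun v => ?_, fun w => ?_⟩
  · have e : ∑ s, a • c v s - (a • z).1 v = a • (∑ s, c v s - z.1 v) := by
      change ∑ s, a • c v s - a • z.1 v = _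
      rw [← Finset.smul_sum, smul_sub]
    rw [e]
    exact (h1 v).smul ha
  · have e : -∑ s, a • c ((σ s).symm w) s - (a • z).2 w =
        a • (-∑ s, c ((σ s).symm w) s - z.2 w) := by
      change -∑ s, a • c ((σ s).symm w) s - a • z.2 w = _
      rw [← Finset.smul_sum, smul_sub, smul_neg]
    rw [e]
    exact (h2 w).smul ha

theorem psd_single {V : Type} [DecidableEq V] (v w : V) {p : Md d} (hp : p.PosSemidef) :
    ((Pi.single v p : V → Md d) w).PosSemidef := by
  by_cases h : w = v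
  · subst h; rw [Pi.single_eq_same]; exact hp
  · rw [Pi.single_eq_of_ne h]; exact Matrix.PosSemidef.zero

theorem single1_mem {V S : Type} [Fintype S] [DecidableEq V] (σ : S → Equiv.Perm V) (v : V)
    {p : Md d} (hp : p.PosSemidef) : ((Pi.single v (-p), 0) : (V → Md d) × (V → Md d)) ∈ Cn d σ := by
  refine ⟨fun _ _ => 0, fun _ _ => Matrix.PosSemidef.zero, fun w => ?_, fun w => ?_⟩
  · rw [Finset.sum_const_zero, zero_sub]
    change (-(Pi.single v (-p) : V → Md d) w).PosSemidef
    rw [Pi.single_neg, Pi.neg_apply, neg_neg]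
    exact psd_single v w hp
  · rw [Finset.sum_const_zero, neg_zero, zero_sub]
    change (-(0 : Md d)).PosSemidef
    rw [neg_zero]
    exact Matrix.PosSemidef.zero

theorem single2_mem {V S : Type} [Fintype S] [DecidableEq V] (σ : S → Equiv.Perm V) (v : V)
    {p : Md d} (hp : p.PosSemidef) : ((0, Pi.single v (-p)) : (V → Md d) × (V → Md d)) ∈ Cn d σ := by
  refine ⟨fun _ _ => 0, fun _ _ => Matrix.PosSemidef.zero, fun w => ?_, fun w => ?_⟩
  · rw [Finset.sum_const_zero, zero_sub]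
    change (-(0 : Md d)).PosSemidef
    rw [neg_zero]
    exact Matrix.PosSemidef.zero
  · rw [Finset.sum_const_zero, neg_zero, zero_sub]
    change (-(Pi.single v (-p) : V → Md d) w).PosSemidef
    rw [Pi.single_neg, Pi.neg_apply, neg_neg]
    exact psd_single v w hp

theorem single3_mem {V S : Type} [Fintype S] [DecidableEq V] [DecidableEq S]
    (σ : S → Equiv.Perm V) (v : V) (s : S) {p : Md d} (hp : p.PosSemidef) :
    ((Pi.single v p, Pi.single (σ s v) (-p)) : (V → Md d) × (V → Md d)) ∈ Cn d σ := by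
  refine ⟨fun v' s' => if s' = s then (Pi.single v p : V → Md d) v' else 0, fun v' s' => ?_,
    fun w => ?_, fun w => ?_⟩
  · dsimp only
    split_ifs
    · exact psd_single v v' hp
    · exact Matrix.PosSemidef.zero
  · rw [Finset.sum_ite_eq' Finset.univ s (fun _ => (Pi.single v p : V → Md d) w),
      if_pos (Finset.mem_univ _), sub_self]
    exact Matrix.PosSemidef.zero
  · have e : ∑ s', (if s' = s then (Pi.single v p : V → Md d) ((σ s').symm w) else 0) =
        (Pi.single (σ s v) p : V → Md d) w := by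
      rw [Finset.sum_ite_eq' Finset.univ s (fun s' => (Pi.single v p : V → Md d) ((σ s').symm w)),
        if_pos (Finset.mem_univ _)]
      by_cases h : w = σ s v
      · subst h
        rw [Equiv.symm_apply_apply, Pi.single_eq_same, Pi.single_eq_same]
      · rw [Pi.single_eq_of_ne h, Pi.single_eq_of_ne]
        intro h2
        apply h
        rw [← h2, Equiv.apply_symm_apply]
    rw [e, Pi.single_neg]
    change (-(Pi.single (σ s v) p : V → Md d) w - -(Pi.single (σ s v) p : V → Md d) w).PosSemidef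
    rw [sub_self]
    exact Matrix.PosSemidef.zero

theorem spread {V S : Type} [Fintype V] [Nonempty V] [Fintype S]
    (σ : S → Equiv.Perm V) (hσ : IsGapped V S σ) (b : V → Md d)
    (hb0 : ∀ v, (b v).PosSemidef) (hb1 : ∀ v, (1 - b v).PosSemidef)
    (hb : (((Fintype.card V : ℂ) / 16) • (1 : Md d) - ∑ v, b v).PosSemidef)
    (η : ℝ) (hη : 0 < η) :
    ∃ c : V → S → Md d, (∀ v s, (c v s).PosSemidef) ∧
      (∀ v, (∑ s, c v s + (η : ℂ) • (1 : Md d) - b v).PosSemidef) ∧
      ∀ w, (((thetaQ + η : ℝ) : ℂ) • (1 : Md d) - ∑ s, c ((σ s).symm w) s).PosSemidef := by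
  classical
  let t : (V → Md d) × (V → Md d) := (b, fun _ => -((thetaQ : ℂ) • (1 : Md d)))
  by_cases ht : t ∈ closure (Cn d σ)
  · obtain ⟨z, ⟨c, hc, h1, h2⟩, hz⟩ := Metric.mem_closure_iff.1 ht η hη
    have hH : ∀ v, (z.1 v).IsHermitian := by
      intro v
      have e : z.1 v = ∑ s, c v s - (∑ s, c v s - z.1 v) := by abel
      rw [e]
      exact (Matrix.posSemidef_sum _ fun s _ => hc v s).isHermitian.sub (h1 v).isHermitian
    have hH2 : ∀ w, (z.2 w).IsHermitian := by
      intro w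
      have e : z.2 w = -∑ s, c ((σ s).symm w) s - (-∑ s, c ((σ s).symm w) s - z.2 w) := by abel
      rw [e]
      exact (Matrix.posSemidef_sum _ fun s _ => hc _ s).isHermitian.neg.sub (h2 w).isHermitian
    rw [Prod.dist_eq, max_lt_iff] at hz
    refine ⟨c, hc, fun v => ?_, fun w => ?_⟩
    · have h3 : ‖b v - z.1 v‖ ≤ η := by
        rw [← dist_eq_norm]
        exact (dist_le_pi_dist _ _ v).trans hz.1.le
      have h4 := (h1 v).add (small ((hb0 v).isHermitian.sub (hH v)) h3)
      have e : ∑ s, c v s - z.1 v + ((η : ℂ) • (1 : Md d) - (b v - z.1 v)) =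
          ∑ s, c v s + (η : ℂ) • (1 : Md d) - b v := by abel
      rwa [e] at h4
    · have h3 : ‖t.2 w - z.2 w‖ ≤ η := by
        rw [← dist_eq_norm]
        exact (dist_le_pi_dist _ _ w).trans hz.2.le
      have h5 : (t.2 w).IsHermitian := by
        change (-((thetaQ : ℂ) • (1 : Md d))).IsHermitian
        rw [Matrix.IsHermitian, Matrix.conjTranspose_neg, Matrix.conjTranspose_smul,
          Matrix.conjTranspose_one]
        simp
      have h4 := (h2 w).add (small (h5.sub (hH2 w)) h3)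
      have e : -∑ s, c ((σ s).symm w) s - z.2 w + ((η : ℂ) • (1 : Md d) - (t.2 w - z.2 w)) =
          ((thetaQ + η : ℝ) : ℂ) • (1 : Md d) - ∑ s, c ((σ s).symm w) s := by
        change -∑ s, c ((σ s).symm w) s - z.2 w + ((η : ℂ) • (1 : Md d) -
          (-((thetaQ : ℂ) • (1 : Md d)) - z.2 w)) = _
        push_cast
        rw [add_smul]
        abel
      rwa [e] at h4
  · exfalso
    obtain ⟨ℓ, u, hl, hu⟩ := geometric_hahn_banach_closed_point (convex_Cn (d := d) σ).closure
      isClosed_closure ht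
    have h0 : (0 : (V → Md d) × (V → Md d)) ∈ Cn d σ := by
      refine ⟨fun _ _ => 0, fun _ _ => Matrix.PosSemidef.zero, fun w => ?_, fun w => ?_⟩
      · rw [Finset.sum_const_zero]
        change (0 - (0 : Md d)).PosSemidef
        rw [sub_zero]
        exact Matrix.PosSemidef.zero
      · rw [Finset.sum_const_zero]
        change (-0 - (0 : Md d)).PosSemidef
        rw [neg_zero, sub_zero]
        exact Matrix.PosSemidef.zero
    have hu0 : 0 < u := by
      have := hl 0 (subset_closure h0)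
      rwa [map_zero] at this
    have hneg : ∀ z ∈ Cn d σ, ℓ z ≤ 0 := by
      intro z hz
      by_contra hcon
      push Not at hcon
      have h1 := hl _ (subset_closure (smul_Cn σ hz (a := u / ℓ z) (by positivity)))
      rw [map_smul, smul_eq_mul, div_mul_cancel₀ _ hcon.ne'] at h1
      exact lt_irrefl _ h1
    let L1 : V → Md d →ₗ[ℝ] ℝ := fun v => (ℓ : ((V → Md d) × (V → Md d)) →ₗ[ℝ] ℝ) ∘ₗ
      (LinearMap.inl ℝ (V → Md d) (V → Md d)) ∘ₗ (LinearMap.single ℝ (fun _ => Md d) v)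
    let L2 : V → Md d →ₗ[ℝ] ℝ := fun v => (ℓ : ((V → Md d) × (V → Md d)) →ₗ[ℝ] ℝ) ∘ₗ
      (LinearMap.inr ℝ (V → Md d) (V → Md d)) ∘ₗ (LinearMap.single ℝ (fun _ => Md d) v)
    have hL1 : ∀ v p, L1 v p = ℓ (Pi.single v p, 0) := fun _ _ => rfl
    have hL2 : ∀ v p, L2 v p = ℓ (0, Pi.single v p) := fun _ _ => rfl
    have hsum : ∀ z : (V → Md d) × (V → Md d), ℓ z = ∑ v, L1 v (z.1 v) + ∑ v, L2 v (z.2 v) := by
      intro z
      have e : z = ∑ v, ((Pi.single v (z.1 v), 0) : (V → Md d) × (V → Md d)) +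
          ∑ v, ((0, Pi.single v (z.2 v)) : (V → Md d) × (V → Md d)) := by
        apply Prod.ext
        · rw [Prod.fst_add, Prod.fst_sum, Prod.fst_sum]
          simp only [Finset.sum_const_zero, add_zero]
          exact (Finset.univ_sum_single z.1).symm
        · rw [Prod.snd_add, Prod.snd_sum, Prod.snd_sum]
          simp only [Finset.sum_const_zero, zero_add]
          exact (Finset.univ_sum_single z.2).symm
      conv_lhs => rw [e]
      rw [map_add, map_sum, map_sum]
      rfl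
    choose f hfH hf using fun v => exists_repr (L1 v)
    choose g hgH hg using fun v => exists_repr (L2 v)
    have hfp : ∀ v, (f v).PosSemidef := by
      intro v
      refine psd_of_trace (hfH v) fun p hp => ?_
      rw [← hf v p hp.isHermitian]
      have h1 := hneg _ (single1_mem σ v hp)
      rw [← hL1, map_neg] at h1
      linarith
    have hgp : ∀ v, (g v).PosSemidef := by
      intro v
      refine psd_of_trace (hgH v) fun p hp => ?_
      rw [← hg v p hp.isHermitian]
      have h1 := hneg _ (single2_mem σ v hp)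
      rw [← hL2, map_neg] at h1
      linarith
    have hfg : ∀ s v, (g (σ s v) - f v).PosSemidef := by
      intro s v
      refine psd_of_trace ((hgH _).sub (hfH _)) fun p hp => ?_
      rw [Matrix.sub_mul, Matrix.trace_sub, Complex.sub_re, ← hf v p hp.isHermitian,
        ← hg _ p hp.isHermitian]
      have h1 := hneg _ (single3_mem σ v s hp)
      have e : ((Pi.single v p, Pi.single (σ s v) (-p)) : (V → Md d) × (V → Md d)) =
          (Pi.single v p, 0) + (0, Pi.single (σ s v) (-p)) := by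
        rw [Prod.mk_add_mk, add_zero, zero_add]
      rw [e, map_add, ← hL1, ← hL2, map_neg] at h1
      linarith
    have hmain := main_ineq σ hσ b hb0 hb1 hb f g hfp hgp hfg
    have ht2 : ℓ t = ∑ v, (f v * b v).trace.re - thetaQ * ∑ v, (g v).trace.re := by
      rw [hsum, Finset.mul_sum, sub_eq_add_neg, ← Finset.sum_neg_distrib]
      congr 1
      · exact Finset.sum_congr rfl fun v _ => hf v _ (hb0 v).isHermitian
      · refine Finset.sum_congr rfl fun v _ => ?_
        change L2 v (-((thetaQ : ℂ) • (1 : Md d))) = _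
        have e : ((thetaQ : ℂ) • (1 : Md d)) = (thetaQ : ℝ) • (1 : Md d) := by
          ext i j
          simp
        rw [map_neg, e, map_smul, hg v 1 Matrix.isHermitian_one, Matrix.mul_one]
        rfl
    rw [ht2] at hu
    linarith

end T4a1sec

end T4a1

/-- T4a1. -/
theorem spread_matrix (d : ℕ) (V S : Type) [Fintype V] [Nonempty V] [Fintype S]
    (σ : S → Equiv.Perm V) (hσ : IsGapped V S σ) (b : V → Matrix (Fin d) (Fin d) ℂ)
    (hb0 : ∀ v, (b v).PosSemidef) (hb1 : ∀ v, (1 - b v).PosSemidef)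
    (hb : (((Fintype.card V : ℂ) / 16) • (1 : Matrix (Fin d) (Fin d) ℂ) - ∑ v, b v).PosSemidef)
    (η : ℝ) (hη : 0 < η) :
    ∃ c : V → S → Matrix (Fin d) (Fin d) ℂ, (∀ v s, (c v s).PosSemidef) ∧
      (∀ v, (∑ s, c v s + (η : ℂ) • (1 : Matrix (Fin d) (Fin d) ℂ) - b v).PosSemidef) ∧
      ∀ w, (((thetaQ + η : ℝ) : ℂ) • (1 : Matrix (Fin d) (Fin d) ℂ) -
        ∑ s, c ((σ s).symm w) s).PosSemidef :=
  T4a1.spread σ hσ b hb0 hb1 hb η hη

end Pool.Agent.H253.US
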