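import Pool.Agent.H253.US.Defs
import Pool.Agent.H253.US.SpreadMatrix

/-!
# Ulam stability of nuclear C*-algebras (MP_a35bd4_an): definitions and basic facts
-/

set_option autoImplicit false

open scoped CStarAlgebra ComplexOrder

namespace Pool.Agent.H253.US

universe u v w



section bridge

open scoped MatrixOrder in
theorem psd_exists {d : ℕ} {M : Matrix (Fin d) (Fin d) ℂ} (h : M.PosSemidef) :
    ∃ N : Matrix (Fin d) (Fin d) ℂ, M = N.conjTranspose * N := by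
  obtain ⟨B, hB⟩ := CStarAlgebra.nonneg_iff_eq_star_mul_self.mp h.nonneg
  exact ⟨B, hB⟩

theorem nonneg_ofMatrix {d : ℕ} (M : Matrix (Fin d) (Fin d) ℂ) :
    0 ≤ (CStarMatrix.ofMatrix M : CStarMatrix (Fin d) (Fin d) ℂ) ↔ M.PosSemidef := by
  constructor
  · intro h
    rw [StarOrderedRing.nonneg_iff] at h
    have gen : ∀ X : CStarMatrix (Fin d) (Fin d) ℂ,
        X ∈ AddSubmonoid.closure (Set.range fun s : CStarMatrix (Fin d) (Fin d) ℂ => star s * s) →
        (CStarMatrix.ofMatrix.symm X).PosSemidef := by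
      intro X hX
      induction hX using AddSubmonoid.closure_induction with
      | mem x hx =>
        obtain ⟨N, rfl⟩ := hx
        exact Matrix.posSemidef_conjTranspose_mul_self (CStarMatrix.ofMatrix.symm N)
      | zero => exact Matrix.PosSemidef.zero
      | add x y _ _ hx hy => exact hx.add hy
    exact gen _ h
  · intro h
    obtain ⟨N, hN⟩ := psd_exists h
    have h1 : (CStarMatrix.ofMatrix M : CStarMatrix (Fin d) (Fin d) ℂ) =
        star (CStarMatrix.ofMatrix N) * CStarMatrix.ofMatrix N := hN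
    rw [h1]
    exact star_mul_self_nonneg _

theorem le_ofMatrix {d : ℕ} (M N : Matrix (Fin d) (Fin d) ℂ) :
    (CStarMatrix.ofMatrix M : CStarMatrix (Fin d) (Fin d) ℂ) ≤ CStarMatrix.ofMatrix N ↔
      (N - M).PosSemidef := by
  rw [← sub_nonneg, ← nonneg_ofMatrix]
  rfl

theorem ofMatrix_smul_one {d : ℕ} (r : ℝ) :
    (CStarMatrix.ofMatrix ((r : ℂ) • (1 : Matrix (Fin d) (Fin d) ℂ)) :
      CStarMatrix (Fin d) (Fin d) ℂ) = r • (1 : CStarMatrix (Fin d) (Fin d) ℂ) := by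
  ext i j
  change (r : ℂ) * (1 : Matrix (Fin d) (Fin d) ℂ) i j = r • ((1 : Matrix (Fin d) (Fin d) ℂ) i j)
  rw [Complex.real_smul]

theorem ofMatrix_sum {d : ℕ} {ι : Type} (s : Finset ι) (f : ι → Matrix (Fin d) (Fin d) ℂ) :
    (CStarMatrix.ofMatrix (∑ i ∈ s, f i) : CStarMatrix (Fin d) (Fin d) ℂ) =
      ∑ i ∈ s, CStarMatrix.ofMatrix (f i) :=
  map_sum (CStarMatrix.ofMatrixₗ (R := ℂ) (m := Fin d) (n := Fin d) (A := ℂ)) f s

end bridge

/-- T4a2. -/
theorem spread_FD {n : ℕ} (k : Fin n → ℕ) (V S : Type) [Fintype V] [Nonempty V] [Fintype S]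
    (σ : S → Equiv.Perm V) (hσ : IsGapped V S σ) (b : V → FD k)
    (hb0 : ∀ v, 0 ≤ b v) (hb1 : ∀ v, b v ≤ 1)
    (hb : ∑ v, b v ≤ ((Fintype.card V : ℝ) / 16) • (1 : FD k))
    (η : ℝ) (hη : 0 < η) :
    ∃ c : V → S → FD k, (∀ v s, 0 ≤ c v s) ∧ (∀ v, b v ≤ ∑ s, c v s + η • (1 : FD k)) ∧
      ∀ w, ∑ s, c ((σ s).symm w) s ≤ (thetaQ + η) • (1 : FD k) := by
  have key : ∀ β : Fin n, ∃ c : V → S → Matrix (Fin (k β)) (Fin (k β)) ℂ,
      (∀ v s, (c v s).PosSemidef) ∧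
      (∀ v, (∑ s, c v s + (η : ℂ) • (1 : Matrix (Fin (k β)) (Fin (k β)) ℂ) -
        CStarMatrix.ofMatrix.symm (b v β)).PosSemidef) ∧
      ∀ w, (((thetaQ + η : ℝ) : ℂ) • (1 : Matrix (Fin (k β)) (Fin (k β)) ℂ) -
        ∑ s, c ((σ s).symm w) s).PosSemidef := by
    intro β
    refine spread_matrix (k β) V S σ hσ (fun v => CStarMatrix.ofMatrix.symm (b v β)) ?_ ?_ ?_ η hη
    · intro v
      rw [← nonneg_ofMatrix]
      exact hb0 v β
    · intro v
      rw [← le_ofMatrix]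
      exact hb1 v β
    · rw [← le_ofMatrix, ofMatrix_sum]
      have h1 := hb β
      rw [Finset.sum_apply] at h1
      have h2 : ((Fintype.card V : ℂ) / 16) = (((Fintype.card V : ℝ) / 16 : ℝ) : ℂ) := by
        push_cast; rfl
      rw [h2, ofMatrix_smul_one]
      exact h1
  choose c hc0 hc1 hc2 using key
  refine ⟨fun v s β => CStarMatrix.ofMatrix (c β v s), ?_, ?_, ?_⟩
  · intro v s β
    exact (nonneg_ofMatrix _).mpr (hc0 β v s)
  · intro v β
    have h1 := (le_ofMatrix _ _).mpr (hc1 β v)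
    have h2 : (CStarMatrix.ofMatrix (∑ s, c β v s + (η : ℂ) • (1 : Matrix (Fin (k β)) (Fin (k β)) ℂ)) :
        CStarMatrix (Fin (k β)) (Fin (k β)) ℂ) =
        ∑ s, CStarMatrix.ofMatrix (c β v s) + η • (1 : CStarMatrix (Fin (k β)) (Fin (k β)) ℂ) := by
      rw [← ofMatrix_sum, ← ofMatrix_smul_one]
      rfl
    rw [h2] at h1
    rw [Pi.add_apply, Finset.sum_apply]
    exact h1
  · intro w β
    have h1 := (le_ofMatrix _ _).mpr (hc2 β w)
    rw [ofMatrix_sum, ofMatrix_smul_one] at h1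
    rw [Finset.sum_apply]
    exact h1

end Pool.Agent.H253.US
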