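import Pool.Agent.H253.US.Defs
import Pool.Graph.R_seed8.H518R4.UG.CEXP
import Pool.Graph.R_seed8.H518R4.UG.BURG
import Pool.Agent.H253.US.SpreadFD

/-!
# Ulam stability of nuclear C*-algebras (MP_a35bd4_an): definitions and basic facts
-/

set_option autoImplicit false

open scoped CStarAlgebra ComplexOrder

namespace Pool.Agent.H253.US

universe u v w



/-! ### auxiliary lemmas for T4b -/

section auxb

variable {n : ℕ} {k : Fin n → ℕ}

theorem FD.norm_le_of_le (x : FD k) (r : ℝ) (hr : 0 ≤ r) (hx : 0 ≤ x)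
    (h : x ≤ r • (1 : FD k)) : ‖x‖ ≤ r := by
  rw [CStarAlgebra.norm_le_iff_le_algebraMap x hr hx, Algebra.algebraMap_eq_smul_one]
  exact h

theorem FD.le_of_norm_le (x : FD k) (r : ℝ) (hr : 0 ≤ r) (hx : 0 ≤ x)
    (h : ‖x‖ ≤ r) : x ≤ r • (1 : FD k) := by
  rw [CStarAlgebra.norm_le_iff_le_algebraMap x hr hx, Algebra.algebraMap_eq_smul_one] at h
  exact h

theorem FD.norm_smul_one_le (r : ℝ) (hr : 0 ≤ r) : ‖r • (1 : FD k)‖ ≤ r :=
  FD.norm_le_of_le _ r hr (smul_nonneg hr zero_le_one) le_rfl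

end auxb

/-- T4b. -/
theorem spread_A (A : Type u) [NonUnitalCStarAlgebra A] [PartialOrder A] [StarOrderedRing A]
    (hA : IsDecNuclear A) (V S : Type) [Fintype V] [Nonempty V] [Fintype S]
    (σ : S → Equiv.Perm V) (hσ : IsGapped V S σ) (b : V → A) (hb0 : ∀ v, 0 ≤ b v)
    (hb1 : ∀ v, ‖b v‖ ≤ 1) (hb : ‖∑ v, b v‖ ≤ (Fintype.card V : ℝ) / 16)
    (η : ℝ) (hη : 0 < η) :
    ∃ c : V → S → A, (∀ v s, 0 ≤ c v s) ∧
      (∀ v, ∃ d : A, ‖d‖ ≤ η ∧ b v ≤ ∑ s, c v s + d) ∧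
      ∀ w, ‖∑ s, c ((σ s).symm w) s‖ ≤ thetaQ + η := by
  classical
  obtain ⟨N, n, k, ψ, θ, hN, hψ, hθ, happ⟩ := hA (Finset.univ.image b) (η / 2) (half_pos hη)
  have hη2 : 0 < η / 2 := half_pos hη
  have hq : 0 ≤ thetaQ := by unfold thetaQ; norm_num
  have hsum0 : 0 ≤ ∑ v, b v := Finset.sum_nonneg fun v _ => hb0 v
  have key : ∀ i : Fin N, ∃ c : V → S → FD (k i), (∀ v s, 0 ≤ c v s) ∧
      (∀ v, ψ i (b v) ≤ ∑ s, c v s + (η / 2) • (1 : FD (k i))) ∧
      ∀ w, ∑ s, c ((σ s).symm w) s ≤ (thetaQ + η / 2) • (1 : FD (k i)) := by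
    intro i
    refine spread_FD (k i) V S σ hσ (fun v => ψ i (b v)) (fun v => map_nonneg (ψ i) (hb0 v))
      (fun v => ?_) ?_ (η / 2) hη2
    · exact (CStarAlgebra.norm_le_one_iff_of_nonneg _ (map_nonneg (ψ i) (hb0 v))).1
        ((hψ i _).trans (hb1 v))
    · rw [← map_sum]
      exact FD.le_of_norm_le _ _ (by positivity) (map_nonneg (ψ i) hsum0) ((hψ i _).trans hb)
  choose c hc0 hcb hcw using key
  have hNpos : (0 : ℝ) < N := by exact_mod_cast hN
  have hinv : ((N : ℂ)⁻¹) = (((N : ℝ)⁻¹ : ℝ) : ℂ) := by push_cast; rfl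
  -- averages of nonnegative elements
  have hav : ∀ x : Fin N → A, (∀ i, 0 ≤ x i) → 0 ≤ (N : ℂ)⁻¹ • ∑ i, x i := by
    intro x hx
    rw [hinv, Complex.coe_smul]
    exact smul_nonneg (by positivity) (Finset.sum_nonneg fun i _ => hx i)
  have hnorm : ∀ (x : Fin N → A) (r : ℝ), (∀ i, ‖x i‖ ≤ r) → ‖(N : ℂ)⁻¹ • ∑ i, x i‖ ≤ r := by
    intro x r hx
    rw [norm_smul, norm_inv, Complex.norm_natCast]
    have h1 : ‖∑ i, x i‖ ≤ N * r := by
      refine (norm_sum_le _ _).trans ((Finset.sum_le_sum fun i _ => hx i).trans ?_)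
      simp
    calc (N : ℝ)⁻¹ * ‖∑ i, x i‖ ≤ (N : ℝ)⁻¹ * (N * r) := by gcongr
      _ = r := by field_simp
  refine ⟨fun v s => (N : ℂ)⁻¹ • ∑ i, θ i (c i v s), fun v s =>
    hav _ fun i => map_nonneg (θ i) (hc0 i v s), fun v => ?_, fun w => ?_⟩
  · refine ⟨(N : ℂ)⁻¹ • ∑ i, θ i ((η / 2) • (1 : FD (k i))) +
      (b v - (N : ℂ)⁻¹ • ∑ i, θ i (ψ i (b v))), ?_, ?_⟩
    · have h1 : ‖(N : ℂ)⁻¹ • ∑ i, θ i ((η / 2) • (1 : FD (k i)))‖ ≤ η / 2 :=
        hnorm _ _ fun i => ((hθ i).contr _).trans (FD.norm_smul_one_le _ hη2.le)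
      have h2 := happ (b v) (Finset.mem_image_of_mem b (Finset.mem_univ v))
      refine (norm_add_le _ _).trans ?_
      linarith
    · have h3 : 0 ≤ (N : ℂ)⁻¹ • ∑ i, θ i (∑ s, c i v s + (η / 2) • (1 : FD (k i)) -
          ψ i (b v)) := hav _ fun i => map_nonneg (θ i) (sub_nonneg.2 (hcb i v))
      have h4 : (N : ℂ)⁻¹ • ∑ i, θ i (∑ s, c i v s + (η / 2) • (1 : FD (k i)) - ψ i (b v)) =
          (∑ s, (N : ℂ)⁻¹ • ∑ i, θ i (c i v s)) +
            ((N : ℂ)⁻¹ • ∑ i, θ i ((η / 2) • (1 : FD (k i)))) -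
            (N : ℂ)⁻¹ • ∑ i, θ i (ψ i (b v)) := by
        rw [← Finset.smul_sum, Finset.sum_comm, ← smul_add, ← smul_sub, ← Finset.sum_add_distrib,
          ← Finset.sum_sub_distrib]
        congr 1
        refine Finset.sum_congr rfl fun i _ => ?_
        rw [map_sub, map_add, map_sum]
      rw [h4] at h3
      rw [← sub_nonneg]
      convert h3 using 1
      abel
  · have h5 : ∑ s, (N : ℂ)⁻¹ • ∑ i, θ i (c i ((σ s).symm w) s) =
        (N : ℂ)⁻¹ • ∑ i, θ i (∑ s, c i ((σ s).symm w) s) := by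
      rw [← Finset.smul_sum, Finset.sum_comm]
      congr 1
      refine Finset.sum_congr rfl fun i _ => ?_
      rw [map_sum]
    rw [h5]
    refine (hnorm _ (thetaQ + η / 2) fun i => ((hθ i).contr _).trans ?_).trans (by linarith)
    exact FD.norm_le_of_le _ _ (by positivity) (Finset.sum_nonneg fun s _ => hc0 i _ s) (hcw i w)

/-! ### auxiliary lemmas for T4c -/

section auxc

variable {A : Type u} [NonUnitalCStarAlgebra A] [PartialOrder A] [StarOrderedRing A]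
  {H : Type v} [NormedAddCommGroup H] [InnerProductSpace ℂ H] [CompleteSpace H]
  {ε : ℝ} {φ : A → H →L[ℂ] H}

/-- the vector functional -/
noncomputable def vf (φ : A → H →L[ℂ] H) (ξ : H) (a : A) : ℝ := (inner ℂ ξ (φ a ξ)).re

theorem re_inner_leG (T : H →L[ℂ] H) (ξ : H) (hξ : ‖ξ‖ = 1) : |(inner ℂ ξ (T ξ)).re| ≤ ‖T‖ := by
  refine (Complex.abs_re_le_norm _).trans ((norm_inner_le_norm _ _).trans ?_)
  rw [hξ, one_mul]
  simpa [hξ] using T.le_opNorm ξ

theorem vf_bound (h : IsEpsHom ε φ) (ξ : H) (hξ : ‖ξ‖ = 1) (a : A) (ha : ‖a‖ ≤ 1) :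
    |vf φ ξ a| ≤ ‖a‖ + ε := (re_inner_leG _ ξ hξ).trans (h.norm_le a ha)

theorem vf_add (h : IsEpsHom ε φ) (ξ : H) (hξ : ‖ξ‖ = 1) (a b : A) (ha : ‖a‖ ≤ 1)
    (hb : ‖b‖ ≤ 1) : |vf φ ξ (a + b) - vf φ ξ a - vf φ ξ b| ≤ ε := by
  have h1 : vf φ ξ (a + b) - vf φ ξ a - vf φ ξ b =
      (inner ℂ ξ ((φ (a + b) - φ a - φ b) ξ)).re := by
    simp only [vf, ContinuousLinearMap.sub_apply, inner_sub_right, Complex.sub_re]
  rw [h1]
  exact (re_inner_leG _ ξ hξ).trans (h.add a b ha hb)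

theorem vf_smul (h : IsEpsHom ε φ) (ξ : H) (hξ : ‖ξ‖ = 1) (a : A) (ha : ‖a‖ ≤ 1) (r : ℝ)
    (hr0 : 0 ≤ r) (hr1 : r ≤ 1) : |vf φ ξ ((r : ℂ) • a) - r * vf φ ξ a| ≤ ε := by
  have h1 : vf φ ξ ((r : ℂ) • a) - r * vf φ ξ a =
      (inner ℂ ξ ((φ ((r : ℂ) • a) - (r : ℂ) • φ a) ξ)).re := by
    simp only [vf, ContinuousLinearMap.sub_apply, inner_sub_right, Complex.sub_re,
      ContinuousLinearMap.smul_apply, inner_smul_right, Complex.re_ofReal_mul]
  rw [h1]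
  refine (re_inner_leG _ ξ hξ).trans (h.smul a _ ha ?_)
  rw [Complex.norm_real, Real.norm_eq_abs, abs_of_nonneg hr0]
  exact hr1

theorem vf_pos (h : IsEpsHom ε φ) (ξ : H) (hξ : ‖ξ‖ = 1) (d : A) (hd : 0 ≤ d) (hd1 : ‖d‖ ≤ 1) :
    -(2 * ε) ≤ vf φ ξ d := by
  obtain ⟨e, rfl⟩ := CStarAlgebra.nonneg_iff_eq_star_mul_self.1 hd
  have he : ‖e‖ ≤ 1 := by
    rw [CStarRing.norm_star_mul_self] at hd1
    nlinarith [norm_nonneg e]
  have hse : ‖star e‖ ≤ 1 := by rwa [norm_star]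
  have h1 := h.mul (star e) e hse he
  have h2 := h.star e he
  have h3 := h.contr e he
  have h4 : ‖φ (star e * e) - star (φ e) * φ e‖ ≤ 2 * ε := by
    have : φ (star e * e) - star (φ e) * φ e = (φ (star e * e) - φ (star e) * φ e) +
        (φ (star e) - star (φ e)) * φ e := by
      rw [sub_mul]; abel
    rw [this]
    refine (norm_add_le _ _).trans ?_
    have h5 : ‖(φ (star e) - star (φ e)) * φ e‖ ≤ ε * 1 :=
      (norm_mul_le _ _).trans (mul_le_mul h2 h3 (norm_nonneg _) h.eps_nonneg)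
    linarith
  have h6 : vf φ ξ (star e * e) = (inner ℂ ξ ((φ (star e * e) - star (φ e) * φ e) ξ)).re +
      (inner ℂ ξ ((star (φ e) * φ e) ξ)).re := by
    simp only [vf, ContinuousLinearMap.sub_apply, inner_sub_right, Complex.sub_re]
    ring
  have h7 : 0 ≤ (inner ℂ ξ ((star (φ e) * φ e) ξ)).re := by
    rw [ContinuousLinearMap.mul_apply, ContinuousLinearMap.star_eq_adjoint,
      ContinuousLinearMap.adjoint_inner_right]
    have := inner_self_nonneg (𝕜 := ℂ) (x := φ e ξ)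
    simpa using this
  have h8 := (abs_le.1 ((re_inner_leG _ ξ hξ).trans h4)).1
  rw [h6]
  linarith

/-- near additivity for finite sums -/
theorem vf_sum (h : IsEpsHom ε φ) (ξ : H) (hξ : ‖ξ‖ = 1) {S : Type} [DecidableEq S] (c : S → A)
    (hc0 : ∀ s, 0 ≤ c s) (t : Finset S) : ‖∑ s ∈ t, c s‖ ≤ 1 →
    |vf φ ξ (∑ s ∈ t, c s) - ∑ s ∈ t, vf φ ξ (c s)| ≤ (t.card + 1) * ε := by
  induction t using Finset.induction_on with
  | empty =>
    intro _
    have := vf_bound h ξ hξ 0 (by simp)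
    simpa using this
  | insert a t ha ih =>
    intro h1
    rw [Finset.sum_insert ha] at h1 ⊢
    rw [Finset.sum_insert ha]
    have h0 : 0 ≤ ∑ s ∈ t, c s := Finset.sum_nonneg fun s _ => hc0 s
    have h2 : ‖∑ s ∈ t, c s‖ ≤ 1 :=
      (CStarAlgebra.norm_le_norm_of_nonneg_of_le h0 (le_add_of_nonneg_left (hc0 a))).trans h1
    have h3 : ‖c a‖ ≤ 1 :=
      (CStarAlgebra.norm_le_norm_of_nonneg_of_le (hc0 a) (le_add_of_nonneg_right h0)).trans h1
    have h4 := ih h2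
    have h5 := vf_add h ξ hξ (c a) (∑ s ∈ t, c s) h3 h2
    rw [Finset.card_insert_of_notMem ha]
    push_cast
    rw [abs_le] at h4 h5 ⊢
    constructor <;> nlinarith [h4.1, h4.2, h5.1, h5.2]

theorem vf_cell (h : IsEpsHom ε φ) (ξ : H) (hξ : ‖ξ‖ = 1) {S : Type} [Fintype S]
    (hS : Fintype.card S = 5) (b : A) (hb0 : 0 ≤ b) (hb1 : ‖b‖ ≤ 1) (c : S → A)
    (hc0 : ∀ s, 0 ≤ c s) (hc1 : ∀ s, ‖c s‖ ≤ 1) (d : A) (η : ℝ) (hη : η ≤ 1) (hd : ‖d‖ ≤ η)
    (hbc : b ≤ ∑ s, c s + d) : vf φ ξ b ≤ ∑ s, vf φ ξ (c s) + (136 * ε + η) := by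
  classical
  have hε := h.eps_nonneg
  obtain ⟨r, hr⟩ : ∃ r : ℝ, r = 1 / 8 := ⟨_, rfl⟩
  have hr0 : 0 ≤ r := by norm_num [hr]
  have hr1 : r ≤ 1 := by norm_num [hr]
  have hnr : ∀ x : A, ‖(r : ℂ) • x‖ = ‖x‖ / 8 := by
    intro x
    rw [norm_smul, Complex.norm_real, Real.norm_eq_abs, abs_of_nonneg hr0, hr]; ring
  have hpos : ∀ x : A, 0 ≤ x → 0 ≤ (r : ℂ) • x := by
    intro x hx
    rw [Complex.coe_smul]
    exact smul_nonneg hr0 hx
  have hsum : ‖∑ s, c s‖ ≤ 5 := by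
    refine (norm_sum_le _ _).trans ((Finset.sum_le_sum fun s _ => hc1 s).trans ?_)
    simp [hS]
  -- the positive element
  have hp0 : 0 ≤ (r : ℂ) • (∑ s, c s + d - b) := hpos _ (sub_nonneg.2 hbc)
  have hp1 : ‖(r : ℂ) • (∑ s, c s + d - b)‖ ≤ 1 := by
    rw [hnr]
    have h1 := norm_sub_le (∑ s, c s + d) b
    have h2 := norm_add_le (∑ s, c s) d
    linarith
  have e1 := vf_pos h ξ hξ _ hp0 hp1
  have hrb1 : ‖(r : ℂ) • b‖ ≤ 1 := by rw [hnr]; linarith
  have hrd1 : ‖(r : ℂ) • d‖ ≤ 1 := by rw [hnr]; linarith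
  have e2 := vf_add h ξ hξ _ _ hp1 hrb1
  have e3 := vf_smul h ξ hξ b hb1 r hr0 hr1
  have hX : (r : ℂ) • (∑ s, c s + d - b) + (r : ℂ) • b =
      ∑ s, (r : ℂ) • c s + (r : ℂ) • d := by
    rw [← Finset.smul_sum, ← smul_add, ← smul_add, sub_add_cancel]
  rw [hX] at e2
  have hrs1 : ‖∑ s, (r : ℂ) • c s‖ ≤ 1 := by
    rw [← Finset.smul_sum, hnr]; linarith
  have e4 := vf_add h ξ hξ _ _ hrs1 hrd1
  have e5 := vf_bound h ξ hξ _ hrd1
  rw [hnr] at e5
  have e6 := vf_sum h ξ hξ (fun s => (r : ℂ) • c s) (fun s => hpos _ (hc0 s)) Finset.univ hrs1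
  rw [Finset.card_univ, hS] at e6
  have e7 : ∑ s, vf φ ξ ((r : ℂ) • c s) ≤ ∑ s, (r * vf φ ξ (c s) + ε) :=
    Finset.sum_le_sum fun s _ => by
      have := (abs_le.1 (vf_smul h ξ hξ (c s) (hc1 s) r hr0 hr1)).2
      linarith
  rw [Finset.sum_add_distrib, ← Finset.mul_sum, Finset.sum_const, Finset.card_univ, hS,
    nsmul_eq_mul] at e7
  rw [abs_le] at e2 e3 e4 e5 e6
  push_cast at e6 e7
  have e8 : r * vf φ ξ b ≤ r * ∑ s, vf φ ξ (c s) + (17 * ε + η / 8) := by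
    obtain ⟨e2, -⟩ := e2
    obtain ⟨e3, -⟩ := e3
    obtain ⟨-, e4⟩ := e4
    obtain ⟨-, e5⟩ := e5
    obtain ⟨-, e6⟩ := e6
    generalize vf φ ξ (∑ s, (r : ℂ) • c s + (r : ℂ) • d) = X1 at *
    generalize vf φ ξ ((r : ℂ) • (∑ s, c s + d - b)) = X2 at *
    generalize vf φ ξ ((r : ℂ) • b) = X3 at *
    generalize vf φ ξ (∑ s, (r : ℂ) • c s) = X4 at *
    generalize vf φ ξ ((r : ℂ) • d) = X5 at *
    generalize ∑ s, vf φ ξ ((r : ℂ) • c s) = X6 at *
    generalize ∑ s, vf φ ξ (c s) = X7 at *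
    generalize vf φ ξ b = X8 at *
    linarith
  rw [hr] at e8
  linarith

end auxc

/-! ### the expander -/

section expander

open Pool.Agent.H518R4.UG in
theorem expander_gap (m : ℕ) [NeZero m] : ∃ σ : Fin 5 → Equiv.Perm (ZMod m × ZMod m),
    IsGapped (ZMod m × ZMod m) (Fin 5) σ := by
  let s1 : Equiv.Perm (ZMod m × ZMod m) :=
    { toFun := fun v => (v.1 + 1, v.2)
      invFun := fun v => (v.1 - 1, v.2)
      left_inv := fun v => by simp
      right_inv := fun v => by simp }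
  let s2 : Equiv.Perm (ZMod m × ZMod m) :=
    { toFun := fun v => (v.1, v.2 + 1)
      invFun := fun v => (v.1, v.2 - 1)
      left_inv := fun v => by simp
      right_inv := fun v => by simp }
  let s3 : Equiv.Perm (ZMod m × ZMod m) :=
    { toFun := fun v => (v.1, v.2 + v.1)
      invFun := fun v => (v.1, v.2 - v.1)
      left_inv := fun v => by simp
      right_inv := fun v => by simp }
  let s4 : Equiv.Perm (ZMod m × ZMod m) :=
    { toFun := fun v => (v.1 + v.2, v.2)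
      invFun := fun v => (v.1 - v.2, v.2)
      left_inv := fun v => by simp
      right_inv := fun v => by simp }
  refine ⟨![1, s1, s2, s3, s4], by simp, ⟨0, rfl⟩, ?_⟩
  intro E _ _ F hF
  have h := p_CEXP p_BURG E m F hF
  refine h.trans ?_
  rw [Fin.sum_univ_five]
  have h0 : ∑ v, ‖F ((![1, s1, s2, s3, s4] : Fin 5 → Equiv.Perm (ZMod m × ZMod m)) 0 v) - F v‖ ^ 2 =
      0 := by
    simp
  rw [h0, zero_add]
  exact le_of_eq rfl

end expander

/-- T4c. -/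
theorem gap : ∃ C : ℝ, 0 < C ∧ ∀ (A : Type u) [NonUnitalCStarAlgebra A] [PartialOrder A]
    [StarOrderedRing A] (H : Type v) [NormedAddCommGroup H] [InnerProductSpace ℂ H]
    [CompleteSpace H] (ε : ℝ) (φ : A → H →L[ℂ] H), IsDecNuclear A → IsEpsHom ε φ →
    ∀ (ι : Type) [Fintype ι] [Nonempty ι] (b : ι → A), (∀ i, 0 ≤ b i) → (∀ i, ‖b i‖ ≤ 1) →
    ‖∑ i, b i‖ ≤ (Fintype.card ι : ℝ) / 16 → ∀ ξ : H, ‖ξ‖ = 1 →
    ∑ i, (inner ℂ ξ (φ (b i) ξ)).re ≤ Fintype.card ι * (thetaQ + C * ε) := by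
  classical
  refine ⟨143, by norm_num, ?_⟩
  intro A _ _ _ H _ _ _ ε φ hA h ι _ _ b hb0 hb1 hb ξ hξ
  have hε := h.eps_nonneg
  set m : ℕ := Fintype.card ι with hm
  have hmpos : 0 < m := Fintype.card_pos
  have : NeZero m := ⟨hmpos.ne'⟩
  obtain ⟨σ, hσ⟩ := expander_gap m
  have hcardV : Fintype.card (ZMod m × ZMod m) = m * m := by
    rw [Fintype.card_prod, ZMod.card]
  let e : ι ≃ ZMod m := Fintype.equivOfCardEq (by rw [ZMod.card])
  let b' : ZMod m × ZMod m → A := fun v => b (e.symm v.1)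
  have hsumb' : ∑ v, b' v = m • ∑ i, b i := by
    rw [Fintype.sum_prod_type]
    simp only [b', Finset.sum_const, Finset.card_univ, ZMod.card]
    rw [← Finset.smul_sum]
    congr 1
    exact Equiv.sum_comp e.symm b
  have hsumF : ∑ v, vf φ ξ (b' v) = m * ∑ i, vf φ ξ (b i) := by
    rw [Fintype.sum_prod_type]
    simp only [b', Finset.sum_const, Finset.card_univ, ZMod.card, nsmul_eq_mul]
    rw [← Finset.mul_sum]
    congr 1
    exact Equiv.sum_comp e.symm fun i => vf φ ξ (b i)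
  have hmR : (0 : ℝ) < m := by exact_mod_cast hmpos
  have hbig : ‖∑ v, b' v‖ ≤ (Fintype.card (ZMod m × ZMod m) : ℝ) / 16 := by
    rw [hsumb', hcardV, ← Nat.cast_smul_eq_nsmul ℂ m, norm_smul, Complex.norm_natCast]
    push_cast
    nlinarith [hb]
  have hthet : thetaQ = 256000 / 256001 := rfl
  -- the estimate with a small parameter
  have main : ∀ η : ℝ, 0 < η → η ≤ 1 / 256001 →
      ∑ v, vf φ ξ (b' v) ≤ ((m : ℝ) * m) * (thetaQ + 143 * ε + 2 * η) := by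
    intro η hη hη1
    obtain ⟨c, hc0, hcb, hcw⟩ := spread_A A hA (ZMod m × ZMod m) (Fin 5) σ hσ b'
      (fun v => hb0 _) (fun v => hb1 _) hbig η hη
    have hcol : ∀ w, ‖∑ s, c ((σ s).symm w) s‖ ≤ 1 := fun w =>
      (hcw w).trans (by rw [hthet]; linarith)
    have hc1 : ∀ v s, ‖c v s‖ ≤ 1 := by
      intro v s
      refine (CStarAlgebra.norm_le_norm_of_nonneg_of_le (hc0 v s) ?_).trans (hcol (σ s v))
      have h1 := Finset.single_le_sum (f := fun s' => c ((σ s').symm (σ s v)) s')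
        (fun s' _ => hc0 _ s') (Finset.mem_univ s)
      simpa using h1
    have step1 : ∀ v, vf φ ξ (b' v) ≤ ∑ s, vf φ ξ (c v s) + (136 * ε + η) := by
      intro v
      obtain ⟨d, hd, hbd⟩ := hcb v
      exact vf_cell h ξ hξ (by simp) (b' v) (hb0 _) (hb1 _) (c v) (hc0 v) (hc1 v) d η
        (by linarith) hd hbd
    have step2 : ∀ w, ∑ s, vf φ ξ (c ((σ s).symm w) s) ≤ thetaQ + η + 7 * ε := by
      intro w
      have h1 := vf_sum h ξ hξ (fun s => c ((σ s).symm w) s) (fun s => hc0 _ s) Finset.univ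
        (hcol w)
      have h2 := vf_bound h ξ hξ _ (hcol w)
      rw [Finset.card_univ, Fintype.card_fin] at h1
      push_cast at h1
      rw [abs_le] at h1 h2
      have h3 := hcw w
      linarith [h1.1, h2.2]
    calc ∑ v, vf φ ξ (b' v) ≤ ∑ v, (∑ s, vf φ ξ (c v s) + (136 * ε + η)) :=
          Finset.sum_le_sum fun v _ => step1 v
      _ = ∑ w, ∑ s, vf φ ξ (c ((σ s).symm w) s) + ((m : ℝ) * m) * (136 * ε + η) := by
          rw [Finset.sum_add_distrib, Finset.sum_const, Finset.card_univ, hcardV, nsmul_eq_mul]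
          push_cast
          congr 1
          rw [Finset.sum_comm, Finset.sum_comm (s := Finset.univ (α := ZMod m × ZMod m))]
          refine Finset.sum_congr rfl fun s _ => ?_
          exact (Equiv.sum_comp (σ s).symm fun v => vf φ ξ (c v s)).symm
      _ ≤ ∑ w : ZMod m × ZMod m, (thetaQ + η + 7 * ε) + ((m : ℝ) * m) * (136 * ε + η) := by
          gcongr with w _
          exact step2 w
      _ = ((m : ℝ) * m) * (thetaQ + 143 * ε + 2 * η) := by
          rw [Finset.sum_const, Finset.card_univ, hcardV, nsmul_eq_mul]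
          push_cast
          ring
  rw [hsumF] at main
  have lim : ∑ i, vf φ ξ (b i) ≤ m * (thetaQ + 143 * ε) := by
    by_contra hlt
    rw [not_le] at hlt
    set D := ∑ i, vf φ ξ (b i) - m * (thetaQ + 143 * ε) with hD
    have hD0 : 0 < D := by rw [hD]; linarith
    have hη0 : 0 < min (1 / 256001) (D / (4 * m)) := by positivity
    have h1 := main (min (1 / 256001) (D / (4 * m))) hη0 (min_le_left _ _)
    have h2 : min (1 / 256001) (D / (4 * m)) ≤ D / (4 * m) := min_le_right _ _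
    have h3 : ∑ i, vf φ ξ (b i) ≤ m * (thetaQ + 143 * ε + 2 * (D / (4 * m))) := by
      have h4 : (m : ℝ) * ∑ i, vf φ ξ (b i) ≤ m * (m * (thetaQ + 143 * ε + 2 * (D / (4 * m)))) := by
        refine h1.trans ?_
        rw [mul_assoc]
        gcongr
      exact le_of_mul_le_mul_left h4 hmR
    have h5 : (m : ℝ) * (2 * (D / (4 * m))) = D / 2 := by
      field_simp; ring
    rw [mul_add, h5] at h3
    linarith
  exact lim

end Pool.Agent.H253.US
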