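import Pool.Agent.H253.US.Local
import Pool.Agent.H253.US.Wlim

set_option autoImplicit false
set_option linter.unusedSectionVars false
set_option linter.deprecated false

open scoped CStarAlgebra ComplexOrder InnerProductSpace
open Filter Topology

namespace Pool.Agent.H253.US

universe u v w

theorem sp_limit {A : Type u} [NonUnitalCStarAlgebra A] {H : Type v} [NormedAddCommGroup H]
    [InnerProductSpace ℂ H] [CompleteSpace H] {I : Type w} (𝒰 : Ultrafilter I)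
    (L : I → A → H →L[ℂ] H) (Ψ : A → H →L[ℂ] H) (hL : ∀ i, SP (L i))
    (hw : ∀ a, WLim 𝒰 (fun i => L i a) (Ψ a)) : SP Ψ := by
  intro n a ξ
  set v : H := ∑ i, Ψ (a i) (ξ i) with hv
  have h1 : Tendsto (fun t => 2 * (inner ℂ v (∑ i, L t (a i) (ξ i))).re) 𝒰
      (𝓝 (2 * ‖v‖ ^ 2)) := by
    have h2 : Tendsto (fun t => inner ℂ v (∑ i, L t (a i) (ξ i))) 𝒰 (𝓝 (inner ℂ v v)) := by
      rw [hv]
      simp only [inner_sum]
      exact tendsto_finsetSum _ fun i _ => hw (a i) _ (ξ i)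
    have h3 := (Complex.continuous_re.tendsto _).comp h2
    rw [re_inner_self] at h3
    exact h3.const_mul 2
  have h4 : Tendsto (fun t => ‖v‖ ^ 2 +
      (∑ i, ∑ j, inner ℂ (ξ i) (L t (star (a i) * a j) (ξ j))).re) 𝒰
      (𝓝 (‖v‖ ^ 2 + (∑ i, ∑ j, inner ℂ (ξ i) (Ψ (star (a i) * a j) (ξ j))).re)) := by
    refine Tendsto.const_add _ ?_
    refine (Complex.continuous_re.tendsto _).comp ?_
    exact tendsto_finsetSum _ fun i _ => tendsto_finsetSum _ fun j _ => hw _ _ _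
  have h5 : ∀ t, 2 * (inner ℂ v (∑ i, L t (a i) (ξ i))).re ≤ ‖v‖ ^ 2 +
      (∑ i, ∑ j, inner ℂ (ξ i) (L t (star (a i) * a j) (ξ j))).re := by
    intro t
    have h6 := hL t n a ξ
    have h7 := @norm_sub_sq ℂ H _ _ _ v (∑ i, L t (a i) (ξ i))
    have h8 := sq_nonneg ‖v - ∑ i, L t (a i) (ξ i)‖
    rw [h7] at h8
    simp only [RCLike.re_to_complex] at h8
    linarith
  have h9 := le_of_tendsto_of_tendsto' h1 h4 h5
  linarith

theorem limit_map : ∃ C : ℝ, 0 < C ∧ ∃ ε₀ : ℝ, 0 < ε₀ ∧ ε₀ ≤ 1 ∧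
    ∀ (A : Type u) [NonUnitalCStarAlgebra A] [PartialOrder A] [StarOrderedRing A]
      (H : Type v) [NormedAddCommGroup H] [InnerProductSpace ℂ H] [CompleteSpace H]
      (M : VonNeumannAlgebra H) (ε : ℝ) (φ : A → H →L[ℂ] H), IsDecNuclear A →
      (∀ a, φ a ∈ M) → IsEpsHom ε φ → ε ≤ ε₀ →
      ∃ Ψ : A →ₗ[ℂ] (H →L[ℂ] H), (∀ a, Ψ a ∈ M) ∧ (∀ a, ‖Ψ a‖ ≤ ‖a‖) ∧
        (∀ a, Ψ (star a) = star (Ψ a)) ∧ SP (fun a => Ψ a) ∧
        ∀ x, ‖x‖ ≤ 1 → ‖Ψ x - φ x‖ ≤ C * Real.sqrt ε := by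
  classical
  obtain ⟨C, hC, ε₀, hε₀, hε₀1, hl⟩ := local_map.{u, v}
  refine ⟨C, hC, ε₀, hε₀, hε₀1, ?_⟩
  intro A _ _ _ H _ _ _ M ε φ hA hM h hε
  have hl' := hl A H M ε φ hA hM h hε
  choose L hLM hLn hLs hLsp hLx using fun i : Finset A × ℕ =>
    hl' i.1 (1 / ((i.2 : ℝ) + 1)) (by positivity)
  let 𝒰 : Ultrafilter (Finset A × ℕ) := Ultrafilter.of atTop
  have h𝒰 : (𝒰 : Filter (Finset A × ℕ)) ≤ atTop := Ultrafilter.of_le atTop
  choose Ψ hΨ using fun a => exists_wlim 𝒰 (fun i => L i a) ‖a‖ (fun i => hLn i a)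
  refine ⟨{ toFun := Ψ
            map_add' := fun a b => ?_
            map_smul' := fun z a => ?_ }, ?_, ?_, ?_, ?_, ?_⟩
  · refine (hΨ (a + b)).unique ?_
    have := (hΨ a).add (hΨ b)
    simpa only [map_add] using this
  · refine (hΨ (z • a)).unique ?_
    have := (hΨ a).smul z
    simpa only [map_smul, RingHom.id_apply] using this
  · intro a
    exact (hΨ a).mem (Eventually.of_forall fun i => hLM i a)
  · intro a
    exact (hΨ a).norm_le _ (norm_nonneg _) (Eventually.of_forall fun i => hLn i a)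
  · intro a
    change Ψ (star a) = star (Ψ a)
    refine (hΨ (star a)).unique ?_
    have := (hΨ a).star
    simpa only [hLs] using this
  · exact sp_limit 𝒰 (fun i a => L i a) Ψ hLsp hΨ
  · intro x hx
    change ‖Ψ x - φ x‖ ≤ _
    have h1 : ∀ n : ℕ, ‖Ψ x - φ x‖ ≤ C * Real.sqrt (ε + 1 / ((n : ℝ) + 1)) := by
      intro n
      refine ((hΨ x).sub (WLim.const (φ x))).norm_le _ (by positivity) ?_
      refine h𝒰 ?_
      filter_upwards [eventually_ge_atTop (({x} : Finset A), n)] with i hi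
      have hi1 : x ∈ i.1 := hi.1 (by simp)
      have hi2 : (n : ℝ) ≤ i.2 := by exact_mod_cast hi.2
      refine (hLx i x hi1 hx).trans ?_
      gcongr
    have h2 : Tendsto (fun n : ℕ => C * Real.sqrt (ε + 1 / ((n : ℝ) + 1))) atTop
        (𝓝 (C * Real.sqrt (ε + 0))) := by
      refine Tendsto.const_mul C ?_
      refine (Real.continuous_sqrt.tendsto _).comp ?_
      exact tendsto_one_div_add_atTop_nhds_zero_nat.const_add ε
    rw [add_zero] at h2
    exact ge_of_tendsto' h2 h1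

end Pool.Agent.H253.US
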