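import Pool.Agent.H253.US.Null

set_option autoImplicit false
set_option linter.unusedSectionVars false
set_option linter.deprecated false

open scoped CStarAlgebra ComplexOrder InnerProductSpace

namespace Pool.Agent.H253.US

universe u v w

theorem opNorm_le_unit {E : Type v} [NormedAddCommGroup E] [InnerProductSpace ℂ E]
    {F : Type w} [NormedAddCommGroup F] [InnerProductSpace ℂ F] (T : E →L[ℂ] F) (c : ℝ)
    (hc : 0 ≤ c) (h : ∀ ξ, ‖ξ‖ = 1 → ‖T ξ‖ ≤ c) : ‖T‖ ≤ c := by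
  refine ContinuousLinearMap.opNorm_le_bound _ hc fun x => ?_
  by_cases hx : x = 0
  · simp [hx]
  have hx' : 0 < ‖x‖ := norm_pos_iff.mpr hx
  have h1 := h (((‖x‖⁻¹ : ℝ) : ℂ) • x) (by rw [norm_smul]; simp [hx'.ne'])
  rw [map_smul, norm_smul, Complex.norm_real, Real.norm_eq_abs, abs_of_pos (by positivity)] at h1
  have : ‖T x‖ = ‖x‖ * (‖x‖⁻¹ * ‖T x‖) := by field_simp
  rw [this, mul_comm c]
  gcongr

section lin

variable {A : Type u} [NonUnitalCStarAlgebra A] [PartialOrder A] [StarOrderedRing A]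
variable {H : Type v} [NormedAddCommGroup H] [InnerProductSpace ℂ H] [CompleteSpace H]
variable {ε : ℝ} {φ : A → H →L[ℂ] H}

theorem half_sub (h : IsEpsHom ε φ) (x y : A) (hx : ‖x‖ ≤ 1) (hy : ‖y‖ ≤ 1) :
    ‖φ ((2 : ℂ)⁻¹ • (y - x)) - (2 : ℂ)⁻¹ • (φ y - φ x)‖ ≤ 4 * ε := by
  have hx' : ‖(2 : ℂ)⁻¹ • x‖ ≤ 1 := by
    rw [norm_smul]; norm_num; linarith
  have hy' : ‖(2 : ℂ)⁻¹ • y‖ ≤ 1 := by
    rw [norm_smul]; norm_num; linarith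
  have h1 := h.sub _ _ hy' hx'
  have h2 := h.half x hx
  have h3 := h.half y hy
  have key : φ ((2 : ℂ)⁻¹ • (y - x)) - (2 : ℂ)⁻¹ • (φ y - φ x) =
      (φ ((2 : ℂ)⁻¹ • y - (2 : ℂ)⁻¹ • x) - φ ((2 : ℂ)⁻¹ • y) + φ ((2 : ℂ)⁻¹ • x))
      + (φ ((2 : ℂ)⁻¹ • y) - (2 : ℂ)⁻¹ • φ y) - (φ ((2 : ℂ)⁻¹ • x) - (2 : ℂ)⁻¹ • φ x) := by
    rw [smul_sub, smul_sub]; abel
  rw [key]
  refine (norm_sub_le _ _).trans ?_
  refine (add_le_add (norm_add_le _ _) le_rfl).trans ?_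
  linarith

theorem lin_point (h : IsEpsHom ε φ) (hε1 : ε ≤ 1) (x y : A) (hx : ‖x‖ ≤ 1) (hy : ‖y‖ ≤ 1)
    (ξ : H) (hξ : ‖ξ‖ = 1) :
    ‖(φ y - φ x) ξ‖ ^ 2 ≤ 4 * Fq φ ξ (star ((2 : ℂ)⁻¹ • (y - x)) * ((2 : ℂ)⁻¹ • (y - x))) +
      104 * ε := by
  have he := h.eps_nonneg
  set w : A := (2 : ℂ)⁻¹ • (y - x) with hw
  have hwn : ‖w‖ ≤ 1 := by
    rw [hw, norm_smul]
    have := norm_sub_le y x
    norm_num
    linarith
  have h1 := half_sub h x y hx hy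
  rw [← hw] at h1
  have h2 := norm_sq_Fq h w hwn ξ hξ
  have h3 : ‖φ w ξ‖ ≤ 1 := by
    refine ((φ w).le_opNorm ξ).trans ?_
    rw [hξ, mul_one]
    exact h.contr w hwn
  have h4 : ‖((2 : ℂ)⁻¹ • (φ y - φ x)) ξ‖ ≤ ‖φ w ξ‖ + 4 * ε := by
    have h5 : ‖(φ w - (2 : ℂ)⁻¹ • (φ y - φ x)) ξ‖ ≤ 4 * ε := by
      refine (ContinuousLinearMap.le_opNorm _ ξ).trans ?_
      rw [hξ, mul_one]
      exact h1
    have h6 : ((2 : ℂ)⁻¹ • (φ y - φ x)) ξ = φ w ξ - (φ w - (2 : ℂ)⁻¹ • (φ y - φ x)) ξ := by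
      rw [ContinuousLinearMap.sub_apply]; abel
    rw [h6]
    exact (norm_sub_le _ _).trans (by linarith)
  have h7 : ‖((2 : ℂ)⁻¹ • (φ y - φ x)) ξ‖ = ‖(φ y - φ x) ξ‖ / 2 := by
    rw [ContinuousLinearMap.smul_apply, norm_smul]
    norm_num
    ring
  rw [h7] at h4
  have h8 := abs_le.mp h2
  have h9 := norm_nonneg (φ w ξ)
  have h10 := norm_nonneg ((φ y - φ x) ξ)
  have h11 : (‖(φ y - φ x) ξ‖ / 2) ^ 2 ≤ (‖φ w ξ‖ + 4 * ε) ^ 2 := by gcongr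
  nlinarith [mul_le_mul_of_nonneg_left h3 he, mul_le_mul_of_nonneg_left hε1 he]

/-- Step 3: families whose average is close to `x` in the `*`-square sense. -/
theorem lin_approx (h : IsEpsHom ε φ) (hε1 : ε ≤ 1) (δ κ : ℝ) (hL : Lev φ δ κ)
    (ι : Type) [Fintype ι] [Nonempty ι] (y : ι → A) (hy : ∀ i, ‖y i‖ ≤ 1) (x : A) (hx : ‖x‖ ≤ 1)
    (hs : ‖∑ i, star (y i - x) * (y i - x)‖ ≤ 4 * δ * Fintype.card ι) :
    ‖∑ i, (φ (y i) - φ x)‖ ≤ Fintype.card ι * Real.sqrt (4 * κ + 104 * ε) := by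
  set N : ℝ := (Fintype.card ι : ℝ) with hN
  have hN0 : 0 ≤ N := by positivity
  refine opNorm_le_unit _ _ (by positivity) fun ξ hξ => ?_
  have hw : ∀ i, star ((2 : ℂ)⁻¹ • (y i - x)) * ((2 : ℂ)⁻¹ • (y i - x)) =
      ((4 : ℝ)⁻¹) • (star (y i - x) * (y i - x)) := by
    intro i
    rw [star_smul, smul_mul_smul_comm]
    rw [show star (2 : ℂ)⁻¹ * (2 : ℂ)⁻¹ = (((4 : ℝ)⁻¹ : ℝ) : ℂ) by
      simp only [Complex.star_def, map_inv₀, Complex.conj_ofNat]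
      push_cast
      norm_num]
    exact Complex.coe_smul _ _
  have h1 := hL ι (fun i => star ((2 : ℂ)⁻¹ • (y i - x)) * ((2 : ℂ)⁻¹ • (y i - x)))
    (fun i => star_mul_self_nonneg _) (fun i => by
      rw [CStarRing.norm_star_mul_self, norm_smul]
      have := norm_sub_le (y i) x
      have h2 : ‖(2 : ℂ)⁻¹‖ = 2⁻¹ := by norm_num
      rw [h2]
      have h3 := hy i
      have h4 : 2⁻¹ * ‖y i - x‖ ≤ 1 := by linarith
      have h5 : 0 ≤ 2⁻¹ * ‖y i - x‖ := by positivity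
      nlinarith) (by
      simp only [hw]
      rw [← Finset.smul_sum, norm_smul, Real.norm_eq_abs,
        abs_of_pos (by norm_num : (0 : ℝ) < (4 : ℝ)⁻¹), ← hN]
      linarith) ξ hξ
  have h2 : ‖(∑ i, (φ (y i) - φ x)) ξ‖ ^ 2 ≤ N ^ 2 * (4 * κ + 104 * ε) := by
    rw [ContinuousLinearMap.sum_apply]
    have h3 : ‖∑ i, (φ (y i) - φ x) ξ‖ ^ 2 ≤ (∑ i, ‖(φ (y i) - φ x) ξ‖) ^ 2 := by
      gcongr
      exact norm_sum_le _ _
    have h4 : (∑ i, ‖(φ (y i) - φ x) ξ‖) ^ 2 ≤ N * ∑ i, ‖(φ (y i) - φ x) ξ‖ ^ 2 := by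
      have := sq_sum_le_card_mul_sum_sq (s := (Finset.univ : Finset ι))
        (f := fun i => ‖(φ (y i) - φ x) ξ‖)
      rwa [Finset.card_univ] at this
    have h5 : ∑ i, ‖(φ (y i) - φ x) ξ‖ ^ 2 ≤ ∑ i, (4 * Fq φ ξ (star ((2 : ℂ)⁻¹ • (y i - x)) *
        ((2 : ℂ)⁻¹ • (y i - x))) + 104 * ε) :=
      Finset.sum_le_sum fun i _ => lin_point h hε1 x (y i) hx (hy i) ξ hξ
    rw [Finset.sum_add_distrib, ← Finset.mul_sum, Finset.sum_const, Finset.card_univ,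
      nsmul_eq_mul, ← hN] at h5
    calc _ ≤ _ := h3
      _ ≤ _ := h4
      _ ≤ N * (4 * (N * κ) + N * (104 * ε)) := by
        gcongr
        refine h5.trans ?_
        gcongr
      _ = _ := by ring
  have h6 : 0 ≤ N ^ 2 * (4 * κ + 104 * ε) := (sq_nonneg _).trans h2
  have h7 : ‖(∑ i, (φ (y i) - φ x)) ξ‖ ≤ Real.sqrt (N ^ 2 * (4 * κ + 104 * ε)) :=
    Real.le_sqrt_of_sq_le h2
  rwa [Real.sqrt_mul (sq_nonneg N), Real.sqrt_sq hN0] at h7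

end lin

end Pool.Agent.H253.US
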