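import Pool.Agent.H253.US.Defs


/-!
# Ulam stability of nuclear C*-algebras (MP_a35bd4_an): definitions and basic facts
-/

set_option autoImplicit false
set_option linter.all false

open scoped CStarAlgebra ComplexOrder

namespace Pool.Agent.H253.US

universe u v w



namespace T3x

open Filter Topology

/-! ### weak operator limits along an ultrafilter -/
section wot

variable {H : Type v} [NormedAddCommGroup H] [InnerProductSpace ℂ H] [CompleteSpace H]
  (U : Ultrafilter ℕ)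

/-- weak operator convergence -/
def WT (x : ℕ → H →L[ℂ] H) (X : H →L[ℂ] H) : Prop :=
  ∀ ξ η : H, Tendsto (fun m => inner ℂ (x m ξ) η) (U : Filter ℕ) (𝓝 (inner ℂ (X ξ) η))

theorem exists_lim_bdd (f : ℕ → ℂ) (r : ℝ) (hf : ∀ m, ‖f m‖ ≤ r) :
    ∃ z : ℂ, ‖z‖ ≤ r ∧ Tendsto f (U : Filter ℕ) (𝓝 z) := by
  have hK : IsCompact (Metric.closedBall (0 : ℂ) r) := isCompact_closedBall 0 r
  have h1 : ((U.map f : Ultrafilter ℂ) : Filter ℂ) ≤ 𝓟 (Metric.closedBall (0 : ℂ) r) := by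
    rw [Ultrafilter.coe_map, le_principal_iff, mem_map]
    exact univ_mem' fun m => by simpa using hf m
  obtain ⟨z, hz, hz2⟩ := hK.ultrafilter_le_nhds (U.map f) h1
  exact ⟨z, by simpa using hz, hz2⟩

theorem exists_WT (x : ℕ → H →L[ℂ] H) (r : ℝ) (hx : ∀ m, ‖x m‖ ≤ r) :
    ∃ X : H →L[ℂ] H, WT U x X := by
  have hb : ∀ ξ η : H, ∀ m, ‖inner ℂ (x m ξ) η‖ ≤ r * ‖ξ‖ * ‖η‖ := by
    intro ξ η m
    refine (norm_inner_le_norm _ _).trans ?_
    gcongr
    exact (x m).le_of_opNorm_le (hx m) ξ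
  choose B hB hB2 using fun ξ η : H => exists_lim_bdd U (fun m => inner ℂ (x m ξ) η) _ (hb ξ η)
  have hadd1 : ∀ ξ ξ' η, B (ξ + ξ') η = B ξ η + B ξ' η := by
    intro ξ ξ' η
    refine tendsto_nhds_unique (hB2 (ξ + ξ') η) ?_
    refine ((hB2 ξ η).add (hB2 ξ' η)).congr fun m => ?_
    rw [map_add, inner_add_left]
  have hsm1 : ∀ (c : ℂ) ξ η, B (c • ξ) η = (starRingEnd ℂ) c * B ξ η := by
    intro c ξ η
    refine tendsto_nhds_unique (hB2 (c • ξ) η) ?_
    refine ((hB2 ξ η).const_mul ((starRingEnd ℂ) c)).congr fun m => ?_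
    rw [map_smul, inner_smul_left]
  have hadd2 : ∀ ξ η η', B ξ (η + η') = B ξ η + B ξ η' := by
    intro ξ η η'
    refine tendsto_nhds_unique (hB2 ξ (η + η')) ?_
    refine ((hB2 ξ η).add (hB2 ξ η')).congr fun m => ?_
    rw [inner_add_right]
  have hsm2 : ∀ (c : ℂ) ξ η, B ξ (c • η) = c * B ξ η := by
    intro c ξ η
    refine tendsto_nhds_unique (hB2 ξ (c • η)) ?_
    refine ((hB2 ξ η).const_mul c).congr fun m => ?_
    rw [inner_smul_right]
  let L : H →ₗ⋆[ℂ] H →ₗ[ℂ] ℂ := LinearMap.mk₂'ₛₗ (starRingEnd ℂ) (RingHom.id ℂ) B hadd1 hsm1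
    hadd2 hsm2
  let L' : H →L⋆[ℂ] H →L[ℂ] ℂ := L.mkContinuous₂ r hB
  refine ⟨InnerProductSpace.continuousLinearMapOfBilin L', fun ξ η => ?_⟩
  rw [InnerProductSpace.continuousLinearMapOfBilin_apply]
  exact hB2 ξ η

variable {U}

theorem WT.add {x y : ℕ → H →L[ℂ] H} {X Y : H →L[ℂ] H} (hx : WT U x X) (hy : WT U y Y) :
    WT U (fun m => x m + y m) (X + Y) := by
  intro ξ η
  simp only [_root_.add_apply, inner_add_left]
  exact (hx ξ η).add (hy ξ η)

theorem WT.sub {x y : ℕ → H →L[ℂ] H} {X Y : H →L[ℂ] H} (hx : WT U x X) (hy : WT U y Y) :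
    WT U (fun m => x m - y m) (X - Y) := by
  intro ξ η
  simp only [_root_.sub_apply, inner_sub_left]
  exact (hx ξ η).sub (hy ξ η)

theorem WT.smul {x : ℕ → H →L[ℂ] H} {X : H →L[ℂ] H} (hx : WT U x X) (c : ℂ) :
    WT U (fun m => c • x m) (c • X) := by
  intro ξ η
  simp only [_root_.smul_apply, inner_smul_left]
  exact (hx ξ η).const_mul _

theorem WT.const (X : H →L[ℂ] H) : WT U (fun _ => X) X := fun _ _ => tendsto_const_nhds

theorem WT.mul_right {x : ℕ → H →L[ℂ] H} {X : H →L[ℂ] H} (hx : WT U x X) (a : H →L[ℂ] H) :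
    WT U (fun m => x m * a) (X * a) := fun ξ η => hx (a ξ) η

theorem WT.mul_left {x : ℕ → H →L[ℂ] H} {X : H →L[ℂ] H} (hx : WT U x X) (a : H →L[ℂ] H) :
    WT U (fun m => a * x m) (a * X) := by
  intro ξ η
  have h : ∀ Y : H →L[ℂ] H, inner ℂ ((a * Y) ξ) η = inner ℂ (Y ξ) (star a η) := by
    intro Y
    rw [ContinuousLinearMap.star_eq_adjoint, ContinuousLinearMap.adjoint_inner_right]
    rfl
  simp only [h]
  exact hx ξ _

theorem WT.star {x : ℕ → H →L[ℂ] H} {X : H →L[ℂ] H} (hx : WT U x X) :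
    WT U (fun m => star (x m)) (star X) := by
  intro ξ η
  have h : ∀ Y : H →L[ℂ] H, inner ℂ ((Star.star Y) ξ) η = (starRingEnd ℂ) (inner ℂ (Y η) ξ) := by
    intro Y
    rw [ContinuousLinearMap.star_eq_adjoint, ContinuousLinearMap.adjoint_inner_left,
      inner_conj_symm]
  simp only [h]
  exact (Complex.continuous_conj.tendsto _).comp (hx η ξ)

theorem WT.norm_le {x : ℕ → H →L[ℂ] H} {X : H →L[ℂ] H} (hx : WT U x X) (r : ℕ → ℝ) (s : ℝ)
    (hr : ∀ m, ‖x m‖ ≤ r m) (hs : Tendsto r (U : Filter ℕ) (𝓝 s)) : ‖X‖ ≤ s := by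
  have hs0 : 0 ≤ s := ge_of_tendsto' hs fun m => (norm_nonneg _).trans (hr m)
  refine ContinuousLinearMap.opNorm_le_bound _ hs0 fun ξ => ?_
  have h1 : ∀ η, ‖inner ℂ (X ξ) η‖ ≤ s * ‖ξ‖ * ‖η‖ := by
    intro η
    refine le_of_tendsto_of_tendsto' (hx ξ η).norm ((hs.mul_const ‖ξ‖).mul_const ‖η‖) fun m => ?_
    refine (norm_inner_le_norm _ _).trans ?_
    gcongr
    exact (x m).le_of_opNorm_le (hr m) ξ
  have h2 := h1 (X ξ)
  rw [inner_self_eq_norm_sq_to_K, norm_pow] at h2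
  simp only [RCLike.norm_ofReal, abs_norm] at h2
  rcases eq_or_lt_of_le (norm_nonneg (X ξ)) with h0 | h0
  · rw [← h0]; positivity
  · nlinarith

theorem WT.unique {x : ℕ → H →L[ℂ] H} {X Y : H →L[ℂ] H} (hx : WT U x X) (hy : WT U x Y) :
    X = Y := by
  ext ξ
  refine ext_inner_right ℂ fun η => ?_
  exact tendsto_nhds_unique (hx ξ η) (hy ξ η)

theorem WT.mem {x : ℕ → H →L[ℂ] H} {X : H →L[ℂ] H} (hx : WT U x X) (M : VonNeumannAlgebra H)
    (hM : ∀ m, x m ∈ M) : X ∈ M := by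
  rw [← VonNeumannAlgebra.commutant_commutant M, VonNeumannAlgebra.mem_commutant_iff]
  intro y hy
  rw [VonNeumannAlgebra.mem_commutant_iff] at hy
  refine (hx.mul_left y).unique ?_
  have h := hx.mul_right y
  have h2 : (fun m => x m * y) = fun m => y * x m := funext fun m => hy _ (hM m)
  rwa [h2] at h

end wot

/-! ### algebra in the unitization -/
section alg

variable {A : Type u} [NonUnitalCStarAlgebra A] [PartialOrder A] [StarOrderedRing A]
  {n : ℕ} {k : Fin n → ℕ} (θ : FD k →CP A)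

/-- the element of the unitization -/
noncomputable def th (y : FD k) : Unitization ℂ A := (θ y : A)

/-- `1 - θ 1` -/
noncomputable def uu : Unitization ℂ A := 1 - th θ 1

theorem th_add (x y : FD k) : th θ (x + y) = th θ x + th θ y := by
  unfold th; rw [map_add, Unitization.inr_add]

theorem th_smul (z : ℂ) (y : FD k) : th θ (z • y) = z • th θ y := by
  unfold th; rw [map_smul, Unitization.inr_smul]

theorem map_sa (a : FD k) (ha : star a = a) : star (θ a) = θ a := by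
  have h1 : ∀ b : FD k, star b = b → star (θ (b * b)) = θ (b * b) := by
    intro b hb
    have h2 : 0 ≤ θ (star b * b) := map_nonneg θ (star_mul_self_nonneg b)
    have h3 := (IsSelfAdjoint.of_nonneg h2).star_eq
    rwa [hb] at h3
  have h4 : star (1 + a) = 1 + a := by rw [star_add, star_one, ha]
  have h5 : star (1 - a) = 1 - a := by rw [star_sub, star_one, ha]
  have h6 : (4 : ℂ) • a = (1 + a) * (1 + a) - (1 - a) * (1 - a) := by
    have : (4 : ℂ) • a = a + a + a + a := by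
      rw [show (4 : ℂ) = 1 + 1 + 1 + 1 by norm_num, add_smul, add_smul, add_smul, one_smul]
    rw [this]; noncomm_ring
  have h7 : (4 : ℂ) • θ a = θ ((1 + a) * (1 + a)) - θ ((1 - a) * (1 - a)) := by
    rw [← map_smul, h6, map_sub]
  have h8 : star ((4 : ℂ) • θ a) = (4 : ℂ) • θ a := by
    rw [h7, star_sub, h1 _ h4, h1 _ h5]
  rw [star_smul] at h8
  have h9 : star (4 : ℂ) = 4 := by simp
  rw [h9] at h8
  exact smul_right_injective A (by norm_num : (4 : ℂ) ≠ 0) h8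

theorem map_st (y : FD k) : θ (star y) = star (θ y) := by
  have h1 : (2 : ℂ) • y = (y + star y) + Complex.I • (Complex.I • (star y - y)) := by
    rw [smul_smul, Complex.I_mul_I, two_smul, neg_one_smul]; abel
  have h2 : star (y + star y) = y + star y := by rw [star_add, star_star, add_comm]
  have h3 : star (Complex.I • (star y - y)) = Complex.I • (star y - y) := by
    rw [star_smul, star_sub, star_star]
    have : star Complex.I = -Complex.I := by simp
    rw [this, neg_smul, ← smul_neg, neg_sub]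
  have h4 : star ((2 : ℂ) • y) = (y + star y) - Complex.I • (Complex.I • (star y - y)) := by
    rw [smul_smul, Complex.I_mul_I, neg_one_smul, star_smul]
    have : star (2 : ℂ) = 2 := by simp
    rw [this, two_smul]; abel
  have h5 : star (2 : ℂ) = 2 := by simp
  have h6 : star Complex.I = -Complex.I := by simp
  have h7 := map_sa θ _ h2
  have h8 := map_sa θ _ h3
  have h9 : (2 : ℂ) • θ (star y) = (2 : ℂ) • star (θ y) := by
    have e1 : (2 : ℂ) • θ (star y) = θ (star ((2 : ℂ) • y)) := by rw [star_smul, h5, map_smul]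
    have e2 : (2 : ℂ) • star (θ y) = star (θ ((2 : ℂ) • y)) := by
      rw [map_smul, star_smul, h5]
    rw [e1, e2, h4, h1, map_sub, map_add θ (y + star y) (Complex.I • (Complex.I • (star y - y))),
      star_add, h7, map_smul θ Complex.I, star_smul, h6, h8, neg_smul, sub_eq_add_neg]
  exact smul_right_injective A (by norm_num : (2 : ℂ) ≠ 0) h9

theorem th_star (y : FD k) : th θ (star y) = star (th θ y) := by
  unfold th; rw [map_st, Unitization.inr_star]

variable {θ}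

theorem th_mul (hm : ∀ x y, θ x * θ y = θ 1 * θ (x * y)) (x y : FD k) :
    th θ x * th θ y = th θ 1 * th θ (x * y) := by
  unfold th; rw [← Unitization.inr_mul, ← Unitization.inr_mul, hm]

theorem th_comm (hm : ∀ x y, θ x * θ y = θ 1 * θ (x * y)) (y : FD k) :
    th θ y * th θ 1 = th θ 1 * th θ y := by
  rw [th_mul hm, mul_one]

theorem uu_comm (hm : ∀ x y, θ x * θ y = θ 1 * θ (x * y)) (y : FD k) :
    Commute (uu θ) (th θ y) := by
  unfold uu
  exact (Commute.one_left _).sub_left (th_comm hm y).symm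

theorem norm_one_FD : ‖(1 : FD k)‖ ≤ 1 := by
  have h : ‖(1 : FD k)‖ * ‖(1 : FD k)‖ = ‖(1 : FD k)‖ := by
    have := CStarRing.norm_star_mul_self (x := (1 : FD k))
    rw [star_one, one_mul] at this
    exact this.symm
  by_contra hc
  push Not at hc
  nlinarith

theorem norm_th (hz : IsOrderZero θ) (y : FD k) : ‖th θ y‖ ≤ ‖y‖ := by
  unfold th; rw [Unitization.norm_inr]; exact hz.contr y

theorem zero_le_FD_one : (0 : FD k) ≤ 1 := by
  have := star_mul_self_nonneg (1 : FD k)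
  rwa [star_one, one_mul] at this

theorem h_nonneg : 0 ≤ θ 1 := map_nonneg θ zero_le_FD_one

theorem h_sa : IsSelfAdjoint (th θ 1) := by
  unfold IsSelfAdjoint
  rw [← th_star, star_one]

theorem spec (hz : IsOrderZero θ) (t : ℝ) (ht : t ∈ spectrum ℝ (th θ 1)) : 0 ≤ t ∧ t ≤ 1 := by
  constructor
  · have h1 : t ∈ quasispectrum ℝ (θ 1) := by
      rw [Unitization.quasispectrum_eq_spectrum_inr' ℝ ℂ]
      exact ht
    exact quasispectrum_nonneg_of_nonneg _ h_nonneg _ h1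
  · have h2 := spectrum.norm_le_norm_of_mem ht
    have h3 := norm_th hz 1
    have h4 := norm_one_FD (k := k)
    have h5 := le_abs_self t
    rw [Real.norm_eq_abs] at h2
    linarith

theorem uu_pow (m : ℕ) : uu θ ^ m = cfc (fun t : ℝ => (1 - t) ^ m) (th θ 1) := by
  have hsa := h_sa (θ := θ)
  rw [cfc_pow (fun t : ℝ => 1 - t) m (th θ 1), cfc_sub (fun _ : ℝ => (1 : ℝ)) (fun t => t) (th θ 1),
    cfc_const_one ℝ (th θ 1), cfc_id' ℝ (th θ 1)]
  rfl

theorem norm_uu (hz : IsOrderZero θ) (m : ℕ) : ‖uu θ ^ m‖ ≤ 1 := by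
  rw [uu_pow]
  refine norm_cfc_le zero_le_one fun t ht => ?_
  obtain ⟨h0, h1⟩ := spec hz t ht
  rw [Real.norm_eq_abs, abs_of_nonneg (pow_nonneg (by linarith) _)]
  exact pow_le_one₀ (by linarith) (by linarith)

theorem norm_one_sub (hz : IsOrderZero θ) (m : ℕ) : ‖1 - uu θ ^ m‖ ≤ 1 := by
  have hsa := h_sa (θ := θ)
  have h : 1 - uu θ ^ m = cfc (fun t : ℝ => 1 - (1 - t) ^ m) (th θ 1) := by
    rw [cfc_sub (fun _ : ℝ => (1 : ℝ)) (fun t => (1 - t) ^ m) (th θ 1),
      cfc_const_one ℝ (th θ 1), ← uu_pow]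
  rw [h]
  refine norm_cfc_le zero_le_one fun t ht => ?_
  obtain ⟨h0, h1⟩ := spec hz t ht
  have h2 : (1 - t) ^ m ≤ 1 := pow_le_one₀ (by linarith) (by linarith)
  have h3 : 0 ≤ (1 - t) ^ m := pow_nonneg (by linarith) _
  rw [Real.norm_eq_abs, abs_of_nonneg (by linarith)]
  linarith

theorem real_bound (t : ℝ) (h0 : 0 ≤ t) (h1 : t ≤ 1) (m : ℕ) :
    (1 - t) ^ m * t ≤ 1 / (m + 1) := by
  have h2 : (1 - (1 - t)) * ∑ i ∈ Finset.range (m + 1), (1 - t) ^ i = 1 - (1 - t) ^ (m + 1) :=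
    mul_neg_geom_sum _ _
  have h3 : ((m : ℝ) + 1) * (1 - t) ^ m ≤ ∑ i ∈ Finset.range (m + 1), (1 - t) ^ i := by
    have : ∑ i ∈ Finset.range (m + 1), (1 - t) ^ m ≤ ∑ i ∈ Finset.range (m + 1), (1 - t) ^ i := by
      refine Finset.sum_le_sum fun i hi => ?_
      exact pow_le_pow_of_le_one (by linarith) (by linarith) (by
        have := Finset.mem_range.1 hi; omega)
    rw [Finset.sum_const, Finset.card_range, nsmul_eq_mul] at this
    push_cast at this
    exact this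
  have h4 : 0 ≤ (1 - t) ^ (m + 1) := pow_nonneg (by linarith) _
  rw [le_div_iff₀ (by positivity)]
  nlinarith

theorem norm_uu_h (hz : IsOrderZero θ) (m : ℕ) : ‖uu θ ^ m * th θ 1‖ ≤ 1 / (m + 1) := by
  have hsa := h_sa (θ := θ)
  have h : uu θ ^ m * th θ 1 = cfc (fun t : ℝ => (1 - t) ^ m * t) (th θ 1) := by
    rw [cfc_mul (fun t : ℝ => (1 - t) ^ m) (fun t => t) (th θ 1), ← uu_pow,
      cfc_id' ℝ (th θ 1)]
  rw [h]
  refine norm_cfc_le (by positivity) fun t ht => ?_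
  obtain ⟨h0, h1⟩ := spec hz t ht
  have h3 : 0 ≤ (1 - t) ^ m := pow_nonneg (by linarith) _
  rw [Real.norm_eq_abs, abs_of_nonneg (by positivity)]
  exact real_bound t h0 h1 m

theorem norm_uu_th (hz : IsOrderZero θ) (hm : ∀ x y, θ x * θ y = θ 1 * θ (x * y)) (m : ℕ)
    (w : FD k) : ‖uu θ ^ m * th θ w‖ ^ 2 ≤ ‖w‖ ^ 2 / (2 * m + 1) := by
  have hu : star (uu θ) = uu θ := by
    unfold uu; rw [star_sub, star_one, h_sa.star_eq]
  have h1 : star (uu θ ^ m * th θ w) * (uu θ ^ m * th θ w) =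
      uu θ ^ (2 * m) * th θ 1 * th θ (star w * w) := by
    rw [star_mul, star_pow, hu, ← th_star, mul_assoc, ← mul_assoc (uu θ ^ m) (uu θ ^ m),
      ← pow_add, ← two_mul, ← mul_assoc, ((uu_comm hm (star w)).pow_left (2 * m)).symm.eq,
      mul_assoc, th_mul hm, mul_assoc]
  rw [sq, ← CStarRing.norm_star_mul_self, h1]
  refine (norm_mul_le _ _).trans ?_
  have h2 := norm_uu_h hz (2 * m)
  have h3 := norm_th hz (star w * w)
  have h4 : ‖star w * w‖ = ‖w‖ * ‖w‖ := CStarRing.norm_star_mul_self (x := w)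
  rw [h4] at h3
  push_cast at h2
  calc _ ≤ (1 / (2 * m + 1)) * (‖w‖ * ‖w‖) := by gcongr
    _ = _ := by ring

/-- the finite sums in the unitization -/
noncomputable def SS (θ : FD k →CP A) (m : ℕ) (y : FD k) : Unitization ℂ A :=
  (∑ i ∈ Finset.range m, uu θ ^ i) * th θ y

theorem th_one_gs (m : ℕ) : th θ 1 * ∑ i ∈ Finset.range m, uu θ ^ i = 1 - uu θ ^ m := by
  have h := mul_neg_geom_sum (uu θ) m
  have h2 : (1 : Unitization ℂ A) - uu θ = th θ 1 := by unfold uu; abel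
  rwa [h2] at h

theorem gs_comm (m : ℕ) : Commute (∑ i ∈ Finset.range m, uu θ ^ i) (th θ 1) := by
  refine Commute.sum_left _ _ _ fun i _ => Commute.pow_left ?_ i
  unfold uu
  exact (Commute.one_left _).sub_left (Commute.refl _)

theorem gs_comm_th (hm : ∀ x y, θ x * θ y = θ 1 * θ (x * y)) (m : ℕ) (y : FD k) :
    Commute (∑ i ∈ Finset.range m, uu θ ^ i) (th θ y) :=
  Commute.sum_left _ _ _ fun i _ => (uu_comm hm y).pow_left i

theorem SS_mul (hm : ∀ x y, θ x * θ y = θ 1 * θ (x * y)) (m l : ℕ) (x y : FD k) :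
    SS θ m x * SS θ l y = (1 - uu θ ^ m) * SS θ l (x * y) := by
  unfold SS
  have h1 := (gs_comm_th hm l x).eq
  calc (∑ i ∈ Finset.range m, uu θ ^ i) * th θ x * ((∑ i ∈ Finset.range l, uu θ ^ i) * th θ y)
      = (∑ i ∈ Finset.range m, uu θ ^ i) * (th θ x * ∑ i ∈ Finset.range l, uu θ ^ i) * th θ y := by
        simp only [mul_assoc]
    _ = (∑ i ∈ Finset.range m, uu θ ^ i) * (∑ i ∈ Finset.range l, uu θ ^ i) *
          (th θ x * th θ y) := by rw [← h1]; simp only [mul_assoc]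
    _ = (∑ i ∈ Finset.range m, uu θ ^ i) * ((∑ i ∈ Finset.range l, uu θ ^ i) * th θ 1) *
          th θ (x * y) := by rw [th_mul hm]; simp only [mul_assoc]
    _ = (∑ i ∈ Finset.range m, uu θ ^ i) * (th θ 1 * (∑ i ∈ Finset.range l, uu θ ^ i)) *
          th θ (x * y) := by rw [(gs_comm l).eq]
    _ = (th θ 1 * (∑ i ∈ Finset.range m, uu θ ^ i)) * ((∑ i ∈ Finset.range l, uu θ ^ i) *
          th θ (x * y)) := by rw [← (gs_comm m).eq]; simp only [mul_assoc]
    _ = _ := by rw [th_one_gs]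

theorem SS_fst (m : ℕ) (y : FD k) : (SS θ m y).fst = 0 := by
  unfold SS th
  rw [Unitization.fst_mul, Unitization.fst_inr, mul_zero]

/-- the finite sums -/
noncomputable def ss (θ : FD k →CP A) (m : ℕ) (y : FD k) : A := (SS θ m y).snd

theorem inr_ss (m : ℕ) (y : FD k) : ((ss θ m y : A) : Unitization ℂ A) = SS θ m y := by
  apply Unitization.ext
  · rw [Unitization.fst_inr, SS_fst]
  · rw [Unitization.snd_inr]; rfl

theorem inr_inj {a b : A} (h : (a : Unitization ℂ A) = b) : a = b :=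
  Unitization.inr_injective h

theorem ss_add (m : ℕ) (x y : FD k) : ss θ m (x + y) = ss θ m x + ss θ m y := by
  apply inr_inj
  rw [Unitization.inr_add, inr_ss, inr_ss, inr_ss]
  unfold SS
  rw [th_add, mul_add]

theorem ss_smul (m : ℕ) (z : ℂ) (y : FD k) : ss θ m (z • y) = z • ss θ m y := by
  apply inr_inj
  rw [Unitization.inr_smul, inr_ss, inr_ss]
  unfold SS
  rw [th_smul, mul_smul_comm]

theorem uu_star : star (uu θ) = uu θ := by
  unfold uu; rw [star_sub, star_one, h_sa.star_eq]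

theorem ss_star (hm : ∀ x y, θ x * θ y = θ 1 * θ (x * y)) (m : ℕ) (y : FD k) :
    ss θ m (star y) = star (ss θ m y) := by
  apply inr_inj
  rw [Unitization.inr_star, inr_ss, inr_ss]
  unfold SS
  rw [star_mul, th_star, star_sum]
  simp only [star_pow, uu_star]
  rw [← th_star]
  exact (gs_comm_th hm m (star y)).eq

theorem SS_le (hz : IsOrderZero θ) (m : ℕ) (y : FD k) : ‖SS θ m y‖ ≤ m * ‖y‖ := by
  unfold SS
  refine (norm_mul_le _ _).trans ?_
  have h1 : ‖∑ i ∈ Finset.range m, uu θ ^ i‖ ≤ m := by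
    refine (norm_sum_le _ _).trans ?_
    refine (Finset.sum_le_sum fun i _ => norm_uu hz i).trans ?_
    simp
  have h2 := norm_th hz y
  gcongr

theorem ss_norm (hz : IsOrderZero θ) (hm : ∀ x y, θ x * θ y = θ 1 * θ (x * y)) (m : ℕ)
    (y : FD k) : ‖ss θ m y‖ ≤ ‖y‖ := by
  let L0 : FD k →ₗ[ℂ] A :=
    { toFun := ss θ m
      map_add' := ss_add m
      map_smul' := fun z y => ss_smul m z y }
  have hL0 : ∀ y, ‖L0 y‖ ≤ m * ‖y‖ := by
    intro y
    have := SS_le hz m y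
    rwa [← inr_ss, Unitization.norm_inr] at this
  let L : FD k →L[ℂ] A := L0.mkContinuous m hL0
  have hL : ∀ y, L y = ss θ m y := fun _ => rfl
  have h1 : ∀ y, ‖L y‖ ^ 2 ≤ ‖L‖ * ‖y‖ ^ 2 := by
    intro y
    rw [hL, sq, ← CStarRing.norm_star_mul_self, ← ss_star hm, ← Unitization.norm_inr (𝕜 := ℂ),
      Unitization.inr_mul, inr_ss, inr_ss, SS_mul hm, ← inr_ss]
    refine (norm_mul_le _ _).trans ?_
    rw [Unitization.norm_inr]
    have h2 := norm_one_sub hz m
    have h3 := L.le_opNorm (star y * y)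
    have h4 : ‖star y * y‖ = ‖y‖ * ‖y‖ := CStarRing.norm_star_mul_self (x := y)
    rw [h4, hL] at h3
    calc _ ≤ 1 * ‖ss θ m (star y * y)‖ := by gcongr
      _ ≤ _ := by rw [one_mul, sq]; exact h3
  have h2 : ‖L‖ ≤ Real.sqrt ‖L‖ := by
    refine L.opNorm_le_bound (Real.sqrt_nonneg _) fun y => ?_
    have h3 := Real.sqrt_le_sqrt (h1 y)
    rw [Real.sqrt_sq (norm_nonneg _), Real.sqrt_mul (norm_nonneg L),
      Real.sqrt_sq (norm_nonneg _)] at h3
    exact h3
  have h3 : ‖L‖ ≤ 1 := by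
    by_contra hc
    push Not at hc
    have h4 : Real.sqrt ‖L‖ < ‖L‖ := by
      rw [Real.sqrt_lt' (by linarith)]
      nlinarith
    linarith
  have h4 := L.le_of_opNorm_le h3 y
  rw [hL, one_mul] at h4
  exact h4

/-- an error bound which tends to zero -/
noncomputable def er (m : ℕ) : ℝ := Real.sqrt (1 / (2 * m + 1))

theorem er_nonneg (m : ℕ) : 0 ≤ er m := Real.sqrt_nonneg _

theorem er_tendsto : Tendsto er atTop (𝓝 0) := by
  have h : Tendsto (fun m : ℕ => (1 : ℝ) / (2 * m + 1)) atTop (𝓝 0) := by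
    have h1 : Tendsto (fun m : ℕ => (2 : ℝ) * m + 1) atTop atTop :=
      tendsto_atTop_add_const_right _ _
        (tendsto_natCast_atTop_atTop.const_mul_atTop (by norm_num))
    exact tendsto_const_nhds.div_atTop h1
  have h2 := (Real.continuous_sqrt.tendsto 0).comp h
  rw [Real.sqrt_zero] at h2
  exact h2

theorem norm_uu_th' (hz : IsOrderZero θ) (hm : ∀ x y, θ x * θ y = θ 1 * θ (x * y)) (m : ℕ)
    (w : FD k) : ‖uu θ ^ m * th θ w‖ ≤ er m * ‖w‖ := by
  have h := Real.sqrt_le_sqrt (norm_uu_th hz hm m w)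
  rw [Real.sqrt_sq (norm_nonneg _)] at h
  refine h.trans (le_of_eq ?_)
  unfold er
  rw [div_eq_mul_one_div, mul_comm, Real.sqrt_mul (by positivity), Real.sqrt_sq (norm_nonneg _)]

theorem ss_mul_err (hz : IsOrderZero θ) (hm : ∀ x y, θ x * θ y = θ 1 * θ (x * y)) (m l : ℕ)
    (x y : FD k) : ‖ss θ m x * ss θ l y - ss θ l (x * y)‖ ≤ l * (er m * ‖x * y‖) := by
  rw [← Unitization.norm_inr (𝕜 := ℂ), Unitization.inr_sub, Unitization.inr_mul, inr_ss, inr_ss,
    inr_ss, SS_mul hm, sub_mul, one_mul, sub_sub_cancel_left, norm_neg]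
  unfold SS
  have h1 : uu θ ^ m * ((∑ i ∈ Finset.range l, uu θ ^ i) * th θ (x * y)) =
      (∑ i ∈ Finset.range l, uu θ ^ i) * (uu θ ^ m * th θ (x * y)) := by
    rw [← mul_assoc, ← mul_assoc]
    congr 1
    exact (Commute.sum_right _ _ _ fun i _ => Commute.pow_pow (Commute.refl _) m i).eq
  rw [h1]
  refine (norm_mul_le _ _).trans ?_
  have h2 : ‖∑ i ∈ Finset.range l, uu θ ^ i‖ ≤ l := by
    refine (norm_sum_le _ _).trans ?_
    refine (Finset.sum_le_sum fun i _ => norm_uu hz i).trans ?_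
    simp
  have h3 := norm_uu_th' hz hm m (x * y)
  gcongr

theorem h_ss (hz : IsOrderZero θ) (hm : ∀ x y, θ x * θ y = θ 1 * θ (x * y)) (m : ℕ)
    (y : FD k) : ‖θ 1 * ss θ m y - θ y‖ ≤ er m * ‖y‖ := by
  have h := norm_uu_th' hz hm m y
  rw [← Unitization.norm_inr (𝕜 := ℂ), Unitization.inr_sub, Unitization.inr_mul, inr_ss]
  have h2 : ((θ 1 : A) : Unitization ℂ A) * SS θ m y - ((θ y : A) : Unitization ℂ A) =
      -(uu θ ^ m * th θ y) := by
    change th θ 1 * SS θ m y - th θ y = _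
    unfold SS
    rw [← mul_assoc, th_one_gs, sub_mul, one_mul]
    abel
  rw [h2, norm_neg]
  exact h

theorem h_comm_ss (hm : ∀ x y, θ x * θ y = θ 1 * θ (x * y)) (m : ℕ) (y : FD k) :
    Commute (θ 1) (ss θ m y) := by
  apply inr_inj
  rw [Unitization.inr_mul, Unitization.inr_mul, inr_ss]
  change th θ 1 * SS θ m y = SS θ m y * th θ 1
  unfold SS
  rw [← mul_assoc, ← (gs_comm m).eq, mul_assoc, mul_assoc, th_comm hm]

/-- the square root -/
theorem exists_root (hz : IsOrderZero θ) (hm : ∀ x y, θ x * θ y = θ 1 * θ (x * y)) :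
    ∃ g : A, star g = g ∧ ‖g‖ ≤ 1 ∧ ∀ (m : ℕ) (y : FD k),
      g * ss θ m y * g = θ 1 * ss θ m y := by
  have h0 : 0 ≤ θ 1 := h_nonneg
  have h1 : CFC.sqrt (θ 1) * CFC.sqrt (θ 1) = θ 1 := CFC.sqrt_mul_sqrt_self (θ 1) h0
  have h2 : star (CFC.sqrt (θ 1)) = CFC.sqrt (θ 1) :=
    (IsSelfAdjoint.of_nonneg (CFC.sqrt_nonneg (θ 1))).star_eq
  refine ⟨CFC.sqrt (θ 1), h2, ?_, ?_⟩
  · have h3 : ‖CFC.sqrt (θ 1)‖ * ‖CFC.sqrt (θ 1)‖ = ‖θ 1‖ := by
      rw [← CStarRing.norm_star_mul_self, h2, h1]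
    have h4 := (hz.contr 1).trans norm_one_FD
    rw [← h3] at h4
    nlinarith [norm_nonneg (CFC.sqrt (θ 1))]
  · intro m y
    have h5 : Commute (CFC.sqrt (θ 1)) (ss θ m y) := by
      unfold CFC.sqrt
      exact (h_comm_ss hm m y).cfcₙ_nnreal _
    rw [mul_assoc, ← h5.eq, ← mul_assoc, h1]

end alg

end T3x

/-- T3. -/
theorem orderZero_reduce : ∃ C : ℝ, 0 < C ∧
    ∀ (n : ℕ) (k : Fin n → ℕ) (A : Type u) [NonUnitalCStarAlgebra A] [PartialOrder A]
      [StarOrderedRing A] (H : Type v) [NormedAddCommGroup H] [InnerProductSpace ℂ H]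
      [CompleteSpace H] (M : VonNeumannAlgebra H) (ε : ℝ) (φ : A → H →L[ℂ] H) (θ : FD k →CP A),
      (∀ a, φ a ∈ M) → IsEpsHom ε φ → IsOrderZero θ →
      (∀ x y, θ x * θ y = θ 1 * θ (x * y)) →
      ∃ (p₀ : FD k → H →L[ℂ] H) (c : H →L[ℂ] H), (∀ y, p₀ y ∈ M) ∧ c ∈ M ∧ ‖c‖ ≤ 1 ∧
        IsEpsHom (C * ε) p₀ ∧ ∀ y, ‖y‖ ≤ 1 → ‖c * p₀ y * star c - φ (θ y)‖ ≤ C * ε := by
  refine ⟨30, by norm_num, ?_⟩
  intro n k A _ _ _ H _ _ _ M ε φ θ hφM hφ hz hm
  have hε : 0 ≤ ε := hφ.eps_nonneg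
  let U : Ultrafilter ℕ := Filter.hyperfilter ℕ
  have hU : (U : Filter ℕ) ≤ Filter.atTop := by
    rw [← Nat.cofinite_eq_atTop]
    exact Filter.hyperfilter_le_cofinite
  have hs : ∀ m y, ‖T3x.ss θ m y‖ ≤ ‖y‖ := fun m y => T3x.ss_norm hz hm m y
  have hbd : ∀ y : FD k, ‖y‖ ≤ 2 → ∀ m, ‖φ (T3x.ss θ m y)‖ ≤ 2 + ε := by
    intro y hy m
    have h1 : ‖(2 : ℂ)⁻¹ • y‖ ≤ 1 := by
      rw [norm_smul, norm_inv, Complex.norm_ofNat]; linarith
    have h2 : ‖T3x.ss θ m ((2 : ℂ)⁻¹ • y)‖ ≤ 1 := (hs _ _).trans h1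
    have h3 : T3x.ss θ m y = T3x.ss θ m ((2 : ℂ)⁻¹ • y) + T3x.ss θ m ((2 : ℂ)⁻¹ • y) := by
      rw [← T3x.ss_add, ← add_smul]; norm_num
    have h4 := hφ.add _ _ h2 h2
    rw [← h3] at h4
    have h5 := hφ.contr _ h2
    have h6 : φ (T3x.ss θ m y) = (φ (T3x.ss θ m y) - φ (T3x.ss θ m ((2 : ℂ)⁻¹ • y)) -
        φ (T3x.ss θ m ((2 : ℂ)⁻¹ • y))) + φ (T3x.ss θ m ((2 : ℂ)⁻¹ • y)) +
        φ (T3x.ss θ m ((2 : ℂ)⁻¹ • y)) := by abel
    rw [h6]
    refine (norm_add_le _ _).trans ?_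
    have := norm_add_le (φ (T3x.ss θ m y) - φ (T3x.ss θ m ((2 : ℂ)⁻¹ • y)) -
        φ (T3x.ss θ m ((2 : ℂ)⁻¹ • y))) (φ (T3x.ss θ m ((2 : ℂ)⁻¹ • y)))
    linarith
  have hex : ∀ y : FD k, ∃ X : H →L[ℂ] H,
      (‖y‖ ≤ 2 → T3x.WT U (fun m => φ (T3x.ss θ m y)) X) ∧ (¬ ‖y‖ ≤ 2 → X = 0) := by
    intro y
    by_cases hy : ‖y‖ ≤ 2
    · obtain ⟨X, hX⟩ := T3x.exists_WT U (fun m => φ (T3x.ss θ m y)) (2 + ε) (hbd y hy)
      exact ⟨X, fun _ => hX, fun h => absurd hy h⟩
    · exact ⟨0, fun h => absurd h hy, fun _ => rfl⟩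
  choose p₀ hp hp0 using hex
  have hp1 : ∀ y : FD k, ‖y‖ ≤ 1 → T3x.WT U (fun m => φ (T3x.ss θ m y)) (p₀ y) :=
    fun y hy => hp y (hy.trans (by norm_num))
  obtain ⟨g, hg1, hg2, hg3⟩ := T3x.exists_root hz hm
  have hs1 : ∀ m (y : FD k), ‖y‖ ≤ 1 → ‖T3x.ss θ m y‖ ≤ 1 := fun m y hy => (hs m y).trans hy
  have her : Filter.Tendsto T3x.er (U : Filter ℕ) (nhds 0) := T3x.er_tendsto.mono_left hU
  refine ⟨p₀, φ g, ?_, hφM g, hφ.contr g hg2, ⟨?_, ?_, ?_, ?_, ?_⟩, ?_⟩
  · intro y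
    by_cases hy : ‖y‖ ≤ 2
    · exact (hp y hy).mem M fun m => hφM _
    · rw [hp0 y hy]; exact zero_mem M
  · intro a ha
    exact (hp1 a ha).norm_le (fun _ => 1) 1 (fun m => hφ.contr _ (hs1 m a ha))
      tendsto_const_nhds
  · intro a b ha hb
    have hab : ‖a + b‖ ≤ 2 := (norm_add_le _ _).trans (by linarith)
    have h := ((hp _ hab).sub (hp1 a ha)).sub (hp1 b hb)
    refine (h.norm_le (fun _ => ε) ε (fun m => ?_) tendsto_const_nhds).trans (by linarith)
    rw [T3x.ss_add]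
    exact hφ.add _ _ (hs1 m a ha) (hs1 m b hb)
  · intro a b ha hb
    have hab : ‖a * b‖ ≤ 1 := (norm_mul_le _ _).trans (by
      have := mul_le_mul ha hb (norm_nonneg _) zero_le_one
      linarith)
    have h1 : ∀ l, ‖p₀ a * φ (T3x.ss θ l b) - φ (T3x.ss θ l (a * b))‖ ≤ 11 * ε := by
      intro l
      have h2 := ((hp1 a ha).mul_right (φ (T3x.ss θ l b))).sub
        (T3x.WT.const (U := U) (φ (T3x.ss θ l (a * b))))
      refine h2.norm_le (fun m => l * (T3x.er m * ‖a * b‖) + 11 * ε) _ (fun m => ?_) ?_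
      · have h3 := hφ.mul _ _ (hs1 m a ha) (hs1 l b hb)
        have h4 : ‖T3x.ss θ m a * T3x.ss θ l b‖ ≤ 1 := (norm_mul_le _ _).trans (by
          have := mul_le_mul (hs1 m a ha) (hs1 l b hb) (norm_nonneg _) zero_le_one
          linarith)
        have h5 := hφ.lip _ _ h4 (hs1 l _ hab)
        have h6 := T3x.ss_mul_err hz hm m l a b
        have h7 : φ (T3x.ss θ m a) * φ (T3x.ss θ l b) - φ (T3x.ss θ l (a * b)) =
          (φ (T3x.ss θ m a * T3x.ss θ l b) - φ (T3x.ss θ l (a * b))) -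
          (φ (T3x.ss θ m a * T3x.ss θ l b) - φ (T3x.ss θ m a) * φ (T3x.ss θ l b)) := by abel
        rw [h7]
        refine (norm_sub_le _ _).trans ?_
        linarith
      · have h8 := ((her.mul_const ‖a * b‖).const_mul (l : ℝ)).add_const (11 * ε)
        simpa using h8
    have h2 := ((hp1 b hb).mul_left (p₀ a)).sub (hp1 _ hab)
    have h3 := h2.norm_le (fun _ => 11 * ε) _ h1 tendsto_const_nhds
    rw [norm_sub_rev]
    linarith
  · intro a ha
    have ha' : ‖star a‖ ≤ 1 := le_of_eq_of_le (norm_star a) ha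
    have h := (hp1 _ ha').sub (hp1 a ha).star
    refine (h.norm_le (fun _ => ε) ε (fun m => ?_) tendsto_const_nhds).trans (by linarith)
    rw [T3x.ss_star hm]
    exact hφ.star _ (hs1 m a ha)
  · intro a z ha hz1
    have ha' : ‖z • a‖ ≤ 1 := by
      rw [norm_smul]
      have := mul_le_mul hz1 ha (norm_nonneg _) zero_le_one
      linarith
    have h := (hp1 _ ha').sub ((hp1 a ha).smul z)
    refine (h.norm_le (fun _ => ε) ε (fun m => ?_) tendsto_const_nhds).trans (by linarith)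
    rw [T3x.ss_smul]
    exact hφ.smul _ z (hs1 m a ha) hz1
  · intro y hy
    have h := (((hp1 y hy).mul_left (φ g)).mul_right (star (φ g))).sub
      (T3x.WT.const (U := U) (φ (θ y)))
    refine (h.norm_le (fun m => T3x.er m * ‖y‖ + 13 * ε) (13 * ε) (fun m => ?_) ?_).trans
      (by linarith)
    · have hsm := hs1 m y hy
      have hgs : ‖g * T3x.ss θ m y‖ ≤ 1 := (norm_mul_le _ _).trans (by
          have := mul_le_mul hg2 hsm (norm_nonneg _) zero_le_one
          linarith)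
      have hgsg : ‖g * T3x.ss θ m y * g‖ ≤ 1 := (norm_mul_le _ _).trans (by
          have := mul_le_mul hgs hg2 (norm_nonneg _) zero_le_one
          linarith)
      have hθ : ‖θ y‖ ≤ 1 := (hz.contr y).trans hy
      have e1 := hφ.star g hg2
      rw [hg1] at e1
      have e2 := hφ.mul _ _ hg2 hsm
      have e3 := hφ.mul _ _ hgs hg2
      have e4 := hφ.lip _ _ hgsg hθ
      have e5 := T3x.h_ss hz hm m y
      rw [← hg3 m y] at e5
      have n1 := hφ.contr _ hg2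
      have n2 := hφ.contr _ hsm
      have key : φ g * φ (T3x.ss θ m y) * star (φ g) - φ (θ y) =
          -(φ g * φ (T3x.ss θ m y) * (φ g - star (φ g))) -
          (φ (g * T3x.ss θ m y) - φ g * φ (T3x.ss θ m y)) * φ g -
          (φ (g * T3x.ss θ m y * g) - φ (g * T3x.ss θ m y) * φ g) +
          (φ (g * T3x.ss θ m y * g) - φ (θ y)) := by noncomm_ring
      rw [key]
      have b1 : ‖-(φ g * φ (T3x.ss θ m y) * (φ g - star (φ g)))‖ ≤ ε := by
        rw [norm_neg]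
        refine (norm_mul_le _ _).trans ?_
        have h1 : ‖φ g * φ (T3x.ss θ m y)‖ ≤ 1 := (norm_mul_le _ _).trans (by
          have := mul_le_mul n1 n2 (norm_nonneg _) zero_le_one
          linarith)
        have := mul_le_mul h1 e1 (norm_nonneg _) zero_le_one
        linarith
      have b2 : ‖(φ (g * T3x.ss θ m y) - φ g * φ (T3x.ss θ m y)) * φ g‖ ≤ ε := by
        refine (norm_mul_le _ _).trans ?_
        have := mul_le_mul e2 n1 (norm_nonneg _) hε
        linarith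
      refine (norm_add_le _ _).trans ?_
      have c1 := norm_sub_le (-(φ g * φ (T3x.ss θ m y) * (φ g - star (φ g))) -
          (φ (g * T3x.ss θ m y) - φ g * φ (T3x.ss θ m y)) * φ g)
          (φ (g * T3x.ss θ m y * g) - φ (g * T3x.ss θ m y) * φ g)
      have c2 := norm_sub_le (-(φ g * φ (T3x.ss θ m y) * (φ g - star (φ g))))
          ((φ (g * T3x.ss θ m y) - φ g * φ (T3x.ss θ m y)) * φ g)
      linarith
    · have h8 := (her.mul_const ‖y‖).add_const (13 * ε)
      simpa using h8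

end Pool.Agent.H253.US
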