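import Pool.Agent.H253.US.FdStable
import Pool.Agent.H253.US.Reduce
import Pool.Agent.H253.US.OrderZero

set_option autoImplicit false
set_option linter.unusedSectionVars false
set_option linter.deprecated false

open scoped CStarAlgebra ComplexOrder InnerProductSpace

namespace Pool.Agent.H253.US

universe u v w

theorem vn_isClosed {H : Type v} [NormedAddCommGroup H] [InnerProductSpace ℂ H] [CompleteSpace H]
    (M : VonNeumannAlgebra H) : IsClosed ((M.toStarSubalgebra : StarSubalgebra ℂ (H →L[ℂ] H)) :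
      Set (H →L[ℂ] H)) := by
  have h := M.centralizer_centralizer'
  have h2 : IsClosed (Set.centralizer (Set.centralizer M.carrier)) := Set.isClosed_centralizer _
  rw [h] at h2
  exact h2

/-- `fd_stable` with values in a von Neumann algebra. -/
theorem fd_stable_vn : ∃ C : ℝ, 0 < C ∧ ∃ ε₀ : ℝ, 0 < ε₀ ∧
    ∀ (F : Type) [CStarAlgebra F] [FiniteDimensional ℂ F] (H : Type v) [NormedAddCommGroup H]
      [InnerProductSpace ℂ H] [CompleteSpace H] (M : VonNeumannAlgebra H) (ε : ℝ)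
      (φ : F → H →L[ℂ] H), ε ≤ ε₀ → (∀ y, φ y ∈ M) → IsEpsHom ε φ →
      ∃ π : F →⋆ₙₐ[ℂ] (H →L[ℂ] H), (∀ y, π y ∈ M) ∧ ∀ y, ‖y‖ ≤ 1 → ‖φ y - π y‖ ≤ C * ε := by
  obtain ⟨C, hC, ε₀, hε₀, h⟩ := fd_stable.{v}
  refine ⟨C, hC, ε₀, hε₀, ?_⟩
  intro F _ _ H _ _ _ M ε φ hε hM hφ
  let _ : CStarAlgebra M.toStarSubalgebra :=
    StarSubalgebra.cstarAlgebra M.toStarSubalgebra (h_closed := vn_isClosed M)
  obtain ⟨π, hπ⟩ := h F M.toStarSubalgebra ε (fun y => ⟨φ y, hM y⟩) hε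
    { contr := fun a ha => hφ.contr a ha
      add := fun a b ha hb => hφ.add a b ha hb
      mul := fun a b ha hb => hφ.mul a b ha hb
      star := fun a ha => hφ.star a ha
      smul := fun a z ha hz => hφ.smul a z ha hz }
  refine ⟨{ toFun := fun y => (π y : H →L[ℂ] H)
            map_smul' := fun c y => by rw [map_smul]; rfl
            map_zero' := by rw [map_zero]; rfl
            map_add' := fun x y => by rw [map_add]; rfl
            map_mul' := fun x y => by rw [map_mul]; rfl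
            map_star' := fun x => by rw [map_star]; rfl }, fun y => (π y).2, fun y hy => ?_⟩
  exact hπ y hy

theorem finDim_FD {n : ℕ} (k : Fin n → ℕ) : FiniteDimensional ℂ (FD k) := by
  have : ∀ m : ℕ, FiniteDimensional ℂ (CStarMatrix (Fin m) (Fin m) ℂ) := fun m =>
    inferInstanceAs (FiniteDimensional ℂ (Matrix (Fin m) (Fin m) ℂ))
  infer_instance

theorem piece : ∃ C : ℝ, 0 < C ∧ ∃ ε₀ : ℝ, 0 < ε₀ ∧
    ∀ (n : ℕ) (k : Fin n → ℕ) (A : Type u) [NonUnitalCStarAlgebra A] [PartialOrder A]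
      [StarOrderedRing A] (H : Type v) [NormedAddCommGroup H] [InnerProductSpace ℂ H]
      [CompleteSpace H] (M : VonNeumannAlgebra H) (ε : ℝ) (φ : A → H →L[ℂ] H) (θ : FD k →CP A),
      (∀ a, φ a ∈ M) → IsEpsHom ε φ → ε ≤ ε₀ → IsOrderZero θ →
      ∃ (π : FD k →⋆ₙₐ[ℂ] (H →L[ℂ] H)) (c : H →L[ℂ] H), (∀ y, π y ∈ M) ∧ c ∈ M ∧ ‖c‖ ≤ 1 ∧
        ∀ y, ‖y‖ ≤ 1 → ‖c * π y * star c - φ (θ y)‖ ≤ C * ε := by
  obtain ⟨C₁, hC₁, h₁⟩ := orderZero_reduce.{u, v}
  obtain ⟨C₂, hC₂, ε₂, hε₂, h₂⟩ := fd_stable_vn.{v}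
  refine ⟨C₁ + C₂ * C₁, by positivity, ε₂ / C₁, by positivity, ?_⟩
  intro n k A _ _ _ H _ _ _ M ε φ θ hM hφ hε hθ
  obtain ⟨p₀, c, hpM, hcM, hc1, hp, hpc⟩ := h₁ n k A H M ε φ θ hM hφ hθ
    (fun x y => orderZero_mul θ hθ x y)
  have hε' : C₁ * ε ≤ ε₂ := by
    rw [le_div_iff₀ hC₁] at hε
    linarith
  have := finDim_FD k
  obtain ⟨π, hπM, hπ⟩ := h₂ (FD k) H M (C₁ * ε) p₀ hε' hpM hp
  refine ⟨π, c, hπM, hcM, hc1, fun y hy => ?_⟩
  have e1 : c * π y * star c - φ (θ y) = (c * p₀ y * star c - φ (θ y)) -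
      c * (p₀ y - π y) * star c := by
    noncomm_ring
  rw [e1]
  refine (norm_sub_le _ _).trans ?_
  have h3 : ‖c * (p₀ y - π y) * star c‖ ≤ 1 * (C₂ * (C₁ * ε)) * 1 := by
    refine (norm_mul_le _ _).trans ?_
    have hh := hπ y hy
    have : ‖star c‖ ≤ 1 := by rw [norm_star]; exact hc1
    have h4 : ‖c * (p₀ y - π y)‖ ≤ 1 * (C₂ * (C₁ * ε)) :=
      (norm_mul_le _ _).trans (mul_le_mul hc1 hh (norm_nonneg _) zero_le_one)
    exact mul_le_mul h4 this (norm_nonneg _) ((norm_nonneg _).trans h4)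
  have h5 := hpc y hy
  calc _ ≤ C₁ * ε + 1 * (C₂ * (C₁ * ε)) * 1 := add_le_add h5 h3
    _ = _ := by ring

end Pool.Agent.H253.US
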