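import Pool.Agent.H253.US.Defs
import Pool.Agent.H253.US.Cp

set_option autoImplicit false
set_option linter.unusedSectionVars false
set_option linter.deprecated false

open scoped CStarAlgebra ComplexOrder InnerProductSpace

namespace Pool.Agent.H253.US

universe u v w

/-- Operator Schwarz inequality. -/
def SP {A : Type u} [NonUnitalCStarAlgebra A] {H : Type v} [NormedAddCommGroup H]
    [InnerProductSpace ℂ H] (Ψ : A → H →L[ℂ] H) : Prop :=
  ∀ (n : ℕ) (a : Fin n → A) (ξ : Fin n → H),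
    ‖∑ i, Ψ (a i) (ξ i)‖ ^ 2 ≤ (∑ i, ∑ j, inner ℂ (ξ i) (Ψ (star (a i) * a j) (ξ j))).re

/-- composition of a cp map with a `*`-homomorphism. -/
noncomputable def compCP {A : Type u} [NonUnitalCStarAlgebra A] [PartialOrder A]
    [StarOrderedRing A] {F : Type w} [NonUnitalCStarAlgebra F] [PartialOrder F]
    [StarOrderedRing F] {B : Type v} [NonUnitalCStarAlgebra B] [PartialOrder B]
    [StarOrderedRing B] (π : F →⋆ₙₐ[ℂ] B) (ψ : A →CP F) : A →CP B where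
  toLinearMap := (π : F →ₗ[ℂ] B) ∘ₗ ψ.toLinearMap
  map_cstarMatrix_nonneg' := by
    intro k M hM
    have h1 := ψ.map_cstarMatrix_nonneg' k M hM
    exact @CompletelyPositiveMapClass.map_cstarMatrix_nonneg' (F →⋆ₙₐ[ℂ] B) F B _ _ _ _ _
      inferInstance _ _ π k _ h1

section sp

variable {A : Type u} [NonUnitalCStarAlgebra A] [PartialOrder A] [StarOrderedRing A]
variable {H : Type v} [NormedAddCommGroup H] [InnerProductSpace ℂ H] [CompleteSpace H]

theorem sp_cp (ψ : A →CP (H →L[ℂ] H)) (hψ : ∀ a, ‖ψ a‖ ≤ ‖a‖) : SP (fun a => ψ a) := by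
  intro n a ξ
  by_cases hH : ∃ e : H, ‖e‖ = 1
  · obtain ⟨e, he⟩ := hH
    have hee : inner ℂ e e = (1 : ℂ) := by
      rw [inner_self_eq_norm_sq_to_K, he]; simp
    let c : Fin n → H →L[ℂ] H := fun i => (innerSL ℂ e).smulRight (ξ i)
    have hc : ∀ i, c i e = ξ i := by
      intro i
      simp [c, he]
    have h1 := cp_schwarz ψ hψ n a c
    rw [ContinuousLinearMap.le_def] at h1
    have h2 := h1.inner_nonneg_right e
    rw [ContinuousLinearMap.sub_apply, inner_sub_right] at h2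
    have h3 := (Complex.le_def.mp h2).1
    simp only [Complex.zero_re, Complex.sub_re] at h3
    have h4 : inner ℂ e ((star (∑ i, ψ (a i) * c i) * (∑ i, ψ (a i) * c i)) e) =
        inner ℂ (∑ i, ψ (a i) (ξ i)) (∑ i, ψ (a i) (ξ i)) := by
      rw [ContinuousLinearMap.mul_apply, ContinuousLinearMap.star_eq_adjoint,
        ContinuousLinearMap.adjoint_inner_right, ContinuousLinearMap.sum_apply]
      simp only [ContinuousLinearMap.mul_apply, hc]
    have h5 : inner ℂ e ((∑ i, ∑ j, star (c i) * ψ (star (a i) * a j) * c j) e) =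
        ∑ i, ∑ j, inner ℂ (ξ i) (ψ (star (a i) * a j) (ξ j)) := by
      simp only [ContinuousLinearMap.sum_apply, inner_sum]
      refine Finset.sum_congr rfl fun i _ => Finset.sum_congr rfl fun j _ => ?_
      rw [ContinuousLinearMap.mul_apply, ContinuousLinearMap.mul_apply,
        ContinuousLinearMap.star_eq_adjoint, ContinuousLinearMap.adjoint_inner_right, hc, hc]
    rw [h4, h5] at h3
    have h6 : (inner ℂ (∑ i, ψ (a i) (ξ i)) (∑ i, ψ (a i) (ξ i))).re =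
        ‖∑ i, ψ (a i) (ξ i)‖ ^ 2 := by
      have := @inner_self_eq_norm_sq ℂ H _ _ _ (∑ i, ψ (a i) (ξ i))
      simpa using this
    rw [h6] at h3
    simpa using h3
  · have hz : ∀ x : H, x = 0 := by
      intro x
      by_contra hx
      exact hH ⟨((‖x‖⁻¹ : ℝ) : ℂ) • x, by
        rw [norm_smul]
        have : 0 < ‖x‖ := norm_pos_iff.mpr hx
        simp [this.ne']⟩
    rw [hz (∑ i, ψ (a i) (ξ i))]
    simp only [hz (ξ _), map_zero, inner_zero_right, Finset.sum_const_zero]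
    simp

theorem sp_conj (Ψ : A → H →L[ℂ] H) (h : SP Ψ) (c : H →L[ℂ] H) (hc : ‖c‖ ≤ 1) :
    SP (fun a => c * Ψ a * star c) := by
  intro n a ξ
  have h1 := h n a (fun i => star c (ξ i))
  have h2 : ∑ i, (c * Ψ (a i) * star c) (ξ i) = c (∑ i, Ψ (a i) (star c (ξ i))) := by
    rw [map_sum]; rfl
  have h3 : ∀ i j, inner ℂ (ξ i) ((c * Ψ (star (a i) * a j) * star c) (ξ j)) =
      inner ℂ (star c (ξ i)) (Ψ (star (a i) * a j) (star c (ξ j))) := by
    intro i j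
    rw [ContinuousLinearMap.star_eq_adjoint, ContinuousLinearMap.adjoint_inner_left]
    rfl
  simp only [h3]
  rw [h2]
  refine le_trans ?_ h1
  have h4 : ‖c (∑ i, Ψ (a i) (star c (ξ i)))‖ ≤ 1 * ‖∑ i, Ψ (a i) (star c (ξ i))‖ :=
    (c.le_opNorm _).trans (by gcongr)
  rw [one_mul] at h4
  gcongr

theorem sp_avg {N : ℕ} (hN : 0 < N) (Ψ : Fin N → A → H →L[ℂ] H) (h : ∀ i, SP (Ψ i)) :
    SP (fun a => (N : ℂ)⁻¹ • ∑ i, Ψ i a) := by
  intro n a ξ
  have hNr : (0 : ℝ) < N := by exact_mod_cast hN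
  have h1 : ∑ j, ((N : ℂ)⁻¹ • ∑ i, Ψ i (a j)) (ξ j) =
      (N : ℂ)⁻¹ • ∑ i, ∑ j, Ψ i (a j) (ξ j) := by
    simp only [ContinuousLinearMap.smul_apply, ContinuousLinearMap.sum_apply]
    rw [← Finset.smul_sum, Finset.sum_comm]
  have h2 : (∑ i, ∑ j, inner ℂ (ξ i) (((N : ℂ)⁻¹ • ∑ l, Ψ l (star (a i) * a j)) (ξ j))).re =
      (N : ℝ)⁻¹ * ∑ l, (∑ i, ∑ j, inner ℂ (ξ i) (Ψ l (star (a i) * a j) (ξ j))).re := by
    simp only [ContinuousLinearMap.smul_apply, ContinuousLinearMap.sum_apply, inner_smul_right,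
      inner_sum]
    rw [← Complex.re_sum]
    rw [show (N : ℂ)⁻¹ = (((N : ℝ)⁻¹ : ℝ) : ℂ) by push_cast; rfl]
    simp only [← Finset.mul_sum]
    rw [Complex.re_ofReal_mul]
    congr 2
    rw [Finset.sum_comm (s := (Finset.univ : Finset (Fin N)))]
    refine Finset.sum_congr rfl fun i _ => ?_
    rw [Finset.sum_comm]
  rw [h1, h2, norm_smul, mul_pow]
  have h3 : ‖∑ i, ∑ j, Ψ i (a j) (ξ j)‖ ^ 2 ≤ N * ∑ i, ‖∑ j, Ψ i (a j) (ξ j)‖ ^ 2 := by
    have h3 : ‖∑ i, ∑ j, Ψ i (a j) (ξ j)‖ ^ 2 ≤ (∑ i, ‖∑ j, Ψ i (a j) (ξ j)‖) ^ 2 := by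
      gcongr
      exact norm_sum_le _ _
    have := sq_sum_le_card_mul_sum_sq (s := (Finset.univ : Finset (Fin N)))
      (f := fun i => ‖∑ j, Ψ i (a j) (ξ j)‖)
    rw [Finset.card_univ, Fintype.card_fin] at this
    exact h3.trans this
  have h4 : ‖((N : ℂ)⁻¹)‖ = (N : ℝ)⁻¹ := by simp
  rw [h4]
  calc (N : ℝ)⁻¹ ^ 2 * ‖∑ i, ∑ j, Ψ i (a j) (ξ j)‖ ^ 2
      ≤ (N : ℝ)⁻¹ ^ 2 * (N * ∑ i, ‖∑ j, Ψ i (a j) (ξ j)‖ ^ 2) := by gcongr
    _ = (N : ℝ)⁻¹ * ∑ i, ‖∑ j, Ψ i (a j) (ξ j)‖ ^ 2 := by field_simp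
    _ ≤ _ := by
      gcongr with i _
      exact h i n a ξ

end sp

end Pool.Agent.H253.US
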