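import Pool.Agent.H253.US.LinApprox
import Pool.Agent.H253.US.Piece
import Pool.Agent.H253.US.Schwarz
import Pool.Agent.H253.US.Gap
import Pool.Agent.H253.US.Averaging

set_option autoImplicit false
set_option linter.unusedSectionVars false
set_option linter.deprecated false

open scoped CStarAlgebra ComplexOrder InnerProductSpace

namespace Pool.Agent.H253.US

universe u v w

section loc

variable {A : Type u} [NonUnitalCStarAlgebra A] [PartialOrder A] [StarOrderedRing A]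

theorem theta_psi_schwarz {n : ℕ} {k : Fin n → ℕ} (ψ : A →CP FD k) (θ : FD k →CP A)
    (hψ : ∀ a, ‖ψ a‖ ≤ ‖a‖) (hθ : ∀ a, ‖θ a‖ ≤ ‖a‖) (x : A) :
    star (θ (ψ x)) * θ (ψ x) ≤ θ (ψ (star x * x)) := by
  have h1 := cp_schwarz' θ hθ (ψ x)
  have h2 := cp_schwarz ψ hψ 1 (fun _ => x) (fun _ => 1)
  simp only [Fin.sum_univ_one, mul_one, star_one, one_mul] at h2
  exact h1.trans (OrderHomClass.mono θ h2)

theorem sum_sq_le {N : ℕ} (hN : 0 < N) {n : Fin N → ℕ} {k : ∀ i, Fin (n i) → ℕ}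
    (ψ : ∀ i, A →CP FD (k i)) (θ : ∀ i, FD (k i) →CP A) (hψ : ∀ i a, ‖ψ i a‖ ≤ ‖a‖)
    (hθ : ∀ i a, ‖θ i a‖ ≤ ‖a‖) (δ : ℝ) (x : A) (hx : ‖x‖ ≤ 1)
    (h1 : ‖x - (N : ℂ)⁻¹ • ∑ i, θ i (ψ i x)‖ ≤ δ)
    (h2 : ‖star x * x - (N : ℂ)⁻¹ • ∑ i, θ i (ψ i (star x * x))‖ ≤ δ) :
    ‖∑ i, star (θ i (ψ i x) - x) * (θ i (ψ i x) - x)‖ ≤ 3 * δ * N := by
  have hNr : (0 : ℝ) < N := by exact_mod_cast hN
  have hNc : (N : ℂ) ≠ 0 := by exact_mod_cast hN.ne'
  set T : A := (N : ℂ)⁻¹ • ∑ i, θ i (ψ i x) with hT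
  set Q : A := (N : ℂ)⁻¹ • ∑ i, θ i (ψ i (star x * x)) with hQ
  have e1 : ∑ i, θ i (ψ i x) = (N : ℂ) • T := by rw [hT, smul_smul, mul_inv_cancel₀ hNc, one_smul]
  have e2 : ∑ i, θ i (ψ i (star x * x)) = (N : ℂ) • Q := by
    rw [hQ, smul_smul, mul_inv_cancel₀ hNc, one_smul]
  clear_value T Q
  have h0 : 0 ≤ ∑ i, star (θ i (ψ i x) - x) * (θ i (ψ i x) - x) :=
    Finset.sum_nonneg fun i _ => star_mul_self_nonneg _
  have h3 : ∑ i, star (θ i (ψ i x) - x) * (θ i (ψ i x) - x) ≤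
      (N : ℂ) • ((Q - star x * x) - (star T - star x) * x - star x * (T - x)) := by
    have e3 : (N : ℂ) • ((Q - star x * x) - (star T - star x) * x - star x * (T - x)) =
        ∑ i, (θ i (ψ i (star x * x)) - star (θ i (ψ i x)) * x - star x * θ i (ψ i x) +
          star x * x) := by
      rw [Finset.sum_add_distrib, Finset.sum_sub_distrib, Finset.sum_sub_distrib, e2,
        ← Finset.sum_mul, ← Finset.mul_sum, ← star_sum, e1, star_smul, Finset.sum_const,
        Finset.card_univ, Fintype.card_fin, ← Nat.cast_smul_eq_nsmul ℂ]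
      simp only [Complex.star_def, Complex.conj_natCast, smul_mul_assoc, mul_smul_comm]
      rw [← smul_sub, ← smul_sub, ← smul_add]
      congr 1
      noncomm_ring
    rw [e3]
    refine Finset.sum_le_sum fun i _ => ?_
    have h4 := theta_psi_schwarz (ψ i) (θ i) (hψ i) (hθ i) x
    have e4 : star (θ i (ψ i x) - x) * (θ i (ψ i x) - x) =
        star (θ i (ψ i x)) * θ i (ψ i x) - star (θ i (ψ i x)) * x - star x * θ i (ψ i x) +
          star x * x := by
      rw [star_sub]; noncomm_ring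
    rw [e4]
    gcongr
  refine (CStarAlgebra.norm_le_norm_of_nonneg_of_le h0 h3).trans ?_
  rw [norm_smul, Complex.norm_natCast]
  have h5 : ‖(Q - star x * x) - (star T - star x) * x - star x * (T - x)‖ ≤ δ + δ * 1 + 1 * δ := by
    have hδ : 0 ≤ δ := (norm_nonneg _).trans h1
    refine (norm_sub_le _ _).trans (add_le_add ((norm_sub_le _ _).trans (add_le_add ?_ ?_)) ?_)
    · rw [norm_sub_rev]; exact h2
    · rw [← star_sub]
      refine (norm_mul_le _ _).trans (mul_le_mul ?_ hx (norm_nonneg _) hδ)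
      rw [norm_star, norm_sub_rev]; exact h1
    · refine (norm_mul_le _ _).trans (mul_le_mul ?_ ?_ (norm_nonneg _) zero_le_one)
      · rw [norm_star]; exact hx
      · rw [norm_sub_rev]; exact h1
  calc (N : ℝ) * _ ≤ N * (δ + δ * 1 + 1 * δ) := by gcongr
    _ = _ := by ring

end loc

theorem thetaQ_lt : 0 < (1 - thetaQ) / 2 ∧ (1 - thetaQ) / 2 ≤ 1 := by
  unfold thetaQ; constructor <;> norm_num

theorem local_map : ∃ C : ℝ, 0 < C ∧ ∃ ε₀ : ℝ, 0 < ε₀ ∧ ε₀ ≤ 1 ∧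
    ∀ (A : Type u) [NonUnitalCStarAlgebra A] [PartialOrder A] [StarOrderedRing A]
      (H : Type v) [NormedAddCommGroup H] [InnerProductSpace ℂ H] [CompleteSpace H]
      (M : VonNeumannAlgebra H) (ε : ℝ) (φ : A → H →L[ℂ] H), IsDecNuclear A →
      (∀ a, φ a ∈ M) → IsEpsHom ε φ → ε ≤ ε₀ → ∀ (X : Finset A) (η : ℝ), 0 < η →
      ∃ L : A →ₗ[ℂ] (H →L[ℂ] H), (∀ a, L a ∈ M) ∧ (∀ a, ‖L a‖ ≤ ‖a‖) ∧
        (∀ a, L (star a) = star (L a)) ∧ SP (fun a => L a) ∧
        ∀ x ∈ X, ‖x‖ ≤ 1 → ‖L x - φ x‖ ≤ C * Real.sqrt (ε + η) := by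
  classical
  obtain ⟨Cg, hCg, hg⟩ := gap.{u, v}
  obtain ⟨Cp, hCp, εp, hεp, hp⟩ := piece.{u, v}
  set g : ℝ := (1 - thetaQ) / 2 with hgdef
  have hg0 : 0 < g := thetaQ_lt.1
  have hg1 : g ≤ 1 := thetaQ_lt.2
  refine ⟨Cp + Real.sqrt (432 / g + 104), by positivity, min (min 1 εp) (g / Cg), by positivity,
    (min_le_left _ _).trans (min_le_left _ _), ?_⟩
  intro A _ _ _ H _ _ _ M ε φ hA hM h hε X η hη
  have hε1 : ε ≤ 1 := hε.trans ((min_le_left _ _).trans (min_le_left _ _))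
  have hεp : ε ≤ εp := hε.trans ((min_le_left _ _).trans (min_le_right _ _))
  have hεg : Cg * ε ≤ g := by
    have := hε.trans (min_le_right _ _)
    rw [le_div_iff₀ hCg] at this
    linarith
  have hε0 := h.eps_nonneg
  have hL : Lev φ (1 / 16) (1 - g) := by
    intro ι _ _ b hb0 hb1 hb ξ hξ
    have h1 := hg A H ε φ hA h ι b hb0 hb1 (by linarith) ξ hξ
    refine h1.trans ?_
    have : thetaQ + Cg * ε ≤ 1 - g := by rw [hgdef] at hεg ⊢; linarith
    gcongr
  obtain ⟨δ, hδ, hLev⟩ := null_lev h hε1 (1 - g) (by linarith) (by linarith) hL η hη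
  rw [show 1 - (1 - g) = g by ring] at hLev
  obtain ⟨N, n, k, ψ, θ, hN, hψ, hθ, happ⟩ := hA (X ∪ X.image (fun x => star x * x)) δ hδ
  choose π c hπM hcM hc1 hπc using fun i => hp (n i) (k i) A H M ε φ (θ i) hM h hεp (hθ i)
  have hNr : (0 : ℝ) < N := by exact_mod_cast hN
  have hNc : (N : ℂ) ≠ 0 := by exact_mod_cast hN.ne'
  have hNn : ‖((N : ℂ)⁻¹)‖ = (N : ℝ)⁻¹ := by simp
  have hMstar : ∀ i, star (c i) ∈ M := fun i => star_mem (hcM i)
  have hnorm : ∀ i a, ‖c i * π i (ψ i a) * star (c i)‖ ≤ ‖a‖ := by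
    intro i a
    have h1 : ‖π i (ψ i a)‖ ≤ ‖a‖ := (NonUnitalStarAlgHom.norm_apply_le (π i) _).trans (hψ i a)
    have h2 : ‖star (c i)‖ ≤ 1 := by rw [norm_star]; exact hc1 i
    have h3 : ‖c i * π i (ψ i a)‖ ≤ 1 * ‖a‖ :=
      (norm_mul_le _ _).trans (mul_le_mul (hc1 i) h1 (norm_nonneg _) zero_le_one)
    have h4 : ‖c i * π i (ψ i a) * star (c i)‖ ≤ (1 * ‖a‖) * 1 :=
      (norm_mul_le _ _).trans (mul_le_mul h3 h2 (norm_nonneg _) ((norm_nonneg _).trans h3))
    linarith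
  refine ⟨{ toFun := fun a => (N : ℂ)⁻¹ • ∑ i, c i * π i (ψ i a) * star (c i)
            map_add' := fun a b => ?_
            map_smul' := fun z a => ?_ }, ?_, ?_, ?_, ?_, ?_⟩
  · simp only [map_add, mul_add, add_mul, Finset.sum_add_distrib, smul_add]
  · simp only [map_smul, mul_smul_comm, smul_mul_assoc, RingHom.id_apply]
    rw [← Finset.smul_sum, smul_comm]
  · intro a
    have h1 : ∑ i, c i * π i (ψ i a) * star (c i) ∈ M :=
      sum_mem fun i _ => mul_mem (mul_mem (hcM i) (hπM i _)) (hMstar i)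
    exact M.toStarSubalgebra.smul_mem h1 _
  · intro a
    change ‖(N : ℂ)⁻¹ • ∑ i, c i * π i (ψ i a) * star (c i)‖ ≤ ‖a‖
    rw [norm_smul, hNn]
    have h1 : ‖∑ i, c i * π i (ψ i a) * star (c i)‖ ≤ N * ‖a‖ := by
      refine (norm_sum_le _ _).trans ?_
      refine (Finset.sum_le_card_nsmul _ _ _ (fun i _ => hnorm i a)).trans ?_
      simp
    calc (N : ℝ)⁻¹ * _ ≤ (N : ℝ)⁻¹ * (N * ‖a‖) := by gcongr
      _ = ‖a‖ := by field_simp
  · intro a
    change (N : ℂ)⁻¹ • ∑ i, c i * π i (ψ i (star a)) * star (c i) =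
      star ((N : ℂ)⁻¹ • ∑ i, c i * π i (ψ i a) * star (c i))
    rw [star_smul, star_sum]
    congr 1
    · simp
    · refine Finset.sum_congr rfl fun i _ => ?_
      rw [star_mul, star_mul, star_star, cp_star (ψ i), map_star, mul_assoc]
  · change SP (fun a => (N : ℂ)⁻¹ • ∑ i, c i * π i (ψ i a) * star (c i))
    refine sp_avg hN (fun i a => c i * π i (ψ i a) * star (c i)) fun i => ?_
    refine sp_conj (fun a => π i (ψ i a)) ?_ (c i) (hc1 i)
    have h1 := sp_cp (compCP (π i) (ψ i)) (fun a =>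
      (NonUnitalStarAlgHom.norm_apply_le (π i) _).trans (hψ i a))
    exact h1
  · intro x hxX hx
    change ‖(N : ℂ)⁻¹ • ∑ i, c i * π i (ψ i x) * star (c i) - φ x‖ ≤ _
    have a1 := happ x (by simp [hxX])
    have a2 := happ (star x * x) (by
      simp only [Finset.mem_union, Finset.mem_image]
      exact Or.inr ⟨x, hxX, rfl⟩)
    have b1 := sum_sq_le hN ψ θ hψ (fun i => (hθ i).contr) δ x hx a1 a2
    have : Nonempty (Fin N) := ⟨⟨0, hN⟩⟩
    have b2 := lin_approx h hε1 δ _ hLev (Fin N) (fun i => θ i (ψ i x))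
      (fun i => ((hθ i).contr _).trans ((hψ i x).trans hx)) x hx (by
        rw [Fintype.card_fin]
        refine b1.trans ?_
        gcongr
        norm_num)
    rw [Fintype.card_fin] at b2
    have b3 : ‖∑ i, (c i * π i (ψ i x) * star (c i) - φ (θ i (ψ i x)))‖ ≤ N * (Cp * ε) := by
      refine (norm_sum_le _ _).trans ?_
      refine (Finset.sum_le_card_nsmul _ _ _ (fun i _ => hπc i (ψ i x) ((hψ i x).trans hx))).trans ?_
      simp
    have e1 : (N : ℂ)⁻¹ • ∑ i, c i * π i (ψ i x) * star (c i) - φ x =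
        (N : ℂ)⁻¹ • (∑ i, (c i * π i (ψ i x) * star (c i) - φ (θ i (ψ i x))) +
          ∑ i, (φ (θ i (ψ i x)) - φ x)) := by
      rw [← Finset.sum_add_distrib]
      simp only [sub_add_sub_cancel]
      rw [Finset.sum_sub_distrib, Finset.sum_const, Finset.card_univ, Fintype.card_fin, smul_sub,
        ← Nat.cast_smul_eq_nsmul ℂ, smul_smul, inv_mul_cancel₀ hNc, one_smul]
    rw [e1, norm_smul, hNn]
    have b4 : Real.sqrt (4 * (108 / g * ε + η) + 104 * ε) ≤
        Real.sqrt (432 / g + 104) * Real.sqrt (ε + η) := by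
      rw [← Real.sqrt_mul (by positivity)]
      apply Real.sqrt_le_sqrt
      have : 0 ≤ 432 / g * η := by positivity
      have e2 : 4 * (108 / g * ε + η) + 104 * ε = 432 / g * ε + 4 * η + 104 * ε := by ring
      rw [e2]
      nlinarith
    have b5 : ε ≤ Real.sqrt (ε + η) := by
      apply Real.le_sqrt_of_sq_le
      nlinarith
    calc (N : ℝ)⁻¹ * ‖_ + _‖ ≤ (N : ℝ)⁻¹ * (N * (Cp * ε) +
          N * Real.sqrt (4 * (108 / g * ε + η) + 104 * ε)) := by
          gcongr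
          exact (norm_add_le _ _).trans (add_le_add b3 b2)
      _ = Cp * ε + Real.sqrt (4 * (108 / g * ε + η) + 104 * ε) := by field_simp
      _ ≤ Cp * Real.sqrt (ε + η) + Real.sqrt (432 / g + 104) * Real.sqrt (ε + η) := by gcongr
      _ = _ := by ring

end Pool.Agent.H253.US
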