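import Pool.Agent.H253.US.Straighten
import Pool.Agent.H253.US.Limit

/-!
# Ulam stability of nuclear C*-algebras with respect to von Neumann algebras
-/

set_option autoImplicit false
set_option linter.unusedSectionVars false
set_option linter.deprecated false

open scoped CStarAlgebra ComplexOrder InnerProductSpace
open Filter Topology

namespace Pool.Agent.H253.US

universe u v w

theorem ulam_dec : ∃ C : ℝ, 0 < C ∧
    ∀ (A : Type u) [NonUnitalCStarAlgebra A] [PartialOrder A] [StarOrderedRing A]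
      (H : Type v) [NormedAddCommGroup H] [InnerProductSpace ℂ H] [CompleteSpace H]
      (M : VonNeumannAlgebra H) (ε : ℝ) (φ : A → H →L[ℂ] H), IsDecNuclear A →
      (∀ a, φ a ∈ M) → IsEpsHom ε φ →
      ∃ ψ : A →⋆ₙₐ[ℂ] (H →L[ℂ] H), (∀ a, ψ a ∈ M) ∧
        ∀ a, ‖a‖ ≤ 1 → ‖φ a - ψ a‖ ≤ C * ε ^ (1 / 4 : ℝ) := by
  obtain ⟨C₁, hC₁, ε₁, hε₁, hε₁1, h₁⟩ := limit_map.{u, v}
  obtain ⟨C₂, hC₂, κ₀, hκ₀, h₂⟩ := straighten.{u, v}
  set c : ℝ := 3 * C₁ + 1 with hc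
  have hc0 : 0 < c := by positivity
  set ε₀ : ℝ := min ε₁ ((κ₀ / c) ^ 2) with hε₀
  have hε₀0 : 0 < ε₀ := by positivity
  refine ⟨C₁ + C₂ * Real.sqrt c + (ε₀ ^ (1 / 4 : ℝ))⁻¹, by positivity, ?_⟩
  intro A _ _ _ H _ _ _ M ε φ hA hM h
  have hε0 := h.eps_nonneg
  by_cases hε : ε ≤ ε₀
  · have hεε₁ : ε ≤ ε₁ := hε.trans (min_le_left _ _)
    have hε1 : ε ≤ 1 := hεε₁.trans hε₁1
    obtain ⟨Ψ, hΨM, hΨn, hΨs, hΨsp, hΨ⟩ := h₁ A H M ε φ hA hM h hεε₁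
    set s : ℝ := Real.sqrt ε with hs
    have hs0 : 0 ≤ s := Real.sqrt_nonneg _
    have hs1 : s ≤ 1 := by rw [hs]; exact Real.sqrt_le_one.mpr hε1
    have hss : s * s = ε := Real.mul_self_sqrt hε0
    have hsκ : c * s ≤ κ₀ := by
      have h3 : s ≤ κ₀ / c := by
        rw [hs]
        exact Real.sqrt_le_iff.mpr ⟨by positivity, hε.trans (min_le_right _ _)⟩
      rw [le_div_iff₀ hc0] at h3
      linarith
    have hmul : ∀ a b, ‖a‖ ≤ 1 → ‖b‖ ≤ 1 → ‖Ψ (a * b) - Ψ a * Ψ b‖ ≤ c * s := by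
      intro a b ha hb
      have hab : ‖a * b‖ ≤ 1 := (norm_mul_le _ _).trans (mul_le_one₀ ha (norm_nonneg _) hb)
      have e1 : Ψ (a * b) - Ψ a * Ψ b = (Ψ (a * b) - φ (a * b)) + (φ (a * b) - φ a * φ b) -
          ((Ψ a - φ a) * φ b + Ψ a * (Ψ b - φ b)) := by noncomm_ring
      rw [e1]
      have t1 := hΨ (a * b) hab
      have t2 := h.mul a b ha hb
      have t3 : ‖(Ψ a - φ a) * φ b‖ ≤ (C₁ * s) * 1 :=
        (norm_mul_le _ _).trans (mul_le_mul (hΨ a ha) (h.contr b hb) (norm_nonneg _)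
          (by positivity))
      have t4 : ‖Ψ a * (Ψ b - φ b)‖ ≤ 1 * (C₁ * s) :=
        (norm_mul_le _ _).trans (mul_le_mul ((hΨn a).trans ha) (hΨ b hb) (norm_nonneg _)
          zero_le_one)
      have t5 : ε ≤ s := by nlinarith
      calc _ ≤ (C₁ * s + ε) + ((C₁ * s) * 1 + 1 * (C₁ * s)) :=
            (norm_sub_le _ _).trans (add_le_add ((norm_add_le _ _).trans (add_le_add t1 t2))
              ((norm_add_le _ _).trans (add_le_add t3 t4)))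
        _ ≤ c * s := by rw [hc]; nlinarith
    obtain ⟨ψ, hψM, hψ⟩ := h₂ A H M Ψ (c * s) hA hΨM hΨs hΨsp hsκ hmul
    refine ⟨ψ, hψM, fun a ha => ?_⟩
    have e2 : φ a - ψ a = -((Ψ a - φ a) + (ψ a - Ψ a)) := by abel
    rw [e2, norm_neg]
    have q1 : s ≤ ε ^ (1 / 4 : ℝ) := by
      rw [hs, Real.sqrt_eq_rpow]
      by_cases h0 : ε = 0
      · rw [h0]; simp
      exact Real.rpow_le_rpow_of_exponent_ge (lt_of_le_of_ne hε0 (Ne.symm h0)) hε1 (by norm_num)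
    have q2 : Real.sqrt (c * s) = Real.sqrt c * ε ^ (1 / 4 : ℝ) := by
      rw [Real.sqrt_mul hc0.le, hs, Real.sqrt_eq_rpow, Real.sqrt_eq_rpow, Real.sqrt_eq_rpow,
        ← Real.rpow_mul hε0]
      norm_num
    have q3 : 0 ≤ ε ^ (1 / 4 : ℝ) := Real.rpow_nonneg hε0 _
    have q4 : 0 ≤ (ε₀ ^ (1 / 4 : ℝ))⁻¹ * ε ^ (1 / 4 : ℝ) := by positivity
    calc _ ≤ C₁ * s + C₂ * Real.sqrt (c * s) :=
          (norm_add_le _ _).trans (add_le_add (hΨ a ha) (hψ a ha))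
      _ ≤ C₁ * ε ^ (1 / 4 : ℝ) + C₂ * (Real.sqrt c * ε ^ (1 / 4 : ℝ)) := by
          rw [q2]; gcongr
      _ ≤ _ := by nlinarith
  · push Not at hε
    refine ⟨0, fun a => by simpa using M.toStarSubalgebra.zero_mem, fun a ha => ?_⟩
    have h3 := h.contr a ha
    have h4 : φ a - (0 : A →⋆ₙₐ[ℂ] (H →L[ℂ] H)) a = φ a := by simp
    rw [h4]
    have h5 : 1 ≤ (ε₀ ^ (1 / 4 : ℝ))⁻¹ * ε ^ (1 / 4 : ℝ) := by
      rw [inv_mul_eq_div, one_le_div (by positivity)]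
      exact Real.rpow_le_rpow hε₀0.le hε.le (by norm_num)
    have q3 : 0 ≤ ε ^ (1 / 4 : ℝ) := Real.rpow_nonneg hε0 _
    have q5 : 0 ≤ (C₁ + C₂ * Real.sqrt c) * ε ^ (1 / 4 : ℝ) := by positivity
    calc _ ≤ 1 := h3
      _ ≤ _ := h5
      _ ≤ _ := by nlinarith

end Pool.Agent.H253.US
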