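import Pool.Agent.H253.US.Core

set_option autoImplicit false
set_option linter.unusedSectionVars false
set_option linter.deprecated false

open scoped CStarAlgebra ComplexOrder InnerProductSpace

namespace Pool.Agent.H253.US

universe u v w

section null

variable {A : Type u} [NonUnitalCStarAlgebra A] [PartialOrder A] [StarOrderedRing A]
variable {H : Type v} [NormedAddCommGroup H] [InnerProductSpace ℂ H] [CompleteSpace H]
variable {ε : ℝ} {φ : A → H →L[ℂ] H}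

/-- `M` bounds the averages of `Fq φ ξ (b i)` over all families with average of norm at most
`δ`. -/
def Lev (φ : A → H →L[ℂ] H) (δ M : ℝ) : Prop :=
  ∀ (ι : Type) [Fintype ι] [Nonempty ι] (b : ι → A), (∀ i, 0 ≤ b i) → (∀ i, ‖b i‖ ≤ 1) →
    ‖∑ i, b i‖ ≤ δ * Fintype.card ι → ∀ ξ : H, ‖ξ‖ = 1 →
    ∑ i, Fq φ ξ (b i) ≤ Fintype.card ι * M

theorem two_sub_sq (b : A) (hb0 : 0 ≤ b) (hb : ‖b‖ ≤ 1) :
    0 ≤ b + (b - b * b) ∧ ‖b + (b - b * b)‖ ≤ 1 ∧ b + (b - b * b) ≤ b + b := by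
  have hsa : IsSelfAdjoint b := IsSelfAdjoint.of_nonneg hb0
  have h1 := mul_self_le_self b hb0 hb
  have hbb : 0 ≤ b * b := by
    have := star_mul_self_nonneg b
    rwa [hsa.star_eq] at this
  refine ⟨add_nonneg hb0 (sub_nonneg.mpr h1), ?_, by gcongr; exact sub_le_self b hbb⟩
  have e : b + (b - b * b) = cfcₙ (fun t : ℝ => t + (t - t * t)) b := by
    rw [cfcₙ_add (fun t : ℝ => t) (fun t : ℝ => t - t * t) b (by fun_prop) (by simp) (by fun_prop)
      (by simp), cfcₙ_sub (fun t : ℝ => t) (fun t : ℝ => t * t) b (by fun_prop) (by simp)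
      (by fun_prop) (by simp), cfcₙ_mul (fun t : ℝ => t) (fun t : ℝ => t) b (by fun_prop) (by simp)
      (by fun_prop) (by simp), cfcₙ_id' ℝ b]
  rw [e]
  apply norm_cfcₙ_le
  intro x hx
  have hx0 := quasispectrum_nonneg_of_nonneg b hb0 x hx
  have hx1 : ‖x‖ ≤ ‖b‖ :=
    NonUnitalIsometricContinuousFunctionalCalculus.norm_quasispectrum_le b hx hsa
  rw [Real.norm_eq_abs, abs_of_nonneg hx0] at hx1
  rw [Real.norm_eq_abs, abs_le]
  constructor <;> nlinarith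

theorem core_ineq (h : IsEpsHom ε φ) (n : ℕ) (hn : 2 ≤ n) (δ M₁ M₂ : ℝ) (hδ : 0 ≤ δ)
    (hM₁0 : 0 ≤ M₁) (hM₁ : Lev φ δ M₁) (hM₂ : Lev φ (n * δ) M₂) (ι : Type) [Fintype ι]
    [Nonempty ι] (b : ι → A) (hb0 : ∀ i, 0 ≤ b i) (hb : ∀ i, ‖b i‖ ≤ 1)
    (hsum : ‖∑ i, b i‖ ≤ δ * Fintype.card ι) (ξ : H) (hξ : ‖ξ‖ = 1) (m : ℝ)
    (hm : ∑ i, Fq φ ξ (b i) = Fintype.card ι * m) :
    4 * m ≤ (M₁ + 5 * ε) ^ 2 + 3 * M₂ + 4 * Real.sqrt (1 / n) + 73 * ε := by
  have hε := h.eps_nonneg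
  have hn0 : 0 < n := by omega
  set N : ℝ := (Fintype.card ι : ℝ) with hN
  have hNpos : 0 < N := by
    rw [hN]; exact_mod_cast Fintype.card_pos
  set r : ℝ := Real.sqrt (1 / n) with hr
  have hr0 : 0 ≤ r := Real.sqrt_nonneg _
  have hbs : ∀ i, star (b i) = b i := fun i => IsSelfAdjoint.of_nonneg (hb0 i)
  -- (α)
  have hα : N * (2 * m - M₂ - 5 * ε) ≤ ∑ i, ‖φ (b i) ξ‖ ^ 2 := by
    have hy := hM₂ ι (fun i => b i + (b i - b i * b i)) (fun i => (two_sub_sq (b i) (hb0 i) (hb i)).1)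
      (fun i => (two_sub_sq (b i) (hb0 i) (hb i)).2.1) (by
        have h1 : ∑ i, (b i + (b i - b i * b i)) ≤ (2 : ℝ) • ∑ i, b i := by
          rw [Finset.smul_sum]
          refine Finset.sum_le_sum fun i _ => ?_
          rw [two_smul]
          exact (two_sub_sq (b i) (hb0 i) (hb i)).2.2
        have h0 : 0 ≤ ∑ i, (b i + (b i - b i * b i)) :=
          Finset.sum_nonneg fun i _ => (two_sub_sq (b i) (hb0 i) (hb i)).1
        refine (CStarAlgebra.norm_le_norm_of_nonneg_of_le h0 h1).trans ?_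
        rw [norm_smul, Real.norm_eq_abs, abs_of_pos (by norm_num : (0:ℝ) < 2)]
        have h2 : (2 : ℝ) ≤ n := by exact_mod_cast hn
        calc 2 * ‖∑ i, b i‖ ≤ 2 * (δ * N) := by gcongr
          _ ≤ n * (δ * N) := by gcongr
          _ = n * δ * N := by ring) ξ hξ
    have h1 : ∀ i, 2 * Fq φ ξ (b i) - Fq φ ξ (b i + (b i - b i * b i)) - 5 * ε ≤
        ‖φ (b i) ξ‖ ^ 2 := by
      intro i
      have hbb : 0 ≤ b i * b i := by
        have := star_mul_self_nonneg (b i)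
        rwa [hbs i] at this
      have hbb1 : ‖b i * b i‖ ≤ 1 :=
        (norm_mul_le _ _).trans (mul_le_one₀ (hb i) (norm_nonneg _) (hb i))
      have hd0 : 0 ≤ b i - b i * b i := sub_nonneg.mpr (mul_self_le_self _ (hb0 i) (hb i))
      have hd1 : ‖b i - b i * b i‖ ≤ 1 :=
        (CStarAlgebra.norm_le_norm_of_nonneg_of_le hd0 (sub_le_self _ hbb)).trans (hb i)
      have e1 := abs_le.mp (norm_sq_Fq h (b i) (hb i) ξ hξ)
      rw [hbs i] at e1
      have e2 := abs_le.mp (Fq_add h (b i) (b i - b i * b i) (hb i) hd1 ξ hξ)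
      have e3 := abs_le.mp (Fq_sub h (b i) (b i * b i) (hb i) hbb1 ξ hξ)
      linarith
    have h2 := Finset.sum_le_sum (fun i (_ : i ∈ Finset.univ) => h1 i)
    rw [Finset.sum_sub_distrib, Finset.sum_sub_distrib, ← Finset.mul_sum, hm] at h2
    simp only [Finset.sum_const, Finset.card_univ, nsmul_eq_mul] at h2
    rw [← hN] at h2
    linarith
  -- (β)
  have hun := fun (p : ι × ι) => union_exists n hn0 (b p.1) (b p.2) (hb0 p.1) (hb p.1) (hb0 p.2)
    (hb p.2)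
  choose u hu0 hu1 hule hun1 hun2 using hun
  have hcard : (Fintype.card (ι × ι) : ℝ) = N * N := by
    rw [Fintype.card_prod]; push_cast; rfl
  have hβ1 : ∑ p, Fq φ ξ (u p) ≤ N * N * M₂ := by
    have := hM₂ (ι × ι) u hu0 hu1 (by
      have h1 : ∑ p, u p ≤ ((n : ℝ) * N) • ∑ i, b i := by
        refine (Finset.sum_le_sum fun p _ => hule p).trans (le_of_eq ?_)
        rw [← Finset.smul_sum, Fintype.sum_prod_type]
        simp only [Finset.sum_add_distrib, Finset.sum_const, Finset.card_univ]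
        rw [← Finset.smul_sum, ← Nat.cast_smul_eq_nsmul ℝ, ← hN, ← two_smul ℝ (N • ∑ i, b i),
          smul_smul, smul_smul]
        congr 1
        ring
      have h0 : 0 ≤ ∑ p, u p := Finset.sum_nonneg fun p _ => hu0 p
      refine (CStarAlgebra.norm_le_norm_of_nonneg_of_le h0 h1).trans ?_
      rw [norm_smul, Real.norm_eq_abs, abs_of_nonneg (by positivity), hcard]
      calc (n : ℝ) * N * ‖∑ i, b i‖ ≤ (n : ℝ) * N * (δ * N) := by gcongr
        _ = n * δ * (N * N) := by ring) ξ hξ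
    rwa [hcard] at this
  have hβ2 : ∀ p : ι × ι, ‖φ (b p.1) ξ - φ (b p.2) ξ‖ ^ 2 ≤
      4 * Fq φ ξ (u p) - 2 * Fq φ ξ (b p.1) - 2 * Fq φ ξ (b p.2) + 4 * (2 * r + 34 * ε) := by
    intro p
    have hs1 : ‖b p.1 - u p * b p.1‖ ≤ r := Real.le_sqrt_of_sq_le (hun1 p)
    have hs2 : ‖b p.2 - u p * b p.2‖ ≤ r := Real.le_sqrt_of_sq_le (hun2 p)
    have e1 := dist_union h (b p.1) (u p) (hb0 _) (hb _) (hu0 p) (hu1 p) r hs1 ξ hξ
    have e2 := dist_union h (b p.2) (u p) (hb0 _) (hb _) (hu0 p) (hu1 p) r hs2 ξ hξ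
    have e3 : ‖φ (b p.1) ξ - φ (b p.2) ξ‖ ≤
        ‖φ (b p.1) ξ - φ (u p) ξ‖ + ‖φ (b p.2) ξ - φ (u p) ξ‖ := by
      have : φ (b p.1) ξ - φ (b p.2) ξ =
        (φ (b p.1) ξ - φ (u p) ξ) - (φ (b p.2) ξ - φ (u p) ξ) := by abel
      rw [this]
      exact norm_sub_le _ _
    have e4 : ‖φ (b p.1) ξ - φ (b p.2) ξ‖ ^ 2 ≤
        (‖φ (b p.1) ξ - φ (u p) ξ‖ + ‖φ (b p.2) ξ - φ (u p) ξ‖) ^ 2 := by
      gcongr
    nlinarith [sq_nonneg (‖φ (b p.1) ξ - φ (u p) ξ‖ - ‖φ (b p.2) ξ - φ (u p) ξ‖)]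
  have hβ3 : ∑ i, ∑ j, ‖φ (b i) ξ - φ (b j) ξ‖ ^ 2 ≤
      4 * (N * N * M₂) - 4 * (N * (N * m)) + N * N * (4 * (2 * r + 34 * ε)) := by
    rw [← Fintype.sum_prod_type']
    refine (Finset.sum_le_sum fun p _ => hβ2 p).trans ?_
    have e1 : ∑ p : ι × ι, Fq φ ξ (b p.1) = N * (N * m) := by
      rw [Fintype.sum_prod_type]
      simp only [Finset.sum_const, Finset.card_univ, nsmul_eq_mul]
      rw [← Finset.mul_sum, hm]
    have e2 : ∑ p : ι × ι, Fq φ ξ (b p.2) = N * (N * m) := by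
      rw [Fintype.sum_prod_type]
      simp only [Finset.sum_const, Finset.card_univ, nsmul_eq_mul]
      rw [hm]
    rw [Finset.sum_add_distrib, Finset.sum_sub_distrib, Finset.sum_sub_distrib, ← Finset.mul_sum,
      ← Finset.mul_sum, ← Finset.mul_sum, e1, e2, Finset.sum_const, Finset.card_univ,
      nsmul_eq_mul, hcard]
    nlinarith
  rw [sum_dist_sq, ← hN] at hβ3
  -- (γ)
  have hγ : ‖∑ i, φ (b i) ξ‖ ≤ N * (M₁ + 5 * ε) := by
    have h1 := norm_sum_phi_le h b hb0 hb M₁ hM₁0 (fun ζ hζ => hM₁ ι b hb0 hb hsum ζ hζ)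
    have h2 : ∑ i, φ (b i) ξ = (∑ i, φ (b i)) ξ := by
      rw [ContinuousLinearMap.sum_apply]
    rw [h2]
    have h3 := (∑ i, φ (b i)).le_opNorm ξ
    rw [hξ, mul_one] at h3
    exact h3.trans h1
  have hγ2 : ‖∑ i, φ (b i) ξ‖ ^ 2 ≤ (N * (M₁ + 5 * ε)) ^ 2 := by gcongr
  have key : N * N * (4 * m) ≤ N * N * ((M₁ + 5 * ε) ^ 2 + 3 * M₂ + 4 * r + 73 * ε) := by
    have h1 : 2 * N * (N * (2 * m - M₂ - 5 * ε)) ≤ 2 * N * ∑ i, ‖φ (b i) ξ‖ ^ 2 := by gcongr
    nlinarith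
  exact le_of_mul_le_mul_left key (by positivity)

theorem lev_mono {δ δ' M M' : ℝ} (hδ : δ' ≤ δ) (hM : M ≤ M') (h : Lev φ δ M) : Lev φ δ' M' := by
  intro ι _ _ b hb0 hb hs ξ hξ
  refine (h ι b hb0 hb (hs.trans (by gcongr)) ξ hξ).trans (by gcongr)

theorem lev_one (h : IsEpsHom ε φ) (δ : ℝ) : Lev φ δ 1 := by
  intro ι _ _ b hb0 hb hs ξ hξ
  have : ∀ i ∈ Finset.univ, Fq φ ξ (b i) ≤ 1 := fun i _ =>
    (le_abs_self _).trans (re_inner_le _ ξ hξ _ (h.contr _ (hb i)))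
  refine (Finset.sum_le_card_nsmul _ _ _ this).trans ?_
  simp

/-- The optimal constant. -/
noncomputable def levInf (φ : A → H →L[ℂ] H) (δ : ℝ) : ℝ := sInf {M | 0 ≤ M ∧ Lev φ δ M}

theorem levInf_nonneg (φ : A → H →L[ℂ] H) (δ : ℝ) : 0 ≤ levInf φ δ :=
  Real.sInf_nonneg fun _ hx => hx.1

theorem levInf_le {δ M : ℝ} (hM : 0 ≤ M) (h : Lev φ δ M) : levInf φ δ ≤ M :=
  csInf_le ⟨0, fun _ hx => hx.1⟩ ⟨hM, h⟩

theorem lev_levInf (h : IsEpsHom ε φ) (δ : ℝ) : Lev φ δ (levInf φ δ) := by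
  intro ι _ _ b hb0 hb hs ξ hξ
  have hN : (0 : ℝ) < Fintype.card ι := by exact_mod_cast Fintype.card_pos
  rw [← div_le_iff₀' hN]
  refine le_csInf ⟨1, zero_le_one, lev_one h δ⟩ ?_
  rintro M ⟨_, hM⟩
  rw [div_le_iff₀' hN]
  exact hM ι b hb0 hb hs ξ hξ

theorem null_lev (h : IsEpsHom ε φ) (hε1 : ε ≤ 1) (θ : ℝ) (hθ0 : 0 ≤ θ) (hθ1 : θ < 1)
    (hgap : Lev φ (1 / 16) θ) (η : ℝ) (hη : 0 < η) :
    ∃ δ : ℝ, 0 < δ ∧ Lev φ δ (108 / (1 - θ) * ε + η) := by
  have hε := h.eps_nonneg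
  have hc : 0 < 1 - θ := by linarith
  -- choose n and K
  obtain ⟨K, hK⟩ := exists_nat_gt (6 / ((1 - θ) * η))
  have hK0 : (0 : ℝ) < K := lt_of_le_of_lt (by positivity) hK
  have hK1 : 3 / (K : ℝ) ≤ (1 - θ) * η / 2 := by
    rw [div_lt_iff₀ (by positivity)] at hK
    rw [div_le_iff₀ hK0]
    linarith
  obtain ⟨n, hn⟩ := exists_nat_gt (max 2 ((8 / ((1 - θ) * η)) ^ 2))
  have hn2 : 2 ≤ n := by
    have : (2 : ℝ) < n := lt_of_le_of_lt (le_max_left _ _) hn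
    have : 2 < n := by exact_mod_cast this
    omega
  have hn0 : (0 : ℝ) < n := by exact_mod_cast (by omega : 0 < n)
  have hn1 : 4 * Real.sqrt (1 / n) ≤ (1 - θ) * η / 2 := by
    have h1 : (8 / ((1 - θ) * η)) ^ 2 < n := lt_of_le_of_lt (le_max_right _ _) hn
    have h2 : Real.sqrt (1 / n) ≤ (1 - θ) * η / 8 := by
      apply Real.sqrt_le_iff.mpr
      refine ⟨by positivity, ?_⟩
      rw [div_le_iff₀ hn0]
      have h3 : ((1 - θ) * η / 8) ^ 2 * (8 / ((1 - θ) * η)) ^ 2 = 1 := by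
        rw [← mul_pow]
        have : (1 - θ) * η / 8 * (8 / ((1 - θ) * η)) = 1 := by
          have : (1 - θ) * η ≠ 0 := by positivity
          field_simp
        rw [this, one_pow]
      calc (1 : ℝ) = ((1 - θ) * η / 8) ^ 2 * (8 / ((1 - θ) * η)) ^ 2 := h3.symm
        _ ≤ ((1 - θ) * η / 8) ^ 2 * n := by gcongr
    linarith
  set a : ℕ → ℝ := fun k => levInf φ ((1 / 16) * ((n : ℝ)⁻¹) ^ k) with ha
  have ha0 : ∀ k, 0 ≤ a k := fun k => levInf_nonneg _ _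
  have ha1 : a 0 ≤ θ := by
    simp only [ha]
    apply levInf_le hθ0
    simpa using hgap
  have hanti : ∀ k, a (k + 1) ≤ a k := by
    intro k
    simp only [ha]
    apply levInf_le (levInf_nonneg _ _)
    refine lev_mono ?_ le_rfl (lev_levInf h _)
    rw [pow_succ]
    have : (n : ℝ)⁻¹ ≤ 1 := inv_le_one_of_one_le₀ (by exact_mod_cast (by omega : 1 ≤ n))
    have h2 : 0 ≤ ((n : ℝ)⁻¹) ^ k := by positivity
    nlinarith
  have hant : Antitone a := antitone_nat_of_succ_le hanti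
  -- pigeonhole
  have hpig : ∃ k < K, a k - a (k + 1) ≤ 1 / K := by
    by_contra hcon
    push Not at hcon
    have h1 : ∑ k ∈ Finset.range K, (1 / (K : ℝ)) < ∑ k ∈ Finset.range K, (a k - a (k + 1)) := by
      apply Finset.sum_lt_sum_of_nonempty
      · rw [Finset.nonempty_range_iff]
        intro h0
        rw [h0] at hK0
        simp at hK0
      · intro k hk
        exact hcon k (Finset.mem_range.mp hk)
    rw [Finset.sum_range_sub', Finset.sum_const, Finset.card_range, nsmul_eq_mul] at h1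
    have h2 : (K : ℝ) * (1 / K) = 1 := by field_simp
    have := ha0 K
    linarith
  obtain ⟨k, hkK, hk⟩ := hpig
  -- bound for a (k+1)
  have hM : a (k + 1) ≤ 108 / (1 - θ) * ε + η := by
    rcases (ha0 (k + 1)).eq_or_lt with h0 | hpos
    · rw [← h0]; positivity
    have hkey : 4 * a (k + 1) ≤ (a (k + 1) + 5 * ε) ^ 2 + 3 * a k + 4 * Real.sqrt (1 / n) +
        73 * ε := by
      apply le_of_forall_pos_le_add
      intro τ hτ
      -- a family with average above a (k+1) - τ / 4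
      set M' : ℝ := max 0 (a (k + 1) - τ / 4) with hM'
      have hM'lt : M' < a (k + 1) := max_lt hpos (by linarith)
      have hnot : ¬ Lev φ ((1 / 16) * ((n : ℝ)⁻¹) ^ (k + 1)) M' := by
        intro hL
        have := levInf_le (le_max_left _ _) hL
        simp only [ha] at hM'lt
        linarith
      unfold Lev at hnot
      push Not at hnot
      obtain ⟨ι, _, _, b, hb0, hb, hs, ξ, hξ, hlt⟩ := hnot
      have hN : (0 : ℝ) < Fintype.card ι := by exact_mod_cast Fintype.card_pos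
      have hmul : (n : ℝ) * ((1 / 16) * ((n : ℝ)⁻¹) ^ (k + 1)) = (1 / 16) * ((n : ℝ)⁻¹) ^ k := by
        rw [pow_succ]
        field_simp
      have := core_ineq h n hn2 ((1 / 16) * ((n : ℝ)⁻¹) ^ (k + 1)) (a (k + 1)) (a k)
        (by positivity) (ha0 _) (lev_levInf h _) (by rw [hmul]; exact lev_levInf h _) ι b hb0 hb hs
        ξ hξ ((∑ i, Fq φ ξ (b i)) / Fintype.card ι) (by field_simp)
      have h5 : M' < (∑ i, Fq φ ξ (b i)) / Fintype.card ι := by
        rw [lt_div_iff₀' hN]; exact hlt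
      have h6 : a (k + 1) - τ / 4 ≤ M' := le_max_right _ _
      linarith
    have hle : a (k + 1) ≤ θ := (hant (Nat.zero_le _)).trans ha1
    have h7 : (1 - θ) * a (k + 1) ≤ 3 / K + 4 * Real.sqrt (1 / n) + 108 * ε := by
      have h8 : 3 * (a k - a (k + 1)) ≤ 3 / K := by
        have : 3 * (1 / (K : ℝ)) = 3 / K := by ring
        linarith
      have h9 : a (k + 1) * a (k + 1) ≤ θ * a (k + 1) := by gcongr
      have h10 : (a (k + 1) + 5 * ε) ^ 2 ≤ a (k + 1) * a (k + 1) + 35 * ε := by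
        have : a (k + 1) ≤ 1 := hle.trans hθ1.le
        nlinarith
      nlinarith
    have h11 : (1 - θ) * a (k + 1) ≤ (1 - θ) * (108 / (1 - θ) * ε + η) := by
      have : (1 - θ) * (108 / (1 - θ) * ε + η) = 108 * ε + (1 - θ) * η := by
        field_simp
      rw [this]
      linarith
    exact le_of_mul_le_mul_left h11 hc
  refine ⟨(1 / 16) * ((n : ℝ)⁻¹) ^ (k + 1), by positivity, ?_⟩
  exact lev_mono le_rfl hM (lev_levInf h _)

end null

end Pool.Agent.H253.US
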