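import Mathlib

set_option autoImplicit false

namespace Pool.Agent.H253.US

universe u v w

/-- An approximate self-adjoint idempotent is close to a projection commuting with its commutant. -/
theorem pert_proj {A : Type w} [CStarAlgebra A] (P : A) (hP : star P = P) (δ : ℝ)
    (hδ : δ ≤ 1 / 16) (h : ‖P * P - P‖ ≤ δ) :
    ∃ P' : A, star P' = P' ∧ P' * P' = P' ∧ ‖P' - P‖ ≤ 2 * δ ∧
      ∀ S : A, S * P = P * S → S * P' = P' * S := by
  have hPs : IsSelfAdjoint P := hP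
  set f : ℝ → ℝ := fun t => min 1 (max 0 (2 * t - 1 / 2)) with hf
  have hfc : Continuous f := by rw [hf]; fun_prop
  have hδ0 : 0 ≤ δ := le_trans (norm_nonneg _) h
  have hspec : ∀ t ∈ spectrum ℝ P, |t * t - t| ≤ δ := by
    intro t ht
    have h1 : cfc (fun x : ℝ => x * x - x) P = P * P - P := by
      rw [cfc_sub (fun x : ℝ => x * x) (fun x : ℝ => x) P,
        cfc_mul (fun x : ℝ => x) (fun x : ℝ => x) P, cfc_id' ℝ P]
    have h2 := norm_apply_le_norm_cfc (fun x : ℝ => x * x - x) P ht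
    rw [h1] at h2
    exact le_trans h2 h
  have hcase : ∀ t ∈ spectrum ℝ P, (f t = 0 ∧ |t| ≤ 2 * δ) ∨ (f t = 1 ∧ |1 - t| ≤ 2 * δ) := by
    intro t ht
    have h1 := hspec t ht
    have h2 : |t * t - t| = |t| * |1 - t| := by
      rw [← abs_mul, ← abs_neg]; congr 1; ring
    rw [h2] at h1
    by_cases hh : t < 1 / 2
    · left
      have h3 : (1 : ℝ) / 2 ≤ |1 - t| := by
        rw [abs_of_pos (by linarith)]; linarith
      have h4 : |t| ≤ 2 * δ := by nlinarith [abs_nonneg t]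
      refine ⟨?_, h4⟩
      have h5 : t ≤ 1 / 4 := by
        have := le_abs_self t
        linarith
      simp only [hf]
      rw [max_eq_left (by linarith)]
      exact min_eq_right (by norm_num)
    · right
      have hh' : (1 : ℝ) / 2 ≤ t := not_lt.mp hh
      have h3 : (1 : ℝ) / 2 ≤ |t| := by
        rw [abs_of_pos (by linarith)]; exact hh'
      have h4 : |1 - t| ≤ 2 * δ := by nlinarith [abs_nonneg (1 - t)]
      refine ⟨?_, h4⟩
      have h5 : 3 / 4 ≤ t := by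
        have := le_abs_self (1 - t)
        linarith
      simp only [hf]
      apply min_eq_left
      exact le_trans (by linarith) (le_max_right _ _)
  refine ⟨cfc f P, ?_, ?_, ?_, ?_⟩
  · exact (cfc_predicate f P)
  · rw [← cfc_mul f f P hfc.continuousOn hfc.continuousOn]
    apply cfc_congr
    intro t ht
    rcases hcase t ht with ⟨h1, _⟩ | ⟨h1, _⟩ <;> simp [h1]
  · have h1 : cfc f P - P = cfc (fun x : ℝ => f x - x) P := by
      rw [cfc_sub f (fun x : ℝ => x) P hfc.continuousOn (by fun_prop), cfc_id' ℝ P]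
    rw [h1]
    apply norm_cfc_le (by linarith)
    intro t ht
    rcases hcase t ht with ⟨h1, h2⟩ | ⟨h1, h2⟩
    · rw [h1, zero_sub, norm_neg]; exact h2
    · rw [h1]; exact h2
  · intro S hS
    exact (hPs.commute_cfc (show Commute P S from hS.symm) f).symm

/-- Inverse square roots near the identity. -/
theorem pert_invsqrt {A : Type w} [CStarAlgebra A] (Z : A) (hZ : star Z = Z) (ε : ℝ)
    (hε : ε ≤ 1 / 2) (h : ‖Z - 1‖ ≤ ε) :
    ∃ G : A, star G = G ∧ G * Z * G = 1 ∧ ‖G - 1‖ ≤ 2 * ε ∧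
      ∀ S : A, S * Z = Z * S → S * G = G * S := by
  have hZs : IsSelfAdjoint Z := hZ
  have hε0 : 0 ≤ ε := le_trans (norm_nonneg _) h
  have hspec : ∀ t ∈ spectrum ℝ Z, |t - 1| ≤ ε := by
    intro t ht
    have h1 : cfc (fun x : ℝ => x - 1) Z = Z - 1 := by
      rw [cfc_sub (fun x : ℝ => x) (fun _ : ℝ => 1) Z, cfc_id' ℝ Z, cfc_const_one ℝ Z]
    have h2 := norm_apply_le_norm_cfc (fun x : ℝ => x - 1) Z ht
    rw [h1] at h2
    exact le_trans h2 h
  have hpos : ∀ t ∈ spectrum ℝ Z, 1 / 2 ≤ t := by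
    intro t ht
    have := (abs_le.mp (hspec t ht)).1
    linarith
  set g : ℝ → ℝ := fun t => 1 / Real.sqrt t with hg
  have hgc : ContinuousOn g (spectrum ℝ Z) := by
    intro t ht
    have h1 := hpos t ht
    apply ContinuousAt.continuousWithinAt
    rw [hg]
    apply ContinuousAt.div continuousAt_const Real.continuous_sqrt.continuousAt
    exact (Real.sqrt_pos.mpr (by linarith)).ne'
  refine ⟨cfc g Z, cfc_predicate g Z, ?_, ?_, ?_⟩
  · have h1 : cfc g Z * Z * cfc g Z = cfc (fun x : ℝ => g x * x * g x) Z := by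
      rw [cfc_mul (fun x : ℝ => g x * x) g Z (hgc.mul continuousOn_id) hgc,
        cfc_mul g (fun x : ℝ => x) Z hgc (by fun_prop), cfc_id' ℝ Z]
    rw [h1]
    have h2 : cfc (fun x : ℝ => g x * x * g x) Z = cfc (fun _ : ℝ => (1 : ℝ)) Z := by
      apply cfc_congr
      intro t ht
      have h3 := hpos t ht
      have h4 : 0 < Real.sqrt t := Real.sqrt_pos.mpr (by linarith)
      have h5 : Real.sqrt t * Real.sqrt t = t := Real.mul_self_sqrt (by linarith)
      simp only [hg]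
      field_simp
      nlinarith
    rw [h2, cfc_const_one ℝ Z]
  · have h1 : cfc g Z - 1 = cfc (fun x : ℝ => g x - 1) Z := by
      rw [cfc_sub g (fun _ : ℝ => 1) Z hgc (by fun_prop), cfc_const_one ℝ Z]
    rw [h1]
    apply norm_cfc_le (by linarith)
    intro t ht
    have h3 := hpos t ht
    have h4 : 0 < Real.sqrt t := Real.sqrt_pos.mpr (by linarith)
    have h5 : Real.sqrt t * Real.sqrt t = t := Real.mul_self_sqrt (by linarith)
    have h6 : (1 : ℝ) / 2 ≤ Real.sqrt t := by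
      by_contra hcon
      push Not at hcon
      nlinarith
    have h7 : g t - 1 = (1 - Real.sqrt t) / Real.sqrt t := by
      simp only [hg]; field_simp
    rw [h7, norm_div, Real.norm_eq_abs, Real.norm_eq_abs, abs_of_pos h4, div_le_iff₀ h4]
    have h8 : |1 - Real.sqrt t| ≤ |t - 1| := by
      have h9 : |t - 1| = |1 - Real.sqrt t| * (1 + Real.sqrt t) := by
        rw [← abs_of_pos (show 0 < 1 + Real.sqrt t by linarith), ← abs_mul, ← abs_neg]
        congr 1
        nlinarith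
      rw [h9]
      nlinarith [abs_nonneg (1 - Real.sqrt t)]
    have h10 := hspec t ht
    nlinarith
  · intro S hS
    exact (hZs.commute_cfc (show Commute Z S from hS.symm) g).symm

/-- The C*-algebraic part of the perturbation argument. -/
theorem pert_alg {A : Type w} [CStarAlgebra A] (P P0 : A) (s : ℝ) (hs : s ≤ 1 / 200)
    (hP : star P = P) (hP0 : star P0 = P0) (hPn : ‖P‖ ≤ 1) (hP0n : ‖P0‖ ≤ 1)
    (h1 : ‖P - P0‖ ≤ 2 * s) (h2 : ‖P0 * P0 - P0‖ ≤ s) :
    ∃ P' G : A, star P' = P' ∧ P' * P' = P' ∧ ‖P' - P0‖ ≤ 16 * s ∧ star G = G ∧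
      ‖G - 1‖ ≤ 32 * s ∧ G * P' = P' * G ∧ G * P' * P0 * P' * G = P' ∧
      (∀ S : A, S * P = P * S → S * P' = P' * S) ∧
      (∀ S : A, S * P = P * S → S * P0 = P0 * S → S * G = G * S) := by
  have hs0 : 0 ≤ s := le_trans (norm_nonneg _) h2
  have hPP : ‖P * P - P‖ ≤ 7 * s := by
    have e : P * P - P = P * (P - P0) + (P - P0) * P0 + (P0 * P0 - P0) + (P0 - P) := by
      noncomm_ring
    rw [e]
    have n1 : ‖P * (P - P0)‖ ≤ 2 * s := by
      calc ‖P * (P - P0)‖ ≤ ‖P‖ * ‖P - P0‖ := norm_mul_le _ _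
        _ ≤ 1 * (2 * s) := by gcongr
        _ = 2 * s := one_mul _
    have n2 : ‖(P - P0) * P0‖ ≤ 2 * s := by
      calc ‖(P - P0) * P0‖ ≤ ‖P - P0‖ * ‖P0‖ := norm_mul_le _ _
        _ ≤ (2 * s) * 1 := by gcongr
        _ = 2 * s := mul_one _
    have n3 : ‖P0 - P‖ ≤ 2 * s := by rw [norm_sub_rev]; exact h1
    calc ‖P * (P - P0) + (P - P0) * P0 + (P0 * P0 - P0) + (P0 - P)‖
        ≤ ‖P * (P - P0) + (P - P0) * P0 + (P0 * P0 - P0)‖ + ‖P0 - P‖ := norm_add_le _ _
      _ ≤ ‖P * (P - P0) + (P - P0) * P0‖ + ‖P0 * P0 - P0‖ + ‖P0 - P‖ := by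
          gcongr; exact norm_add_le _ _
      _ ≤ ‖P * (P - P0)‖ + ‖(P - P0) * P0‖ + ‖P0 * P0 - P0‖ + ‖P0 - P‖ := by
          gcongr; exact norm_add_le _ _
      _ ≤ 7 * s := by linarith
  obtain ⟨P', hP's, hP'i, hP'n, hP'c⟩ := pert_proj P hP (7 * s) (by linarith) hPP
  have hP'P0 : ‖P' - P0‖ ≤ 16 * s := by
    calc ‖P' - P0‖ = ‖(P' - P) + (P - P0)‖ := by congr 1; abel
      _ ≤ ‖P' - P‖ + ‖P - P0‖ := norm_add_le _ _
      _ ≤ 16 * s := by linarith
  have hP'n1 : ‖P'‖ ≤ 1 := by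
    have e : ‖P'‖ * ‖P'‖ = ‖P'‖ := by
      rw [← CStarRing.norm_star_mul_self, hP's, hP'i]
    nlinarith [norm_nonneg P']
  set Z : A := P' * P0 * P' + (1 - P') with hZ
  have hZs : star Z = Z := by
    rw [hZ]
    simp only [star_add, star_mul, star_sub, star_one, hP's, hP0, mul_assoc]
  have hZ1 : ‖Z - 1‖ ≤ 16 * s := by
    have e : Z - 1 = P' * (P0 - P') * P' := by
      rw [hZ, mul_sub, sub_mul, hP'i, hP'i]; abel
    rw [e]
    calc ‖P' * (P0 - P') * P'‖ ≤ ‖P' * (P0 - P')‖ * ‖P'‖ := norm_mul_le _ _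
      _ ≤ (‖P'‖ * ‖P0 - P'‖) * ‖P'‖ := by gcongr; exact norm_mul_le _ _
      _ ≤ (1 * (16 * s)) * 1 := by
          have : ‖P0 - P'‖ ≤ 16 * s := by rw [norm_sub_rev]; exact hP'P0
          gcongr
      _ = 16 * s := by ring
  obtain ⟨G, hGs, hGZG, hGn, hGc⟩ := pert_invsqrt Z hZs (16 * s) (by linarith) hZ1
  have hP'Z : P' * Z = P' * P0 * P' := by
    rw [hZ, mul_add, mul_sub, mul_one, hP'i, sub_self, add_zero, ← mul_assoc, ← mul_assoc, hP'i]
  have hZP' : Z * P' = P' * P0 * P' := by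
    rw [hZ, add_mul, sub_mul, one_mul, hP'i, sub_self, add_zero, mul_assoc (P' * P0), hP'i]
  have hGP' : G * P' = P' * G := (hGc P' (by rw [hP'Z, hZP'])).symm
  refine ⟨P', G, hP's, hP'i, hP'P0, hGs, ?_, hGP', ?_, hP'c, ?_⟩
  · linarith
  · have e1 : G * P' * P0 * P' * G = G * (P' * P0 * P') * G := by simp only [mul_assoc]
    rw [e1, ← hZP', mul_assoc, mul_assoc, ← hGP', ← mul_assoc, ← mul_assoc, hGZG, one_mul]
  · intro S hS hS0
    have hSP' := hP'c S hS
    apply hGc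
    rw [hZ, mul_add, add_mul, mul_sub, sub_mul, mul_one, one_mul, hSP']
    congr 1
    calc S * (P' * P0 * P') = (S * P') * P0 * P' := by simp only [mul_assoc]
      _ = P' * (S * P0) * P' := by rw [hSP']; simp only [mul_assoc]
      _ = P' * P0 * (S * P') := by rw [hS0]; simp only [mul_assoc]
      _ = P' * P0 * P' * S := by rw [hSP']; simp only [mul_assoc]

/-- T6b: perturbation of an approximate partial isometry. -/
theorem perturb : ∃ C : ℝ, 0 < C ∧ ∃ s₀ : ℝ, 0 < s₀ ∧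
    ∀ (H : Type v) [NormedAddCommGroup H] [InnerProductSpace ℂ H] [CompleteSpace H]
      (K : Type w) [NormedAddCommGroup K] [InnerProductSpace ℂ K] [CompleteSpace K]
      (V : H →L[ℂ] K) (P : K →L[ℂ] K) (s : ℝ), s ≤ s₀ → ‖V‖ ≤ 1 → star P = P → ‖P‖ ≤ 1 →
      ‖P - V ∘L ContinuousLinearMap.adjoint V‖ ≤ 2 * s →
      ‖V - V ∘L (ContinuousLinearMap.adjoint V ∘L V)‖ ≤ s →
      ∃ W : H →L[ℂ] K, ‖W - V‖ ≤ C * s ∧ ‖W‖ ≤ 1 ∧
        (W ∘L ContinuousLinearMap.adjoint W) * (W ∘L ContinuousLinearMap.adjoint W) =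
          W ∘L ContinuousLinearMap.adjoint W ∧
        (W ∘L ContinuousLinearMap.adjoint W) ∘L W = W ∧
        (∀ S : K →L[ℂ] K, S * P = P * S →
          S * (W ∘L ContinuousLinearMap.adjoint W) = (W ∘L ContinuousLinearMap.adjoint W) * S) ∧
        ∀ (U : unitary (K →L[ℂ] K)) (u : unitary (H →L[ℂ] H)),
          (U : K →L[ℂ] K) ∘L V = V ∘L (u : H →L[ℂ] H) →
          (U : K →L[ℂ] K) * P = P * (U : K →L[ℂ] K) →
          (U : K →L[ℂ] K) ∘L W = W ∘L (u : H →L[ℂ] H) := by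
  refine ⟨49, by norm_num, 1 / 200, by norm_num, ?_⟩
  intro H _ _ _ K _ _ _ V P s hs hV hP hPn h1 h2
  have hs0 : 0 ≤ s := le_trans (norm_nonneg _) h2
  have hVa : ‖ContinuousLinearMap.adjoint V‖ ≤ 1 := by
    rw [LinearIsometryEquiv.norm_map]; exact hV
  set P0 : K →L[ℂ] K := V ∘L ContinuousLinearMap.adjoint V with hP0
  have hP0s : star P0 = P0 := by
    rw [ContinuousLinearMap.star_eq_adjoint, hP0, ContinuousLinearMap.adjoint_comp,
      ContinuousLinearMap.adjoint_adjoint]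
  have hP0n : ‖P0‖ ≤ 1 := by
    calc ‖P0‖ ≤ ‖V‖ * ‖ContinuousLinearMap.adjoint V‖ := ContinuousLinearMap.opNorm_comp_le _ _
      _ ≤ 1 * 1 := by gcongr
      _ = 1 := one_mul _
  have hVP0 : P0 ∘L V = V ∘L (ContinuousLinearMap.adjoint V ∘L V) := by
    rw [hP0, ContinuousLinearMap.comp_assoc]
  have hPP0 : ‖P0 * P0 - P0‖ ≤ s := by
    have e : P0 * P0 - P0 = (P0 ∘L V - V) ∘L ContinuousLinearMap.adjoint V := by
      rw [ContinuousLinearMap.sub_comp, ContinuousLinearMap.comp_assoc, ← hP0]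
      rfl
    rw [e]
    calc ‖(P0 ∘L V - V) ∘L ContinuousLinearMap.adjoint V‖
        ≤ ‖P0 ∘L V - V‖ * ‖ContinuousLinearMap.adjoint V‖ :=
          ContinuousLinearMap.opNorm_comp_le _ _
      _ ≤ s * 1 := by
          have : ‖P0 ∘L V - V‖ ≤ s := by rw [norm_sub_rev, hVP0]; exact h2
          gcongr
      _ = s := mul_one _
  obtain ⟨P', G, hP's, hP'i, hP'P0, hGs, hGn, hGP', hGG, hcP', hcG⟩ :=
    pert_alg P P0 s hs hP hP0s hPn hP0n h1 hPP0
  have hP'n1 : ‖P'‖ ≤ 1 := by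
    have e : ‖P'‖ * ‖P'‖ = ‖P'‖ := by
      rw [← CStarRing.norm_star_mul_self, hP's, hP'i]
    nlinarith [norm_nonneg P']
  set W : H →L[ℂ] K := (G * P') ∘L V with hW
  have hWa : ContinuousLinearMap.adjoint W = ContinuousLinearMap.adjoint V ∘L (P' * G) := by
    rw [hW, ContinuousLinearMap.adjoint_comp, ← ContinuousLinearMap.star_eq_adjoint, star_mul,
      hP's, hGs]
  have hWW : W ∘L ContinuousLinearMap.adjoint W = P' := by
    rw [hWa, hW]
    have e : ((G * P') ∘L V) ∘L (ContinuousLinearMap.adjoint V ∘L (P' * G)) =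
        G * P' * P0 * P' * G := by
      rw [hP0]
      ext x
      rfl
    rw [e, hGG]
  have hWn : ‖W‖ ≤ 1 := by
    have e : ‖W ∘L ContinuousLinearMap.adjoint W‖ =
        ‖ContinuousLinearMap.adjoint W‖ * ‖ContinuousLinearMap.adjoint W‖ := by
      have := ContinuousLinearMap.norm_adjoint_comp_self (ContinuousLinearMap.adjoint W)
      rwa [ContinuousLinearMap.adjoint_adjoint] at this
    rw [hWW, LinearIsometryEquiv.norm_map] at e
    nlinarith [norm_nonneg W]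
  refine ⟨W, ?_, hWn, ?_, ?_, ?_, ?_⟩
  · have e : W - V = (G - 1) ∘L (P' ∘L V) + ((P' - P0) ∘L V + (P0 ∘L V - V)) := by
      rw [hW]
      ext x
      simp
    rw [e]
    have n1 : ‖(G - 1) ∘L (P' ∘L V)‖ ≤ 32 * s := by
      calc ‖(G - 1) ∘L (P' ∘L V)‖ ≤ ‖G - 1‖ * ‖P' ∘L V‖ :=
            ContinuousLinearMap.opNorm_comp_le _ _
        _ ≤ ‖G - 1‖ * (‖P'‖ * ‖V‖) := by
            gcongr; exact ContinuousLinearMap.opNorm_comp_le _ _
        _ ≤ (32 * s) * (1 * 1) := by gcongr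
        _ = 32 * s := by ring
    have n2 : ‖(P' - P0) ∘L V‖ ≤ 16 * s := by
      calc ‖(P' - P0) ∘L V‖ ≤ ‖P' - P0‖ * ‖V‖ := ContinuousLinearMap.opNorm_comp_le _ _
        _ ≤ (16 * s) * 1 := by gcongr
        _ = 16 * s := by ring
    have n3 : ‖P0 ∘L V - V‖ ≤ s := by rw [norm_sub_rev, hVP0]; exact h2
    calc ‖(G - 1) ∘L (P' ∘L V) + ((P' - P0) ∘L V + (P0 ∘L V - V))‖
        ≤ ‖(G - 1) ∘L (P' ∘L V)‖ + ‖(P' - P0) ∘L V + (P0 ∘L V - V)‖ := norm_add_le _ _
      _ ≤ ‖(G - 1) ∘L (P' ∘L V)‖ + (‖(P' - P0) ∘L V‖ + ‖P0 ∘L V - V‖) := by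
          gcongr; exact norm_add_le _ _
      _ ≤ 49 * s := by linarith
  · rw [hWW, hP'i]
  · rw [hWW, hW]
    have e : P' ∘L ((G * P') ∘L V) = (P' * G * P') ∘L V := by
      ext x; rfl
    rw [e, ← hGP', mul_assoc, hP'i]
  · intro S hS
    rw [hWW]
    exact hcP' S hS
  · intro U u hU hUP
    have hUU : star (U : K →L[ℂ] K) * (U : K →L[ℂ] K) = 1 := Unitary.coe_star_mul_self U
    have huu : (u : H →L[ℂ] H) * star (u : H →L[ℂ] H) = 1 := Unitary.coe_mul_star_self u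
    have hUP0 : (U : K →L[ℂ] K) * P0 = P0 * (U : K →L[ℂ] K) := by
      have e1 : (U : K →L[ℂ] K) * P0 * star (U : K →L[ℂ] K) = P0 := by
        have e2 : ContinuousLinearMap.adjoint V ∘L star (U : K →L[ℂ] K) =
            star (u : H →L[ℂ] H) ∘L ContinuousLinearMap.adjoint V := by
          have := congrArg ContinuousLinearMap.adjoint hU
          rw [ContinuousLinearMap.adjoint_comp, ContinuousLinearMap.adjoint_comp] at this
          rw [ContinuousLinearMap.star_eq_adjoint, ContinuousLinearMap.star_eq_adjoint]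
          exact this
        calc (U : K →L[ℂ] K) * P0 * star (U : K →L[ℂ] K)
            = ((U : K →L[ℂ] K) ∘L V) ∘L (ContinuousLinearMap.adjoint V ∘L
                star (U : K →L[ℂ] K)) := by rw [hP0]; ext x; rfl
          _ = (V ∘L (u : H →L[ℂ] H)) ∘L (star (u : H →L[ℂ] H) ∘L
                ContinuousLinearMap.adjoint V) := by rw [hU, e2]
          _ = V ∘L (((u : H →L[ℂ] H) * star (u : H →L[ℂ] H)) ∘L
                ContinuousLinearMap.adjoint V) := by ext x; rfl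
          _ = P0 := by rw [huu, hP0]; ext x; rfl
      calc (U : K →L[ℂ] K) * P0 = (U : K →L[ℂ] K) * P0 * 1 := (mul_one _).symm
        _ = (U : K →L[ℂ] K) * P0 * (star (U : K →L[ℂ] K) * (U : K →L[ℂ] K)) := by rw [hUU]
        _ = ((U : K →L[ℂ] K) * P0 * star (U : K →L[ℂ] K)) * (U : K →L[ℂ] K) := by
            simp only [mul_assoc]
        _ = P0 * (U : K →L[ℂ] K) := by rw [e1]
    have c1 := hcP' (U : K →L[ℂ] K) hUP
    have c2 := hcG (U : K →L[ℂ] K) hUP hUP0
    calc (U : K →L[ℂ] K) ∘L W = ((U : K →L[ℂ] K) * (G * P')) ∘L V := by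
          rw [hW]; ext x; rfl
      _ = ((G * P') * (U : K →L[ℂ] K)) ∘L V := by
          rw [← mul_assoc, c2, mul_assoc, c1, mul_assoc]
      _ = (G * P') ∘L ((U : K →L[ℂ] K) ∘L V) := by ext x; rfl
      _ = W ∘L (u : H →L[ℂ] H) := by rw [hU, hW]; ext x; rfl

end Pool.Agent.H253.US
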