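import Pool.Agent.H253.US.Defs


/-!
# Ulam stability of nuclear C*-algebras (MP_a35bd4_an): definitions and basic facts
-/

set_option autoImplicit false

open scoped CStarAlgebra ComplexOrder

namespace Pool.Agent.H253.US

universe u v w



namespace Sts

open UniformSpace UniformSpace.Completion ContinuousLinearMap

/-- `‖c‖² - c*c` is of the form `d*d` with `d` in the unitization; `x ↦ d x` maps `A` to `A`. -/
theorem exists_d {A : Type u} [NonUnitalCStarAlgebra A] (c : A) :
    ∃ d : A → A, ∀ a b : A, star (d a) * d b =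
      ((‖c‖ ^ 2 : ℝ) : ℂ) • (star a * b) - star (c * a) * (c * b) := by
  let _ := CStarAlgebra.spectralOrder (Unitization ℂ A)
  have hso := CStarAlgebra.spectralOrderedRing (Unitization ℂ A)
  have h1 : star (c : Unitization ℂ A) * (c : Unitization ℂ A) ≤
      algebraMap ℝ (Unitization ℂ A) (‖(c : Unitization ℂ A)‖ ^ 2) :=
    CStarAlgebra.star_mul_le_algebraMap_norm_sq
  obtain ⟨y, hy, -, hyy⟩ :=
    CFC.exists_sqrt_of_isSelfAdjoint_of_quasispectrumRestricts h1.1 h1.2
  rw [Unitization.norm_inr] at hyy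
  have hd : ∀ a : A, (((y.fst • a + y.snd * a : A)) : Unitization ℂ A) = y * (a : Unitization ℂ A) := by
    intro a
    ext <;> simp
  refine ⟨fun a => y.fst • a + y.snd * a, fun a b => ?_⟩
  apply Unitization.inr_injective (R := ℂ)
  rw [Unitization.inr_mul, Unitization.inr_star, hd, hd, star_mul, hy.star_eq]
  have e1 : star (a : Unitization ℂ A) * y * (y * (b : Unitization ℂ A)) =
      star (a : Unitization ℂ A) * (y * y) * (b : Unitization ℂ A) := by
    simp only [mul_assoc]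
  rw [e1, hyy, Unitization.inr_sub, Unitization.inr_smul, Unitization.inr_mul, Unitization.inr_mul,
    Unitization.inr_star, Unitization.inr_star, Unitization.inr_mul, Unitization.inr_mul,
    star_mul, Algebra.algebraMap_eq_smul_one]
  simp only [mul_sub, sub_mul, mul_smul_comm, smul_mul_assoc, mul_one, mul_assoc, Complex.coe_smul]

end Sts

namespace Sts

variable {A : Type u} [NonUnitalCStarAlgebra A] {H : Type v} [NormedAddCommGroup H]
    [InnerProductSpace ℂ H] [CompleteSpace H]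

/-- The data of a completely positive contraction into `B(H)`. -/
structure Dat (A : Type u) [NonUnitalCStarAlgebra A] (H : Type v) [NormedAddCommGroup H]
    [InnerProductSpace ℂ H] [CompleteSpace H] where
  Ψ : A →ₗ[ℂ] (H →L[ℂ] H)
  hstar : ∀ a, Ψ (star a) = star (Ψ a)
  hΨ : ∀ (n : ℕ) (a : Fin n → A) (ξ : Fin n → H), ‖∑ i, Ψ (a i) (ξ i)‖ ^ 2 ≤
      (∑ i, ∑ j, inner ℂ (ξ i) (Ψ (star (a i) * a j) (ξ j))).re

variable (D : Dat A H)

theorem Dat.hΨ' {ι : Type*} (s : Finset ι) (a : ι → A) (ξ : ι → H) :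
    ‖∑ i ∈ s, D.Ψ (a i) (ξ i)‖ ^ 2 ≤
      (∑ i ∈ s, ∑ j ∈ s, inner ℂ (ξ i) (D.Ψ (star (a i) * a j) (ξ j))).re := by
  have h := D.hΨ s.card (fun i => a (s.equivFin.symm i)) (fun i => ξ (s.equivFin.symm i))
  rw [← Finset.sum_coe_sort s (fun i => D.Ψ (a i) (ξ i)), ← Finset.sum_coe_sort s]
  have e1 : ∑ i : Fin s.card, D.Ψ (a (s.equivFin.symm i)) (ξ (s.equivFin.symm i)) =
      ∑ i : s, D.Ψ (a i) (ξ i) :=
    Equiv.sum_comp s.equivFin.symm (fun i : s => D.Ψ (a i) (ξ i))
  have e2 : ∑ i : Fin s.card, ∑ j : Fin s.card, inner ℂ (ξ (s.equivFin.symm i))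
      (D.Ψ (star (a (s.equivFin.symm i)) * a (s.equivFin.symm j)) (ξ (s.equivFin.symm j))) =
      ∑ i : s, ∑ j ∈ s, inner ℂ (ξ i) (D.Ψ (star (a i) * a j) (ξ j)) := by
    rw [← Equiv.sum_comp s.equivFin.symm
      (fun i : s => ∑ j ∈ s, inner ℂ (ξ i) (D.Ψ (star (a i) * a j) (ξ j)))]
    refine Finset.sum_congr rfl fun i _ => ?_
    rw [← Finset.sum_coe_sort s]
    exact Equiv.sum_comp s.equivFin.symm (fun j : s => inner ℂ (ξ (s.equivFin.symm i))
      (D.Ψ (star (a (s.equivFin.symm i)) * a j) (ξ j)))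
  rw [e1, e2] at h
  exact h

/-- The sesquilinear form. -/
noncomputable def Dat.B (f g : A →₀ H) : ℂ :=
  f.sum fun a ξ => g.sum fun b η => inner ℂ ξ (D.Ψ (star a * b) η)

theorem Dat.B_add_left (f f' g : A →₀ H) : D.B (f + f') g = D.B f g + D.B f' g := by
  unfold Dat.B
  apply Finsupp.sum_add_index'
  · intro a; simp
  · intro a x y; simp [Finsupp.sum_add, inner_add_left]

theorem Dat.B_smul_left (f g : A →₀ H) (r : ℂ) :
    D.B (r • f) g = (starRingEnd ℂ) r * D.B f g := by
  unfold Dat.B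
  rw [Finsupp.sum_smul_index' (by intro a; simp)]
  simp only [Finsupp.sum, inner_smul_left, Finset.mul_sum]

theorem Dat.inner_symm (a b : A) (ξ η : H) : (starRingEnd ℂ) (inner ℂ η (D.Ψ (star b * a) ξ)) =
    inner ℂ ξ (D.Ψ (star a * b) η) := by
  rw [inner_conj_symm]
  have : star a * b = star (star b * a) := by simp
  rw [this, D.hstar, ContinuousLinearMap.star_eq_adjoint, ContinuousLinearMap.adjoint_inner_right]

theorem Dat.B_symm (f g : A →₀ H) : (starRingEnd ℂ) (D.B g f) = D.B f g := by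
  unfold Dat.B
  simp only [Finsupp.sum, map_sum, D.inner_symm]
  rw [Finset.sum_comm]

theorem Dat.B_nonneg (f : A →₀ H) : 0 ≤ (D.B f f).re :=
  (sq_nonneg _).trans (D.hΨ' f.support id f)

/-- Pre-Hilbert space of the dilation. -/
def Dat.E (_D : Dat A H) : Type (max u v) := A →₀ H

noncomputable instance : AddCommGroup D.E := inferInstanceAs (AddCommGroup (A →₀ H))
noncomputable instance : Module ℂ D.E := inferInstanceAs (Module ℂ (A →₀ H))

noncomputable def Dat.toE : (A →₀ H) ≃ₗ[ℂ] D.E := LinearEquiv.refl ℂ _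

noncomputable abbrev Dat.core : PreInnerProductSpace.Core ℂ D.E where
  inner f g := D.B (D.toE.symm f) (D.toE.symm g)
  conj_inner_symm f g := D.B_symm _ _
  re_inner_nonneg f := D.B_nonneg _
  add_left f g h := by rw [map_add, D.B_add_left]
  smul_left f g r := by rw [map_smul, D.B_smul_left]

noncomputable instance : SeminormedAddCommGroup D.E :=
  InnerProductSpace.Core.toSeminormedAddCommGroup (c := D.core)
noncomputable instance : InnerProductSpace ℂ D.E :=
  InnerProductSpace.ofCore D.core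

theorem Dat.inner_def (f g : D.E) : inner ℂ f g = D.B (D.toE.symm f) (D.toE.symm g) := rfl

theorem Dat.norm_sq (f : D.E) : ‖f‖ ^ 2 = (D.B (D.toE.symm f) (D.toE.symm f)).re := by
  rw [← D.inner_def, ← inner_self_eq_norm_sq (𝕜 := ℂ) f]
  rfl

/-- `Ψ`-evaluation `∑ a ⊗ ξ ↦ ∑ Ψ(a) ξ`. -/
noncomputable def Dat.ev0 : (A →₀ H) →ₗ[ℂ] H :=
  Finsupp.lsum ℂ fun a => (D.Ψ a : H →ₗ[ℂ] H)

theorem Dat.ev0_apply (f : A →₀ H) : D.ev0 f = f.sum fun a ξ => D.Ψ a ξ := rfl

noncomputable def Dat.ev : D.E →L[ℂ] H :=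
  (D.ev0 ∘ₗ D.toE.symm.toLinearMap).mkContinuous 1 fun f => by
    rw [← sq_le_sq₀ (by positivity) (by positivity), one_mul, D.norm_sq]
    exact D.hΨ' (D.toE.symm f).support id (D.toE.symm f)

@[simp] theorem Dat.ev_apply (f : A →₀ H) : D.ev (D.toE f) = D.ev0 f := rfl

theorem Dat.norm_ev : ‖D.ev‖ ≤ 1 := LinearMap.mkContinuous_norm_le _ zero_le_one _

/-- Left multiplication. -/
noncomputable def mul0 (c : A) : (A →₀ H) →ₗ[ℂ] (A →₀ H) := Finsupp.lmapDomain H ℂ (fun a => c * a)

theorem mul0_single (c a : A) (ξ : H) : mul0 c (Finsupp.single a ξ) = Finsupp.single (c * a) ξ := by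
  simp [mul0, Finsupp.mapDomain_single]

theorem Dat.B_mul0 (c c' : A) (f g : A →₀ H) : D.B (mul0 c f) (mul0 c' g) =
    f.sum fun a ξ => g.sum fun b η => inner ℂ ξ (D.Ψ (star (c * a) * (c' * b)) η) := by
  unfold Dat.B mul0
  simp only [Finsupp.lmapDomain_apply]
  rw [Finsupp.sum_mapDomain_index (by intro a; simp)
    (by intro a x y; simp [Finsupp.sum_add, inner_add_left])]
  refine Finset.sum_congr rfl fun a _ => ?_
  simp only
  rw [Finsupp.sum_mapDomain_index (by intro a; simp)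
    (by intro a x y; simp [inner_add_right])]

theorem Dat.B_mul0_left (c : A) (f g : A →₀ H) : D.B (mul0 c f) g =
    f.sum fun a ξ => g.sum fun b η => inner ℂ ξ (D.Ψ (star (c * a) * b) η) := by
  unfold Dat.B mul0
  simp only [Finsupp.lmapDomain_apply]
  rw [Finsupp.sum_mapDomain_index (by intro a; simp)
    (by intro a x y; simp [Finsupp.sum_add, inner_add_left])]

theorem Dat.B_mul0_right (c : A) (f g : A →₀ H) : D.B f (mul0 c g) =
    f.sum fun a ξ => g.sum fun b η => inner ℂ ξ (D.Ψ (star a * (c * b)) η) := by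
  unfold Dat.B mul0
  simp only [Finsupp.lmapDomain_apply]
  refine Finset.sum_congr rfl fun a _ => ?_
  simp only
  rw [Finsupp.sum_mapDomain_index (by intro a; simp)
    (by intro a x y; simp [inner_add_right])]

theorem Dat.B_mul0_bound (c : A) (f : A →₀ H) :
    (D.B (mul0 c f) (mul0 c f)).re ≤ ‖c‖ ^ 2 * (D.B f f).re := by
  obtain ⟨d, hd⟩ := exists_d c
  have h := (sq_nonneg _).trans (D.hΨ' f.support d f)
  simp only [hd, map_sub, map_smul, ContinuousLinearMap.sub_apply, ContinuousLinearMap.smul_apply,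
    inner_sub_right, inner_smul_right, Finset.sum_sub_distrib, ← Finset.mul_sum] at h
  rw [Complex.sub_re, Complex.re_ofReal_mul] at h
  rw [D.B_mul0]
  unfold Dat.B
  simp only [Finsupp.sum]
  linarith

noncomputable def Dat.lm (c : A) : D.E →L[ℂ] D.E :=
  (D.toE.toLinearMap ∘ₗ mul0 c ∘ₗ D.toE.symm.toLinearMap).mkContinuous ‖c‖ fun f => by
    rw [← sq_le_sq₀ (by positivity) (by positivity), mul_pow, D.norm_sq, D.norm_sq]
    exact D.B_mul0_bound c _

@[simp] theorem Dat.lm_apply (c : A) (f : A →₀ H) : D.lm c (D.toE f) = D.toE (mul0 c f) := rfl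

theorem ext_single {M : Type*} [AddCommMonoid M] [Module ℂ M] {S T : (A →₀ H) →ₗ[ℂ] M}
    (h : ∀ a ξ, S (Finsupp.single a ξ) = T (Finsupp.single a ξ)) : S = T := by
  apply Finsupp.lhom_ext
  exact h

theorem Dat.extE {M : Type*} [AddCommMonoid M] [TopologicalSpace M] [Module ℂ M]
    {S T : D.E →L[ℂ] M}
    (h : ∀ a ξ, S (D.toE (Finsupp.single a ξ)) = T (D.toE (Finsupp.single a ξ))) : S = T := by
  ext f
  have : (S : D.E →ₗ[ℂ] M) ∘ₗ D.toE.toLinearMap = (T : D.E →ₗ[ℂ] M) ∘ₗ D.toE.toLinearMap :=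
    ext_single h
  exact LinearMap.congr_fun this (D.toE.symm f)

theorem Dat.lm_mul (c d : A) : D.lm (c * d) = D.lm c ∘L D.lm d := by
  apply D.extE
  intro a ξ
  simp [mul0_single, mul_assoc]

end Sts

namespace Sts

variable {A : Type u} [NonUnitalCStarAlgebra A] {H : Type v} [NormedAddCommGroup H]
    [InnerProductSpace ℂ H] [CompleteSpace H] (D : Dat A H)

open UniformSpace UniformSpace.Completion ContinuousLinearMap

/-- The dilation space. -/
abbrev Dat.K : Type (max u v) := UniformSpace.Completion D.E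

/-- The elementary vector `a ⊗ ξ`. -/
noncomputable def Dat.t (a : A) (ξ : H) : D.K :=
  ((D.toE (Finsupp.single a ξ) : D.E) : D.K)

theorem Dat.inner_t (a b : A) (ξ η : H) :
    inner ℂ (D.t a ξ) (D.t b η) = inner ℂ ξ (D.Ψ (star a * b) η) := by
  unfold Dat.t
  rw [UniformSpace.Completion.inner_coe, D.inner_def]
  unfold Dat.B
  simp [Finsupp.sum_single_index]

theorem Dat.extK {M : Type*} [AddCommMonoid M] [TopologicalSpace M] [T2Space M] [Module ℂ M]
    {S T : D.K →L[ℂ] M} (h : ∀ a ξ, S (D.t a ξ) = T (D.t a ξ)) : S = T := by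
  have h1 : S ∘L (UniformSpace.Completion.toComplL : D.E →L[ℂ] D.K) =
      T ∘L (UniformSpace.Completion.toComplL : D.E →L[ℂ] D.K) := by
    apply D.extE
    intro a ξ
    exact h a ξ
  ext x
  induction x using UniformSpace.Completion.induction_on with
  | hp => exact isClosed_eq S.continuous T.continuous
  | ih f => exact DFunLike.congr_fun h1 f

theorem Dat.sepK {x y : D.K} (h : ∀ a ξ, inner ℂ (D.t a ξ) x = inner ℂ (D.t a ξ) y) : x = y := by
  have h1 : innerSL ℂ (x - y) = 0 := by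
    apply D.extK
    intro a ξ
    simp only [innerSL_apply_apply, ContinuousLinearMap.zero_apply]
    rw [← inner_conj_symm, inner_sub_right, h a ξ, sub_self, map_zero]
  have h2 : inner ℂ (x - y) (x - y) = 0 := by
    rw [← innerSL_apply_apply ℂ, h1, ContinuousLinearMap.zero_apply]
  exact sub_eq_zero.mp (inner_self_eq_zero.mp h2)

theorem Dat.t_add_left (a b : A) (ξ : H) : D.t (a + b) ξ = D.t a ξ + D.t b ξ := by
  apply D.sepK
  intro c η
  rw [inner_add_right, D.inner_t, D.inner_t, D.inner_t, mul_add, map_add,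
    ContinuousLinearMap.add_apply, inner_add_right]

theorem Dat.t_smul_left (r : ℂ) (a : A) (ξ : H) : D.t (r • a) ξ = r • D.t a ξ := by
  apply D.sepK
  intro c η
  rw [inner_smul_right, D.inner_t, D.inner_t, mul_smul_comm, map_smul,
    ContinuousLinearMap.smul_apply, inner_smul_right]

/-- The extension of left multiplication. -/
noncomputable def Dat.L (c : A) : D.K →L[ℂ] D.K := (D.lm c).completion

@[simp] theorem Dat.L_t (c a : A) (ξ : H) : D.L c (D.t a ξ) = D.t (c * a) ξ := by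
  unfold Dat.L Dat.t
  rw [ContinuousLinearMap.completion_apply_coe, D.lm_apply, mul0_single]

/-- The representation. -/
noncomputable def Dat.σ : A →⋆ₙₐ[ℂ] (D.K →L[ℂ] D.K) where
  toFun := D.L
  map_smul' r a := by
    apply D.extK
    intro b ξ
    simp [smul_mul_assoc, D.t_smul_left]
  map_zero' := by
    apply D.extK
    intro b ξ
    have := D.t_smul_left 0 b ξ
    rw [zero_smul, zero_smul] at this
    simp [this]
  map_add' a b := by
    apply D.extK
    intro c ξ
    simp [add_mul, D.t_add_left]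
  map_mul' a b := by
    apply D.extK
    intro c ξ
    simp [mul_assoc]
  map_star' a := by
    apply D.extK
    intro c ξ
    apply D.sepK
    intro d η
    rw [ContinuousLinearMap.star_eq_adjoint, ContinuousLinearMap.adjoint_inner_right, D.L_t, D.L_t,
      D.inner_t, D.inner_t, star_mul, mul_assoc]

@[simp] theorem Dat.σ_t (c a : A) (ξ : H) : D.σ c (D.t a ξ) = D.t (c * a) ξ := D.L_t c a ξ

/-- Evaluation, extended. -/
noncomputable def Dat.W : D.K →L[ℂ] H := D.ev.fromCompletion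

@[simp] theorem Dat.W_t (a : A) (ξ : H) : D.W (D.t a ξ) = D.Ψ a ξ := by
  unfold Dat.W Dat.t
  rw [ContinuousLinearMap.fromCompletion_apply_coe, D.ev_apply, D.ev0_apply]
  simp

theorem Dat.norm_W : ‖D.W‖ ≤ 1 := by
  refine ContinuousLinearMap.opNorm_le_bound _ zero_le_one fun x => ?_
  induction x using UniformSpace.Completion.induction_on with
  | hp => exact isClosed_le (by fun_prop) (by fun_prop)
  | ih f =>
    unfold Dat.W
    rw [ContinuousLinearMap.fromCompletion_apply_coe, UniformSpace.Completion.norm_coe]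
    exact D.ev.le_of_opNorm_le D.norm_ev f

noncomputable def Dat.V : H →L[ℂ] D.K := ContinuousLinearMap.adjoint D.W

theorem Dat.norm_V : ‖D.V‖ ≤ 1 := by
  unfold Dat.V
  rw [LinearIsometryEquiv.norm_map]
  exact D.norm_W

theorem Dat.σ_V (a : A) (ξ : H) : D.σ a (D.V ξ) = D.t a ξ := by
  apply D.sepK
  intro b η
  have h1 : inner ℂ (D.t b η) (D.σ a (D.V ξ)) = inner ℂ (D.σ (star a) (D.t b η)) (D.V ξ) := by
    rw [map_star, ContinuousLinearMap.star_eq_adjoint, ContinuousLinearMap.adjoint_inner_left]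
  rw [h1, D.σ_t]
  unfold Dat.V
  rw [ContinuousLinearMap.adjoint_inner_right, D.W_t, D.inner_t]
  have : star a * b = star (star b * a) := by simp
  rw [this, D.hstar, ContinuousLinearMap.star_eq_adjoint, ContinuousLinearMap.adjoint_inner_left]

theorem Dat.dil (a : A) : (ContinuousLinearMap.adjoint D.V) ∘L (D.σ a) ∘L D.V = D.Ψ a := by
  ext ξ
  simp only [ContinuousLinearMap.comp_apply]
  rw [D.σ_V]
  unfold Dat.V
  rw [ContinuousLinearMap.adjoint_adjoint, D.W_t]

/-- lifting of a commuting isometry -/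
noncomputable def ran (u : H →L[ℂ] H) : (A →₀ H) →ₗ[ℂ] (A →₀ H) :=
  Finsupp.mapRange.linearMap (u : H →ₗ[ℂ] H)

omit [CompleteSpace H] in
theorem ran_single (u : H →L[ℂ] H) (a : A) (ξ : H) :
    ran u (Finsupp.single a ξ) = Finsupp.single a (u ξ) := by
  simp [ran]

theorem Dat.B_ran (u : H →L[ℂ] H) (hu : ∀ a, star u * D.Ψ a * u = D.Ψ a) (f g : A →₀ H) :
    D.B (ran u f) (ran u g) = D.B f g := by
  unfold Dat.B ran
  rw [Finsupp.mapRange.linearMap_apply, Finsupp.sum_mapRange_index (by intro a; simp)]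
  refine Finset.sum_congr rfl fun a _ => ?_
  simp only
  rw [Finsupp.mapRange.linearMap_apply, Finsupp.sum_mapRange_index (by intro a; simp)]
  refine Finset.sum_congr rfl fun b _ => ?_
  simp only [ContinuousLinearMap.coe_coe]
  conv_rhs => rw [← hu]
  rw [ContinuousLinearMap.star_eq_adjoint, ContinuousLinearMap.mul_apply,
    ContinuousLinearMap.mul_apply, ContinuousLinearMap.adjoint_inner_right]

noncomputable def Dat.R0 (u : H →L[ℂ] H) (hu : ∀ a, star u * D.Ψ a * u = D.Ψ a) : D.E →L[ℂ] D.E :=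
  (D.toE.toLinearMap ∘ₗ ran u ∘ₗ D.toE.symm.toLinearMap).mkContinuous 1 fun f => by
    rw [← sq_le_sq₀ (by positivity) (by positivity), one_mul, D.norm_sq, D.norm_sq]
    exact (congrArg Complex.re (D.B_ran u hu _ _)).le

noncomputable def Dat.R (u : H →L[ℂ] H) (hu : ∀ a, star u * D.Ψ a * u = D.Ψ a) : D.K →L[ℂ] D.K :=
  (D.R0 u hu).completion

theorem Dat.R_t (u : H →L[ℂ] H) (hu : ∀ a, star u * D.Ψ a * u = D.Ψ a) (a : A) (ξ : H) :
    D.R u hu (D.t a ξ) = D.t a (u ξ) := by
  unfold Dat.R Dat.t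
  rw [ContinuousLinearMap.completion_apply_coe]
  have : D.R0 u hu (D.toE (Finsupp.single a ξ)) = D.toE (ran u (Finsupp.single a ξ)) := rfl
  rw [this, ran_single]

end Sts

/-- T5b. Stinespring dilation. -/
theorem stinespring (A : Type u) [NonUnitalCStarAlgebra A] (H : Type v) [NormedAddCommGroup H]
    [InnerProductSpace ℂ H] [CompleteSpace H] (Ψ : A →ₗ[ℂ] (H →L[ℂ] H))
    (hstar : ∀ a, Ψ (star a) = star (Ψ a))
    (hΨ : ∀ (n : ℕ) (a : Fin n → A) (ξ : Fin n → H), ‖∑ i, Ψ (a i) (ξ i)‖ ^ 2 ≤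
      (∑ i, ∑ j, inner ℂ (ξ i) (Ψ (star (a i) * a j) (ξ j))).re) :
    ∃ (K : Type (max u v)) (_ : NormedAddCommGroup K) (_ : InnerProductSpace ℂ K)
      (_ : CompleteSpace K) (σ : A →⋆ₙₐ[ℂ] (K →L[ℂ] K)) (V : H →L[ℂ] K),
      ‖V‖ ≤ 1 ∧ (∀ a, (ContinuousLinearMap.adjoint V) ∘L (σ a) ∘L V = Ψ a) ∧
      (∀ T : K →L[ℂ] K, (∀ a ξ, T (σ a (V ξ)) = 0) → T = 0) ∧
      ∀ u : unitary (H →L[ℂ] H), (∀ a, (u : H →L[ℂ] H) * Ψ a = Ψ a * (u : H →L[ℂ] H)) →
        ∃ U : unitary (K →L[ℂ] K), (∀ a, (U : K →L[ℂ] K) * σ a = σ a * (U : K →L[ℂ] K)) ∧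
          (U : K →L[ℂ] K) ∘L V = V ∘L (u : H →L[ℂ] H) := by
  let D : Sts.Dat A H := ⟨Ψ, hstar, hΨ⟩
  refine ⟨D.K, inferInstance, inferInstance, inferInstance, D.σ, D.V, D.norm_V, D.dil, ?_, ?_⟩
  · intro T hT
    apply D.extK
    intro a ξ
    rw [← D.σ_V, hT]
    rfl
  · intro u hu
    have huu : star (u : H →L[ℂ] H) * (u : H →L[ℂ] H) = 1 := Unitary.coe_star_mul_self u
    have huu' : (u : H →L[ℂ] H) * star (u : H →L[ℂ] H) = 1 := Unitary.coe_mul_star_self u
    have hu1 : ∀ a, star (u : H →L[ℂ] H) * D.Ψ a * (u : H →L[ℂ] H) = D.Ψ a := by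
      intro a
      have : D.Ψ a = Ψ a := rfl
      rw [this, mul_assoc, ← hu, ← mul_assoc, huu, one_mul]
    have hu2 : ∀ a, star (star (u : H →L[ℂ] H)) * D.Ψ a * star (u : H →L[ℂ] H) = D.Ψ a := by
      intro a
      have : D.Ψ a = Ψ a := rfl
      rw [this, star_star, hu, mul_assoc, huu', mul_one]
    have hu3 : ∀ a, D.Ψ a * star (u : H →L[ℂ] H) = star (u : H →L[ℂ] H) * D.Ψ a := by
      intro a
      have : D.Ψ a = Ψ a := rfl
      calc D.Ψ a * star (u : H →L[ℂ] H)
          = (star (u : H →L[ℂ] H) * (u : H →L[ℂ] H)) * D.Ψ a * star (u : H →L[ℂ] H) := by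
            rw [huu, one_mul]
        _ = star (u : H →L[ℂ] H) * ((u : H →L[ℂ] H) * D.Ψ a) * star (u : H →L[ℂ] H) := by
            simp only [mul_assoc]
        _ = star (u : H →L[ℂ] H) * (D.Ψ a * ((u : H →L[ℂ] H) * star (u : H →L[ℂ] H))) := by
            rw [this, hu]; simp only [mul_assoc]
        _ = star (u : H →L[ℂ] H) * D.Ψ a := by rw [huu', mul_one]
    have hadj : star (D.R u hu1) = D.R (star u) hu2 := by
      apply D.extK
      intro a ξ
      apply D.sepK
      intro b η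
      rw [ContinuousLinearMap.star_eq_adjoint, ContinuousLinearMap.adjoint_inner_right, D.R_t,
        D.R_t, D.inner_t, D.inner_t, ← ContinuousLinearMap.mul_apply, hu3,
        ContinuousLinearMap.mul_apply, ContinuousLinearMap.star_eq_adjoint,
        ContinuousLinearMap.adjoint_inner_right]
    have hmem : D.R u hu1 ∈ unitary (D.K →L[ℂ] D.K) := by
      rw [Unitary.mem_iff, hadj]
      constructor
      · apply D.extK
        intro a ξ
        rw [ContinuousLinearMap.mul_apply, D.R_t, D.R_t, ← ContinuousLinearMap.mul_apply, huu]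
        rfl
      · apply D.extK
        intro a ξ
        rw [ContinuousLinearMap.mul_apply, D.R_t, D.R_t, ← ContinuousLinearMap.mul_apply, huu']
        rfl
    refine ⟨⟨D.R u hu1, hmem⟩, ?_, ?_⟩
    · intro a
      apply D.extK
      intro b ξ
      simp only [ContinuousLinearMap.mul_apply, D.σ_t, D.R_t]
    · ext ξ
      apply D.sepK
      intro b η
      simp only [ContinuousLinearMap.comp_apply]
      have h1 : inner ℂ (D.t b η) (D.R u hu1 (D.V ξ)) =
          inner ℂ (D.R (star u) hu2 (D.t b η)) (D.V ξ) := by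
        rw [← hadj, ContinuousLinearMap.star_eq_adjoint, ContinuousLinearMap.adjoint_inner_left]
      rw [h1, D.R_t]
      unfold Sts.Dat.V
      rw [ContinuousLinearMap.adjoint_inner_right, ContinuousLinearMap.adjoint_inner_right,
        D.W_t, D.W_t, ← ContinuousLinearMap.mul_apply, hu3, ContinuousLinearMap.mul_apply,
        ContinuousLinearMap.star_eq_adjoint, ContinuousLinearMap.adjoint_inner_left]

end Pool.Agent.H253.US
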