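import Pool.Agent.H253.US.Defs
import Pool.Agent.H253.US.Stinespring
import Pool.Agent.H253.US.AvgLimit
import Pool.Agent.H253.US.Perturb

/-!
# Ulam stability of nuclear C*-algebras (MP_a35bd4_an): definitions and basic facts
-/

set_option autoImplicit false
set_option linter.unusedSectionVars false
set_option linter.deprecated false

open scoped CStarAlgebra ComplexOrder

namespace Pool.Agent.H253.US

universe u v w



namespace T7

open Filter Topology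
open ContinuousLinearMap (adjoint)



section ops

variable {H : Type v} [NormedAddCommGroup H] [InnerProductSpace ℂ H] [CompleteSpace H]
  {K : Type w} [NormedAddCommGroup K] [InnerProductSpace ℂ K] [CompleteSpace K]

/-- `‖z - V V* z‖² ≤ ‖z‖² - ‖V* z‖²` for a contraction `V`. -/
theorem defect (V : H →L[ℂ] K) (hV : ‖V‖ ≤ 1) (z : K) :
    ‖z - V (adjoint V z)‖ ^ 2 ≤ ‖z‖ ^ 2 - ‖adjoint V z‖ ^ 2 := by
  have h1 : ‖z - V (adjoint V z)‖ ^ 2 = ‖z‖ ^ 2 - 2 * RCLike.re (inner ℂ z (V (adjoint V z))) +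
      ‖V (adjoint V z)‖ ^ 2 := by
    rw [norm_sub_sq (𝕜 := ℂ)]
  have h2 : RCLike.re (inner ℂ z (V (adjoint V z))) = ‖adjoint V z‖ ^ 2 := by
    rw [← ContinuousLinearMap.adjoint_inner_left, inner_self_eq_norm_sq]
  have h3 : ‖V (adjoint V z)‖ ≤ ‖adjoint V z‖ := by
    refine (V.le_opNorm _).trans ?_
    nlinarith [norm_nonneg (adjoint V z)]
  have h4 : ‖V (adjoint V z)‖ ^ 2 ≤ ‖adjoint V z‖ ^ 2 := by gcongr
  rw [h1, h2]
  linarith

theorem star_eq_of (V : H →L[ℂ] K) : star (V ∘L adjoint V) = V ∘L adjoint V := by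
  rw [ContinuousLinearMap.star_eq_adjoint, ContinuousLinearMap.adjoint_comp,
    ContinuousLinearMap.adjoint_adjoint]

theorem norm_adj_le (V : H →L[ℂ] K) (hV : ‖V‖ ≤ 1) : ‖adjoint V‖ ≤ 1 := by
  rw [LinearIsometryEquiv.norm_map]; exact hV

theorem norm_P_le (V : H →L[ℂ] K) (hV : ‖V‖ ≤ 1) : ‖V ∘L adjoint V‖ ≤ 1 := by
  refine (ContinuousLinearMap.opNorm_comp_le _ _).trans ?_
  have := norm_adj_le V hV
  nlinarith [norm_nonneg V, norm_nonneg (adjoint V)]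

end ops

section main

variable {A : Type u} [NonUnitalCStarAlgebra A]
  {H : Type v} [NormedAddCommGroup H] [InnerProductSpace ℂ H] [CompleteSpace H]
  {K : Type w} [NormedAddCommGroup K] [InnerProductSpace ℂ K] [CompleteSpace K]
  (Ψ : A →ₗ[ℂ] (H →L[ℂ] H)) (σ : A →⋆ₙₐ[ℂ] (K →L[ℂ] K)) (V : H →L[ℂ] K)

theorem norm_sigma (a : A) : ‖σ a‖ ≤ ‖a‖ := NonUnitalStarAlgHom.norm_apply_le σ a

/-- `‖(1 - P₀) σ(a) V ξ‖ ≤ s ‖ξ‖`. -/
theorem est1 (hstar : ∀ a, Ψ (star a) = star (Ψ a)) (hV : ‖V‖ ≤ 1)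
    (hdil : ∀ a, (adjoint V) ∘L (σ a) ∘L V = Ψ a) (κ : ℝ) (hκ : 0 ≤ κ)
    (hmul : ∀ a b, ‖a‖ ≤ 1 → ‖b‖ ≤ 1 → ‖Ψ (a * b) - Ψ a * Ψ b‖ ≤ κ) (a : A) (ha : ‖a‖ ≤ 1)
    (ξ : H) : ‖σ a (V ξ) - V (adjoint V (σ a (V ξ)))‖ ≤ Real.sqrt κ * ‖ξ‖ := by
  have h1 := defect V hV (σ a (V ξ))
  have h2 : ‖σ a (V ξ)‖ ^ 2 = RCLike.re (inner ℂ ξ (Ψ (star a * a) ξ)) := by
    rw [← hdil, ← inner_self_eq_norm_sq (𝕜 := ℂ), map_mul, map_star]
    simp only [ContinuousLinearMap.comp_apply, ContinuousLinearMap.mul_apply,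
      ContinuousLinearMap.star_eq_adjoint]
    rw [ContinuousLinearMap.adjoint_inner_right, ContinuousLinearMap.adjoint_inner_right]
  have h3 : ‖adjoint V (σ a (V ξ))‖ ^ 2 = RCLike.re (inner ℂ ξ ((Ψ (star a) * Ψ a) ξ)) := by
    have : adjoint V (σ a (V ξ)) = Ψ a ξ := by rw [← hdil]; rfl
    rw [this, ← inner_self_eq_norm_sq (𝕜 := ℂ), hstar, ContinuousLinearMap.mul_apply,
      ContinuousLinearMap.star_eq_adjoint, ContinuousLinearMap.adjoint_inner_right]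
  have h4 : RCLike.re (inner ℂ ξ (Ψ (star a * a) ξ)) - RCLike.re (inner ℂ ξ ((Ψ (star a) * Ψ a) ξ))
      ≤ κ * ‖ξ‖ ^ 2 := by
    have e : RCLike.re (inner ℂ ξ (Ψ (star a * a) ξ)) - RCLike.re (inner ℂ ξ ((Ψ (star a) * Ψ a) ξ))
      = RCLike.re (inner ℂ ξ ((Ψ (star a * a) - Ψ (star a) * Ψ a) ξ)) := by
      rw [ContinuousLinearMap.sub_apply, inner_sub_right, map_sub]
    rw [e]
    refine (RCLike.re_le_norm _).trans ((norm_inner_le_norm _ _).trans ?_)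
    have h5 := hmul (star a) a (by rw [norm_star]; exact ha) ha
    have h6 : ‖(Ψ (star a * a) - Ψ (star a) * Ψ a) ξ‖ ≤ κ * ‖ξ‖ :=
      (ContinuousLinearMap.le_opNorm _ _).trans (by gcongr)
    calc ‖ξ‖ * ‖(Ψ (star a * a) - Ψ (star a) * Ψ a) ξ‖ ≤ ‖ξ‖ * (κ * ‖ξ‖) := by gcongr
      _ = κ * ‖ξ‖ ^ 2 := by ring
  rw [h2, h3] at h1
  rw [← sq_le_sq₀ (norm_nonneg _) (by positivity), mul_pow, Real.sq_sqrt hκ]
  linarith

/-- `‖(1 - P₀) σ(a) P₀‖ ≤ s`. -/
theorem est2 (hstar : ∀ a, Ψ (star a) = star (Ψ a)) (hV : ‖V‖ ≤ 1)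
    (hdil : ∀ a, (adjoint V) ∘L (σ a) ∘L V = Ψ a) (κ : ℝ) (hκ : 0 ≤ κ)
    (hmul : ∀ a b, ‖a‖ ≤ 1 → ‖b‖ ≤ 1 → ‖Ψ (a * b) - Ψ a * Ψ b‖ ≤ κ) (a : A) (ha : ‖a‖ ≤ 1) :
    ‖(1 - V ∘L adjoint V) * σ a * (V ∘L adjoint V)‖ ≤ Real.sqrt κ := by
  refine ContinuousLinearMap.opNorm_le_bound _ (Real.sqrt_nonneg _) fun x => ?_
  have h := est1 Ψ σ V hstar hV hdil κ hκ hmul a ha (adjoint V x)
  have e : ((1 - V ∘L adjoint V) * σ a * (V ∘L adjoint V)) x =
      σ a (V (adjoint V x)) - V (adjoint V (σ a (V (adjoint V x)))) := by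
    simp
  rw [e]
  refine h.trans ?_
  have h2 : ‖adjoint V x‖ ≤ ‖x‖ := by
    refine ((adjoint V).le_opNorm x).trans ?_
    have := norm_adj_le V hV
    nlinarith [norm_nonneg x]
  gcongr

/-- `‖[σ(a), P₀]‖ ≤ 2 s`. -/
theorem est3 (hstar : ∀ a, Ψ (star a) = star (Ψ a)) (hV : ‖V‖ ≤ 1)
    (hdil : ∀ a, (adjoint V) ∘L (σ a) ∘L V = Ψ a) (κ : ℝ) (hκ : 0 ≤ κ)
    (hmul : ∀ a b, ‖a‖ ≤ 1 → ‖b‖ ≤ 1 → ‖Ψ (a * b) - Ψ a * Ψ b‖ ≤ κ) (a : A) (ha : ‖a‖ ≤ 1) :
    ‖σ a * (V ∘L adjoint V) - (V ∘L adjoint V) * σ a‖ ≤ 2 * Real.sqrt κ := by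
  have h1 := est2 Ψ σ V hstar hV hdil κ hκ hmul a ha
  have h2 := est2 Ψ σ V hstar hV hdil κ hκ hmul (star a) (by rw [norm_star]; exact ha)
  rw [← norm_star] at h2
  have hs := star_eq_of V
  set P := V ∘L adjoint V with hP
  have e2 : star ((1 - P) * σ (star a) * P) = P * σ a * (1 - P) := by
    rw [star_mul, star_mul, star_sub, star_one, hs, map_star, star_star, mul_assoc]
  rw [e2] at h2
  have e : σ a * P - P * σ a = (1 - P) * σ a * P - P * σ a * (1 - P) := by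
    noncomm_ring
  rw [e]
  calc _ ≤ _ := norm_sub_le _ _
    _ ≤ 2 * Real.sqrt κ := by linarith

end main

section unit

variable {A : Type u} [NonUnitalCStarAlgebra A] [PartialOrder A] [StarOrderedRing A]
  {H : Type v} [NormedAddCommGroup H] [InnerProductSpace ℂ H] [CompleteSpace H]
  {K : Type w} [NormedAddCommGroup K] [InnerProductSpace ℂ K] [CompleteSpace K]
  (Ψ : A →ₗ[ℂ] (H →L[ℂ] H)) (σ : A →⋆ₙₐ[ℂ] (K →L[ℂ] K)) (V : H →L[ℂ] K)

/-- There is an ultrafilter `𝒰` on `A` along which `σ(e) → 1` weakly, with `‖e‖ ≤ 1`. -/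
theorem exists_unit (hσ : ∀ T : K →L[ℂ] K, (∀ a, T * σ a = 0) → T = 0) :
    ∃ 𝒰 : Ultrafilter A, (∀ᶠ e in (𝒰 : Filter A), ‖e‖ ≤ 1) ∧
      ∀ x y : K, Tendsto (fun e => inner ℂ x (σ e y)) 𝒰 (𝓝 (inner ℂ x y)) := by
  have hau := CStarAlgebra.increasingApproximateUnit A
  have hne : (CStarAlgebra.approximateUnit A).NeBot := hau.neBot
  refine ⟨Ultrafilter.of (CStarAlgebra.approximateUnit A), ?_, ?_⟩
  · exact (Ultrafilter.of_le _) hau.eventually_norm
  set 𝒰 := Ultrafilter.of (CStarAlgebra.approximateUnit A) with h𝒰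
  have hn : ∀ᶠ e in (𝒰 : Filter A), ‖e‖ ≤ 1 := (Ultrafilter.of_le _) hau.eventually_norm
  classical
  let T : A → K →L[ℂ] K := fun e => if ‖e‖ ≤ 1 then σ e else 0
  have hT : ∀ e, ‖T e‖ ≤ 1 := by
    intro e
    by_cases he : ‖e‖ ≤ 1
    · simp only [T, he, if_true]
      exact (norm_sigma σ e).trans he
    · simp [T, he]
  obtain ⟨R, hR⟩ := exists_wlim 𝒰 T 1 hT
  have hTe : ∀ᶠ e in (𝒰 : Filter A), T e = σ e := by
    filter_upwards [hn] with e he
    simp [T, he]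
  have hR1 : R = 1 := by
    have h0 : R - 1 = 0 := by
      apply hσ
      intro a
      have h1 := hR.mul_right (σ a)
      have h2 : WLim 𝒰 (fun e => T e * σ a) (σ a) := by
        have h3 : Tendsto (fun e => ‖T e * σ a - σ a‖) 𝒰 (𝓝 0) := by
          have h4 : Tendsto (fun e => ‖e * a - a‖) 𝒰 (𝓝 0) := by
            have := (hau.tendsto_mul_right a).mono_left (Ultrafilter.of_le _)
            have h5 := (this.sub_const a).norm
            simpa using h5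
          refine squeeze_zero' (Eventually.of_forall fun _ => norm_nonneg _) ?_ h4
          filter_upwards [hTe] with e he
          rw [he, ← map_mul, ← map_sub]
          exact norm_sigma σ _
        have h6 := (WLim.of_tendsto_zero h3).add (WLim.const (𝒰 := 𝒰) (σ a))
        simpa using h6
      rw [sub_mul, one_mul, h1.unique h2, sub_self]
    exact sub_eq_zero.mp h0
  intro x y
  have := hR x y
  rw [hR1] at this
  refine this.congr' ?_
  filter_upwards [hTe] with e he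
  rw [he]

/-- `‖(1 - P₀) V‖ ≤ s`. -/
theorem est4 (hσ : ∀ T : K →L[ℂ] K, (∀ a, T * σ a = 0) → T = 0)
    (hstar : ∀ a, Ψ (star a) = star (Ψ a)) (hV : ‖V‖ ≤ 1)
    (hdil : ∀ a, (adjoint V) ∘L (σ a) ∘L V = Ψ a) (κ : ℝ) (hκ : 0 ≤ κ)
    (hmul : ∀ a b, ‖a‖ ≤ 1 → ‖b‖ ≤ 1 → ‖Ψ (a * b) - Ψ a * Ψ b‖ ≤ κ) :
    ‖V - V ∘L (adjoint V ∘L V)‖ ≤ Real.sqrt κ := by
  obtain ⟨𝒰, hn, hlim⟩ := exists_unit σ hσ
  refine ContinuousLinearMap.opNorm_le_bound _ (Real.sqrt_nonneg _) fun ξ => ?_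
  have e1 : (V - V ∘L (adjoint V ∘L V)) ξ = V ξ - V (adjoint V (V ξ)) := by
    simp
  rw [e1]
  set y := V ξ - V (adjoint V (V ξ)) with hy
  have key : ∀ x z : K, inner ℂ (x - V (adjoint V x)) z = inner ℂ x (z - V (adjoint V z)) := by
    intro x z
    rw [inner_sub_left, inner_sub_right, ← ContinuousLinearMap.adjoint_inner_right,
      ContinuousLinearMap.adjoint_inner_left V, ← ContinuousLinearMap.adjoint_inner_left V]
  have h1 : ‖inner ℂ (y - V (adjoint V y)) (V ξ)‖ ≤ ‖y‖ * (Real.sqrt κ * ‖ξ‖) := by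
    refine le_of_tendsto (hlim (y - V (adjoint V y)) (V ξ)).norm ?_
    filter_upwards [hn] with e he
    rw [key]
    refine (norm_inner_le_norm _ _).trans ?_
    gcongr
    exact est1 Ψ σ V hstar hV hdil κ hκ hmul e he ξ
  rw [key, ← hy, inner_self_eq_norm_sq_to_K] at h1
  have h2 : ‖((‖y‖ : ℂ)) ^ 2‖ = ‖y‖ ^ 2 := by
    rw [norm_pow, Complex.norm_real, norm_norm]
  have h3 : ‖y‖ ^ 2 ≤ ‖y‖ * (Real.sqrt κ * ‖ξ‖) := by
    rw [← h2]; exact h1
  by_cases h0 : ‖y‖ = 0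
  · rw [h0]; positivity
  have : 0 < ‖y‖ := lt_of_le_of_ne (norm_nonneg _) (Ne.symm h0)
  rw [sq] at h3
  exact le_of_mul_le_mul_left h3 this

end unit

section vn

variable {H : Type v} [NormedAddCommGroup H] [InnerProductSpace ℂ H] [CompleteSpace H]

/-- An operator commuting with all unitaries of the commutant lies in the algebra. -/
theorem mem_of_unitary (M : VonNeumannAlgebra H) (T : H →L[ℂ] H)
    (hT : ∀ u : unitary (H →L[ℂ] H), (u : H →L[ℂ] H) ∈ M.commutant →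
      (u : H →L[ℂ] H) * T = T * (u : H →L[ℂ] H)) : T ∈ M := by
  have hcl : IsClosed ((M.commutant.toStarSubalgebra : StarSubalgebra ℂ (H →L[ℂ] H)) :
      Set (H →L[ℂ] H)) := by
    rw [VonNeumannAlgebra.coe_toStarSubalgebra, VonNeumannAlgebra.coe_commutant]
    exact Set.isClosed_centralizer _
  let S : StarSubalgebra ℂ (H →L[ℂ] H) := M.commutant.toStarSubalgebra
  have hcl' : IsClosed (S : Set (H →L[ℂ] H)) := hcl
  let _ : CStarAlgebra S := StarSubalgebra.cstarAlgebra S (h_closed := hcl')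
  have hspan : ∀ x : S, (x : H →L[ℂ] H) * T = T * (x : H →L[ℂ] H) := by
    intro x
    have hx : x ∈ Submodule.span ℂ (unitary S : Set S) := by
      rw [CStarAlgebra.span_unitary]; trivial
    induction hx using Submodule.span_induction with
    | mem u hu =>
      have hu1 : (u : H →L[ℂ] H) ∈ unitary (H →L[ℂ] H) := by
        rw [SetLike.mem_coe, Unitary.mem_iff] at hu
        rw [Unitary.mem_iff]
        exact ⟨congrArg Subtype.val hu.1, congrArg Subtype.val hu.2⟩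
      exact hT ⟨(u : H →L[ℂ] H), hu1⟩ u.2
    | zero => simp
    | add x y _ _ hx hy =>
      push_cast
      rw [add_mul, mul_add, hx, hy]
    | smul c x _ hx =>
      push_cast
      rw [smul_mul_assoc, hx, mul_smul_comm]
  have h1 : T ∈ M.commutant.commutant := by
    rw [VonNeumannAlgebra.mem_commutant_iff]
    intro g hg
    exact hspan ⟨g, hg⟩
  rwa [VonNeumannAlgebra.commutant_commutant] at h1

end vn

section psi

variable {A : Type u} [NonUnitalCStarAlgebra A]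
  {H : Type v} [NormedAddCommGroup H] [InnerProductSpace ℂ H] [CompleteSpace H]
  {K : Type w} [NormedAddCommGroup K] [InnerProductSpace ℂ K] [CompleteSpace K]

/-- The compression `a ↦ W* σ(a) W`. -/
noncomputable def psi (σ : A →⋆ₙₐ[ℂ] (K →L[ℂ] K)) (W : H →L[ℂ] K)
    (hcomm : ∀ a, σ a * (W ∘L adjoint W) = (W ∘L adjoint W) * σ a)
    (hW : (W ∘L adjoint W) ∘L W = W) : A →⋆ₙₐ[ℂ] (H →L[ℂ] H) where
  toFun a := (adjoint W) ∘L (σ a) ∘L W
  map_smul' c a := by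
    ext x; simp
  map_zero' := by
    ext x; simp
  map_add' a b := by
    ext x; simp
  map_mul' a b := by
    ext x
    have h1 : W (adjoint W (σ b (W x))) = σ b (W x) := by
      have h2 := DFunLike.congr_fun (hcomm b) (W x)
      have h3 := DFunLike.congr_fun hW x
      simp only [ContinuousLinearMap.mul_apply, ContinuousLinearMap.comp_apply] at h2 h3
      rw [← h2, h3]
    simp only [ContinuousLinearMap.mul_apply, ContinuousLinearMap.comp_apply, map_mul]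
    rw [h1]
  map_star' a := by
    rw [map_star]
    simp only [ContinuousLinearMap.star_eq_adjoint, ContinuousLinearMap.adjoint_comp,
      ContinuousLinearMap.adjoint_adjoint]
    rfl

theorem psi_apply (σ : A →⋆ₙₐ[ℂ] (K →L[ℂ] K)) (W : H →L[ℂ] K)
    (hcomm : ∀ a, σ a * (W ∘L adjoint W) = (W ∘L adjoint W) * σ a)
    (hW : (W ∘L adjoint W) ∘L W = W) (a : A) :
    psi σ W hcomm hW a = (adjoint W) ∘L (σ a) ∘L W := rfl

theorem adj_inter (U : unitary (K →L[ℂ] K)) (u : unitary (H →L[ℂ] H)) (V : H →L[ℂ] K)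
    (h : (U : K →L[ℂ] K) ∘L V = V ∘L (u : H →L[ℂ] H)) :
    adjoint V ∘L (U : K →L[ℂ] K) = (u : H →L[ℂ] H) ∘L adjoint V := by
  have hU : star (U : K →L[ℂ] K) * (U : K →L[ℂ] K) = 1 := Unitary.coe_star_mul_self U
  have hu : (u : H →L[ℂ] H) * star (u : H →L[ℂ] H) = 1 := Unitary.coe_mul_star_self u
  -- `V u* = U* V`
  have h1 : V ∘L (star (u : H →L[ℂ] H)) = (star (U : K →L[ℂ] K)) ∘L V := by
    ext x
    have h2 := DFunLike.congr_fun h ((star (u : H →L[ℂ] H)) x)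
    have h3 := DFunLike.congr_fun hu x
    have h4 := DFunLike.congr_fun hU (V ((star (u : H →L[ℂ] H)) x))
    simp only [ContinuousLinearMap.mul_apply, ContinuousLinearMap.comp_apply,
      ContinuousLinearMap.one_apply] at h2 h3 h4 ⊢
    rw [h3] at h2
    rw [← h4, h2]
  have h5 := congrArg (fun T => adjoint T) h1
  simp only [ContinuousLinearMap.adjoint_comp, ContinuousLinearMap.star_eq_adjoint,
    ContinuousLinearMap.adjoint_adjoint] at h5
  exact h5.symm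

end psi

end T7

/-- T7: straightening. -/
theorem straighten : ∃ C : ℝ, 0 < C ∧ ∃ κ₀ : ℝ, 0 < κ₀ ∧
    ∀ (A : Type u) [NonUnitalCStarAlgebra A] [PartialOrder A] [StarOrderedRing A]
      (H : Type v) [NormedAddCommGroup H] [InnerProductSpace ℂ H] [CompleteSpace H]
      (M : VonNeumannAlgebra H) (Ψ : A →ₗ[ℂ] (H →L[ℂ] H)) (κ : ℝ),
      IsDecNuclear A → (∀ a, Ψ a ∈ M) → (∀ a, Ψ (star a) = star (Ψ a)) →
      (∀ (n : ℕ) (a : Fin n → A) (ξ : Fin n → H),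
        ‖∑ i, Ψ (a i) (ξ i)‖ ^ 2 ≤ (∑ i, ∑ j, inner ℂ (ξ i) (Ψ (star (a i) * a j) (ξ j))).re) →
      κ ≤ κ₀ → (∀ a b, ‖a‖ ≤ 1 → ‖b‖ ≤ 1 → ‖Ψ (a * b) - Ψ a * Ψ b‖ ≤ κ) →
      ∃ ψ : A →⋆ₙₐ[ℂ] (H →L[ℂ] H), (∀ a, ψ a ∈ M) ∧
        ∀ a, ‖a‖ ≤ 1 → ‖ψ a - Ψ a‖ ≤ C * Real.sqrt κ := by
  obtain ⟨C₀, hC₀, s₀, hs₀, hpert⟩ := perturb.{v, max u v}
  refine ⟨2 * C₀, by positivity, s₀ ^ 2, by positivity, ?_⟩
  intro A _ _ _ H _ _ _ M Ψ κ hA hM hstar hcp hκ₀ hmul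
  have hκ : 0 ≤ κ := (norm_nonneg _).trans (hmul 0 0 (by simp) (by simp))
  obtain ⟨K, i1, i2, i3, σ, V, hV, hdil, hnd, hint⟩ := stinespring A H Ψ hstar hcp
  have hσ : ∀ T : K →L[ℂ] K, (∀ a, T * σ a = 0) → T = 0 := by
    intro T hT
    apply hnd
    intro a ξ
    have := DFunLike.congr_fun (hT a) (V ξ)
    simpa using this
  have e3 := T7.est3 Ψ σ V hstar hV hdil κ hκ hmul
  have e4 := T7.est4 Ψ σ V hσ hstar hV hdil κ hκ hmul
  obtain ⟨P, hPs, hPn, hPc, hPd, hPU⟩ := avg_limit A hA K σ hσ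
    (V ∘L ContinuousLinearMap.adjoint V) (T7.star_eq_of V) (T7.norm_P_le V hV)
    (2 * Real.sqrt κ) e3
  have hsκ : Real.sqrt κ ≤ s₀ := by
    rw [Real.sqrt_le_left hs₀.le]; exact hκ₀
  obtain ⟨W, hWV, hWn, -, hWW, hWS, hWU⟩ := hpert H K V P (Real.sqrt κ) hsκ hV hPs hPn hPd e4
  have hcomm : ∀ a, σ a * (W ∘L ContinuousLinearMap.adjoint W) =
      (W ∘L ContinuousLinearMap.adjoint W) * σ a := fun a => hWS (σ a) (hPc a)
  refine ⟨T7.psi σ W hcomm hWW, ?_, ?_⟩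
  · intro a
    apply T7.mem_of_unitary
    intro u hu
    have hu1 : ∀ a, (u : H →L[ℂ] H) * Ψ a = Ψ a * (u : H →L[ℂ] H) := by
      intro a
      exact ((VonNeumannAlgebra.mem_commutant_iff.mp hu) (Ψ a) (hM a)).symm
    obtain ⟨U, hUσ, hUV⟩ := hint u hu1
    have hUV' := T7.adj_inter U u V hUV
    have hUP0 : (U : K →L[ℂ] K) * (V ∘L ContinuousLinearMap.adjoint V) =
        (V ∘L ContinuousLinearMap.adjoint V) * (U : K →L[ℂ] K) := by
      ext x
      have h1 := DFunLike.congr_fun hUV (ContinuousLinearMap.adjoint V x)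
      have h2 := DFunLike.congr_fun hUV' x
      simp only [ContinuousLinearMap.mul_apply, ContinuousLinearMap.comp_apply] at h1 h2 ⊢
      rw [h1, h2]
    have hUP := hPU U hUσ hUP0
    have hUW := hWU U u hUV hUP
    have hUW' := T7.adj_inter U u W hUW
    rw [T7.psi_apply]
    ext x
    have h1 := DFunLike.congr_fun hUW x
    have h2 := DFunLike.congr_fun hUW' (σ a (W x))
    have h3 := DFunLike.congr_fun (hUσ a) (W x)
    simp only [ContinuousLinearMap.mul_apply, ContinuousLinearMap.comp_apply] at h1 h2 h3 ⊢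
    rw [← h1, ← h3, h2]
  · intro a ha
    rw [T7.psi_apply, ← hdil]
    have hσa : ‖σ a‖ ≤ 1 := (T7.norm_sigma σ a).trans ha
    have e : ContinuousLinearMap.adjoint W ∘L σ a ∘L W - ContinuousLinearMap.adjoint V ∘L σ a ∘L V =
        ContinuousLinearMap.adjoint (W - V) ∘L σ a ∘L W +
          ContinuousLinearMap.adjoint V ∘L σ a ∘L (W - V) := by
      rw [map_sub]
      ext x
      simp
    rw [e]
    have hadj : ‖ContinuousLinearMap.adjoint (W - V)‖ = ‖W - V‖ :=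
      LinearIsometryEquiv.norm_map _ _
    have hC : 0 ≤ C₀ * Real.sqrt κ := by positivity
    have b1 : ‖σ a ∘L W‖ ≤ 1 := by
      refine (ContinuousLinearMap.opNorm_comp_le _ _).trans ?_
      nlinarith [norm_nonneg (σ a), norm_nonneg W]
    have b2 : ‖σ a ∘L (W - V)‖ ≤ C₀ * Real.sqrt κ := by
      refine (ContinuousLinearMap.opNorm_comp_le _ _).trans ?_
      nlinarith [norm_nonneg (σ a), norm_nonneg (W - V)]
    have b3 : ‖ContinuousLinearMap.adjoint (W - V) ∘L σ a ∘L W‖ ≤ C₀ * Real.sqrt κ := by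
      refine (ContinuousLinearMap.opNorm_comp_le _ _).trans ?_
      rw [hadj]
      nlinarith [norm_nonneg (σ a ∘L W), norm_nonneg (W - V)]
    have b4 : ‖ContinuousLinearMap.adjoint V ∘L σ a ∘L (W - V)‖ ≤ C₀ * Real.sqrt κ := by
      refine (ContinuousLinearMap.opNorm_comp_le _ _).trans ?_
      have := T7.norm_adj_le V hV
      nlinarith [norm_nonneg (σ a ∘L (W - V)), norm_nonneg (ContinuousLinearMap.adjoint V)]
    calc _ ≤ _ := norm_add_le _ _
      _ ≤ 2 * C₀ * Real.sqrt κ := by linarith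

end Pool.Agent.H253.US
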