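import Pool.Agent.H253.US.Defs

set_option autoImplicit false

open scoped CStarAlgebra ComplexOrder

namespace Pool.Agent.H253.US

universe u v w

section union

variable {A : Type u} [NonUnitalCStarAlgebra A] [PartialOrder A] [StarOrderedRing A]

/-- `w ↦ (1-u) w (1-u)` is monotone. -/
theorem conj_mono (u x y : A) (hu : star u = u) (hxy : x ≤ y) :
    x - u * x - x * u + u * x * u ≤ y - u * y - y * u + u * y * u := by
  have h : 0 ≤ y - x := sub_nonneg.mpr hxy
  rw [StarOrderedRing.nonneg_iff] at h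
  have h2 : 0 ≤ (y - x) - u * (y - x) - (y - x) * u + u * (y - x) * u := by
    generalize y - x = d at h
    induction h using AddSubmonoid.closure_induction with
    | mem z hz =>
      obtain ⟨s, rfl⟩ := hz
      have : star s * s - u * (star s * s) - (star s * s) * u + u * (star s * s) * u =
          star (s - s * u) * (s - s * u) := by
        rw [star_sub, star_mul, hu]
        noncomm_ring
      rw [this]
      exact star_mul_self_nonneg _
    | zero => simp
    | add p q _ _ hp hq =>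
      have : (p + q) - u * (p + q) - (p + q) * u + u * (p + q) * u =
        (p - u * p - p * u + u * p * u) + (q - u * q - q * u + u * q * u) := by
        noncomm_ring
      rw [this]
      exact add_nonneg hp hq
  have h3 : (y - u * y - y * u + u * y * u) - (x - u * x - x * u + u * x * u) =
      (y - x) - u * (y - x) - (y - x) * u + u * (y - x) * u := by noncomm_ring
  rw [← h3] at h2
  exact sub_nonneg.mp h2

theorem mul_self_le_self (b : A) (h0 : 0 ≤ b) (h1 : ‖b‖ ≤ 1) : b * b ≤ b := by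
  have hsa : IsSelfAdjoint b := IsSelfAdjoint.of_nonneg h0
  have e1 : b * b = cfcₙ (fun t : ℝ => t * t) b := by
    rw [cfcₙ_mul (fun t : ℝ => t) (fun t : ℝ => t) b]
    rw [cfcₙ_id' ℝ b]
  have e2 : b = cfcₙ (fun t : ℝ => t) b := (cfcₙ_id' ℝ b).symm
  have : cfcₙ (fun t : ℝ => t * t) b ≤ cfcₙ (fun t : ℝ => t) b := by
    refine cfcₙ_mono ?_ (by fun_prop) (by fun_prop) (by simp) rfl
    intro x hx
    have hx0 := quasispectrum_nonneg_of_nonneg b h0 x hx
    have hx1 : ‖x‖ ≤ ‖b‖ := NonUnitalIsometricContinuousFunctionalCalculus.norm_quasispectrum_le b hx hsa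
    rw [Real.norm_eq_abs, abs_of_nonneg hx0] at hx1
    nlinarith
  rw [← e1] at this
  rwa [← e2] at this

theorem real_bound (n : ℕ) (t : ℝ) (h0 : 0 ≤ t) (h1 : t ≤ 1) :
    2 * (t * (1 - t) ^ (2 * n)) ≤ 1 / (n + 1 / 2) := by
  -- t (1-t)^(2n) ≤ 1/(2n+1)
  have key : t * (1 - t) ^ (2 * n) ≤ 1 / (2 * n + 1) := by
    have hs : 0 ≤ 1 - t := by linarith
    -- (2n+1) t (1-t)^{2n} ≤ sum of terms = 1
    have h2 : (2 * n + 1 : ℝ) * (t * (1 - t) ^ (2 * n)) ≤ 1 := by
      -- geometric: 1 ≥ 1 - (1-t)^(2n+1) = t * ∑ (1-t)^j ≥ t (2n+1)(1-t)^(2n)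
      have hg := geom_sum_mul (1 - t) (2 * n + 1)
      have hsum : (2 * n + 1 : ℝ) * (1 - t) ^ (2 * n) ≤
          ∑ i ∈ Finset.range (2 * n + 1), (1 - t) ^ i := by
        have : ∑ i ∈ Finset.range (2 * n + 1), (1 - t) ^ (2 * n) ≤
            ∑ i ∈ Finset.range (2 * n + 1), (1 - t) ^ i := by
          apply Finset.sum_le_sum
          intro i hi
          apply pow_le_pow_of_le_one hs (by linarith)
          have := Finset.mem_range.mp hi
          omega
        simpa using this
      have hpow : 0 ≤ (1 - t) ^ (2 * n + 1) := pow_nonneg hs _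
      have h3 : (∑ i ∈ Finset.range (2 * n + 1), (1 - t) ^ i) * t ≤ 1 := by
        nlinarith
      nlinarith
    rw [le_div_iff₀ (by positivity)]
    linarith
  have h4 : (1 : ℝ) / (n + 1 / 2) = 2 * (1 / (2 * n + 1)) := by
    have : (0 : ℝ) < 2 * n + 1 := by positivity
    field_simp
  rw [h4]
  linarith

theorem union_exists (n : ℕ) (hn : 0 < n) (b b' : A) (hb : 0 ≤ b) (hb1 : ‖b‖ ≤ 1) (hb' : 0 ≤ b')
    (hb1' : ‖b'‖ ≤ 1) :
    ∃ u : A, 0 ≤ u ∧ ‖u‖ ≤ 1 ∧ u ≤ ((n : ℝ) / 2) • (b + b') ∧ ‖b - u * b‖ ^ 2 ≤ 1 / n ∧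
      ‖b' - u * b'‖ ^ 2 ≤ 1 / n := by
  set s : A := (2⁻¹ : ℝ) • (b + b') with hs
  have hs0 : 0 ≤ s := smul_nonneg (by norm_num) (add_nonneg hb hb')
  have hs1 : ‖s‖ ≤ 1 := by
    rw [hs, norm_smul]
    have := norm_add_le b b'
    norm_num
    linarith
  have hsa : IsSelfAdjoint s := IsSelfAdjoint.of_nonneg hs0
  set f : ℝ → ℝ := fun t => 1 - (1 - t) ^ n with hf
  have hf0 : f 0 = 0 := by simp [hf]
  have hfc : Continuous f := by fun_prop
  have hspec : ∀ x ∈ quasispectrum ℝ s, 0 ≤ x ∧ x ≤ 1 := by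
    intro x hx
    have hx0 := quasispectrum_nonneg_of_nonneg s hs0 x hx
    have hx1 : ‖x‖ ≤ ‖s‖ :=
      NonUnitalIsometricContinuousFunctionalCalculus.norm_quasispectrum_le s hx hsa
    rw [Real.norm_eq_abs, abs_of_nonneg hx0] at hx1
    exact ⟨hx0, hx1.trans hs1⟩
  set u : A := cfcₙ f s with hu
  have husa : star u = u := by
    have : IsSelfAdjoint u := cfcₙ_predicate f s
    exact this
  have hu0 : 0 ≤ u := by
    apply cfcₙ_nonneg
    intro x hx
    obtain ⟨h0, h1⟩ := hspec x hx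
    have : (1 - x) ^ n ≤ 1 := pow_le_one₀ (by linarith) (by linarith)
    simp only [hf]
    linarith
  have hu1 : ‖u‖ ≤ 1 := by
    apply norm_cfcₙ_le
    intro x hx
    obtain ⟨h0, h1⟩ := hspec x hx
    have h2 : (1 - x) ^ n ≤ 1 := pow_le_one₀ (by linarith) (by linarith)
    have h3 : 0 ≤ (1 - x) ^ n := pow_nonneg (by linarith) _
    rw [Real.norm_eq_abs, abs_le]
    simp only [hf]
    constructor <;> linarith
  have hle : u ≤ ((n : ℝ) / 2) • (b + b') := by
    have e : ((n : ℝ) / 2) • (b + b') = cfcₙ (fun t : ℝ => (n : ℝ) * t) s := by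
      rw [cfcₙ_const_mul_id (n : ℝ) s, hs, smul_smul]
      congr 1
    rw [e]
    refine cfcₙ_mono ?_ hfc.continuousOn (by fun_prop) hf0 (by simp)
    intro x hx
    obtain ⟨h0, h1⟩ := hspec x hx
    have := one_add_mul_le_pow (a := -x) (by linarith) n
    simp only [hf]
    have h2 : (1 + -x) ^ n = (1 - x) ^ n := by ring_nf
    rw [h2] at this
    linarith
  -- the norm estimate
  have hconj : ‖(b + b') - u * (b + b') - (b + b') * u + u * (b + b') * u‖ ≤ 1 / n := by
    have e : (b + b') - u * (b + b') - (b + b') * u + u * (b + b') * u =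
        cfcₙ (fun t : ℝ => 2 * (t * (1 - t) ^ (2 * n))) s := by
      have e1 : (b + b') = cfcₙ (fun t : ℝ => 2 * t) s := by
        rw [cfcₙ_const_mul_id (2 : ℝ) s, hs, smul_smul]
        norm_num
      have cmul : ∀ g h : ℝ → ℝ, Continuous g → g 0 = 0 → Continuous h → h 0 = 0 →
          cfcₙ g s * cfcₙ h s = cfcₙ (fun t => g t * h t) s := fun g h hg hg0 hh hh0 =>
        (cfcₙ_mul g h s hg.continuousOn hg0 hh.continuousOn hh0).symm
      have csub : ∀ g h : ℝ → ℝ, Continuous g → g 0 = 0 → Continuous h → h 0 = 0 →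
          cfcₙ g s - cfcₙ h s = cfcₙ (fun t => g t - h t) s := fun g h hg hg0 hh hh0 =>
        (cfcₙ_sub g h s hg.continuousOn hg0 hh.continuousOn hh0).symm
      have cadd : ∀ g h : ℝ → ℝ, Continuous g → g 0 = 0 → Continuous h → h 0 = 0 →
          cfcₙ g s + cfcₙ h s = cfcₙ (fun t => g t + h t) s := fun g h hg hg0 hh hh0 =>
        (cfcₙ_add g h s hg.continuousOn hg0 hh.continuousOn hh0).symm
      rw [e1, hu, cmul f _ hfc hf0 (by fun_prop) (by simp), cmul _ f (by fun_prop) (by simp) hfc hf0,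
        cmul _ f (by fun_prop) (by simp [hf0]) hfc hf0,
        csub _ _ (by fun_prop) (by simp) (by fun_prop) (by simp [hf0]),
        csub _ _ (by fun_prop) (by simp [hf0]) (by fun_prop) (by simp [hf0]),
        cadd _ _ (by fun_prop) (by simp [hf0]) (by fun_prop) (by simp [hf0])]
      congr 1
      funext t
      simp only [hf]
      ring
    rw [e]
    apply norm_cfcₙ_le
    intro x hx
    obtain ⟨h0, h1⟩ := hspec x hx
    have h2 := real_bound n x h0 h1
    have h3 : 0 ≤ 2 * (x * (1 - x) ^ (2 * n)) := by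
      have : 0 ≤ (1 - x) ^ (2 * n) := pow_nonneg (by linarith) _
      positivity
    rw [Real.norm_eq_abs, abs_of_nonneg h3]
    have hn' : (0 : ℝ) < n := by exact_mod_cast hn
    refine h2.trans ?_
    apply one_div_le_one_div_of_le hn'
    linarith
  have main : ∀ c c' : A, 0 ≤ c → 0 ≤ c' → ‖c‖ ≤ 1 → c + c' = b + b' → ‖c - u * c‖ ^ 2 ≤ 1 / n := by
    intro c c' hc hc' hc1 hsum
    have hcs : star c = c := IsSelfAdjoint.of_nonneg hc
    have e : ‖c - u * c‖ ^ 2 = ‖c * c - u * (c * c) - (c * c) * u + u * (c * c) * u‖ := by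
      rw [sq, ← CStarRing.norm_self_mul_star]
      congr 1
      rw [star_sub, star_mul, husa, hcs]
      noncomm_ring
    rw [e]
    have h1 : c * c ≤ b + b' := by
      refine (mul_self_le_self c hc hc1).trans ?_
      rw [← hsum]
      exact le_add_of_nonneg_right hc'
    have h2 := conj_mono u _ _ husa h1
    have h3 := conj_mono u 0 (c * c) husa (by
      have := star_mul_self_nonneg c
      rwa [hcs] at this)
    simp only [mul_zero, zero_mul, sub_zero, add_zero] at h3
    exact (CStarAlgebra.norm_le_norm_of_nonneg_of_le h3 h2).trans hconj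
  exact ⟨u, hu0, hu1, hle, main b b' hb hb' hb1 rfl, main b' b hb' hb hb1' (add_comm _ _)⟩

end union

end Pool.Agent.H253.US
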