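import Pool.Agent.H253.US.Main

/-!
# From convex combinations to averages
-/

set_option autoImplicit false
set_option linter.unusedSectionVars false
set_option linter.deprecated false

open scoped CStarAlgebra ComplexOrder

namespace Pool.Agent.H253.US

universe u v w

/-- Real convex weights are approximated by rational ones. -/
theorem exists_counts (m : ℕ) (w : Fin m → ℝ) (hw : ∀ i, 0 ≤ w i) (hs : ∑ i, w i = 1) (N : ℕ) :
    ∃ d : Fin m → ℕ, ∑ i, d i = N ∧ ∑ i, |w i * N - d i| ≤ 2 * m := by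
  have hm : 0 < m := by
    rcases Nat.eq_zero_or_pos m with h | h
    · subst h; simp at hs
    · exact h
  let i₀ : Fin m := ⟨0, hm⟩
  let f : Fin m → ℕ := fun i => ⌊w i * N⌋₊
  have hf1 : ∀ i, (f i : ℝ) ≤ w i * N := fun i => Nat.floor_le (by have := hw i; positivity)
  have hf2 : ∀ i, w i * N < f i + 1 := fun i => Nat.lt_floor_add_one _
  have hsum : ∑ i, w i * (N : ℝ) = N := by rw [← Finset.sum_mul, hs, one_mul]
  have hle : ∑ i, f i ≤ N := by
    have : (∑ i, (f i : ℝ)) ≤ N := by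
      rw [← hsum]; exact Finset.sum_le_sum fun i _ => hf1 i
    exact_mod_cast this
  let r : ℕ := N - ∑ i, f i
  have hr : (r : ℝ) = N - ∑ i, (f i : ℝ) := by
    simp only [r]
    rw [Nat.cast_sub hle]
    push_cast
    rfl
  have hrm : (r : ℝ) ≤ m := by
    rw [hr]
    have h1 : ∑ i, w i * (N : ℝ) ≤ ∑ i : Fin m, ((f i : ℝ) + 1) :=
      Finset.sum_le_sum fun i _ => (hf2 i).le
    rw [Finset.sum_add_distrib, hsum] at h1
    simp at h1
    linarith
  refine ⟨fun i => f i + if i = i₀ then r else 0, ?_, ?_⟩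
  · rw [Finset.sum_add_distrib, Finset.sum_ite_eq' Finset.univ i₀]
    simp only [Finset.mem_univ, if_true, r]
    omega
  · calc ∑ i, |w i * N - ((f i + if i = i₀ then r else 0 : ℕ) : ℝ)|
        ≤ ∑ i, ((w i * N - f i) + if i = i₀ then (r : ℝ) else 0) := by
          refine Finset.sum_le_sum fun i _ => ?_
          push_cast
          have h1 := hf1 i
          have h0 : (0 : ℝ) ≤ if i = i₀ then (r : ℝ) else 0 := by split_ifs <;> positivity
          rw [abs_le]
          constructor <;> linarith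
      _ = (∑ i, w i * (N : ℝ)) - ∑ i, (f i : ℝ) + r := by
          rw [Finset.sum_add_distrib, Finset.sum_sub_distrib, Finset.sum_ite_eq' Finset.univ i₀]
          simp
      _ ≤ 2 * m := by
          rw [hsum]
          linarith

theorem isDecNuclear_of_weights (A : Type u) [NonUnitalCStarAlgebra A] [PartialOrder A]
    [StarOrderedRing A]
    (hA : ∀ (X : Finset A) (η : ℝ), 0 < η → ∃ (m : ℕ) (w : Fin m → ℝ) (n : Fin m → ℕ)
      (k : ∀ i, Fin (n i) → ℕ) (ψ : ∀ i, A →CP FD (k i)) (θ : ∀ i, FD (k i) →CP A),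
      (∀ i, 0 ≤ w i) ∧ ∑ i, w i = 1 ∧ (∀ i a, ‖ψ i a‖ ≤ ‖a‖) ∧ (∀ i, IsOrderZero (θ i)) ∧
      ∀ x ∈ X, ‖x - ∑ i, (w i : ℂ) • θ i (ψ i x)‖ ≤ η) : IsDecNuclear A := by
  classical
  intro X η hη
  obtain ⟨m, w, n, k, ψ, θ, hw, hs, hψ, hθ, happ⟩ := hA X (η / 2) (by positivity)
  obtain ⟨R, hR0, hR⟩ : ∃ R : ℝ, 0 ≤ R ∧ ∀ x ∈ X, ‖x‖ ≤ R :=
    ⟨∑ x ∈ X, ‖x‖, Finset.sum_nonneg fun _ _ => norm_nonneg _, fun x hx =>
      Finset.single_le_sum (f := fun x => ‖x‖) (fun _ _ => norm_nonneg _) hx⟩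
  obtain ⟨N, hN⟩ := exists_nat_gt (2 * m * R / (η / 2))
  have hNr : (0 : ℝ) < N := lt_of_le_of_lt (by positivity) hN
  have hN0 : 0 < N := by exact_mod_cast hNr
  have hNc : (N : ℂ) ≠ 0 := by exact_mod_cast hN0.ne'
  obtain ⟨d, hd, hdw⟩ := exists_counts m w hw hs N
  let e : (Σ i : Fin m, Fin (d i)) ≃ Fin N := finSigmaFinEquiv.trans (finCongr hd)
  let f : Fin N → Fin m := fun j => (e.symm j).1
  refine ⟨N, fun j => n (f j), fun j => k (f j), fun j => ψ (f j), fun j => θ (f j), hN0,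
    fun j => hψ (f j), fun j => hθ (f j), fun x hx => ?_⟩
  have h1 : ∑ j, θ (f j) (ψ (f j) x) = ∑ i, (d i : ℂ) • θ i (ψ i x) := by
    have h0 : ∀ g : Fin m → A, ∑ j, g (f j) = ∑ i, (d i : ℂ) • g i := by
      intro g
      have h2 : ∑ j, g (f j) = ∑ p : (Σ i : Fin m, Fin (d i)), g p.1 := by
        rw [← Equiv.sum_comp e]
        refine Finset.sum_congr rfl fun p _ => ?_
        simp only [f, Equiv.symm_apply_apply]
      rw [h2, Fintype.sum_sigma]
      refine Finset.sum_congr rfl fun i _ => ?_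
      simp only [Finset.sum_const, Finset.card_univ, Fintype.card_fin, Nat.cast_smul_eq_nsmul]
    exact h0 fun i => θ i (ψ i x)
  rw [h1]
  have e1 : x - (N : ℂ)⁻¹ • ∑ i, (d i : ℂ) • θ i (ψ i x) =
      (x - ∑ i, (w i : ℂ) • θ i (ψ i x)) +
        (N : ℂ)⁻¹ • ∑ i, (((w i * N - d i : ℝ)) : ℂ) • θ i (ψ i x) := by
    have e2 : ∀ i, (((w i * N - d i : ℝ)) : ℂ) • θ i (ψ i x) =
        (N : ℂ) • ((w i : ℂ) • θ i (ψ i x)) - (d i : ℂ) • θ i (ψ i x) := by
      intro i
      rw [smul_smul, ← sub_smul]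
      congr 1
      push_cast
      ring
    simp only [e2]
    rw [Finset.sum_sub_distrib, ← Finset.smul_sum, smul_sub, smul_smul, inv_mul_cancel₀ hNc,
      one_smul]
    abel
  rw [e1]
  have h3 : ‖∑ i, (((w i * N - d i : ℝ)) : ℂ) • θ i (ψ i x)‖ ≤ 2 * m * R := by
    refine (norm_sum_le _ _).trans ?_
    calc ∑ i, ‖(((w i * N - d i : ℝ)) : ℂ) • θ i (ψ i x)‖ ≤ ∑ i, |w i * N - d i| * R := by
          refine Finset.sum_le_sum fun i _ => ?_
          rw [norm_smul, Complex.norm_real, Real.norm_eq_abs]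
          gcongr
          exact ((hθ i).contr _).trans ((hψ i x).trans (hR x hx))
      _ = (∑ i, |w i * N - d i|) * R := by rw [Finset.sum_mul]
      _ ≤ _ := by gcongr
  have h4 : ‖(N : ℂ)⁻¹ • ∑ i, (((w i * N - d i : ℝ)) : ℂ) • θ i (ψ i x)‖ ≤ η / 2 := by
    rw [norm_smul, norm_inv, Complex.norm_natCast, inv_mul_le_iff₀ hNr]
    refine h3.trans ?_
    rw [div_lt_iff₀ (by positivity)] at hN
    linarith
  calc _ ≤ η / 2 + η / 2 := (norm_add_le _ _).trans (add_le_add (happ x hx) h4)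
    _ = η := by ring

end Pool.Agent.H253.US
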